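import Pool.Agent.L0h10.TS.Arr
import Mathlib.NumberTheory.Padics.ProperSpace
import Mathlib.Analysis.Calculus.FDeriv.Mul

/-!
# Estimates for powers of matrices over the `ℓ`-adic numbers
-/

set_option linter.unusedSectionVars false

namespace Pool.Agent.L0h10.RU

open Matrix Filter Topology
open Pool.Agent.N996.BP Pool.Agent.N996.FP

variable {ℓ : ℕ} [hℓ : Fact ℓ.Prime]

/-- The matrix is congruent to one. -/
def Nr {κ : Type} [DecidableEq κ] (ε : ℝ) (M : Matrix κ κ ℚ_[ℓ]) : Prop :=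
  ∀ i k, ‖(M - 1) i k‖ ≤ ε

section

variable {κ : Type} [Fintype κ] [DecidableEq κ] {ε : ℝ}

lemma norm_sum_le' {α : Type*} (s : Finset α) (f : α → ℚ_[ℓ]) {C : ℝ} (hC : 0 ≤ C)
    (h : ∀ i ∈ s, ‖f i‖ ≤ C) : ‖∑ i ∈ s, f i‖ ≤ C :=
  IsUltrametricDist.norm_sum_le_of_forall_le_of_nonneg hC h

lemma norm_mulVec_le {E : Matrix κ κ ℚ_[ℓ]} (hε : 0 ≤ ε) (hE : ∀ i k, ‖E i k‖ ≤ ε)
    (u : κ → ℚ_[ℓ]) : ‖E *ᵥ u‖ ≤ ε * ‖u‖ := by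
  rw [pi_norm_le_iff_of_nonneg (mul_nonneg hε (norm_nonneg _))]
  intro i
  rw [Matrix.mulVec, dotProduct]
  refine norm_sum_le' _ _ (mul_nonneg hε (norm_nonneg _)) fun k _ => ?_
  rw [norm_mul]
  exact mul_le_mul (hE i k) (norm_le_pi_norm u k) (norm_nonneg _) hε

lemma norm_entry_mul {E F : Matrix κ κ ℚ_[ℓ]} {C D : ℝ} (hC : 0 ≤ C) (hD : 0 ≤ D)
    (hE : ∀ i k, ‖E i k‖ ≤ C) (hF : ∀ i k, ‖F i k‖ ≤ D) (i k : κ) : ‖(E * F) i k‖ ≤ C * D := by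
  rw [Matrix.mul_apply]
  refine norm_sum_le' _ _ (mul_nonneg hC hD) fun t _ => ?_
  rw [norm_mul]
  exact mul_le_mul (hE i t) (hF t k) (norm_nonneg _) hC

lemma norm_one_entry (i k : κ) : ‖(1 : Matrix κ κ ℚ_[ℓ]) i k‖ ≤ 1 := by
  rw [Matrix.one_apply]
  split_ifs
  · rw [norm_one]
  · rw [norm_zero]; exact zero_le_one

lemma norm_add_le_max' (a b : ℚ_[ℓ]) {C : ℝ} (ha : ‖a‖ ≤ C) (hb : ‖b‖ ≤ C) : ‖a + b‖ ≤ C :=
  (IsUltrametricDist.norm_add_le_max a b).trans (max_le ha hb)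

lemma Nr.entry {M : Matrix κ κ ℚ_[ℓ]} (h : Nr ε M) (hε : ε ≤ 1) (i k : κ) : ‖M i k‖ ≤ 1 := by
  have h1 : M i k = (M - 1) i k + (1 : Matrix κ κ ℚ_[ℓ]) i k := by
    rw [Matrix.sub_apply, sub_add_cancel]
  rw [h1]
  exact norm_add_le_max' _ _ ((h i k).trans hε) (norm_one_entry i k)

lemma Nr.one (hε : 0 ≤ ε) : Nr ε (1 : Matrix κ κ ℚ_[ℓ]) := by
  intro i k
  rw [sub_self, Matrix.zero_apply, norm_zero]
  exact hε

lemma Nr.mul {M N : Matrix κ κ ℚ_[ℓ]} (h : Nr ε M) (h' : Nr ε N) (h0 : 0 ≤ ε) (hε : ε ≤ 1) :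
    Nr ε (M * N) := by
  intro i k
  have h1 : M * N - 1 = (M - 1) * N + (N - 1) := by
    rw [Matrix.sub_mul, Matrix.one_mul]; abel
  rw [h1, Matrix.add_apply]
  refine norm_add_le_max' _ _ ?_ (h' i k)
  have h2 := norm_entry_mul h0 zero_le_one h (h'.entry hε) i k
  rwa [mul_one] at h2

lemma Nr.pow {M : Matrix κ κ ℚ_[ℓ]} (h : Nr ε M) (h0 : 0 ≤ ε) (hε : ε ≤ 1) (m : ℕ) :
    Nr ε (M ^ m) := by
  induction m with
  | zero => rw [pow_zero]; exact Nr.one h0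
  | succ m ih => rw [pow_succ]; exact ih.mul h h0 hε

/-- One step. -/
lemma pow_sub_one_step {M : Matrix κ κ ℚ_[ℓ]} (h : Nr ε M) (h0 : 0 ≤ ε) (hε : ε ≤ 1) {m : ℕ}
    (hm : ε < ‖(m : ℚ_[ℓ])‖) (v : κ → ℚ_[ℓ]) :
    ‖(M ^ m - 1) *ᵥ v‖ = ‖(m : ℚ_[ℓ])‖ * ‖(M - 1) *ᵥ v‖ := by
  obtain ⟨u, hu⟩ : ∃ u, u = (M - 1) *ᵥ v := ⟨_, rfl⟩
  obtain ⟨E, hE⟩ : ∃ E : Matrix κ κ ℚ_[ℓ], E = ∑ i ∈ Finset.range m, (M ^ i - 1) := ⟨_, rfl⟩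
  have h1 : (M ^ m - 1) *ᵥ v = (m : ℚ_[ℓ]) • u + E *ᵥ u := by
    have h2 : M ^ m - 1 = (∑ i ∈ Finset.range m, M ^ i) * (M - 1) := (geom_sum_mul M m).symm
    have h3 : ∑ i ∈ Finset.range m, M ^ i = (m : ℚ_[ℓ]) • (1 : Matrix κ κ ℚ_[ℓ]) + E := by
      rw [hE, Finset.sum_sub_distrib, Finset.sum_const, Finset.card_range, Nat.cast_smul_eq_nsmul]
      abel
    rw [h2, ← Matrix.mulVec_mulVec, ← hu, h3, Matrix.add_mulVec, Matrix.smul_mulVec,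
      Matrix.one_mulVec]
  rw [h1, ← hu]
  by_cases hu0 : u = 0
  · rw [hu0, smul_zero, Matrix.mulVec_zero, add_zero, norm_zero, mul_zero]
  · have hE' : ∀ i k, ‖E i k‖ ≤ ε := by
      intro i k
      rw [hE, Matrix.sum_apply]
      exact norm_sum_le' _ _ h0 fun j _ => h.pow h0 hε j i k
    have h2 := norm_mulVec_le h0 hE' u
    have h3 : ‖E *ᵥ u‖ < ‖(m : ℚ_[ℓ]) • u‖ := by
      rw [norm_smul]
      exact h2.trans_lt (mul_lt_mul_of_pos_right hm (norm_pos_iff.2 hu0))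
    rw [IsUltrametricDist.norm_add_eq_max_of_norm_ne_norm h3.ne', max_eq_left h3.le, norm_smul]

lemma norm_ell : ‖(ℓ : ℚ_[ℓ])‖ = (ℓ : ℝ)⁻¹ := Padic.norm_p

/-- The radius. -/
noncomputable def rr (ℓ : ℕ) : ℝ := ((ℓ : ℝ)⁻¹) ^ 2

lemma one_lt_ell : (1 : ℝ) < ℓ := by exact_mod_cast hℓ.out.one_lt

lemma rr_pos : 0 < rr ℓ := pow_pos (inv_pos.2 (zero_lt_one.trans one_lt_ell)) 2

lemma rr_lt : rr ℓ < (ℓ : ℝ)⁻¹ := by
  have h1 : (ℓ : ℝ)⁻¹ < 1 := inv_lt_one_of_one_lt₀ one_lt_ell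
  have h2 : 0 < (ℓ : ℝ)⁻¹ := inv_pos.2 (zero_lt_one.trans one_lt_ell)
  rw [rr, pow_two]
  calc (ℓ : ℝ)⁻¹ * (ℓ : ℝ)⁻¹ < (ℓ : ℝ)⁻¹ * 1 := mul_lt_mul_of_pos_left h1 h2
    _ = _ := mul_one _

lemma rr_lt_one : rr ℓ < 1 := rr_lt.trans (inv_lt_one_of_one_lt₀ one_lt_ell)

/-- **Powers of matrices congruent to one.** -/
theorem pow_sub_one (m : ℕ) : ∀ {M : Matrix κ κ ℚ_[ℓ]}, Nr (rr ℓ) M → ∀ v : κ → ℚ_[ℓ],
    ‖(M ^ m - 1) *ᵥ v‖ = ‖(m : ℚ_[ℓ])‖ * ‖(M - 1) *ᵥ v‖ := by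
  induction m using Nat.recOnMul with
  | zero =>
    intro M _ v
    rw [pow_zero, sub_self, Matrix.zero_mulVec, norm_zero, Nat.cast_zero, norm_zero, zero_mul]
  | one =>
    intro M _ v
    rw [pow_one, Nat.cast_one, norm_one, one_mul]
  | prime q hq =>
    intro M hM v
    refine pow_sub_one_step hM rr_pos.le rr_lt_one.le ?_ v
    by_cases h : q = ℓ
    · rw [h, norm_ell]
      exact rr_lt
    · have h1 : ‖(q : ℚ_[ℓ])‖ = 1 :=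
        Padic.norm_natCast_eq_one_iff.2 ((Nat.coprime_primes hℓ.out hq).2 (Ne.symm h))
      rw [h1]
      exact rr_lt_one
  | mul a b iha ihb =>
    intro M hM v
    rw [pow_mul, ihb (hM.pow rr_pos.le rr_lt_one.le a), iha hM, Nat.cast_mul, norm_mul]
    ring

end

end Pool.Agent.L0h10.RU
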