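import Pool.Agent.L0h10.RU.Crd2
import Pool.Agent.L0h10.RT.Cas2

/-!
# The cases of the bounded power theorem for continuous representations
-/

set_option linter.unusedSectionVars false

namespace Pool.Agent.L0h10.RU

open Matrix Module
open Pool.Agent.N996.BP Pool.Agent.N996.FP
open Pool.Agent.L0h10.TS (ar2 ar2_inj ar2_surj dk_ar2 kp_ar2 dk_rei dk_empty dk_mulVec_apply GRep
  desc_sol desc_span dv dv_eq dv_map)
open Pool.Agent.L0h10.RQ

variable {ℓ : ℕ} [hℓ : Fact ℓ.Prime] {ι : Type} [Fintype ι] [DecidableEq ι] {deg : ι → ℕ}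
  {Γ : Type*} [Group Γ] [TopologicalSpace Γ] {P : GRep deg ℚ_[ℓ] Γ} {j : ℚ_[ℓ] →+* ℂ}
  {H : HData ι} {A : ∀ n : ℕ, Submodule ℚ ((Fin (n + 1) → ι) → ℚ)} {N : ℕ}

/-- The number of the invariants. -/
lemma card_le' {T : ∀ n : ℕ, Submodule ℂ ((Fin (n + 1) → ι) → ℂ)} {w : ℕ} (D : Dat H A T w)
    {L : Type} [Field L] {j : L →+* ℂ} {S : Submodule L (ι → L)}
    (hS : ∀ b ∈ S, (fun w : Fin (0 + 1) → ι => j (b (w 0))) ∈ T 0) :
    Fintype.card ι ≤ finrank L ((ι → L) ⧸ S) + finrank ℂ (RP.Z0 D.hd) := by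
  let M : (ι → ℂ) ≃ₗ[ℂ] (ι → ℂ) :=
    { toFun := fun v => RP.Mm D.hd *ᵥ v
      map_add' := fun a b => Matrix.mulVec_add _ a b
      map_smul' := fun c v => Matrix.mulVec_smul _ c v
      invFun := fun v => RP.Mi D.hd *ᵥ v
      left_inv := fun v => by
        beta_reduce
        rw [Matrix.mulVec_mulVec, RP.Mi_Mm, Matrix.one_mulVec]
      right_inv := fun v => by
        beta_reduce
        rw [Matrix.mulVec_mulVec, RP.Mm_Mi, Matrix.one_mulVec] }
  have h1 : finrank L S ≤ finrank ℂ ((RP.Z0 D.hd).comap M.toLinearMap) := by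
    refine finrank_le_of j fun b hb => ?_
    intro z hz
    have h2 := (D.mem_hn.1 hz) 0 _ (hS b hb)
    have h3 : RP.cj D.hd z *ᵥ (fun i => j (b i)) = 0 := by
      funext i
      have h4 := congrFun h2 fun _ => i
      rw [dv_eq, TS.dv_one] at h4
      exact h4
    change z *ᵥ (RP.Mm D.hd *ᵥ fun i => j (b i)) = 0
    have h5 := congrArg (fun v => RP.Mm D.hd *ᵥ v) h3
    beta_reduce at h5
    rw [Matrix.mulVec_zero, RP.cj, Matrix.mulVec_mulVec, ← Matrix.mul_assoc, ← Matrix.mul_assoc,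
      RP.Mm_Mi, Matrix.one_mul, ← Matrix.mulVec_mulVec] at h5
    exact h5
  have h2 : finrank ℂ ((RP.Z0 D.hd).comap M.toLinearMap) = finrank ℂ (RP.Z0 D.hd) := by
    have h3 := (M.submoduleMap ((RP.Z0 D.hd).comap M.toLinearMap)).finrank_eq
    have h4 : ((RP.Z0 D.hd).comap M.toLinearMap).map M.toLinearMap = RP.Z0 D.hd :=
      Submodule.map_comap_eq_of_surjective M.surjective _
    rw [h3]
    exact congrArg (fun p : Submodule ℂ (ι → ℂ) => finrank ℂ p) h4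
  have h3 := Submodule.finrank_quotient_add_finrank S
  rw [Module.finrank_fintype_fun_eq_card] at h3
  omega

/-- Arrays killed by the derivative are fixed by the one-parameter group. -/
lemma fix_l {κ : Type} [Fintype κ] [DecidableEq κ] {d : (κ → ι) → ℂ}
    (hd : dk κ (Ng H (RingEquiv.refl ℂ)) *ᵥ d = 0) {t : ℂ} (ht : t ≠ 0) :
    kp κ (H.l t) *ᵥ d = d := by
  have hI := isIdem_map (H := H) (RingEquiv.refl ℂ)
  have ht' : (RingEquiv.refl ℂ) t ≠ 0 := ht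
  have h1 : Fd κ (wr H) (fun k => (H.π k).map (RingEquiv.refl ℂ)) (fun m => (m : ℂ)) *ᵥ d =
      0 := by
    rw [Fd_dk hI]
    exact hd
  have h2 : (fun m : ℤ => ((RingEquiv.refl ℂ) t) ^ m) =
      fun m : ℤ => (fun _ : ℤ => (1 : ℂ)) m +
        (fun m : ℤ => (fun m : ℤ => ((((RingEquiv.refl ℂ) t) ^ m - 1) / m)) m *
          (fun m : ℤ => (m : ℂ)) m) m := by
    funext m
    simp only
    by_cases hm : m = 0
    · rw [hm]; simp
    · have hm' : (m : ℂ) ≠ 0 := by exact_mod_cast hm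
      rw [div_mul_cancel₀ _ hm']
      ring
  have h3 : kp κ ((H.l t).map (RingEquiv.refl ℂ)) *ᵥ d = d := by
    rw [gen_eq, ← Fd_kp ht', h2, Fd_add, Matrix.add_mulVec, Fd_one hI, Matrix.one_mulVec,
      ← Fd_mul hI, ← Matrix.mulVec_mulVec, h1, Matrix.mulVec_zero, add_zero]
  have h4 : (H.l t).map (RingEquiv.refl ℂ) = H.l t := by
    ext i k; rfl
  rwa [h4] at h3

/-- The derivative of the Hodge cocharacter kills the family. -/
lemma Ng_LA (hA : RFam H A) : Ng H (RingEquiv.refl ℂ) ∈ LA A := fun κ _ _ a ha =>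
  Ng_mem (H := H) (RingEquiv.refl ℂ) κ a (hA.leQ ha)

namespace Crd2

variable [IsTopologicalGroup Γ] [CompactSpace Γ] (D : Crd2 deg j P H A N)
include D

/-- If the centre is self-adjoint, then the Lie algebras coincide. -/
theorem LA_le (hadj : ∀ u, IsCE P u → u.map j * cQ H.Qir = cQ H.Qir * (u.map j)ᵀ)
    {x : Matrix ι ι ℂ} (hx : x ∈ LA A) : x ∈ LT (TT j P) := by
  have D0 := D.dat0
  obtain ⟨y', hy', hort⟩ := exists_dec (H := H) (LT (TI j P)) x
  obtain ⟨c, hcdef⟩ : ∃ c, c = x - y' := ⟨_, rfl⟩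
  rw [← hcdef] at hort
  have hcA : c ∈ LA A := by
    rw [hcdef]
    exact Submodule.sub_mem _ hx (D0.sub hy')
  have hcT : ∀ z ∈ LT (TI j P), c * z = z * c := fun z hz => D0.orth_comm hcA hort hz
  have h1 := D.cen_span (y := c) (fun z hz => (hcT z (by rw [LT_TI]; exact hz)).symm)
    fun x' hx' => (D0.AC_comm (D0.orth_AC fun z hz => (hx' z (by rwa [LT_TI] at hz)).symm)
      hcA).symm
  have h2 : c * cQ H.Qir = cQ H.Qir * cᵀ := by
    clear hcdef hort hcT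
    clear hcA
    induction h1 using Submodule.span_induction with
    | mem x hx => obtain ⟨u, hu, rfl⟩ := hx; exact hadj u hu
    | zero => rw [Matrix.zero_mul, Matrix.transpose_zero, Matrix.mul_zero]
    | add a b _ _ ha hb => rw [Matrix.add_mul, ha, hb, Matrix.transpose_add, Matrix.mul_add]
    | smul r a _ ha => rw [Matrix.smul_mul, ha, Matrix.transpose_smul, Matrix.mul_smul]
  have h3 := LA_skew D0.hinv hcA
  rw [← h2, ← two_smul ℂ] at h3
  have h4 : c * cQ H.Qir = 0 := (smul_eq_zero.1 h3).resolve_left two_ne_zero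
  have h5 : c = 0 := D0.mulQi_inj (by rw [h4, Matrix.zero_mul])
  rw [hcdef, sub_eq_zero] at h5
  rw [h5, ← LT_TI]
  exact hy'

/-- Then all invariants are combinations of Tate arrays. -/
theorem TI_le_TT (hadj : ∀ u, IsCE P u → u.map j * cQ H.Qir = cQ H.Qir * (u.map j)ᵀ)
    {n : ℕ} {c : (Fin (n + 1) → ι) → ℂ} (hc : c ∈ TI j P n) : c ∈ TT j P n := by
  obtain ⟨Δ, hQ⟩ := D.form
  refine TI_even D.cts D.hd hQ hc fun d hd => ?_
  have hcd := TI_hpart D.hd hQ hc d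
  have h1 := fix_l (H := H) (hcd _ (D.LA_le hadj (Ng_LA D.fam))) (t := -1)
    (neg_ne_zero.2 one_ne_zero)
  rw [D.par, kp_par (d := d) _ _ (fun w hw => hpart_supp w hw),
    (Nat.not_even_iff_odd.1 hd).neg_one_pow, neg_smul, one_smul] at h1
  exact self_eq_neg.1 h1.symm

/-- **Self-adjoint centres.** -/
theorem all_adj (hadj : ∀ u, IsCE P u → u.map j * cQ H.Qir = cQ H.Qir * (u.map j)ᵀ)
    {S : Submodule ℚ_[ℓ] (ι → ℚ_[ℓ])}
    (hS : ∀ b ∈ S, (fun w : Fin (0 + 1) → ι => j (b (w 0))) ∈ TT j P 0)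
    (htN : finrank ℚ_[ℓ] ((ι → ℚ_[ℓ]) ⧸ S) ≤ N) (n : ℕ) :
    ∀ c ∈ TT j P n, c ∈ AC A (Fin (n + 1)) := by
  obtain ⟨w, DD⟩ := D.dat0.exists_dat
  intro c hc
  refine DD.all (N := N) (fun n hn c hc => D.small n hn c (D.TI_le_TT hadj hc))
    (fun g hfix => RP.fix_adj (fun y hy => ?_) D.hN htN
      (card_le' DD fun b hb => TT_le_TI 0 (hS b hb)) hfix) n c (TT_le_TI n hc)
  obtain ⟨h0, h0'⟩ := DD.isC_iff.1 hy
  rw [LT_TI] at h0 h0'
  have h1 := D.cen_span h0 h0'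
  have e1 : RP.cQ (DD.hd).Qir = cQ H.Qir := by
    change RP.cR H.D.Qi = cQ H.Qir
    rw [H.hQir]
    ext i k
    change (((H.Qir i k : ℚ) : ℝ) : ℂ) = ((H.Qir i k : ℚ) : ℂ)
    push_cast
    rfl
  rw [e1, RP.cQ_eq]
  clear hy h0 h0'
  induction h1 using Submodule.span_induction with
  | mem x hx => obtain ⟨u, hu, rfl⟩ := hx; exact hadj u hu
  | zero => rw [Matrix.zero_mul, Matrix.transpose_zero, Matrix.mul_zero]
  | add a b _ _ ha hb => rw [Matrix.add_mul, ha, hb, Matrix.transpose_add, Matrix.mul_add]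
  | smul r a _ ha => rw [Matrix.smul_mul, ha, Matrix.transpose_smul, Matrix.mul_smul]

/-- **Semisimple Lie algebras.** -/
theorem all_tr (hcen : ∀ y ∈ LT (TT j P), (∀ z ∈ LT (TT j P), y * z = z * y) → y = 0)
    {S : Submodule ℚ_[ℓ] (ι → ℚ_[ℓ])}
    (hS : ∀ b ∈ S, (fun w : Fin (0 + 1) → ι => j (b (w 0))) ∈ TT j P 0)
    (htN : 2 * max 4 (finrank ℚ_[ℓ] ((ι → ℚ_[ℓ]) ⧸ S) ^ 2 / 4) ≤ N) (n : ℕ) :
    ∀ c ∈ TT j P n, c ∈ AC A (Fin (n + 1)) := by
  obtain ⟨w, DD⟩ := D.dat0.exists_dat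
  intro c hc
  refine DD.all (N := max 4 (finrank ℚ_[ℓ] ((ι → ℚ_[ℓ]) ⧸ S) ^ 2 / 4))
    (fun n hn c hc => D.small' (by omega) hc)
    (fun g hfix => RP.fix_tr (fun σ y hy => ?_) (le_max_left _ _) (le_max_right _ _)
      (card_le' DD fun b hb => TT_le_TI 0 (hS b hb)) hfix) n c (TT_le_TI n hc)
  obtain ⟨h1, -⟩ := DD.isC_iff.1 hy
  rw [DD.Ng_eq]
  exact DD.tr_comm (by rw [LT_TI]; exact hcen) h1 σ.2.1

end Crd2

end Pool.Agent.L0h10.RU
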