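import Mathlib

/-!
# The theorems of Maschke and Clifford for subgroups of finite index
-/

namespace Pool.Agent.L0h10.RU

section Alg

variable {L V : Type*} [Field L] [AddCommGroup V] [Module L V] {Γ : Type*} [Group Γ]
  {ρ : Γ → V →ₗ[L] V}

/-- Averages. -/
theorem maschke' [CharZero L] (one : ρ 1 = LinearMap.id) (mul : ∀ g h, ρ (g * h) = ρ g ∘ₗ ρ h)
    (Δ Δ₀ : Subgroup Γ) [Δ₀.FiniteIndex] {U : Submodule L V}
    (hU : ∀ g ∈ Δ, ∀ x ∈ U, ρ g x ∈ U) (p : V →ₗ[L] V)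
    (hp : ∀ g ∈ Δ₀, ∀ x, p (ρ g x) = ρ g (p x)) (hp1 : ∀ x, p x ∈ U) (hp2 : ∀ x ∈ U, p x = x) :
    ∃ U' : Submodule L V, (∀ g ∈ Δ, ∀ x ∈ U', ρ g x ∈ U') ∧ IsCompl U U' := by
  classical
  have hinv : ∀ g x, ρ g (ρ g⁻¹ x) = x := by
    intro g x
    rw [← LinearMap.comp_apply, ← mul, mul_inv_cancel, one, LinearMap.id_apply]
  have hinv' : ∀ g x, ρ g⁻¹ (ρ g x) = x := by
    intro g x
    rw [← LinearMap.comp_apply, ← mul, inv_mul_cancel, one, LinearMap.id_apply]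
  have hmul : ∀ g h x, ρ (g * h) x = ρ g (ρ h x) := by
    intro g h x
    rw [mul, LinearMap.comp_apply]
  let K : Subgroup Δ := Δ₀.subgroupOf Δ
  have hKf : Finite (Δ ⧸ K) := Subgroup.finite_quotient_of_finiteIndex
  have : Fintype (Δ ⧸ K) := Fintype.ofFinite _
  let f : Δ → (V →ₗ[L] V) := fun g => ρ g ∘ₗ p ∘ₗ ρ (g : Γ)⁻¹
  have hf : ∀ a b : Δ, (QuotientGroup.leftRel K) a b → f a = f b := by
    intro a b hab
    rw [QuotientGroup.leftRel_apply] at hab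
    have h1 : (a : Γ)⁻¹ * b ∈ Δ₀ := hab
    obtain ⟨h, hh⟩ : ∃ h, h = (a : Γ)⁻¹ * b := ⟨_, rfl⟩
    rw [← hh] at h1
    have h2 : (b : Γ) = a * h := by rw [hh, mul_inv_cancel_left]
    refine LinearMap.ext fun x => ?_
    change ρ a (p (ρ (a : Γ)⁻¹ x)) = ρ b (p (ρ (b : Γ)⁻¹ x))
    rw [h2, mul_inv_rev, hmul a h, hmul h⁻¹, hp h⁻¹ (Δ₀.inv_mem h1), hinv]
  let F : Δ ⧸ K → (V →ₗ[L] V) := fun q => Quotient.lift f hf q
  have hF : ∀ g : Δ, F (g : Δ ⧸ K) = f g := fun g => rfl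
  let m : L := (Fintype.card (Δ ⧸ K) : L)
  have hm : m ≠ 0 := by
    have : Nonempty (Δ ⧸ K) := ⟨((1 : Δ) : Δ ⧸ K)⟩
    exact Nat.cast_ne_zero.2 (Fintype.card_ne_zero (α := Δ ⧸ K))
  let P : V →ₗ[L] V := m⁻¹ • ∑ q : Δ ⧸ K, F q
  have hP1 : ∀ x, P x ∈ U := by
    intro x
    change (m⁻¹ • ∑ q : Δ ⧸ K, F q) x ∈ U
    rw [LinearMap.smul_apply, LinearMap.sum_apply]
    refine U.smul_mem _ (Submodule.sum_mem _ fun q _ => ?_)
    induction q using QuotientGroup.induction_on with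
    | H g => exact hU g g.2 _ (hp1 _)
  have hP2 : ∀ x ∈ U, P x = x := by
    intro x hx
    change (m⁻¹ • ∑ q : Δ ⧸ K, F q) x = x
    rw [LinearMap.smul_apply, LinearMap.sum_apply]
    have h1 : ∀ q : Δ ⧸ K, F q x = x := by
      intro q
      induction q using QuotientGroup.induction_on with
      | H g =>
        change ρ g (p (ρ (g : Γ)⁻¹ x)) = x
        rw [hp2 _ (hU _ (Δ.inv_mem g.2) x hx), hinv]
    rw [Finset.sum_congr rfl fun q _ => h1 q, Finset.sum_const, Finset.card_univ,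
      ← Nat.cast_smul_eq_nsmul L, smul_smul, inv_mul_cancel₀ hm, one_smul]
  have hP3 : ∀ g ∈ Δ, ∀ x, P (ρ g x) = ρ g (P x) := by
    intro g hg x
    let g' : Δ := ⟨g, hg⟩
    change (m⁻¹ • ∑ q : Δ ⧸ K, F q) (ρ g x) = ρ g ((m⁻¹ • ∑ q : Δ ⧸ K, F q) x)
    rw [LinearMap.smul_apply, LinearMap.smul_apply, LinearMap.sum_apply, LinearMap.sum_apply,
      map_smul, map_sum]
    congr 1
    refine (Fintype.sum_equiv (MulAction.toPerm g') _ _ fun q => ?_).symm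
    induction q using QuotientGroup.induction_on with
    | H a =>
      change ρ g (ρ a (p (ρ (a : Γ)⁻¹ x))) =
        ρ (g * a) (p (ρ (g * (a : Γ))⁻¹ (ρ g x)))
      rw [mul_inv_rev, hmul _ g⁻¹, hinv', hmul g a]
  refine ⟨LinearMap.ker P, fun g hg x hx => ?_, ?_⟩
  · rw [LinearMap.mem_ker] at hx ⊢
    rw [hP3 g hg, hx, map_zero]
  · constructor
    · rw [Submodule.disjoint_def]
      intro x hx hx'
      rw [LinearMap.mem_ker, hP2 x hx] at hx'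
      exact hx'
    · rw [codisjoint_iff, Submodule.eq_top_iff']
      intro x
      refine Submodule.mem_sup.2 ⟨P x, hP1 x, x - P x, ?_, by abel⟩
      rw [LinearMap.mem_ker, map_sub, hP2 _ (hP1 x), sub_self]

variable (ρ) in
/-- Stable subspaces. -/
def St (Δ : Subgroup Γ) (U : Submodule L V) : Prop := ∀ g ∈ Δ, ∀ x ∈ U, ρ g x ∈ U

variable (ρ) in
/-- Minimal stable subspaces. -/
def Mn (Δ : Subgroup Γ) (M : Submodule L V) : Prop :=
  St ρ Δ M ∧ M ≠ ⊥ ∧ ∀ M' ≤ M, St ρ Δ M' → M' = ⊥ ∨ M' = M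

lemma St.sup {Δ : Subgroup Γ} {U W : Submodule L V} (hU : St ρ Δ U) (hW : St ρ Δ W) :
    St ρ Δ (U ⊔ W) := by
  intro g hg x hx
  obtain ⟨u, hu, w, hw, rfl⟩ := Submodule.mem_sup.1 hx
  rw [map_add]
  exact Submodule.add_mem_sup (hU g hg u hu) (hW g hg w hw)

lemma St.inf {Δ : Subgroup Γ} {U W : Submodule L V} (hU : St ρ Δ U) (hW : St ρ Δ W) :
    St ρ Δ (U ⊓ W) := fun g hg x hx => ⟨hU g hg x hx.1, hW g hg x hx.2⟩

lemma Mn.map {Δ : Subgroup Γ} {M : Submodule L V} (hM : Mn ρ Δ M) (φ : V ≃ₗ[L] V)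
    (h1 : ∀ h ∈ Δ, ∃ h' ∈ Δ, ∀ x, ρ h (φ x) = φ (ρ h' x))
    (h2 : ∀ h ∈ Δ, ∃ h' ∈ Δ, ∀ x, ρ h (φ.symm x) = φ.symm (ρ h' x)) :
    Mn ρ Δ (M.map φ.toLinearMap) := by
  refine ⟨?_, ?_, fun M' hM' hs => ?_⟩
  · rintro h hh _ ⟨x, hx, rfl⟩
    obtain ⟨h', hh', h3⟩ := h1 h hh
    exact ⟨ρ h' x, hM.1 h' hh' x hx, (h3 x).symm⟩
  · intro h3
    apply hM.2.1
    rw [Submodule.eq_bot_iff] at h3 ⊢
    intro x hx
    exact φ.map_eq_zero_iff.1 (h3 (φ x) ⟨x, hx, rfl⟩)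
  · have h3 : M'.map φ.symm.toLinearMap ≤ M := by
      rintro _ ⟨y, hy, rfl⟩
      obtain ⟨x, hx, hxy⟩ := hM' hy
      have h4 : φ.symm y = x := by rw [← hxy]; exact φ.symm_apply_apply x
      change φ.symm y ∈ M
      rw [h4]
      exact hx
    have h4 : St ρ Δ (M'.map φ.symm.toLinearMap) := by
      rintro h hh _ ⟨y, hy, rfl⟩
      obtain ⟨h', hh', h5⟩ := h2 h hh
      exact ⟨ρ h' y, hs h' hh' y hy, (h5 y).symm⟩
    rcases hM.2.2 _ h3 h4 with h5 | h5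
    · left
      rw [Submodule.eq_bot_iff] at h5 ⊢
      intro y hy
      exact φ.symm.map_eq_zero_iff.1 (h5 (φ.symm y) ⟨y, hy, rfl⟩)
    · right
      refine le_antisymm hM' ?_
      rintro _ ⟨x, hx, rfl⟩
      rw [← h5] at hx
      obtain ⟨y, hy, hxy⟩ := hx
      have h6 : φ x = y := by rw [← hxy]; exact φ.apply_symm_apply y
      change φ x ∈ M'
      rw [h6]
      exact hy

variable [FiniteDimensional L V]

/-- Existence of minimal stable subspaces. -/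
lemma exists_Mn {Δ : Subgroup Γ} {C : Submodule L V} (hC : St ρ Δ C) (h0 : C ≠ ⊥) :
    ∃ M ≤ C, Mn ρ Δ M := by
  obtain ⟨M, ⟨hM1, hM2, hM3⟩, hmin⟩ := (wellFounded_lt (α := Submodule L V)).has_min
    {M | M ≤ C ∧ St ρ Δ M ∧ M ≠ ⊥} ⟨C, le_rfl, hC, h0⟩
  refine ⟨M, hM1, hM2, hM3, fun M' h1 h2 => ?_⟩
  by_contra hcon
  push Not at hcon
  exact hmin M' ⟨h1.trans hM1, h2, hcon.1⟩ (lt_of_le_of_ne h1 hcon.2)

/-- If the minimal stable subspaces span the space, then stable subspaces have stable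
complements. -/
lemma exists_compl {Δ : Subgroup Γ} (h : sSup {M | Mn ρ Δ M} = ⊤) {U : Submodule L V}
    (hU : St ρ Δ U) : ∃ W, St ρ Δ W ∧ IsCompl U W := by
  obtain ⟨W, ⟨hW1, hW2⟩, hmax⟩ := (wellFounded_gt (α := Submodule L V)).has_min
    {W | St ρ Δ W ∧ Disjoint U W} ⟨⊥, fun g _ x hx => by
      rw [Submodule.mem_bot] at hx ⊢
      rw [hx, map_zero], disjoint_bot_right⟩
  refine ⟨W, hW1, hW2, ?_⟩
  rw [codisjoint_iff, eq_top_iff, ← h, sSup_le_iff]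
  intro M hM
  rcases hM.2.2 (M ⊓ (U ⊔ W)) inf_le_left (St.inf hM.1 (hU.sup hW1)) with h1 | h1
  · exfalso
    refine hmax (W ⊔ M) ⟨hW1.sup hM.1, ?_⟩ ?_
    · rw [Submodule.disjoint_def]
      intro u hu hu'
      obtain ⟨w, hw, m, hm, h2⟩ := Submodule.mem_sup.1 hu'
      have h3 : m ∈ M ⊓ (U ⊔ W) := by
        refine ⟨hm, ?_⟩
        have h4 : m = u - w := by rw [← h2]; abel
        rw [h4]
        exact Submodule.sub_mem _ (Submodule.mem_sup_left hu) (Submodule.mem_sup_right hw)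
      rw [h1, Submodule.mem_bot] at h3
      rw [h3, add_zero] at h2
      rw [← h2] at hu ⊢
      exact Submodule.disjoint_def.1 hW2 _ hu hw
    · refine lt_of_le_of_ne le_sup_left fun h2 => hM.2.1 ?_
      have h3 : M ≤ W := by rw [h2]; exact le_sup_right
      have h4 : M ⊓ (U ⊔ W) = M := inf_eq_left.2 (h3.trans le_sup_right)
      rw [← h4, h1]
  · exact inf_eq_left.1 h1

/-- **Clifford's theorem.** -/
theorem clifford' [CharZero L] (one : ρ 1 = LinearMap.id)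
    (mul : ∀ g h, ρ (g * h) = ρ g ∘ₗ ρ h) (δ : V ≃ₗ[L] V)
    (hδ : ∀ g x, δ (ρ g x) = ρ g (δ x))
    (hss : ∀ U : Submodule L V, (∀ g, ∀ x ∈ U, ρ g x ∈ U) → (∀ x ∈ U, δ x ∈ U) →
      ∃ U' : Submodule L V, (∀ g, ∀ x ∈ U', ρ g x ∈ U') ∧ IsCompl U U')
    (Δ : Subgroup Γ) [Δ.FiniteIndex] (U : Submodule L V) (hU : ∀ g ∈ Δ, ∀ x ∈ U, ρ g x ∈ U) :
    ∃ U' : Submodule L V, (∀ g ∈ Δ, ∀ x ∈ U', ρ g x ∈ U') ∧ IsCompl U U' := by
  classical
  have hmul : ∀ g h x, ρ (g * h) x = ρ g (ρ h x) := by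
    intro g h x
    rw [mul, LinearMap.comp_apply]
  have hinv : ∀ g x, ρ g (ρ g⁻¹ x) = x := by
    intro g x
    rw [← hmul, mul_inv_cancel, one, LinearMap.id_apply]
  have hinv' : ∀ g x, ρ g⁻¹ (ρ g x) = x := by
    intro g x
    rw [← hmul, inv_mul_cancel, one, LinearMap.id_apply]
  let Δ₀ : Subgroup Γ := Δ.normalCore
  have hn : Δ₀.Normal := Subgroup.normalCore_normal Δ
  have hle : Δ₀ ≤ Δ := Subgroup.normalCore_le Δ
  have hfi : Δ₀.FiniteIndex := Subgroup.finiteIndex_normalCore Δ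
  obtain ⟨S, hS⟩ : ∃ S : Submodule L V, S = sSup {M | Mn ρ Δ₀ M} := ⟨_, rfl⟩
  have hstab : ∀ φ : V ≃ₗ[L] V, (∀ h ∈ Δ₀, ∃ h' ∈ Δ₀, ∀ x, ρ h (φ x) = φ (ρ h' x)) →
      (∀ h ∈ Δ₀, ∃ h' ∈ Δ₀, ∀ x, ρ h (φ.symm x) = φ.symm (ρ h' x)) → ∀ x ∈ S, φ x ∈ S := by
    intro φ h1 h2
    have h3 : S ≤ S.comap φ.toLinearMap := by
      conv_lhs => rw [hS]
      refine sSup_le fun M hM => ?_
      rw [← Submodule.map_le_iff_le_comap, hS]
      exact le_sSup (hM.map φ h1 h2)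
    exact fun x hx => h3 hx
  have hSΓ : ∀ g, ∀ x ∈ S, ρ g x ∈ S := by
    intro g
    let φ : V ≃ₗ[L] V := LinearEquiv.ofLinearMap (ρ g) (ρ g⁻¹)
      (LinearMap.ext fun x => hinv g x) (LinearMap.ext fun x => hinv' g x)
    refine hstab φ (fun h hh => ⟨g⁻¹ * h * g, ?_, fun x => ?_⟩)
      fun h hh => ⟨g * h * g⁻¹, hn.conj_mem h hh g, fun x => ?_⟩
    · have := hn.conj_mem h hh g⁻¹
      rwa [inv_inv] at this
    · change ρ h (ρ g x) = ρ g (ρ (g⁻¹ * h * g) x)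
      rw [hmul, hmul, hinv]
    · change ρ h (ρ g⁻¹ x) = ρ g⁻¹ (ρ (g * h * g⁻¹) x)
      rw [hmul, hmul, hinv']
  have hSδ : ∀ x ∈ S, δ x ∈ S := by
    refine hstab δ (fun h hh => ⟨h, hh, fun x => (hδ h x).symm⟩)
      fun h hh => ⟨h, hh, fun x => ?_⟩
    apply δ.injective
    rw [LinearEquiv.apply_symm_apply, hδ, LinearEquiv.apply_symm_apply]
  obtain ⟨C, hC, hSC⟩ := hss S hSΓ hSδ
  have hC0 : C = ⊥ := by
    by_contra h0
    obtain ⟨M, hMC, hM⟩ := exists_Mn (ρ := ρ) (Δ := Δ₀) (fun g _ => hC g) h0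
    apply hM.2.1
    have h1 : M ≤ S := by
      rw [hS]; exact le_sSup hM
    have h2 := le_inf h1 hMC
    rw [hSC.inf_eq_bot] at h2
    exact le_bot_iff.1 h2
  have htop : sSup {M | Mn ρ Δ₀ M} = ⊤ := by
    rw [← hS]
    have h1 := hSC.sup_eq_top
    rwa [hC0, sup_bot_eq] at h1
  obtain ⟨W, hW, hc⟩ := exists_compl htop (U := U) fun g hg => hU g (hle hg)
  let p : V →ₗ[L] V := U.subtype ∘ₗ U.projectionOnto W hc
  have hp0 : ∀ v, p v ∈ U := fun v => (U.projectionOnto W hc v).2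
  have hp1 : ∀ v ∈ U, p v = v := by
    intro v hv
    change ((U.projectionOnto W hc v : U) : V) = v
    have := Submodule.projectionOnto_apply_left hc ⟨v, hv⟩
    rw [this]
  have hp2 : ∀ v ∈ W, p v = 0 := by
    intro v hv
    change ((U.projectionOnto W hc v : U) : V) = 0
    have := Submodule.projectionOnto_apply_right hc ⟨v, hv⟩
    rw [this]
    rfl
  refine maschke' one mul Δ Δ₀ hU p (fun g hg x => ?_) hp0 hp1
  have hx : x ∈ U ⊔ W := by rw [hc.sup_eq_top]; exact Submodule.mem_top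
  obtain ⟨a, ha, b, hb, rfl⟩ := Submodule.mem_sup.1 hx
  rw [map_add, map_add, map_add, map_add, hp1 _ (hU g (hle hg) a ha), hp2 _ (hW g hg b hb),
    hp1 a ha, hp2 b hb, map_zero]

end Alg

section Top

variable {L V : Type} [Field L] [CharZero L] [AddCommGroup V] [Module L V]
  {Γ : Type*} [Group Γ] [TopologicalSpace Γ] [IsTopologicalGroup Γ] [CompactSpace Γ]
  (ρ : Γ → V →ₗ[L] V) (one : ρ 1 = LinearMap.id) (mul : ∀ g h, ρ (g * h) = ρ g ∘ₗ ρ h)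

lemma finIndex (Δ : OpenSubgroup Γ) : (Δ : Subgroup Γ).FiniteIndex := by
  have : Finite (Γ ⧸ (Δ : Subgroup Γ)) := Subgroup.quotient_finite_of_isOpen _ Δ.isOpen
  exact Subgroup.finiteIndex_of_finite_quotient

include one mul

theorem maschke (Δ Δ₀ : OpenSubgroup Γ) {U : Submodule L V}
    (hU : ∀ g ∈ Δ, ∀ x ∈ U, ρ g x ∈ U) (p : V →ₗ[L] V)
    (hp : ∀ g ∈ Δ₀, ∀ x, p (ρ g x) = ρ g (p x)) (hp1 : ∀ x, p x ∈ U) (hp2 : ∀ x ∈ U, p x = x) :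
    ∃ U' : Submodule L V, (∀ g ∈ Δ, ∀ x ∈ U', ρ g x ∈ U') ∧ IsCompl U U' := by
  have := finIndex Δ₀
  exact maschke' one mul (Δ : Subgroup Γ) (Δ₀ : Subgroup Γ) hU p hp hp1 hp2

theorem clifford [FiniteDimensional L V] (δ : V ≃ₗ[L] V) (hδ : ∀ g x, δ (ρ g x) = ρ g (δ x))
    (hss : ∀ U : Submodule L V, (∀ g, ∀ x ∈ U, ρ g x ∈ U) → (∀ x ∈ U, δ x ∈ U) →
      ∃ U' : Submodule L V, (∀ g, ∀ x ∈ U', ρ g x ∈ U') ∧ IsCompl U U')
    (Δ : OpenSubgroup Γ) (U : Submodule L V) (hU : ∀ g ∈ Δ, ∀ x ∈ U, ρ g x ∈ U) :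
    ∃ U' : Submodule L V, (∀ g ∈ Δ, ∀ x ∈ U', ρ g x ∈ U') ∧ IsCompl U U' := by
  have := finIndex Δ
  exact clifford' one mul δ hδ hss (Δ : Subgroup Γ) U hU

end Top

end Pool.Agent.L0h10.RU
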