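import Pool.Agent.L0h10.RU.Line

/-!
# The trace form is nondegenerate if the stable lines consist of Tate arrays
-/

set_option linter.unusedSectionVars false

namespace Pool.Agent.L0h10.RU

open Matrix Module
open Pool.Agent.N996.BP Pool.Agent.N996.FP
open Pool.Agent.L0h10.TS (ar2 ar2_inj ar2_surj dk_ar2 kp_ar2 dk_rei dk_empty dk_mulVec_apply GRep
  desc_sol dv dv_eq dv_map)
open Pool.Agent.L0h10.RQ

variable {ι : Type} [Fintype ι] [DecidableEq ι] {deg : ι → ℕ} {L : Type} [Field L] [CharZero L]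
  {j : L →+* ℂ} {Γ : Type*} [Group Γ] [TopologicalSpace Γ] {P : GRep deg L Γ}
  {H : HData ι} {A : ∀ n : ℕ, Submodule ℚ ((Fin (n + 1) → ι) → ℚ)} {N : ℕ}

lemma mulVec_map (M : Matrix ι ι L) (v : ι → L) :
    (M.map j) *ᵥ (fun i => j (v i)) = fun i => j ((M *ᵥ v) i) := by
  funext i
  rw [Matrix.mulVec, Matrix.mulVec, dotProduct, dotProduct, map_sum]
  refine Finset.sum_congr rfl fun k _ => ?_
  rw [map_mul, Matrix.map_apply]

/-- The image of the radical. -/
def Ur (j : L →+* ℂ) (P : GRep deg L Γ) : Submodule L (ι → L) :=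
  Submodule.span L {u | ∃ x ∈ rad j P, ∃ v, u = x *ᵥ v}

lemma Ur_of {x : Matrix ι ι L} (hx : x ∈ rad j P) (v : ι → L) : x *ᵥ v ∈ Ur j P :=
  Submodule.subset_span ⟨x, hx, v, rfl⟩

lemma Ur_map {M : Matrix ι ι L} (h : ∀ x ∈ rad j P, ∀ v, M *ᵥ (x *ᵥ v) ∈ Ur j P) :
    ∀ u ∈ Ur j P, M *ᵥ u ∈ Ur j P := by
  intro u hu
  induction hu using Submodule.span_induction with
  | mem u hu => obtain ⟨x, hx, v, rfl⟩ := hu; exact h x hx v
  | zero => rw [Matrix.mulVec_zero]; exact Submodule.zero_mem _
  | add a b _ _ ha hb => rw [Matrix.mulVec_add]; exact Submodule.add_mem _ ha hb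
  | smul r a _ ha => rw [Matrix.mulVec_smul]; exact Submodule.smul_mem _ _ ha

/-- Elements of the complex radical are nilpotent. -/
lemma nil_of {y : Matrix ι ι ℂ} (hy : y ∈ LT (TT j P))
    (h0 : ∀ z ∈ LT (TT j P), (y * z).trace = 0) : IsNilpotent y := by
  obtain ⟨S, S', ν, μ, h⟩ := exists_jor y
  have h1 : rep S S' μ cjA ∈ LT (TT j P) := fun n c hc => h.kill cjA (hy n c hc)
  exact h.nilp (h0 _ h1)

variable [IsTopologicalGroup Γ]

lemma Ur_gal (g : Γ) : ∀ u ∈ Ur j P, P.R g *ᵥ u ∈ Ur j P := by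
  refine Ur_map fun x hx v => ?_
  have h1 : P.R g *ᵥ (x *ᵥ v) = (P.R g * x * P.R g⁻¹) *ᵥ (P.R g *ᵥ v) := by
    rw [Matrix.mulVec_mulVec, Matrix.mulVec_mulVec, Matrix.mul_assoc, R_inv', Matrix.mul_one]
  rw [h1]
  exact Ur_of (rad_conj hx g) _

lemma Ur_deg (hd : Hom2 deg H) {Δ : OpenSubgroup Γ} (hQ : InvQ j P H Δ) (f : ℕ → L) :
    ∀ u ∈ Ur j P, Matrix.diagonal (fun i => f (deg i)) *ᵥ u ∈ Ur j P := by
  refine Ur_map fun x hx v => ?_
  have h1 : Matrix.diagonal (fun i => f (deg i)) * x = x * Matrix.diagonal fun i => f (deg i) := by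
    ext i k
    rw [Matrix.diagonal_mul, Matrix.mul_diagonal]
    by_cases h : deg i = deg k
    · rw [h, mul_comm]
    · rw [gL_deg hd hQ hx.1 h, zero_mul, mul_zero]
  rw [Matrix.mulVec_mulVec, h1, ← Matrix.mulVec_mulVec]
  exact Ur_of hx _

namespace Lin

variable (D : Lin deg j P H A N)
include D

/-- The dimension of the image of the radical. -/
lemma finrank_Ur {S : Submodule L (ι → L)}
    (hS : ∀ b ∈ S, (fun w : Fin (0 + 1) → ι => j (b (w 0))) ∈ TT j P 0) :
    finrank L (Ur j P) ≤ finrank L ((ι → L) ⧸ S) := by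
  obtain ⟨Δ, hQ⟩ := D.form
  let QL : Matrix ι ι L := H.Qr.map fun q => (q : L)
  have hQL : QL.map j = cQ H.Qr := by
    ext i k
    change j ((H.Qr i k : ℚ) : L) = ((H.Qr i k : ℚ) : ℂ)
    exact map_ratCast j _
  have h1 : ∀ b ∈ S, ∀ u ∈ Ur j P, u ⬝ᵥ (QL *ᵥ b) = 0 := by
    intro b hb u hu
    induction hu using Submodule.span_induction with
    | mem u hu =>
      obtain ⟨x, hx, v, rfl⟩ := hu
      apply j.injective
      rw [map_zero]
      have h2 : x.map j *ᵥ (fun i => j (b i)) = 0 := by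
        have h3 := hx.1 0 _ (hS b hb)
        funext i
        have h4 := congrFun h3 fun _ => i
        rw [dv_eq, TS.dv_one] at h4
        exact h4
      have h3 : (x.map j)ᵀ * cQ H.Qr = -(cQ H.Qr * x.map j) := by
        have h4 := LT_skew D.hd hQ hx.1
        have h5 : cQ H.Qir * (x.map j)ᵀ = -(x.map j * cQ H.Qir) := by
          rw [eq_neg_iff_add_eq_zero, add_comm]; exact h4
        calc (x.map j)ᵀ * cQ H.Qr = cQ H.Qr * (cQ H.Qir * (x.map j)ᵀ) * cQ H.Qr := by
              rw [← Matrix.mul_assoc, Q_Qi, Matrix.one_mul]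
          _ = _ := by
              rw [h5, Matrix.mul_neg, Matrix.neg_mul, Matrix.mul_assoc, Matrix.mul_assoc, Qi_Q,
                Matrix.mul_one]
      have h4 : j ((x *ᵥ v) ⬝ᵥ (QL *ᵥ b)) =
          (x.map j *ᵥ fun i => j (v i)) ⬝ᵥ (cQ H.Qr *ᵥ fun i => j (b i)) := by
        rw [← hQL, mulVec_map, mulVec_map, dotProduct, dotProduct, map_sum]
        exact Finset.sum_congr rfl fun i _ => map_mul j _ _
      rw [h4, dotProduct_comm, Matrix.dotProduct_mulVec, ← Matrix.mulVec_transpose,
        Matrix.mulVec_mulVec, h3, Matrix.neg_mulVec, ← Matrix.mulVec_mulVec, h2,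
        Matrix.mulVec_zero, neg_zero, zero_dotProduct]
    | zero => rw [zero_dotProduct]
    | add a b _ _ ha hb => rw [add_dotProduct, ha, hb, add_zero]
    | smul r a _ ha => rw [smul_dotProduct, ha, smul_zero]
  -- an injection to the annihilator
  have hQi : ∀ b : ι → L, QL *ᵥ b = 0 → b = 0 := by
    intro b hb
    have h2 : (cQ H.Qr) *ᵥ (fun i => j (b i)) = 0 := by
      rw [← hQL, mulVec_map, hb]
      funext i
      exact map_zero j
    have h3 : (fun i => j (b i)) = 0 := by
      have h4 := congrArg (fun v => cQ H.Qir *ᵥ v) h2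
      beta_reduce at h4
      rw [Matrix.mulVec_mulVec, Qi_Q, Matrix.one_mulVec, Matrix.mulVec_zero] at h4
      exact h4
    funext i
    exact (map_eq_zero j).1 (congrFun h3 i)
  let φ : S →ₗ[L] (Ur j P).dualAnnihilator :=
    { toFun := fun b => ⟨{ toFun := fun u => u ⬝ᵥ (QL *ᵥ b.1)
                           map_add' := fun x y => add_dotProduct _ _ _
                           map_smul' := fun r x => smul_dotProduct _ _ _ }, by
          rw [Submodule.mem_dualAnnihilator]
          exact fun u hu => h1 b.1 b.2 u hu⟩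
      map_add' := fun a b => by
        refine Subtype.ext (LinearMap.ext fun u => ?_)
        change u ⬝ᵥ (QL *ᵥ (a.1 + b.1)) = u ⬝ᵥ (QL *ᵥ a.1) + u ⬝ᵥ (QL *ᵥ b.1)
        rw [Matrix.mulVec_add, dotProduct_add]
      map_smul' := fun r a => by
        refine Subtype.ext (LinearMap.ext fun u => ?_)
        change u ⬝ᵥ (QL *ᵥ (r • a.1)) = r * (u ⬝ᵥ (QL *ᵥ a.1))
        rw [Matrix.mulVec_smul, dotProduct_smul, smul_eq_mul] }
  have hφ : Function.Injective φ := by
    rw [injective_iff_map_eq_zero]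
    intro b hb
    have h2 : ∀ u : ι → L, u ⬝ᵥ (QL *ᵥ b.1) = 0 := fun u =>
      LinearMap.congr_fun (congrArg Subtype.val hb) u
    have h3 : QL *ᵥ b.1 = 0 := by
      funext i
      have h4 := h2 (Pi.single i 1)
      rwa [single_one_dotProduct] at h4
    exact Subtype.ext (hQi _ h3)
  have h2 := LinearMap.finrank_le_finrank_of_injective hφ
  have h3 := Subspace.finrank_add_finrank_dualAnnihilator_eq (Ur j P)
  have h4 := Submodule.finrank_quotient_add_finrank S
  rw [Module.finrank_fintype_fun_eq_card] at h3 h4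
  omega

/-- **The trace form is nondegenerate.** -/
theorem rad_zero {S : Submodule L (ι → L)}
    (hS : ∀ b ∈ S, (fun w : Fin (0 + 1) → ι => j (b (w 0))) ∈ TT j P 0)
    (hN : finrank L ((ι → L) ⧸ S) ≤ N) {x : Matrix ι ι L} (hx : x ∈ rad j P) : x = 0 := by
  classical
  obtain ⟨Δ, hQ⟩ := D.form
  obtain ⟨UC, hUC⟩ : ∃ UC : Submodule ℂ (ι → ℂ),
    UC = Submodule.span ℂ {x | ∃ v ∈ Ur j P, x = fun i => j (v i)} := ⟨_, rfl⟩
  have hUg : ∀ g, FixA A g → ∀ u ∈ UC, g *ᵥ u ∈ UC := by
    rw [hUC]
    exact fun g hg => D.stable Ur_gal (Ur_deg D.hd hQ fun d => (2 : L) ^ d)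
      ((D.finrank_Ur hS).trans hN) hg
  obtain ⟨p, hp0, hp1, hpg⟩ := exists_proj D.fam D.hinv hUg
  have hpAC := AC_of_comm D.fam D.huni D.hinv hpg
  have hpTT : ar2 (p * cQ H.Qir) ∈ TT j P 1 := by
    refine AC_ind (P := fun c => c ∈ TT j P 1) (fun a ha => ?_) (Submodule.zero_mem _)
      (fun x y hx hy => Submodule.add_mem _ hx hy) (fun r x hx => Submodule.smul_mem _ r hx) hpAC
    have h1 := ha 1 (Equiv.refl _)
    rw [rei_refl] at h1
    exact D.le 1 a h1
  have hpLT : ∀ y ∈ LT (TT j P), y * p = p * y := fun y hy => LT_comm D.hd hQ hpTT hy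
  -- the radical has values in the subspace
  have hval : ∀ x ∈ rad j P, ∀ v, x.map j *ᵥ v ∈ UC := by
    intro x hx v
    have h1 : v = ∑ k, v k • (fun i => j ((Pi.single k (1 : L) : ι → L) i)) := by
      funext i
      rw [Finset.sum_apply, Finset.sum_eq_single i]
      · rw [Pi.smul_apply, Pi.single_eq_same, map_one, smul_eq_mul, mul_one]
      · intro k _ hk
        rw [Pi.smul_apply, Pi.single_eq_of_ne (Ne.symm hk), map_zero, smul_zero]
      · intro h; exact absurd (Finset.mem_univ _) h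
    rw [h1, Matrix.mulVec_sum]
    refine Submodule.sum_mem _ fun k _ => ?_
    rw [Matrix.mulVec_smul, mulVec_map]
    refine Submodule.smul_mem _ _ ?_
    rw [hUC]
    exact Submodule.subset_span ⟨_, Ur_of hx _, rfl⟩
  have hpp : p * p = p := by
    apply Matrix.mulVec_injective
    funext v
    change (p * p) *ᵥ v = p *ᵥ v
    rw [← Matrix.mulVec_mulVec, hp1 _ (hp0 v)]
  have hxp : ∀ x ∈ rad j P, x.map j * p = x.map j := by
    intro x hx
    have h1 : p * x.map j = x.map j := by
      apply Matrix.mulVec_injective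
      funext v
      change (p * x.map j) *ᵥ v = x.map j *ᵥ v
      rw [← Matrix.mulVec_mulVec, hp1 _ (hval x hx v)]
    rw [hpLT _ hx.1, h1]
  -- the transposed radical
  let r : Submodule ℂ (Matrix ι ι ℂ) := Submodule.span ℂ {y | ∃ x ∈ rad j P, y = (x.map j)ᵀ}
  have hbr : ∀ a ∈ r, ∀ b ∈ r, a * b - b * a ∈ r := by
    intro a ha
    induction ha using Submodule.span_induction with
    | mem a ha =>
      obtain ⟨x, hx, rfl⟩ := ha
      intro b hb
      induction hb using Submodule.span_induction with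
      | mem b hb =>
        obtain ⟨y, hy, rfl⟩ := hb
        refine Submodule.subset_span ⟨y * x - x * y, rad_br hy hx, ?_⟩
        rw [map_sub_j, map_mul_j, map_mul_j, Matrix.transpose_sub, Matrix.transpose_mul,
          Matrix.transpose_mul]
      | zero => rw [Matrix.mul_zero, Matrix.zero_mul, sub_zero]; exact Submodule.zero_mem _
      | add b c _ _ hb hc =>
        have h1 : (x.map j)ᵀ * (b + c) - (b + c) * (x.map j)ᵀ =
            ((x.map j)ᵀ * b - b * (x.map j)ᵀ) + ((x.map j)ᵀ * c - c * (x.map j)ᵀ) := by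
          rw [Matrix.mul_add, Matrix.add_mul]; abel
        rw [h1]
        exact Submodule.add_mem _ hb hc
      | smul s b _ hb =>
        have h1 : (x.map j)ᵀ * (s • b) - (s • b) * (x.map j)ᵀ =
            s • ((x.map j)ᵀ * b - b * (x.map j)ᵀ) := by
          rw [Matrix.mul_smul, Matrix.smul_mul, smul_sub]
        rw [h1]
        exact Submodule.smul_mem _ _ hb
    | zero =>
      intro b _
      rw [Matrix.mul_zero, Matrix.zero_mul, sub_zero]; exact Submodule.zero_mem _
    | add a c _ _ ha hc =>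
      intro b hb
      have h1 : (a + c) * b - b * (a + c) = (a * b - b * a) + (c * b - b * c) := by
        rw [Matrix.mul_add, Matrix.add_mul]; abel
      rw [h1]
      exact Submodule.add_mem _ (ha b hb) (hc b hb)
    | smul s a _ ha =>
      intro b hb
      have h1 : (s • a) * b - b * (s • a) = s • (a * b - b * a) := by
        rw [Matrix.mul_smul, Matrix.smul_mul, smul_sub]
      rw [h1]
      exact Submodule.smul_mem _ _ (ha b hb)
  have hrt : ∀ a ∈ r, aᵀ ∈ LT (TT j P) ∧ (∀ z ∈ LT (TT j P), (aᵀ * z).trace = 0) ∧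
      aᵀ * p = aᵀ := by
    intro a ha
    induction ha using Submodule.span_induction with
    | mem a ha =>
      obtain ⟨x, hx, rfl⟩ := ha
      rw [Matrix.transpose_transpose]
      exact ⟨hx.1, fun z hz => rad_LT hx hz, hxp x hx⟩
    | zero =>
      rw [Matrix.transpose_zero]
      exact ⟨Submodule.zero_mem _, fun z _ => by rw [Matrix.zero_mul, Matrix.trace_zero],
        Matrix.zero_mul _⟩
    | add a b _ _ ha hb =>
      rw [Matrix.transpose_add]
      exact ⟨Submodule.add_mem _ ha.1 hb.1, fun z hz => by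
        rw [Matrix.add_mul, Matrix.trace_add, ha.2.1 z hz, hb.2.1 z hz, add_zero], by
        rw [Matrix.add_mul, ha.2.2, hb.2.2]⟩
    | smul s a _ ha =>
      rw [Matrix.transpose_smul]
      exact ⟨Submodule.smul_mem _ _ ha.1, fun z hz => by
        rw [Matrix.smul_mul, Matrix.trace_smul, ha.2.1 z hz, smul_zero], by
        rw [Matrix.smul_mul, ha.2.2]⟩
  have hnil : ∀ a ∈ r, IsNilpotent a := by
    intro a ha
    obtain ⟨h1, h2, -⟩ := hrt a ha
    obtain ⟨m, hm⟩ := nil_of h1 h2
    refine ⟨m, ?_⟩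
    have h3 := congrArg Matrix.transpose hm
    rwa [Matrix.transpose_pow, Matrix.transpose_transpose, Matrix.transpose_zero] at h3
  let W : Submodule ℂ (ι → ℂ) :=
    { carrier := {f | pᵀ *ᵥ f = f}
      add_mem' := fun {a b} ha hb => by
        change pᵀ *ᵥ (a + b) = a + b
        rw [Matrix.mulVec_add]
        exact congrArg₂ (· + ·) ha hb
      zero_mem' := Matrix.mulVec_zero _
      smul_mem' := fun s a ha => by
        change pᵀ *ᵥ (s • a) = s • a
        rw [Matrix.mulVec_smul]
        exact congrArg (s • ·) ha }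
  have hW : ∀ f, f ∈ W ↔ pᵀ *ᵥ f = f := fun f => Iff.rfl
  have hW0 : W = ⊥ := by
    by_contra hne
    obtain ⟨f, hf, hf0, h1⟩ := engel hbr hnil (W := W) (fun a ha f _ => by
      rw [hW, Matrix.mulVec_mulVec]
      congr 1
      have h2 := congrArg Matrix.transpose (hrt a ha).2.2
      rwa [Matrix.transpose_mul, Matrix.transpose_transpose] at h2) hne
    have h2 : ∀ u ∈ UC, f ⬝ᵥ u = 0 := by
      intro u hu
      rw [hUC] at hu
      induction hu using Submodule.span_induction with
      | mem u hu =>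
        obtain ⟨v, hv, rfl⟩ := hu
        induction hv using Submodule.span_induction with
        | mem v hv =>
          obtain ⟨x, hx, v, rfl⟩ := hv
          rw [← mulVec_map, Matrix.dotProduct_mulVec, ← Matrix.mulVec_transpose,
            h1 _ (Submodule.subset_span ⟨x, hx, rfl⟩), zero_dotProduct]
        | zero =>
          have h3 : (fun i => j ((0 : ι → L) i)) = 0 := by
            funext i; exact map_zero j
          rw [h3, dotProduct_zero]
        | add a b _ _ ha hb =>
          have h3 : (fun i => j ((a + b) i)) = (fun i => j (a i)) + fun i => j (b i) := by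
            funext i; exact map_add j _ _
          rw [h3, dotProduct_add, ha, hb, add_zero]
        | smul s a _ ha =>
          have h3 : (fun i => j ((s • a) i)) = j s • fun i => j (a i) := by
            funext i; exact map_mul j _ _
          rw [h3, dotProduct_smul, ha, smul_zero]
      | zero => rw [dotProduct_zero]
      | add a b _ _ ha hb => rw [dotProduct_add, ha, hb, add_zero]
      | smul s a _ ha => rw [dotProduct_smul, ha, smul_zero]
    apply hf0
    rw [← (hW f).1 hf]
    funext i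
    have h3 := h2 _ (hp0 (Pi.single i 1))
    rw [Matrix.dotProduct_mulVec, ← Matrix.mulVec_transpose, dotProduct_single_one] at h3
    exact h3
  have hp : p = 0 := by
    have h1 : ∀ f, pᵀ *ᵥ f = 0 := by
      intro f
      have h2 : pᵀ *ᵥ f ∈ W := by
        rw [hW, Matrix.mulVec_mulVec, ← Matrix.transpose_mul, hpp]
      rw [hW0, Submodule.mem_bot] at h2
      exact h2
    have h2 : pᵀ = 0 := by
      apply Matrix.mulVec_injective
      funext f
      change pᵀ *ᵥ f = 0 *ᵥ f
      rw [h1, Matrix.zero_mulVec]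
    have h3 := congrArg Matrix.transpose h2
    rwa [Matrix.transpose_transpose, Matrix.transpose_zero] at h3
  apply map_inj_j (j := j)
  rw [← hxp x hx, hp, Matrix.mul_zero]
  ext i k
  exact (map_zero j).symm

end Lin

/-- **Equivariant projectors from the nondegeneracy of the trace form.** -/
theorem hasPr_of_rad (h0 : ∀ x ∈ rad j P, x = 0) : HasPr j P := by
  have hrefl : (trF : LinearMap.BilinForm L (Matrix ι ι L)).IsRefl := by
    intro x y h
    rw [trF_apply] at h ⊢
    rw [Matrix.trace_mul_comm, h]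
  have h1 : IsCompl (gL j P) ((trF : LinearMap.BilinForm L (Matrix ι ι L)).orthogonal (gL j P)) := by
    rw [LinearMap.BilinForm.isCompl_orthogonal_iff_disjoint hrefl, Submodule.disjoint_def]
    intro x hx hx'
    refine h0 x ⟨hx, fun y hy => ?_⟩
    have h2 := hx' y hy
    rw [Matrix.trace_mul_comm]
    exact h2
  refine hasPr_of h1 fun g x hx y hy => ?_
  have h2 := gL_conj hy g⁻¹
  rw [inv_inv] at h2
  have h3 := hx _ h2
  change ((P.R g⁻¹ * y * P.R g) * x).trace = 0 at h3
  change (y * (P.R g * x * P.R g⁻¹)).trace = 0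
  rw [← h3]
  rw [← Matrix.mul_assoc, Matrix.trace_mul_comm]
  simp only [Matrix.mul_assoc]

end Pool.Agent.L0h10.RU
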