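import Pool.Agent.L0h10.RU.Semi2
import Pool.Agent.L0h10.RU.Line2

/-!
# Semisimplicity from small stable lines
-/

set_option linter.unusedSectionVars false

namespace Pool.Agent.L0h10.RU

open Matrix Module ComplexOrder
open Pool.Agent.N996.BP Pool.Agent.N996.FP
open Pool.Agent.L0h10.TS (ar2 ar2_inj ar2_surj dk_ar2 kp_ar2 dk_rei dk_empty dk_mulVec_apply GRep
  desc_sol dv dv_eq dv_map)
open Pool.Agent.L0h10.RQ

variable {ι : Type} [Fintype ι] [DecidableEq ι] {deg : ι → ℕ}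
variable {H : HData ι} {A : ∀ n : ℕ, Submodule ℚ ((Fin (n + 1) → ι) → ℚ)} {N : ℕ}

section

variable {L : Type} [Field L] [CharZero L] {Γ : Type*} [Group Γ] [TopologicalSpace Γ]
  {j : L →+* ℂ} {P : GRep deg L Γ}

variable (j P) in
/-- The span of the images of the elements of the Lie algebra. -/
def Gv : Submodule L (ι → L) := Submodule.span L {u | ∃ x ∈ gL j P, ∃ v, u = x *ᵥ v}

variable (j P) in
/-- The vectors killed by the Lie algebra. -/
def Gk : Submodule L (ι → L) where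
  carrier := {v | ∀ x ∈ gL j P, x *ᵥ v = 0}
  add_mem' {a b} ha hb x hx := by rw [Matrix.mulVec_add, ha x hx, hb x hx, add_zero]
  zero_mem' x _ := Matrix.mulVec_zero _
  smul_mem' r a ha x hx := by rw [Matrix.mulVec_smul, ha x hx, smul_zero]

lemma mem_Gk {v : ι → L} : v ∈ Gk j P ↔ ∀ x ∈ gL j P, x *ᵥ v = 0 := Iff.rfl

lemma Gv_of {x : Matrix ι ι L} (hx : x ∈ gL j P) (v : ι → L) : x *ᵥ v ∈ Gv j P :=
  Submodule.subset_span ⟨x, hx, v, rfl⟩

lemma Gv_map {M : Matrix ι ι L} (h : ∀ x ∈ gL j P, ∀ v, M *ᵥ (x *ᵥ v) ∈ Gv j P) :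
    ∀ u ∈ Gv j P, M *ᵥ u ∈ Gv j P := by
  intro u hu
  induction hu using Submodule.span_induction with
  | mem u hu => obtain ⟨x, hx, v, rfl⟩ := hu; exact h x hx v
  | zero => rw [Matrix.mulVec_zero]; exact Submodule.zero_mem _
  | add a b _ _ ha hb => rw [Matrix.mulVec_add]; exact Submodule.add_mem _ ha hb
  | smul r a _ ha => rw [Matrix.mulVec_smul]; exact Submodule.smul_mem _ _ ha

lemma Gv_gal [IsTopologicalGroup Γ] (g : Γ) : ∀ u ∈ Gv j P, P.R g *ᵥ u ∈ Gv j P := by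
  refine Gv_map fun x hx v => ?_
  have h1 : P.R g *ᵥ (x *ᵥ v) = (P.R g * x * P.R g⁻¹) *ᵥ (P.R g *ᵥ v) := by
    rw [Matrix.mulVec_mulVec, Matrix.mulVec_mulVec, Matrix.mul_assoc, R_inv', Matrix.mul_one]
  rw [h1]
  exact Gv_of (gL_conj hx g) _

lemma diag_comm {x : Matrix ι ι L} (hx : ∀ i k, deg i ≠ deg k → x i k = 0) (f : ℕ → L) :
    Matrix.diagonal (fun i => f (deg i)) * x = x * Matrix.diagonal fun i => f (deg i) := by
  ext i k
  rw [Matrix.diagonal_mul, Matrix.mul_diagonal]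
  by_cases h : deg i = deg k
  · rw [h, mul_comm]
  · rw [hx i k h, mul_zero, zero_mul]

lemma Gv_deg (hd : Hom2 deg H) {Δ : OpenSubgroup Γ} (hQ : InvQ j P H Δ) (f : ℕ → L) :
    ∀ u ∈ Gv j P, Matrix.diagonal (fun i => f (deg i)) *ᵥ u ∈ Gv j P := by
  refine Gv_map fun x hx v => ?_
  rw [Matrix.mulVec_mulVec, diag_comm (x := x) (fun i k => gL_deg hd hQ hx) f, ← Matrix.mulVec_mulVec]
  exact Gv_of hx _

lemma Gk_deg (hd : Hom2 deg H) {Δ : OpenSubgroup Γ} (hQ : InvQ j P H Δ) (f : ℕ → L) :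
    ∀ u ∈ Gk j P, Matrix.diagonal (fun i => f (deg i)) *ᵥ u ∈ Gk j P := by
  intro u hu x hx
  rw [Matrix.mulVec_mulVec, ← diag_comm (x := x) (fun i k => gL_deg hd hQ hx) f, ← Matrix.mulVec_mulVec,
    hu x hx, Matrix.mulVec_zero]

/-- The dimension of the span of the images. -/
lemma finrank_Gv (hd : Hom2 deg H) {Δ : OpenSubgroup Γ} (hQ : InvQ j P H Δ)
    {S : Submodule L (ι → L)}
    (hS : ∀ b ∈ S, (fun w : Fin (0 + 1) → ι => j (b (w 0))) ∈ TT j P 0) :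
    finrank L (Gv j P) ≤ finrank L ((ι → L) ⧸ S) := by
  let QL : Matrix ι ι L := H.Qr.map fun q => (q : L)
  have hQL : QL.map j = cQ H.Qr := by
    ext i k
    change j ((H.Qr i k : ℚ) : L) = ((H.Qr i k : ℚ) : ℂ)
    exact map_ratCast j _
  have h1 : ∀ b ∈ S, ∀ u ∈ Gv j P, u ⬝ᵥ (QL *ᵥ b) = 0 := by
    intro b hb u hu
    induction hu using Submodule.span_induction with
    | mem u hu =>
      obtain ⟨x, hx, v, rfl⟩ := hu
      apply j.injective
      rw [map_zero]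
      have h2 : x.map j *ᵥ (fun i => j (b i)) = 0 := by
        have h3 := (show x.map j ∈ LT (TT j P) from hx) 0 _ (hS b hb)
        funext i
        have h4 := congrFun h3 fun _ => i
        rw [dv_eq, TS.dv_one] at h4
        exact h4
      have h3 : (x.map j)ᵀ * cQ H.Qr = -(cQ H.Qr * x.map j) := by
        have h4 := LT_skew hd hQ (show x.map j ∈ LT (TT j P) from hx)
        have h5 : cQ H.Qir * (x.map j)ᵀ = -(x.map j * cQ H.Qir) := by
          rw [eq_neg_iff_add_eq_zero, add_comm]; exact h4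
        calc (x.map j)ᵀ * cQ H.Qr = cQ H.Qr * (cQ H.Qir * (x.map j)ᵀ) * cQ H.Qr := by
              rw [← Matrix.mul_assoc, Q_Qi, Matrix.one_mul]
          _ = _ := by
              rw [h5, Matrix.mul_neg, Matrix.neg_mul, Matrix.mul_assoc, Matrix.mul_assoc, Qi_Q,
                Matrix.mul_one]
      have h4 : j ((x *ᵥ v) ⬝ᵥ (QL *ᵥ b)) =
          (x.map j *ᵥ fun i => j (v i)) ⬝ᵥ (cQ H.Qr *ᵥ fun i => j (b i)) := by
        rw [← hQL, mulVec_map, mulVec_map, dotProduct, dotProduct, map_sum]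
        exact Finset.sum_congr rfl fun i _ => map_mul j _ _
      rw [h4, dotProduct_comm, Matrix.dotProduct_mulVec, ← Matrix.mulVec_transpose,
        Matrix.mulVec_mulVec, h3, Matrix.neg_mulVec, ← Matrix.mulVec_mulVec, h2,
        Matrix.mulVec_zero, neg_zero, zero_dotProduct]
    | zero => rw [zero_dotProduct]
    | add a b _ _ ha hb => rw [add_dotProduct, ha, hb, add_zero]
    | smul r a _ ha => rw [smul_dotProduct, ha, smul_zero]
  have hQi : ∀ b : ι → L, QL *ᵥ b = 0 → b = 0 := by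
    intro b hb
    have h2 : (cQ H.Qr) *ᵥ (fun i => j (b i)) = 0 := by
      rw [← hQL, mulVec_map, hb]
      funext i
      exact map_zero j
    have h3 : (fun i => j (b i)) = 0 := by
      have h4 := congrArg (fun v => cQ H.Qir *ᵥ v) h2
      beta_reduce at h4
      rw [Matrix.mulVec_mulVec, Qi_Q, Matrix.one_mulVec, Matrix.mulVec_zero] at h4
      exact h4
    funext i
    exact (map_eq_zero j).1 (congrFun h3 i)
  let φ : S →ₗ[L] (Gv j P).dualAnnihilator :=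
    { toFun := fun b => ⟨{ toFun := fun u => u ⬝ᵥ (QL *ᵥ b.1)
                           map_add' := fun x y => add_dotProduct _ _ _
                           map_smul' := fun r x => smul_dotProduct _ _ _ }, by
          rw [Submodule.mem_dualAnnihilator]
          exact fun u hu => h1 b.1 b.2 u hu⟩
      map_add' := fun a b => by
        refine Subtype.ext (LinearMap.ext fun u => ?_)
        change u ⬝ᵥ (QL *ᵥ (a.1 + b.1)) = u ⬝ᵥ (QL *ᵥ a.1) + u ⬝ᵥ (QL *ᵥ b.1)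
        rw [Matrix.mulVec_add, dotProduct_add]
      map_smul' := fun r a => by
        refine Subtype.ext (LinearMap.ext fun u => ?_)
        change u ⬝ᵥ (QL *ᵥ (r • a.1)) = r * (u ⬝ᵥ (QL *ᵥ a.1))
        rw [Matrix.mulVec_smul, dotProduct_smul, smul_eq_mul] }
  have hφ : Function.Injective φ := by
    rw [injective_iff_map_eq_zero]
    intro b hb
    have h2 : ∀ u : ι → L, u ⬝ᵥ (QL *ᵥ b.1) = 0 := fun u =>
      LinearMap.congr_fun (congrArg Subtype.val hb) u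
    have h3 : QL *ᵥ b.1 = 0 := by
      funext i
      have h4 := h2 (Pi.single i 1)
      rwa [single_one_dotProduct] at h4
    exact Subtype.ext (hQi _ h3)
  have h2 := LinearMap.finrank_le_finrank_of_injective hφ
  have h3 := Subspace.finrank_add_finrank_dualAnnihilator_eq (Gv j P)
  have h4 := Submodule.finrank_quotient_add_finrank S
  rw [Module.finrank_fintype_fun_eq_card] at h3 h4
  omega

end

variable {Γ : Type*} [Group Γ] [TopologicalSpace Γ] {ℓ : ℕ} [hℓ : Fact ℓ.Prime]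
  {P : GRep deg ℚ_[ℓ] Γ} {j : ℚ_[ℓ] →+* ℂ}

namespace Crd2

variable [IsTopologicalGroup Γ] [CompactSpace Γ] (D : Crd2 deg j P H A N)
include D

/-- The images of the Lie algebra contain no invariants. -/
lemma Gv_Gk {v : ι → ℚ_[ℓ]} (h1 : v ∈ Gv j P) (h2 : v ∈ Gk j P) : v = 0 := by
  obtain ⟨w, DD⟩ := D.dat0.exists_dat
  have h3 : ∀ z ∈ LT (TT j P), z *ᵥ (fun i => j (v i)) = 0 := by
    intro z hz
    have h4 := LT_span hz
    clear hz
    induction h4 using Submodule.span_induction with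
    | mem y hy =>
      obtain ⟨u, hu, rfl⟩ := hy
      rw [mulVec_map, h2 u hu]
      funext i
      exact map_zero j
    | zero => rw [Matrix.zero_mulVec]
    | add a b _ _ ha hb => rw [Matrix.add_mulVec, ha, hb, add_zero]
    | smul r a _ ha => rw [Matrix.smul_mulVec, ha, smul_zero]
  have h4 : ∀ u ∈ Gv j P, star (cR H.D.M *ᵥ fun i => j (v i)) ⬝ᵥ
      (cR H.D.M *ᵥ fun i => j (u i)) = 0 := by
    intro u hu
    induction hu using Submodule.span_induction with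
    | mem u hu =>
      obtain ⟨x, hx, u, rfl⟩ := hu
      obtain ⟨z, hz, h5⟩ := DD.exists_star (z := x.map j) (by rw [LT_TI]; exact hx)
      rw [LT_TI] at hz
      rw [← mulVec_map]
      have h6 : cR H.D.M * x.map j = (nz H z)ᴴ * cR H.D.M := by
        rw [h5, nz, Matrix.mul_assoc, Mi_M, Matrix.mul_one]
      have h7 : nz H z * cR H.D.M = cR H.D.M * z := by
        rw [nz, Matrix.mul_assoc, Mi_M, Matrix.mul_one]
      rw [Matrix.mulVec_mulVec, h6, ← Matrix.mulVec_mulVec, Matrix.dotProduct_mulVec,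
        ← Matrix.star_mulVec, Matrix.mulVec_mulVec, h7, ← Matrix.mulVec_mulVec, h3 z hz,
        Matrix.mulVec_zero, star_zero, zero_dotProduct]
    | zero =>
      have h5 : (fun i => j ((0 : ι → ℚ_[ℓ]) i)) = 0 := by
        funext i; exact map_zero j
      rw [h5, Matrix.mulVec_zero, dotProduct_zero]
    | add a b _ _ ha hb =>
      have h5 : (fun i => j ((a + b) i)) = (fun i => j (a i)) + fun i => j (b i) := by
        funext i; exact map_add j _ _
      rw [h5, Matrix.mulVec_add, dotProduct_add, ha, hb, add_zero]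
    | smul r a _ ha =>
      have h5 : (fun i => j ((r • a) i)) = j r • fun i => j (a i) := by
        funext i; exact map_mul j _ _
      rw [h5, Matrix.mulVec_smul, dotProduct_smul, ha, smul_zero]
  have h5 : cR H.D.M *ᵥ (fun i => j (v i)) = 0 := dotProduct_star_self_eq_zero.1 (h4 v h1)
  have h6 : (fun i => j (v i)) = cR H.D.Mi *ᵥ (cR H.D.M *ᵥ fun i => j (v i)) := by
    rw [Matrix.mulVec_mulVec, Mi_M, Matrix.one_mulVec]
  rw [h5, Matrix.mulVec_zero] at h6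
  funext i
  exact (map_eq_zero j).1 (congrFun h6 i)

/-- The projector to the span of the images. -/
lemma exists_e : ∃ e : Matrix ι ι ℚ_[ℓ], (∀ v, e *ᵥ v ∈ Gv j P) ∧ (∀ v ∈ Gv j P, e *ᵥ v = v) ∧
    (∀ v ∈ Gk j P, e *ᵥ v = 0) ∧ (∀ v, v - e *ᵥ v ∈ Gk j P) ∧
      ∃ Δ : OpenSubgroup Γ, ∀ g ∈ Δ, e * P.R g = P.R g * e := by
  obtain ⟨Δ, hQ⟩ := D.form
  obtain ⟨e, h0, h1, h2, Δ', h3⟩ := D.exists_prs (U := Gv j P)
    (Gv_deg D.hd hQ fun d => (2 : ℚ_[ℓ]) ^ d) (by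
    intro y hy u hu
    have h4 := LT_span hy
    clear hy
    induction h4 using Submodule.span_induction with
    | mem y hy =>
      obtain ⟨x, hx, rfl⟩ := hy
      induction hu using Submodule.span_induction with
      | mem u hu =>
        obtain ⟨v, hv, rfl⟩ := hu
        rw [mulVec_map]
        exact Submodule.subset_span ⟨_, Gv_of hx v, rfl⟩
      | zero => rw [Matrix.mulVec_zero]; exact Submodule.zero_mem _
      | add a b _ _ ha hb => rw [Matrix.mulVec_add]; exact Submodule.add_mem _ ha hb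
      | smul r a _ ha => rw [Matrix.mulVec_smul]; exact Submodule.smul_mem _ _ ha
    | zero => rw [Matrix.zero_mulVec]; exact Submodule.zero_mem _
    | add a b _ _ ha hb => rw [Matrix.add_mulVec]; exact Submodule.add_mem _ ha hb
    | smul r a _ ha => rw [Matrix.smul_mulVec]; exact Submodule.smul_mem _ _ ha)
  have hc : ∀ x ∈ gL j P, x * e = e * x := by
    intro x hx
    apply map_inj_j (j := j)
    rw [map_mul_j, map_mul_j]
    exact D.LT_E ⟨h2, Δ', h3⟩ hx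
  refine ⟨e, h0, h1, fun v hv => D.Gv_Gk (h0 v) fun x hx => ?_, fun v x hx => ?_, Δ', h3⟩
  · rw [Matrix.mulVec_mulVec, hc x hx, ← Matrix.mulVec_mulVec, hv x hx, Matrix.mulVec_zero]
  · rw [Matrix.mulVec_sub, Matrix.mulVec_mulVec, hc x hx, ← Matrix.mulVec_mulVec,
      h1 _ (Gv_of hx v), sub_self]

/-- **Semisimplicity from small stable lines.** -/
theorem exists_prX
    (line : ∀ (n d : ℕ) (b : (Fin (n + 1) → ι) → ℚ_[ℓ]), n + 1 ≤ N →
      (∀ w, b w ≠ 0 → ∑ i, deg (w i) = d) →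
      (∀ g, ∃ c : ℚ_[ℓ], kp (Fin (n + 1)) (P.R g) *ᵥ b = c • b) → P.IsT n b)
    {S : Submodule ℚ_[ℓ] (ι → ℚ_[ℓ])}
    (hS : ∀ b ∈ S, (fun w : Fin (0 + 1) → ι => j (b (w 0))) ∈ TT j P 0)
    (hSN : finrank ℚ_[ℓ] ((ι → ℚ_[ℓ]) ⧸ S) ≤ N)
    {U : Submodule ℚ_[ℓ] (ι → ℚ_[ℓ])} (hU : ∀ g : Γ, ∀ u ∈ U, P.R g *ᵥ u ∈ U)
    (hδ : ∀ u ∈ U, Matrix.diagonal (fun i => (2 : ℚ_[ℓ]) ^ deg i) *ᵥ u ∈ U) :
    ∃ f : (ι → ℚ_[ℓ]) →ₗ[ℚ_[ℓ]] (ι → ℚ_[ℓ]), (∀ v, f v ∈ U) ∧ (∀ v ∈ U, f v = v) ∧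
      ∃ Δ : OpenSubgroup Γ, ∀ g ∈ Δ, ∀ v, f (P.R g *ᵥ v) = P.R g *ᵥ f v := by
  obtain ⟨Δ, hQ⟩ := D.form
  obtain ⟨e, he0, he1, he2, he3, Δ₁, he⟩ := D.exists_e
  -- the intersection with the span of the images
  obtain ⟨p, hp0, hp1, -, Δ₂, hp⟩ := D.exists_pr line (U := U ⊓ Gv j P)
    (fun g u hu => ⟨hU g u hu.1, Gv_gal g u hu.2⟩)
    (fun u hu => ⟨hδ u hu.1, Gv_deg D.hd hQ (fun d => (2 : ℚ_[ℓ]) ^ d) u hu.2⟩)
    ((Submodule.finrank_mono inf_le_right).trans ((finrank_Gv D.hd hQ hS).trans hSN))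
  -- the image in the invariants
  obtain ⟨q, hq0, hq1, -, Δ₃, hq⟩ := D.exists_prs (U := (U ⊔ Gv j P) ⊓ Gk j P)
    (fun u hu => by
      refine ⟨?_, Gk_deg D.hd hQ (fun d => (2 : ℚ_[ℓ]) ^ d) u hu.2⟩
      obtain ⟨a, ha, b, hb, h1⟩ := Submodule.mem_sup.1 hu.1
      rw [← h1, Matrix.mulVec_add]
      exact Submodule.add_mem _ (Submodule.mem_sup_left (hδ a ha))
        (Submodule.mem_sup_right (Gv_deg D.hd hQ (fun d => (2 : ℚ_[ℓ]) ^ d) b hb)))
    (by
      intro y hy u hu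
      have h4 := LT_span hy
      clear hy
      have h5 : y *ᵥ u = 0 := by
        induction h4 using Submodule.span_induction with
        | mem y hy =>
          obtain ⟨x, hx, rfl⟩ := hy
          induction hu using Submodule.span_induction with
          | mem u hu =>
            obtain ⟨v, hv, rfl⟩ := hu
            rw [mulVec_map, hv.2 x hx]
            funext i
            exact map_zero j
          | zero => rw [Matrix.mulVec_zero]
          | add a b _ _ ha hb => rw [Matrix.mulVec_add, ha, hb, add_zero]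
          | smul r a _ ha => rw [Matrix.mulVec_smul, ha, smul_zero]
        | zero => rw [Matrix.zero_mulVec]
        | add a b _ _ ha hb => rw [Matrix.add_mulVec, ha, hb, add_zero]
        | smul r a _ ha => rw [Matrix.smul_mulVec, ha, smul_zero]
      rw [h5]
      exact Submodule.zero_mem _)
  have he4 : ∀ u ∈ U, u - e *ᵥ u ∈ (U ⊔ Gv j P) ⊓ Gk j P := fun u hu =>
    ⟨Submodule.sub_mem _ (Submodule.mem_sup_left hu) (Submodule.mem_sup_right (he0 u)), he3 u⟩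
  -- the complement
  let K : Submodule ℚ_[ℓ] (ι → ℚ_[ℓ]) :=
    { carrier := {v | p *ᵥ (e *ᵥ v) = 0 ∧ q *ᵥ (v - e *ᵥ v) = 0}
      add_mem' := fun {a b} ha hb => by
        refine ⟨?_, ?_⟩
        · rw [Matrix.mulVec_add, Matrix.mulVec_add, ha.1, hb.1, add_zero]
        · have h1 : a + b - e *ᵥ (a + b) = (a - e *ᵥ a) + (b - e *ᵥ b) := by
            rw [Matrix.mulVec_add]; abel
          rw [h1, Matrix.mulVec_add, ha.2, hb.2, add_zero]
      zero_mem' := ⟨by rw [Matrix.mulVec_zero, Matrix.mulVec_zero],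
        by rw [Matrix.mulVec_zero, sub_zero, Matrix.mulVec_zero]⟩
      smul_mem' := fun r a ha => by
        refine ⟨?_, ?_⟩
        · rw [Matrix.mulVec_smul, Matrix.mulVec_smul, ha.1, smul_zero]
        · rw [Matrix.mulVec_smul, ← smul_sub, Matrix.mulVec_smul, ha.2, smul_zero] }
  have hK : ∀ v, v ∈ K ↔ p *ᵥ (e *ᵥ v) = 0 ∧ q *ᵥ (v - e *ᵥ v) = 0 := fun v => Iff.rfl
  have hc : IsCompl U K := by
    constructor
    · rw [Submodule.disjoint_def]
      intro u hu huK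
      obtain ⟨h1, h2⟩ := (hK u).1 huK
      rw [hq1 _ (he4 u hu), sub_eq_zero] at h2
      have h3 : u ∈ Gv j P := by rw [h2]; exact he0 u
      rw [← h2, hp1 u ⟨hu, h3⟩] at h1
      exact h1
    · rw [codisjoint_iff, Submodule.eq_top_iff']
      intro v
      obtain ⟨a, ha⟩ : ∃ a, a = q *ᵥ (v - e *ᵥ v) := ⟨_, rfl⟩
      have haU : a ∈ (U ⊔ Gv j P) ⊓ Gk j P := by rw [ha]; exact hq0 _
      obtain ⟨u₁, hu₁, v₁, hv₁, h1⟩ := Submodule.mem_sup.1 haU.1
      have h2 : u₁ - e *ᵥ u₁ = a := by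
        have h3 : u₁ = a - v₁ := by rw [← h1]; abel
        rw [h3, Matrix.mulVec_sub, he2 a haU.2, he1 v₁ hv₁]
        abel
      obtain ⟨v₂, hv₂⟩ : ∃ v₂, v₂ = v - u₁ := ⟨_, rfl⟩
      have h3 : q *ᵥ (v₂ - e *ᵥ v₂) = 0 := by
        have h4 : v₂ - e *ᵥ v₂ = (v - e *ᵥ v) - (u₁ - e *ᵥ u₁) := by
          rw [hv₂, Matrix.mulVec_sub]; abel
        rw [h4, Matrix.mulVec_sub, ← ha, h2, hq1 a haU, sub_self]
      have h4 := hp0 (e *ᵥ v₂)
      obtain ⟨u₂, hu₂⟩ : ∃ u₂, u₂ = p *ᵥ (e *ᵥ v₂) := ⟨_, rfl⟩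
      rw [← hu₂] at h4
      refine Submodule.mem_sup.2 ⟨u₁ + u₂, Submodule.add_mem _ hu₁ h4.1, v₂ - u₂, (hK _).2 ⟨?_, ?_⟩, ?_⟩
      · rw [Matrix.mulVec_sub, Matrix.mulVec_sub, ← hu₂, he1 u₂ h4.2, hp1 u₂ h4, sub_self]
      · have h5 : v₂ - u₂ - e *ᵥ (v₂ - u₂) = (v₂ - e *ᵥ v₂) - (u₂ - e *ᵥ u₂) := by
          rw [Matrix.mulVec_sub]; abel
        rw [h5, he1 u₂ h4.2, sub_self, sub_zero, h3]
      · rw [hv₂]; abel
  have hKg : ∀ g ∈ Δ₁ ⊓ Δ₂ ⊓ Δ₃, ∀ v ∈ K, P.R g *ᵥ v ∈ K := by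
    intro g hg v hv
    obtain ⟨h12, hg3⟩ := OpenSubgroup.mem_inf.1 hg
    obtain ⟨hg1, hg2⟩ := OpenSubgroup.mem_inf.1 h12
    obtain ⟨h1, h2⟩ := (hK v).1 hv
    have h3 : e *ᵥ (P.R g *ᵥ v) = P.R g *ᵥ (e *ᵥ v) := by
      rw [Matrix.mulVec_mulVec, he g hg1, ← Matrix.mulVec_mulVec]
    refine (hK _).2 ⟨?_, ?_⟩
    · rw [h3, Matrix.mulVec_mulVec, hp g hg2, ← Matrix.mulVec_mulVec, h1, Matrix.mulVec_zero]
    · rw [h3, ← Matrix.mulVec_sub, Matrix.mulVec_mulVec, hq g hg3, ← Matrix.mulVec_mulVec, h2,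
        Matrix.mulVec_zero]
  let f : (ι → ℚ_[ℓ]) →ₗ[ℚ_[ℓ]] (ι → ℚ_[ℓ]) := U.subtype ∘ₗ U.projectionOnto K hc
  have hf0 : ∀ v, f v ∈ U := fun v => (U.projectionOnto K hc v).2
  have hf1 : ∀ v ∈ U, f v = v := by
    intro v hv
    change ((U.projectionOnto K hc v : U) : ι → ℚ_[ℓ]) = v
    have := Submodule.projectionOnto_apply_left hc ⟨v, hv⟩
    rw [this]
  have hf2 : ∀ v ∈ K, f v = 0 := by
    intro v hv
    change ((U.projectionOnto K hc v : U) : ι → ℚ_[ℓ]) = 0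
    have := Submodule.projectionOnto_apply_right hc ⟨v, hv⟩
    rw [this]
    rfl
  refine ⟨f, hf0, hf1, Δ₁ ⊓ Δ₂ ⊓ Δ₃, fun g hg v => ?_⟩
  have hv : v ∈ U ⊔ K := by rw [hc.sup_eq_top]; exact Submodule.mem_top
  obtain ⟨a, ha, b, hb, rfl⟩ := Submodule.mem_sup.1 hv
  rw [Matrix.mulVec_add, map_add, hf1 _ (hU g a ha), hf2 _ (hKg g hg b hb), map_add, hf1 a ha,
    hf2 b hb, add_zero, add_zero]

end Crd2

end Pool.Agent.L0h10.RU
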