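import Pool.Agent.L0h10.RU.Geo3
import Pool.Agent.L0h10.RU.Semi3
import Pool.Agent.L0h10.RU.Clif

/-!
# The bounded power theorem for continuous representations
-/

set_option linter.unusedSectionVars false

open CategoryTheory AlgebraicGeometry TensorProduct Matrix

universe u v

namespace Pool.Agent.L0h10.RU

open Module
open Pool.Agent.H914 Pool.Agent.H914.VarClass Pool.Agent.H914.VarClass.Obj
  Pool.Agent.H914.WeilCohomology
open Pool.Agent.Y121.AHS
open Pool.Agent.Y133.Half (pw pfst psnd wb wb_zero wb_succ ClassPred PH)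
open Pool.Agent.Y121.AH (hodgePred)
open Pool.Agent.N996.BP Pool.Agent.N996.FP Pool.Agent.N996.BP.Geo
open Pool.Agent.L0h10.TS (GaloisAction IsTate ve toRep isT_iff isDeg_ve
  vB vB_apply gal_vB mt mt_spec mt_inj vB_single up_em IsLin
  isDeg_vB Operators IsInfinitesimal KillsTate opOf opOf_zero opOf_inf inf_eq opOf_kill up_ve up
  IsComb jj vB_inj vB_smul smL_eq ActsSemisimply ss_coord gal_ve ve_smul map_mul_th GRep)
open Pool.Agent.L0h10.RQ Pool.Agent.L0h10.RT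

section Coord

variable {ι : Type} [Fintype ι] [DecidableEq ι] {deg : ι → ℕ}
  {H : HData ι} {A : ∀ n : ℕ, Submodule ℚ ((Fin (n + 1) → ι) → ℚ)} {N : ℕ}
  {Γ : Type*} [Group Γ] [TopologicalSpace Γ] {ℓ : ℕ} [hℓ : Fact ℓ.Prime]
  {P : GRep deg ℚ_[ℓ] Γ} {j : ℚ_[ℓ] →+* ℂ}

/-- The operator `2 ^ deg`. -/
noncomputable def dl (deg : ι → ℕ) (L : Type) [Field L] [CharZero L] : (ι → L) ≃ₗ[L] (ι → L) where
  toFun v := Matrix.diagonal (fun i => (2 : L) ^ deg i) *ᵥ v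
  map_add' a b := Matrix.mulVec_add _ a b
  map_smul' c v := Matrix.mulVec_smul _ c v
  invFun v := Matrix.diagonal (fun i => ((2 : L) ^ deg i)⁻¹) *ᵥ v
  left_inv v := by
    funext i
    beta_reduce
    rw [Matrix.mulVec_diagonal, Matrix.mulVec_diagonal, ← mul_assoc,
      inv_mul_cancel₀ (pow_ne_zero _ two_ne_zero), one_mul]
  right_inv v := by
    funext i
    beta_reduce
    rw [Matrix.mulVec_diagonal, Matrix.mulVec_diagonal, ← mul_assoc,
      mul_inv_cancel₀ (pow_ne_zero _ two_ne_zero), one_mul]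

/-- **Semisimplicity in coordinates.** -/
theorem Crd2.ssv [IsTopologicalGroup Γ] [CompactSpace Γ] (D : Crd2 deg j P H A N)
    (line : ∀ (n d : ℕ) (b : (Fin (n + 1) → ι) → ℚ_[ℓ]), n + 1 ≤ N →
      (∀ w, b w ≠ 0 → ∑ i, deg (w i) = d) →
      (∀ g, ∃ c : ℚ_[ℓ], kp (Fin (n + 1)) (P.R g) *ᵥ b = c • b) → P.IsT n b)
    {S : Submodule ℚ_[ℓ] (ι → ℚ_[ℓ])}
    (hS : ∀ b ∈ S, (fun w : Fin (0 + 1) → ι => j (b (w 0))) ∈ TT j P 0)
    (hSN : finrank ℚ_[ℓ] ((ι → ℚ_[ℓ]) ⧸ S) ≤ N) : SSv P := by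
  let ρ : Γ → (ι → ℚ_[ℓ]) →ₗ[ℚ_[ℓ]] (ι → ℚ_[ℓ]) := fun g => (P.R g).mulVecLin
  have one : ρ 1 = LinearMap.id := by
    refine LinearMap.ext fun v => ?_
    change P.R 1 *ᵥ v = v
    rw [P.one, Matrix.one_mulVec]
  have mul : ∀ g h, ρ (g * h) = ρ g ∘ₗ ρ h := by
    intro g h
    refine LinearMap.ext fun v => ?_
    change P.R (g * h) *ᵥ v = P.R g *ᵥ (P.R h *ᵥ v)
    rw [P.mul, Matrix.mulVec_mulVec]
  intro Δ U hU
  refine clifford ρ one mul (dl deg ℚ_[ℓ]) (fun g v => ?_) (fun W hW hδ => ?_) Δ U hU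
  · change Matrix.diagonal (fun i => (2 : ℚ_[ℓ]) ^ deg i) *ᵥ (P.R g *ᵥ v) =
      P.R g *ᵥ (Matrix.diagonal (fun i => (2 : ℚ_[ℓ]) ^ deg i) *ᵥ v)
    rw [Matrix.mulVec_mulVec, Matrix.mulVec_mulVec]
    congr 1
    ext i k
    rw [Matrix.diagonal_mul, Matrix.mul_diagonal]
    by_cases h : deg i = deg k
    · rw [h, mul_comm]
    · rw [P.deg' g i k h, mul_zero, zero_mul]
  · obtain ⟨f, hf0, hf1, Δ', hf⟩ := D.exists_prX line hS hSN hW hδ
    obtain ⟨U', h1, h2⟩ := maschke ρ one mul ⊤ Δ' (U := W) (fun g _ => hW g)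
      f (fun g hg v => hf g hg v) hf0 hf1
    exact ⟨U', fun g => h1 g trivial, h2⟩

end Coord

variable {k : Type u} [Field k] {𝒱 : VarClass k} {ops : CycleOps 𝒱} {T : HodgeTheory ops}
  {X : 𝒱.Obj} {Γ : Type v} [Group Γ] [TopologicalSpace Γ]

/-- Semisimplicity. -/
lemma ss_of_coord {L : Type} [Field L] [Algebra T.W.K L] {G : GaloisAction T X Γ L}
    {ι : Type} [Fintype ι] [DecidableEq ι] {e : Basis ι T.W.K (T.W.H X)} {deg : ι → ℕ}
    (hdeg : ∀ i, e i ∈ T.W.gr X (deg i)) (h : SSv (toRep G e hdeg)) : ActsSemisimply G := by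
  intro Δ U hU
  let φ : (ι → L) ≃ₗ[L] HL T.W L X := vB L e
  let U₀ : Submodule L (HL T.W L X) := U
  obtain ⟨V, hV1, hV2⟩ := h Δ (U₀.comap φ.toLinearMap) (by
    intro g hg u hu
    have h1 := gal_vB G e g u
    change vB L e (mt (Z := X) e (G.ρ 0 g) *ᵥ u) ∈ U₀
    rw [← h1]
    exact hU g hg _ hu)
  refine ⟨(V.map φ.toLinearMap : Submodule L (HL T.W L X)), ?_, ?_⟩
  · rintro g hg _ ⟨u, hu, rfl⟩
    have h1 := gal_vB G e g u
    exact ⟨mt (Z := X) e (G.ρ 0 g) *ᵥ u, hV1 g hg u hu, h1.symm⟩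
  · have h2 := (Submodule.orderIsoMapComap φ).isCompl hV2
    have h3 : (Submodule.orderIsoMapComap φ) (U₀.comap φ.toLinearMap) = U₀ := by
      rw [Submodule.orderIsoMapComap_apply]
      exact Submodule.map_comap_eq_of_surjective φ.surjective _
    have h4 : (Submodule.orderIsoMapComap φ) V = V.map φ.toLinearMap :=
      Submodule.orderIsoMapComap_apply _ _
    rw [h3, h4] at h2
    exact h2

variable {ℓ : ℕ} [hℓ : Fact ℓ.Prime] [Algebra T.W.K ℚ_[ℓ]] {G : GaloisAction T X Γ ℚ_[ℓ]}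
  {Ω : Type} [Field Ω] [Algebra T.W.K Ω] [Algebra ℚ_[ℓ] Ω] [IsScalarTower T.W.K ℚ_[ℓ] Ω]

/-- The trivial case. -/
lemma sub_case {Q : ClassPred T.W} (hs : Subsingleton (T.W.H X)) :
    ActsSemisimply G ∧ ∀ n, TateQ G Q n := by
  have key : ∀ n (x : HL T.W ℚ_[ℓ] (pw X n)), x = 0 := by
    intro n x
    have h5 : Subsingleton (T.W.H (pw X n)) := by
      have h6 : finrank T.W.K (T.W.H (pw X n)) = 0 := by
        rw [Pool.Agent.Y133.Half.finrank_pw, finrank_zero_of_subsingleton,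
          zero_pow (Nat.succ_ne_zero n)]
      exact finrank_zero_iff.1 h6
    have h6 : ∀ y : ℚ_[ℓ] ⊗[T.W.K] T.W.H (pw X n), y = 0 := by
      intro y
      induction y using TensorProduct.induction_on with
      | zero => rfl
      | add a b ha hb => rw [ha, hb, add_zero]
      | tmul l c => rw [Subsingleton.elim c 0, TensorProduct.tmul_zero]
    exact h6 x
  constructor
  · intro Δ U hU
    refine ⟨U, hU, ?_⟩
    have hsub : Subsingleton (HL T.W ℚ_[ℓ] (pw X 0)) := ⟨fun a b => by rw [key 0 a, key 0 b]⟩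
    have h1 : U = ⊥ := Subsingleton.elim _ _
    have h2 : (⊥ : Submodule ℚ_[ℓ] (HL T.W ℚ_[ℓ] (pw X 0))) = ⊤ := Subsingleton.elim _ _
    constructor
    · rw [h1]; exact disjoint_bot_left
    · rw [h1, h2]; exact codisjoint_top_left
  · intro n j x _
    have h7 : x = 0 := key n x
    rw [h7]
    exact Submodule.zero_mem _

variable (Ω G) in
/-- The height of the monodromy. -/
noncomputable def hgt : ℕ := sInf {w | HGT Ω G w}

/-- **The bounded power theorem for continuous representations.** -/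
theorem core3 [IsTopologicalGroup Γ] [CompactSpace Γ] (θ : Ω ≃+* ℂ) {Q : ClassPred T.W}
    {ψ : Pool.Agent.N996.FP.RForm T.W X} (hψ : Pool.Agent.N996.FP.IsPolarisation T X ψ)
    (hQH : ∀ n, Q.sp (pw X n) ≤ (hodgePred (toH T)).sp (pw X n))
    (hQT : QTate G Q) (hI : InvForm G (formL ℚ_[ℓ] ψ)) (hc : IsCts G) {N : ℕ}
    (hls : ActsSemisimply G ∨ LinesTate G N)
    (hN : (CentreAdj G (formL ℚ_[ℓ] ψ) ∧ N = max 4 (codim G)) ∨
      (CentreZero Ω G ∧ N = max 4 (codim G ^ 2 / 4)) ∨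
        N = max 8 ((max 1 (hgt G Ω) * codim G) ^ codim G))
    (hT : TateQ G Q (N - 1)) : ActsSemisimply G ∧ ∀ n, TateQ G Q n := by
  rcases subsingleton_or_nontrivial (T.W.H X) with hs | hs
  · exact sub_case hs
  have hN4 : 4 ≤ N := by
    rcases hN with ⟨-, rfl⟩ | ⟨-, rfl⟩ | rfl
    · exact le_max_left _ _
    · exact le_max_left _ _
    · exact le_trans (by norm_num) (le_max_left _ _)
  have hcd : codim G ≤ N := by
    rcases hN with ⟨-, rfl⟩ | ⟨-, rfl⟩ | rfl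
    · exact le_max_right _ _
    · obtain ⟨t, ht⟩ : ∃ t, t = codim G := ⟨_, rfl⟩
      rw [← ht]
      rcases Nat.lt_or_ge t 4 with h | h
      · exact h.le.trans (le_max_left _ _)
      · refine le_trans ?_ (le_max_right _ _)
        rw [Nat.le_div_iff_mul_le (by norm_num)]
        nlinarith
    · refine le_trans ?_ (le_max_right _ _)
      rcases Nat.eq_zero_or_pos (codim G) with h | h
      · rw [h]; exact Nat.zero_le _
      · calc codim G ≤ max 1 (hgt G Ω) * codim G :=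
              Nat.le_mul_of_pos_left _ (lt_of_lt_of_le one_pos (le_max_left 1 _))
          _ ≤ (max 1 (hgt G Ω) * codim G) ^ codim G := Nat.le_self_pow h.ne' _
  obtain ⟨ι, _, _, e, deg, hdeg, H, r, hQ, D⟩ := exists_crd1 (T := T) (G := G) (jj ℚ_[ℓ] θ)
    hψ.toBP.isPHS hQH hQT hI hc hN4 hT
  obtain ⟨Δ, hInv⟩ := D.form
  have hS : ∀ b ∈ tsub G e, (fun w : Fin (0 + 1) → ι => (jj ℚ_[ℓ] θ) (b (w 0))) ∈
      TT (jj ℚ_[ℓ] θ) (toRep G e hdeg) 0 := fun b hb => tsub_TT hdeg hb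
  have hcod : codim G = finrank ℚ_[ℓ] ((ι → ℚ_[ℓ]) ⧸ tsub G e) := codim_eq (G := G) (e := e)
  have hss : ActsSemisimply G := by
    rcases hls with hss | hl
    · exact hss
    · have hl' := line_coord (e := e) hdeg hl
      have ss : HasPr (jj ℚ_[ℓ] θ) (toRep G e hdeg) :=
        hasPr_of_rad fun x hx => (D.lin hl').rad_zero hS (by rw [← hcod]; exact hcd) hx
      exact ss_of_coord hdeg ((D.crd2 ss).ssv hl' hS (by rw [← hcod]; exact hcd))
  refine ⟨hss, fun n => ?_⟩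
  have D2 := D.crd2 (hasPr (fun Δ U hU => ss_coord (T := T) G e hdeg hss Δ U hU) D.hd hInv)
  refine tateQ_of hdeg (j := jj ℚ_[ℓ] θ) ?_
  rcases hN with ⟨h1, h2⟩ | ⟨h1, h2⟩ | h2
  · exact D2.all_adj (fun u hu => adj_coord G hdeg hQ h1 hu) hS
      (by rw [← hcod, h2]; exact le_max_right _ _) n
  · exact D2.all_tr3 (fun y hy hc => cen_coord G hdeg θ h1 hy hc) hS
      (by rw [← hcod]; exact hcd) (by rw [← hcod, h2]; exact le_max_right _ _) n
  · obtain ⟨w, hw⟩ := D2.exists_height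
    have h3 : HGT Ω G (hgt G Ω) := Nat.sInf_mem (s := {w | HGT Ω G w}) ⟨w, hgt_of G hdeg θ hw⟩
    exact D2.all_gen3 (hgt_coord G hdeg θ h3) hS (by rw [h2]; exact le_max_left _ _)
      (by rw [← hcod, h2]; exact le_max_right _ _) n

end Pool.Agent.L0h10.RU
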