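import Pool.Agent.L0h10.RU.Nrm
import Pool.Agent.L0h10.RQ.Conj

/-!
# The Lie algebra of the Tate arrays is spanned by integral elements
-/

set_option linter.unusedSectionVars false

namespace Pool.Agent.L0h10.RU

open Matrix ComplexConjugate ComplexOrder
open Pool.Agent.N996.BP Pool.Agent.N996.FP
open Pool.Agent.L0h10.TS (ar2 ar2_inj dk_ar2 kp_ar2 dk_rei dk_empty dk_mulVec_apply)
open Pool.Agent.L0h10.RQ

variable {ι : Type} [Fintype ι] [DecidableEq ι]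
variable {H : HData ι} {A : ∀ n : ℕ, Submodule ℚ ((Fin (n + 1) → ι) → ℚ)}
  {T : ∀ n : ℕ, Submodule ℂ ((Fin (n + 1) → ι) → ℂ)}

/-- The abstract situation without integral elements. -/
structure Dat0 (H : HData ι) (A : ∀ n : ℕ, Submodule ℚ ((Fin (n + 1) → ι) → ℚ))
    (T : ∀ n : ℕ, Submodule ℂ ((Fin (n + 1) → ι) → ℂ)) : Prop where
  fam : RFam H A
  huni : uni ℚ H.D.o Unit ∈ AQ A Unit
  hinv : arr (kp Unit H.Qir) ∈ AQ A (Unit ⊕ Unit)
  le : ∀ n, ∀ a ∈ A n, ca a ∈ T n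
  gen : ∀ n c, (∀ y ∈ LT T, dk (Fin (n + 1)) y *ᵥ c = 0) → c ∈ T n
  two : ∀ c ∈ T 1, c ∈ AC A (Fin (1 + 1))
  proj : ∃ F : Matrix (Fin (1 + 1) → ι) (Fin (1 + 1) → ι) ℂ,
    (∀ v, ∃ y ∈ LT T, F *ᵥ v = ar2 (y * cQ H.Qir)) ∧
    (∀ y ∈ LT T, F *ᵥ ar2 (y * cQ H.Qir) = ar2 (y * cQ H.Qir)) ∧
    arr (F * kp (Fin (1 + 1)) (cQ H.Qir)) ∈ AC A (Fin (1 + 1) ⊕ Fin (1 + 1))

namespace Dat0

variable (D : Dat0 H A T)
include D

lemma sub {y : Matrix ι ι ℂ} (hy : y ∈ LT T) : y ∈ LA A := LT_le_LA D.fam D.le hy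

lemma mulQi_inj {x y : Matrix ι ι ℂ} (h : x * cQ H.Qir = y * cQ H.Qir) : x = y := by
  have h1 := congrArg (fun z => z * cQ H.Qr) h
  beta_reduce at h1
  rwa [Matrix.mul_assoc, Matrix.mul_assoc, Qi_Q, Matrix.mul_one, Matrix.mul_one] at h1

/-- The Lie algebra of the Tate arrays is an ideal. -/
lemma ideal {x y : Matrix ι ι ℂ} (hx : x ∈ LA A) (hy : y ∈ LT T) : br x y ∈ LT T := by
  obtain ⟨F, hF1, hF2, hF3⟩ := D.proj
  have hc := comm_dk D.fam D.hinv hF3 hx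
  have h1 : dk (Fin (1 + 1)) x *ᵥ ar2 (y * cQ H.Qir) = ar2 (br x y * cQ H.Qir) := by
    rw [dk_ar2]
    congr 1
    have h2 : cQ H.Qir * xᵀ = -(x * cQ H.Qir) := by
      rw [eq_neg_iff_add_eq_zero, add_comm]; exact LA_skew D.hinv hx
    rw [Matrix.mul_assoc y, h2, br, Matrix.sub_mul, Matrix.mul_neg, sub_eq_add_neg,
      Matrix.mul_assoc, Matrix.mul_assoc y]
  have h2 : F *ᵥ (dk (Fin (1 + 1)) x *ᵥ ar2 (y * cQ H.Qir)) =
      dk (Fin (1 + 1)) x *ᵥ ar2 (y * cQ H.Qir) := by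
    rw [Matrix.mulVec_mulVec, ← hc, ← Matrix.mulVec_mulVec, hF2 y hy]
  obtain ⟨y', hy', h3⟩ := hF1 (dk (Fin (1 + 1)) x *ᵥ ar2 (y * cQ H.Qir))
  rw [h2, h1] at h3
  rw [D.mulQi_inj (ar2_inj h3)]
  exact hy'

lemma adj_adj {z : Matrix ι ι ℂ} (hz : z ∈ LA A) : adj H (adj H z) = z := by
  apply nz_inj (H := H)
  rw [← nz_adj D.hinv (adj_LA D.fam hz), ← nz_adj D.hinv hz,
    Matrix.conjTranspose_conjTranspose]

/-- An element of the algebra which is orthogonal to the ideal commutes with it. -/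
lemma orth_comm {c : Matrix ι ι ℂ} (hc : c ∈ LA A) (ho : ∀ z ∈ LT T, hf H c z = 0)
    {z : Matrix ι ι ℂ} (hz : z ∈ LT T) : c * z = z * c := by
  have h1 : br c z ∈ LT T := D.ideal hc hz
  have h2 : ∀ u ∈ LT T, hf H (br c z) u = 0 := by
    intro u hu
    have hb : br u (adj H z) ∈ LT T := by
      have h3 := D.ideal (adj_LA D.fam (D.sub hz)) hu
      have h4 : br u (adj H z) = -(br (adj H z) u) := by rw [br, br, neg_sub]
      rw [h4]
      exact Submodule.neg_mem _ h3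
    have h3 := ho _ hb
    rw [hf] at h3 ⊢
    have h4 : (nz H (br u (adj H z)))ᴴ = nz H z * (nz H u)ᴴ - (nz H u)ᴴ * nz H z := by
      rw [br, nz_sub, nz_mul, nz_mul, Matrix.conjTranspose_sub, Matrix.conjTranspose_mul,
        Matrix.conjTranspose_mul, ← nz_adj D.hinv (D.sub hz),
        Matrix.conjTranspose_conjTranspose]
    rw [h4, Matrix.mul_sub, Matrix.trace_sub, sub_eq_zero] at h3
    rw [br, nz_sub, nz_mul, nz_mul, Matrix.sub_mul, Matrix.trace_sub, sub_eq_zero,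
      Matrix.mul_assoc]
    rw [h3, ← Matrix.mul_assoc, Matrix.trace_mul_comm (nz H c * (nz H u)ᴴ), Matrix.mul_assoc]
  have h3 := hf_pos (h2 _ h1)
  rw [br, sub_eq_zero] at h3
  exact h3

/-- Elements which commute with the Lie algebra give arrays of the family. -/
lemma orth_AC {c : Matrix ι ι ℂ} (hc : ∀ z ∈ LT T, c * z = z * c) :
    ar2 (c * cQ H.Qir) ∈ AC A (Fin (1 + 1)) := by
  refine D.two _ (D.gen 1 _ fun y hy => ?_)
  have h1 := LA_skew D.hinv (D.sub hy)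
  have h2 : cQ H.Qir * yᵀ = -(y * cQ H.Qir) := by
    rw [eq_neg_iff_add_eq_zero, add_comm]; exact h1
  rw [dk_ar2, Matrix.mul_assoc c, h2, Matrix.mul_neg, ← Matrix.mul_assoc, ← Matrix.mul_assoc,
    hc y hy, add_neg_cancel]
  rfl

lemma AC_comm {c : Matrix ι ι ℂ} (hc : ar2 (c * cQ H.Qir) ∈ AC A (Fin (1 + 1)))
    {z : Matrix ι ι ℂ} (hz : z ∈ LA A) : c * z = z * c := by
  have h1 := kill_AC hz hc
  rw [dk_ar2] at h1
  have h2 : z * (c * cQ H.Qir) + c * cQ H.Qir * zᵀ = 0 := ar2_inj h1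
  have h3 : cQ H.Qir * zᵀ = -(z * cQ H.Qir) := by
    rw [eq_neg_iff_add_eq_zero, add_comm]; exact LA_skew D.hinv hz
  rw [Matrix.mul_assoc c, h3, Matrix.mul_neg, add_neg_eq_zero] at h2
  apply D.mulQi_inj
  rw [Matrix.mul_assoc, Matrix.mul_assoc, h2]

/-- Normal elements. -/
lemma exists_normal {x : Matrix ι ι ℂ} (hx : x ∈ LT T) : ∃ h₁ ∈ LT T, ∃ h₂ ∈ LT T,
    x = (2 : ℂ)⁻¹ • (h₁ + h₂) ∧ Commute (nz H h₁)ᴴ (nz H h₁) ∧ Commute (nz H h₂)ᴴ (nz H h₂) := by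
  have hxA := D.sub hx
  obtain ⟨y', hy', hort⟩ := exists_dec (H := H) (LT T) (adj H x)
  obtain ⟨c, hcdef⟩ : ∃ c, c = adj H x - y' := ⟨_, rfl⟩
  rw [← hcdef] at hort
  have hcA : c ∈ LA A := by
    rw [hcdef]
    exact Submodule.sub_mem _ (adj_LA D.fam hxA) (D.sub hy')
  have hcT : ∀ z ∈ LT T, c * z = z * c := fun z hz => D.orth_comm hcA hort hz
  have hcen : ∀ z ∈ LA A, c * z = z * c := fun z hz => D.AC_comm (D.orth_AC hcT) hz
  have hy : y' = adj H x - c := by rw [hcdef]; abel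
  -- in orthonormal coordinates
  obtain ⟨X, hX⟩ : ∃ X, X = nz H x := ⟨_, rfl⟩
  obtain ⟨C, hC⟩ : ∃ C, C = nz H c := ⟨_, rfl⟩
  have hXs : nz H (adj H x) = Xᴴ := by rw [hX, nz_adj D.hinv hxA]
  have hCX : C * X = X * C := by rw [hC, hX, ← nz_mul, ← nz_mul, hcen x hxA]
  have hCXs : C * Xᴴ = Xᴴ * C := by
    rw [← hXs, hC, ← nz_mul, ← nz_mul, hcen _ (adj_LA D.fam hxA)]
  have hCs : nz H (adj H c) = Cᴴ := by rw [hC, nz_adj D.hinv hcA]
  have hCC : C * Cᴴ = Cᴴ * C := by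
    rw [← hCs, hC, ← nz_mul, ← nz_mul, hcen _ (adj_LA D.fam hcA)]
  have hCsX : Cᴴ * X = X * Cᴴ := by
    have h1 := congrArg Matrix.conjTranspose hCXs
    rw [Matrix.conjTranspose_mul, Matrix.conjTranspose_mul,
      Matrix.conjTranspose_conjTranspose] at h1
    exact h1.symm
  have hCsXs : Cᴴ * Xᴴ = Xᴴ * Cᴴ := by
    have h1 := congrArg Matrix.conjTranspose hCX
    rw [Matrix.conjTranspose_mul, Matrix.conjTranspose_mul] at h1
    exact h1.symm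
  refine ⟨x + y', Submodule.add_mem _ hx hy', x - y', Submodule.sub_mem _ hx hy', ?_, ?_, ?_⟩
  · have h1 : x + y' + (x - y') = (2 : ℂ) • x := by rw [two_smul]; abel
    rw [h1, smul_smul, inv_mul_cancel₀ two_ne_zero, one_smul]
  · have h1 : nz H (x + y') = (X + Xᴴ) - C := by
      rw [nz_add, hy, nz_sub, hXs, ← hX, ← hC]; abel
    have h2 : (nz H (x + y'))ᴴ = (X + Xᴴ) - Cᴴ := by
      rw [h1, Matrix.conjTranspose_sub, Matrix.conjTranspose_add,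
        Matrix.conjTranspose_conjTranspose, add_comm Xᴴ]
    rw [h2, h1]
    change (X + Xᴴ - Cᴴ) * (X + Xᴴ - C) = (X + Xᴴ - C) * (X + Xᴴ - Cᴴ)
    simp only [Matrix.sub_mul, Matrix.mul_sub, Matrix.add_mul, Matrix.mul_add, hCX, hCXs, hCsX,
      hCsXs, hCC]
    abel
  · have h1 : nz H (x - y') = (X - Xᴴ) + C := by
      rw [nz_sub, hy, nz_sub, hXs, ← hX, ← hC]; abel
    have h2 : (nz H (x - y'))ᴴ = (Xᴴ - X) + Cᴴ := by
      rw [h1, Matrix.conjTranspose_add, Matrix.conjTranspose_sub,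
        Matrix.conjTranspose_conjTranspose]
    rw [h2, h1]
    change (Xᴴ - X + Cᴴ) * (X - Xᴴ + C) = (X - Xᴴ + C) * (Xᴴ - X + Cᴴ)
    simp only [Matrix.sub_mul, Matrix.mul_sub, Matrix.add_mul, Matrix.mul_add, hCX, hCXs, hCsX,
      hCsXs, hCC]
    abel

/-- The integral elements of the Lie algebra. -/
lemma int_mem {x : Matrix ι ι ℂ} (hx : x ∈ LT T) (hn : Commute (nz H x)ᴴ (nz H x)) :
    ∃ w, x ∈ Submodule.span ℂ {y | y ∈ LT T ∧ IsInt w y} := by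
  obtain ⟨S, S', μ, h⟩ := jor_normal hn
  -- back to the old coordinates
  have h2 : Jor x (cR H.D.Mi * S) (S' * cR H.D.M) 0 μ := by
    refine ⟨?_, IsNilpotent.zero, by rw [Matrix.zero_mul, Matrix.mul_zero], ?_⟩
    · calc S' * cR H.D.M * (cR H.D.Mi * S) = S' * (cR H.D.M * cR H.D.Mi) * S := by
            simp only [Matrix.mul_assoc]
        _ = 1 := by rw [M_Mi, Matrix.mul_one, h.inv]
    · rw [← h.eq, nz]
      simp only [Matrix.mul_assoc]
  obtain ⟨w, hw⟩ := exists_int h2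
  refine ⟨w, Submodule.span_mono ?_ hw⟩
  rintro y ⟨φ, rfl, hi⟩
  exact ⟨fun n c hc => h2.kill φ (hx n c hc), hi⟩

omit D in
lemma spn_mono {w w' : ℕ} (h : w ≤ w') :
    Submodule.span ℂ {y | y ∈ LT T ∧ IsInt w y} ≤
      Submodule.span ℂ {y | y ∈ LT T ∧ IsInt w' y} := by
  refine Submodule.span_mono ?_
  rintro y ⟨h1, h2⟩
  exact ⟨h1, isInt_mono h h2⟩

/-- **The Lie algebra is spanned by integral elements.** -/
theorem exists_w : ∃ w, LT T ≤ Submodule.span ℂ {y | y ∈ LT T ∧ IsInt w y} := by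
  classical
  have h1 : ∀ x ∈ LT T, ∃ w, x ∈ Submodule.span ℂ {y | y ∈ LT T ∧ IsInt w y} := by
    intro x hx
    obtain ⟨h₁, hh₁, h₂, hh₂, hx', n₁, n₂⟩ := D.exists_normal hx
    obtain ⟨w₁, hw₁⟩ := D.int_mem hh₁ n₁
    obtain ⟨w₂, hw₂⟩ := D.int_mem hh₂ n₂
    refine ⟨max w₁ w₂, ?_⟩
    rw [hx']
    refine Submodule.smul_mem _ _ (Submodule.add_mem _ ?_ ?_)
    · exact spn_mono (le_max_left _ _) hw₁
    · exact spn_mono (le_max_right _ _) hw₂
  obtain ⟨s, hs⟩ : (LT T).FG := IsNoetherian.noetherian _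
  have h2 : ∀ x ∈ s, ∃ w, x ∈ Submodule.span ℂ {y | y ∈ LT T ∧ IsInt w y} := fun x hx =>
    h1 x (by rw [← hs]; exact Submodule.subset_span hx)
  choose! f hf using h2
  refine ⟨s.sup f, ?_⟩
  conv_lhs => rw [← hs]
  rw [Submodule.span_le]
  intro x hx
  exact spn_mono (Finset.le_sup (f := f) hx) (hf x hx)

/-- **The situation with integral elements.** -/
theorem exists_dat : ∃ w, Dat H A T w := by
  obtain ⟨w, hw⟩ := D.exists_w
  refine ⟨w, D.fam, D.huni, D.hinv, D.le, fun n c hc => D.gen n c fun y hy => ?_, D.two, D.proj⟩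
  have h1 := hw hy
  clear hy
  induction h1 using Submodule.span_induction with
  | mem y hy => exact hc y hy.1 hy.2
  | zero =>
    have h2 : dk (Fin (n + 1)) (0 : Matrix ι ι ℂ) = 0 := (dkL (Fin (n + 1))).map_zero
    rw [h2, Matrix.zero_mulVec]
  | add a b _ _ ha hb =>
    have h2 : dk (Fin (n + 1)) (a + b) = dk (Fin (n + 1)) a + dk (Fin (n + 1)) b :=
      (dkL (Fin (n + 1))).map_add a b
    rw [h2, Matrix.add_mulVec, ha, hb, add_zero]
  | smul r a _ ha =>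
    have h2 : dk (Fin (n + 1)) (r • a) = r • dk (Fin (n + 1)) a :=
      (dkL (Fin (n + 1))).map_smul r a
    rw [h2, Matrix.smul_mulVec, ha, smul_zero]

end Dat0

end Pool.Agent.L0h10.RU
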