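import Pool.Agent.L0h10.RU.Cts
import Pool.Agent.L0h10.RU.Dat0
import Pool.Agent.L0h10.RT.Cas
import Pool.Agent.N996.FP.Cha

/-!
# Continuous representations in coordinates: parity
-/

set_option linter.unusedSectionVars false

namespace Pool.Agent.L0h10.RU

open Matrix
open Pool.Agent.N996.BP Pool.Agent.N996.FP
open Pool.Agent.L0h10.TS (ar2 ar2_inj ar2_surj dk_ar2 kp_ar2 dk_rei dk_empty dk_mulVec_apply GRep
  desc_sol desc_span dv dv_eq dv_map)
open Pool.Agent.L0h10.RQ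

variable {ℓ : ℕ} [hℓ : Fact ℓ.Prime] {ι : Type} [Fintype ι] [DecidableEq ι] {deg : ι → ℕ}
  {Γ : Type*} [Group Γ] [TopologicalSpace Γ] {P : GRep deg ℚ_[ℓ] Γ} {j : ℚ_[ℓ] →+* ℂ}
  {H : HData ι} {A : ∀ n : ℕ, Submodule ℚ ((Fin (n + 1) → ι) → ℚ)} {N : ℕ}

/-- The situation in coordinates. -/
structure Crd2 (deg : ι → ℕ) (j : ℚ_[ℓ] →+* ℂ) (P : GRep deg ℚ_[ℓ] Γ) (H : HData ι)
    (A : ∀ n : ℕ, Submodule ℚ ((Fin (n + 1) → ι) → ℚ)) (N : ℕ) : Prop where
  hd : Hom2 deg H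
  par : H.l (-1) = Matrix.diagonal fun i => (-1 : ℂ) ^ deg i
  fam : RFam H A
  huni : uni ℚ H.D.o Unit ∈ AQ A Unit
  le : ∀ n, ∀ a ∈ A n, ca a ∈ TT j P n
  form : ∃ Δ : OpenSubgroup Γ, InvQ j P H Δ
  ss : HasPr j P
  cts : Cts P
  hN : 4 ≤ N
  small : ∀ n, n + 1 ≤ N → ∀ c ∈ TT j P n, c ∈ AC A (Fin (n + 1))

lemma dv_tens {R : Type*} [CommRing R] {κ l : Type} [Fintype κ] [DecidableEq κ] [Fintype l]
    [DecidableEq l] (y : Matrix ι ι R) (a : (κ → ι) → R) (b : (l → ι) → R) :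
    dv y (tens a b) = tens (dv y a) b + tens a (dv y b) := by
  funext w
  obtain ⟨w₁, w₂, rfl⟩ : ∃ w₁ w₂, w = Sum.elim w₁ w₂ := ⟨w ∘ Sum.inl, w ∘ Sum.inr, by simp⟩
  rw [Pi.add_apply, tens_elim, tens_elim, dv, Fintype.sum_sum_type, dv, dv, Finset.sum_mul,
    Finset.mul_sum]
  congr 1
  · refine Finset.sum_congr rfl fun k _ => ?_
    rw [Finset.sum_mul]
    refine Finset.sum_congr rfl fun t _ => ?_
    have h1 : Function.update (Sum.elim w₁ w₂) (Sum.inl k) t =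
        Sum.elim (Function.update w₁ k t) w₂ := by
      rw [Sum.update_elim_inl]
    rw [h1, tens_elim, Sum.elim_inl]
    ring
  · refine Finset.sum_congr rfl fun k _ => ?_
    rw [Finset.mul_sum]
    refine Finset.sum_congr rfl fun t _ => ?_
    have h1 : Function.update (Sum.elim w₁ w₂) (Sum.inr k) t =
        Sum.elim w₁ (Function.update w₂ k t) := by
      rw [Sum.update_elim_inr]
    rw [h1, tens_elim, Sum.elim_inr]
    ring

/-- Products of invariant arrays. -/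
lemma TI_tens {n m : ℕ} {a : (Fin (n + 1) → ι) → ℂ} {b : (Fin (m + 1) → ι) → ℂ}
    (ha : a ∈ TI j P n) (hb : b ∈ TI j P m) :
    rei (ce n m) (tens a b) ∈ TI j P (n + m + 1) := by
  intro y hy
  have h1 := mem_TI.1 ha y hy
  have h2 := mem_TI.1 hb y hy
  rw [dk_rei, dv_eq, dv_tens, h1, h2]
  funext w
  rw [rei, Pi.add_apply, tens, tens, Pi.zero_apply, Pi.zero_apply, zero_mul, mul_zero, add_zero]
  rfl

lemma tens_supp {n m d e : ℕ} {a : (Fin (n + 1) → ι) → ℂ} {b : (Fin (m + 1) → ι) → ℂ}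
    (ha : ∀ w, a w ≠ 0 → ∑ i, deg (w i) = d) (hb : ∀ w, b w ≠ 0 → ∑ i, deg (w i) = e)
    (w : Fin (n + m + 1 + 1) → ι) (hw : rei (ce n m) (tens a b) w ≠ 0) :
    ∑ i, deg (w i) = d + e := by
  rw [rei, tens] at hw
  have h1 := ha _ (left_ne_zero_of_mul hw)
  have h2 := hb _ (right_ne_zero_of_mul hw)
  rw [← (ce n m).sum_comp, Fintype.sum_sum_type, ← h1, ← h2]
  rfl

lemma kp_par (κ : Type) [Fintype κ] [DecidableEq κ] {d : ℕ} (c : (κ → ι) → ℂ)
    (hc : ∀ w, c w ≠ 0 → ∑ i, deg (w i) = d) :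
    kp κ (Matrix.diagonal fun i => (-1 : ℂ) ^ deg i) *ᵥ c = (-1 : ℂ) ^ d • c := by
  funext w
  rw [RQ.kp_diag, Pi.smul_apply, smul_eq_mul]
  by_cases h : c w = 0
  · rw [h, mul_zero, mul_zero]
  · rw [Finset.prod_pow_eq_pow_sum, hc w h]

variable (H) in
lemma CC : cR H.D.C * cR H.D.C = H.l (-1) := by
  have h1 : cR H.D.C = H.l Complex.I := H.hC
  rw [h1, H.l_mul, Complex.I_mul_I]

/-- An array whose square is fixed by the Weil operator has even degree. -/
lemma odd_zero_of (par : H.l (-1) = Matrix.diagonal fun i => (-1 : ℂ) ^ deg i) {n d : ℕ}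
    {c : (Fin (n + 1) → ι) → ℂ} (hc : ∀ w, c w ≠ 0 → ∑ i, deg (w i) = d) (hd : ¬ Even d)
    (h : kp (Fin (n + 1) ⊕ Fin (n + 1)) (cR H.D.C) *ᵥ tens c c = tens c c) : c = 0 := by
  obtain ⟨e, he⟩ : ∃ e, e = kp (Fin (n + 1)) (cR H.D.C) *ᵥ c := ⟨_, rfl⟩
  rw [kp_tens, ← he] at h
  have h1 : ∀ v w, e v * e w = c v * c w := fun v w => by
    have h2 := congrFun h (Sum.elim v w)
    rwa [tens_elim, tens_elim] at h2
  by_contra hc0
  obtain ⟨v, hv⟩ := Function.ne_iff.1 hc0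
  rw [Pi.zero_apply] at hv
  have hev : e v ≠ 0 := by
    intro h2
    have h3 := h1 v v
    rw [h2, zero_mul] at h3
    exact hv (mul_self_eq_zero.1 h3.symm)
  obtain ⟨s, hs⟩ : ∃ s, s = c v / e v := ⟨_, rfl⟩
  have h2 : e = s • c := by
    funext w
    rw [Pi.smul_apply, smul_eq_mul, hs, div_mul_eq_mul_div, eq_div_iff hev, ← h1 v w, mul_comm]
  have hss : s * s = 1 := by
    rw [hs, div_mul_div_comm, ← h1 v v, div_self (mul_ne_zero hev hev)]
  have h3 : kp (Fin (n + 1)) (H.l (-1)) *ᵥ c = c := by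
    rw [← CC H, kp_mul, ← Matrix.mulVec_mulVec, ← he, h2, Matrix.mulVec_smul, ← he, h2, smul_smul,
      hss, one_smul]
  rw [par, kp_par _ c hc, (Nat.not_even_iff_odd.1 hd).neg_one_pow, neg_smul, one_smul] at h3
  have h4 := congrFun h3 v
  rw [Pi.neg_apply] at h4
  exact hv (self_eq_neg.1 h4.symm)

lemma AC_TT' (hle : ∀ n, ∀ a ∈ A n, ca a ∈ TT j P n) {n : ℕ} {c : (Fin (n + 1) → ι) → ℂ}
    (hc : c ∈ AC A (Fin (n + 1))) : c ∈ TT j P n := by
  refine AC_ind (P := fun c => c ∈ TT j P n) (fun a ha => ?_) (Submodule.zero_mem _)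
    (fun x y hx hy => Submodule.add_mem _ hx hy) (fun r x hx => Submodule.smul_mem _ r hx) hc
  have h1 := ha n (Equiv.refl _)
  rw [rei_refl] at h1
  exact hle n a h1

lemma hpart_supp {κ : Type} [Fintype κ] {R : Type*} [Zero R] {d : ℕ} {c : (κ → ι) → R}
    (w : κ → ι) (hw : hpart deg d c w ≠ 0) : ∑ i, deg (w i) = d := by
  by_contra h
  exact hw (if_neg h)

namespace Crd2

variable [IsTopologicalGroup Γ] [CompactSpace Γ] (D : Crd2 deg j P H A N)
include D

/-- The invariants of small degree belong to the family. -/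
lemma small' {n : ℕ} (hn : 2 * (n + 1) ≤ N) {c : (Fin (n + 1) → ι) → ℂ} (hc : c ∈ TI j P n) :
    c ∈ AC A (Fin (n + 1)) := by
  obtain ⟨Δ, hQ⟩ := D.form
  refine D.small n (by omega) c (TI_even D.cts D.hd hQ hc fun d hd => ?_)
  have hcd := TI_hpart D.hd hQ hc d
  refine odd_zero_of (H := H) D.par (d := d) (fun w hw => hpart_supp w hw) hd ?_
  have h1 := TI_hom D.cts (p := d) (TI_tens hcd hcd) fun w hw => by
    rw [tens_supp (fun w hw => hpart_supp w hw) (fun w hw => hpart_supp w hw) w hw]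
    ring
  have h2 := D.small _ (by omega) _ h1
  have h3 := (fixA_C D.fam).ac h2
  rw [kp_rei] at h3
  have h4 := congrArg (rei (ce n n).symm) h3
  rwa [rei_rei, rei_rei, Equiv.self_trans_symm, rei_refl, rei_refl] at h4

lemma hinv : arr (kp Unit H.Qir) ∈ AQ A (Unit ⊕ Unit) := by
  obtain ⟨Δ, hQ⟩ := D.form
  have h1 := D.small 1 (by have := D.hN; omega) _ (Qi_TT D.hd hQ)
  have h2 : ar2 (cQ H.Qir) = ca (ar2 H.Qir) := rfl
  rw [h2] at h1
  have h3 := D.fam.rei e2.symm (AQ_of_AC h1)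
  have h4 : rei e2.symm (ar2 H.Qir) = arr (kp Unit H.Qir) := by
    have h5 := rei_arr_Unit (kp Unit H.Qir) e2 rfl rfl
    have h6 : (Matrix.of fun i k => kp Unit H.Qir (fun _ => i) (fun _ => k)) = H.Qir := by
      ext i k
      rw [Matrix.of_apply, kp_apply, Fintype.prod_unique]
    rw [h6] at h5
    rw [← h5, rei_rei, Equiv.self_trans_symm]
    rfl
  rwa [h4] at h3

/-- The abstract situation. -/
theorem dat0 : Dat0 H A (TI j P) where
  fam := D.fam
  huni := D.huni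
  hinv := D.hinv
  le n a ha := TT_le_TI n (D.le n a ha)
  gen n c hc := fun y hy => hc y (by rw [LT_TI]; exact hy)
  two c hc := D.small' (by have := D.hN; omega) hc
  proj := by
    obtain ⟨Δ, hQ⟩ := D.form
    obtain ⟨F, h1, h2, h3⟩ := exists_F (j := j) (H := H) D.ss D.hd hQ chi_ne
    rw [LT_TI]
    refine ⟨F, h1, h2, ?_⟩
    have h4 := D.small 3 (by have := D.hN; omega) _ h3
    have h5 := AC_rei D.fam (finSumFinEquiv (m := 1 + 1) (n := 1 + 1)).symm h4
    rw [rei_rei, Equiv.self_trans_symm] at h5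
    exact h5

lemma LT_E {a : Matrix ι ι ℚ_[ℓ]} (ha : IsE P a) {y : Matrix ι ι ℂ} (hy : y ∈ LT (TT j P)) :
    y * a.map j = a.map j * y := by
  obtain ⟨Δ, hQ⟩ := D.form
  obtain ⟨h1, Δ', h2⟩ := ha
  refine LT_comm D.hd hQ (comm_TT D.hd hQ (Δ' := Δ') (fun i k h => ?_) fun g hg => ?_) hy
  · rw [Matrix.map_apply, h1 i k h, map_zero]
  · rw [← map_mul_j, h2 g hg, map_mul_j]

omit D [IsTopologicalGroup Γ] [CompactSpace Γ] in
/-- Diagonal matrices which depend only on the degree. -/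
lemma diag_E (f : ℕ → ℚ_[ℓ]) : IsE P (Matrix.diagonal fun i => f (deg i)) := by
  refine ⟨fun i k h => ?_, ⊤, fun g _ => ?_⟩
  · rw [Matrix.diagonal_apply_ne]
    rintro rfl
    exact h rfl
  · ext i k
    rw [Matrix.diagonal_mul, Matrix.mul_diagonal]
    by_cases h : deg i = deg k
    · rw [h, mul_comm]
    · rw [P.deg' g i k h, zero_mul, mul_zero]

/-- The commutant of the Lie algebra consists of combinations of Tate arrays. -/
lemma comm_TT' {y : Matrix ι ι ℂ} (hy : ∀ z ∈ LT (TT j P), z * y = y * z) :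
    ar2 (y * cQ H.Qir) ∈ TT j P 1 := by
  refine AC_TT' D.le (D.dat0.orth_AC fun z hz => ?_)
  rw [LT_TI] at hz
  exact (hy z hz).symm

/-- The centre of the commutant is defined over `L`. -/
lemma cen_span {y : Matrix ι ι ℂ} (h1 : ∀ z ∈ LT (TT j P), z * y = y * z)
    (h2 : ∀ x', (∀ z ∈ LT (TT j P), z * x' = x' * z) → y * x' = x' * y) :
    y ∈ Submodule.span ℂ {x | ∃ u : Matrix ι ι ℚ_[ℓ], IsCE P u ∧ x = u.map j} := by
  obtain ⟨Δ, hQ⟩ := D.form
  -- the matrix commutes with the endomorphisms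
  have hE : ∀ a : Matrix ι ι ℚ_[ℓ], IsE P a → y * a.map j = a.map j * y := fun a ha =>
    h2 _ fun z hz => D.LT_E ha hz
  have hdeg : ∀ i k, deg i ≠ deg k → y i k = 0 := by
    intro i k hik
    have h3 := hE _ (diag_E fun n => if n = deg k then 1 else 0)
    have h4 := congrFun (congrFun h3 i) k
    have h5 : (Matrix.diagonal fun i => (if deg i = deg k then (1 : ℚ_[ℓ]) else 0)).map j =
        Matrix.diagonal fun i => if deg i = deg k then (1 : ℂ) else 0 := by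
      ext a b
      rw [Matrix.map_apply, Matrix.diagonal_apply, Matrix.diagonal_apply]
      split_ifs <;> simp
    rw [h5, Matrix.mul_diagonal, Matrix.diagonal_mul, if_pos rfl, if_neg hik, mul_one,
      zero_mul] at h4
    exact h4
  -- it commutes with an open subgroup
  obtain ⟨Δ', hΔ'⟩ := TT_fix (D.comm_TT' h1)
  have hR : ∀ g ∈ Δ ⊓ Δ', y * (P.R g).map j = (P.R g).map j * y := by
    intro g hg
    obtain ⟨hg1, hg2⟩ := OpenSubgroup.mem_inf.1 hg
    obtain ⟨s, hs⟩ := exists_sq (j (P.χ g))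
    have hs0 : s ≠ 0 := by
      rintro rfl
      apply chi_ne (P := P) g
      have h1 : j (P.χ g) = 0 := by rw [← hs]; ring
      exact (map_eq_zero j).1 h1
    have h3 := hΔ' g hg2 s hs
    rw [kp_ar2] at h3
    have h4 : Rs j P s g * (y * cQ H.Qir) * (Rs j P s g)ᵀ = y * cQ H.Qir := ar2_inj h3
    have h5 := Rs_Qi hQ hg1 hs
    have h6 := Ri_Rs hQ hg1 hs
    rw [Ri] at h6
    obtain ⟨R, hRR⟩ : ∃ R, R = Rs j P s g := ⟨_, rfl⟩
    rw [← hRR] at h4 h5 h6
    have h7 : R * y = y * R := by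
      calc R * y = R * y * (cQ H.Qir * Rᵀ * cQ H.Qr * R) := by rw [h6, Matrix.mul_one]
        _ = (R * (y * cQ H.Qir) * Rᵀ) * cQ H.Qr * R := by simp only [Matrix.mul_assoc]
        _ = y * (R * cQ H.Qir * Rᵀ) * cQ H.Qr * R := by rw [h4, h5]
        _ = y * R * (cQ H.Qir * Rᵀ * cQ H.Qr * R) := by simp only [Matrix.mul_assoc]
        _ = y * R := by rw [h6, Matrix.mul_one]
    rw [hRR, Rs] at h7
    have h8 : Matrix.diagonal (fun i => s ^ deg i) * y =
        y * Matrix.diagonal (fun i => s ^ deg i) := by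
      ext i k
      rw [Matrix.diagonal_mul, Matrix.mul_diagonal]
      by_cases h : deg i = deg k
      · rw [h, mul_comm]
      · rw [hdeg i k h, zero_mul, mul_zero]
    rw [← Matrix.mul_assoc y, ← h8, Matrix.mul_assoc, Matrix.mul_assoc] at h7
    have h9 : Matrix.diagonal (fun i => (s ^ deg i)⁻¹) *
        Matrix.diagonal (fun i => s ^ deg i) = (1 : Matrix ι ι ℂ) := by
      rw [Matrix.diagonal_mul_diagonal, ← Matrix.diagonal_one]
      congr 1
      funext i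
      exact inv_mul_cancel₀ (pow_ne_zero _ hs0)
    have h10 := congrArg (fun z => Matrix.diagonal (fun i => (s ^ deg i)⁻¹) * z) h7
    beta_reduce at h10
    rw [← Matrix.mul_assoc, h9, Matrix.one_mul, ← Matrix.mul_assoc, h9, Matrix.one_mul] at h10
    exact h10.symm
  have h3 := comm_desc (j := j) ({a | IsE P a} ∪ {a | ∃ g ∈ Δ ⊓ Δ', a = P.R g}) (y := y) (by
    rintro a (ha | ⟨g, hg, rfl⟩)
    · exact hE a ha
    · exact hR g hg)
  refine Submodule.span_mono ?_ h3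
  rintro _ ⟨u, hu, rfl⟩
  refine ⟨u, ⟨⟨fun i k hik => ?_, Δ ⊓ Δ', fun g hg => hu _ (Or.inr ⟨g, hg, rfl⟩)⟩,
    fun a ha => hu a (Or.inl ha)⟩, rfl⟩
  have h4 := congrFun (congrFun (hu _ (Or.inl (diag_E fun n => if n = deg k then 1 else 0))) i) k
  rw [Matrix.mul_diagonal, Matrix.diagonal_mul, if_pos rfl, if_neg hik, mul_one, zero_mul] at h4
  exact h4

end Crd2

end Pool.Agent.L0h10.RU
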