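import Pool.Agent.L0h10.RU.Log
import Pool.Agent.L0h10.RQ.Red

/-!
# Arrays killed by the Lie algebra of a continuous representation are Tate arrays
-/

set_option linter.unusedSectionVars false

namespace Pool.Agent.L0h10.RU

open Matrix Filter Topology
open Pool.Agent.N996.BP Pool.Agent.N996.FP
open Pool.Agent.L0h10.TS (dv dv_eq dv_map GRep desc_sol)
open Pool.Agent.L0h10.RQ

variable {ℓ : ℕ} [hℓ : Fact ℓ.Prime] {ι : Type} [Fintype ι] [DecidableEq ι] {deg : ι → ℕ}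
  {Γ : Type*} [Group Γ] [TopologicalSpace Γ] {P : GRep deg ℚ_[ℓ] Γ}

variable (P) in
/-- The representation and the character are continuous. -/
structure Cts : Prop where
  R : ∀ i k, Continuous fun g => P.R g i k
  χ : Continuous P.χ

lemma nr_mul_scalar {c d : ℚ_[ℓ]} (hc : ‖c - 1‖ ≤ rr ℓ) (hd : ‖d - 1‖ ≤ rr ℓ) :
    ‖c * d - 1‖ ≤ rr ℓ := by
  have h1 : c * d - 1 = (c - 1) * d + (d - 1) := by ring
  have h2 : ‖d‖ ≤ 1 := by
    have h3 : d = (d - 1) + 1 := by ring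
    rw [h3]
    exact norm_add_le_max' _ _ (hd.trans rr_lt_one.le) (by rw [norm_one])
  rw [h1]
  refine norm_add_le_max' _ _ ?_ hd
  rw [norm_mul]
  calc _ ≤ rr ℓ * 1 := mul_le_mul hc h2 (norm_nonneg _) rr_pos.le
    _ = rr ℓ := mul_one _

lemma isOpen_ball (a : ℚ_[ℓ]) : IsOpen {x : ℚ_[ℓ] | ‖x - a‖ ≤ rr ℓ} := by
  have h1 : {x : ℚ_[ℓ] | ‖x - a‖ ≤ rr ℓ} = Metric.closedBall a (rr ℓ) := by
    ext x
    rw [Metric.mem_closedBall, dist_eq_norm]
    rfl
  rw [h1]
  exact IsUltrametricDist.isOpen_closedBall a rr_pos.ne'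

variable [IsTopologicalGroup Γ]

/-- The open subgroup of the elements congruent to one. -/
lemma exists_del (h : Cts P) : ∃ Δ : OpenSubgroup Γ, ∀ g ∈ Δ, Nr (rr ℓ) (P.R g) ∧
    ‖P.χ g - 1‖ ≤ rr ℓ := by
  let S : Set Γ := {g | Nr (rr ℓ) (P.R g) ∧ ‖P.χ g - 1‖ ≤ rr ℓ}
  have hS : IsOpen S := by
    have h1 : S = (⋂ i, ⋂ k, {g | ‖P.R g i k - (1 : Matrix ι ι ℚ_[ℓ]) i k‖ ≤ rr ℓ}) ∩
        {g | ‖P.χ g - 1‖ ≤ rr ℓ} := by
      ext g
      simp only [S, Set.mem_ofPred_eq, Set.mem_inter_iff, Set.mem_iInter]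
      rfl
    rw [h1]
    refine IsOpen.inter ?_ ((isOpen_ball 1).preimage h.χ)
    exact isOpen_iInter_of_finite fun i => isOpen_iInter_of_finite fun k =>
      (isOpen_ball ((1 : Matrix ι ι ℚ_[ℓ]) i k)).preimage (h.R i k)
  let H : Subgroup Γ :=
    { carrier := S ∩ S⁻¹
      mul_mem' := by
        rintro a b ⟨ha, ha'⟩ ⟨hb, hb'⟩
        refine ⟨⟨?_, ?_⟩, ⟨?_, ?_⟩⟩
        · rw [P.mul]
          exact ha.1.mul hb.1 rr_pos.le rr_lt_one.le
        · rw [P.χ_mul]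
          exact nr_mul_scalar ha.2 hb.2
        · rw [_root_.mul_inv_rev, P.mul]
          exact hb'.1.mul ha'.1 rr_pos.le rr_lt_one.le
        · rw [_root_.mul_inv_rev, P.χ_mul]
          exact nr_mul_scalar hb'.2 ha'.2
      one_mem' := by
        have h1 : (1 : Γ) ∈ S := ⟨by rw [P.one]; exact Nr.one rr_pos.le, by
          rw [P.χ_one, sub_self, norm_zero]; exact rr_pos.le⟩
        refine ⟨h1, ?_⟩
        rw [Set.mem_inv, inv_one]
        exact h1
      inv_mem' := by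
        rintro a ⟨ha, ha'⟩
        exact ⟨ha', by rw [Set.mem_inv, inv_inv]; exact ha⟩ }
  exact ⟨⟨H, hS.inter hS.inv⟩, fun g hg => hg.1⟩

/-- Powers in open subgroups of compact groups. -/
lemma exists_pow [CompactSpace Γ] (Δ : OpenSubgroup Γ) (g : Γ) : ∃ m : ℕ, m ≠ 0 ∧ g ^ m ∈ Δ := by
  have h1 : Finite (Γ ⧸ (Δ : Subgroup Γ)) := Subgroup.quotient_finite_of_isOpen _ Δ.isOpen'
  have h2 : (Δ : Subgroup Γ).FiniteIndex := Subgroup.finiteIndex_of_finite_quotient
  obtain ⟨m, hm, -, h3⟩ := Subgroup.exists_pow_mem_of_index_ne_zero h2.index_ne_zero g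
  exact ⟨m, hm.ne', h3⟩

lemma R_pow (g : Γ) (m : ℕ) : P.R (g ^ m) = P.R g ^ m := by
  induction m with
  | zero => rw [pow_zero, pow_zero, P.one]
  | succ m ih => rw [pow_succ, pow_succ, P.mul, ih]

lemma χ_pow (g : Γ) (m : ℕ) : P.χ (g ^ m) = P.χ g ^ m := by
  induction m with
  | zero => rw [pow_zero, pow_zero, P.χ_one]
  | succ m ih => rw [pow_succ, pow_succ, P.χ_mul, ih]

/-- Tate arrays are fixed by elements congruent to one. -/
lemma fix_Tp [CompactSpace Γ] {g : Γ} (hR : Nr (rr ℓ) (P.R g)) (hχ : ‖P.χ g - 1‖ ≤ rr ℓ)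
    {n p : ℕ} {b : (Fin (n + 1) → ι) → ℚ_[ℓ]} (hb : P.IsTp n p b) :
    tw n p (P.R g) (P.χ g) *ᵥ b = b := by
  obtain ⟨-, Δ, h1⟩ := hb
  obtain ⟨m, hm, h2⟩ := exists_pow Δ g
  refine fix_of_pow (hR.tw hχ n p) hm ?_
  rw [← tw_pow, ← R_pow, ← χ_pow, tw, Matrix.smul_mulVec]
  exact h1 _ h2

omit [TopologicalSpace Γ] [IsTopologicalGroup Γ] in
lemma dv_add_left {R : Type*} [CommRing R] {κ : Type} [Fintype κ] [DecidableEq κ]
    (x y : Matrix ι ι R) (a : (κ → ι) → R) : dv (x + y) a = dv x a + dv y a := by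
  funext w
  rw [Pi.add_apply, dv, dv, dv, ← Finset.sum_add_distrib]
  refine Finset.sum_congr rfl fun k _ => ?_
  rw [← Finset.sum_add_distrib]
  refine Finset.sum_congr rfl fun t _ => ?_
  rw [Matrix.add_apply, add_mul]

omit [TopologicalSpace Γ] [IsTopologicalGroup Γ] in
lemma dv_diag {R : Type*} [CommRing R] {κ : Type} [Fintype κ] [DecidableEq κ] (d : ι → R)
    (a : (κ → ι) → R) (w : κ → ι) : dv (Matrix.diagonal d) a w = (∑ k, d (w k)) * a w := by
  rw [dv, Finset.sum_mul]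
  refine Finset.sum_congr rfl fun k _ => ?_
  rw [Finset.sum_eq_single (w k)]
  · rw [Matrix.diagonal_apply_eq, Function.update_eq_self]
  · intro t _ ht
    rw [Matrix.diagonal_apply_ne d (Ne.symm ht), zero_mul]
  · intro h; exact absurd (Finset.mem_univ _) h

/-- The logarithm with the shift acts like the twisted logarithm on homogeneous arrays. -/
lemma dv_shift (Z : Matrix ι ι ℚ_[ℓ]) (z : ℚ_[ℓ]) {n p : ℕ} {x : (Fin (n + 1) → ι) → ℚ_[ℓ]}
    (hx : ∀ w, x w ≠ 0 → ∑ i, deg (w i) = 2 * p) :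
    dv (Z + Matrix.diagonal fun i => z / 2 * (deg i : ℚ_[ℓ])) x =
      ((p : ℚ_[ℓ]) * z) • x + dv Z x := by
  rw [dv_add_left, add_comm (dv Z x)]
  congr 1
  funext w
  rw [dv_diag, Pi.smul_apply, smul_eq_mul]
  by_cases h : x w = 0
  · rw [h, mul_zero, mul_zero]
  · rw [← Finset.mul_sum]
    have h1 : ∑ k, ((deg (w k) : ℕ) : ℚ_[ℓ]) = 2 * p := by
      rw [← Nat.cast_sum, hx w h]; push_cast; rfl
    rw [h1]
    ring

variable {j : ℚ_[ℓ] →+* ℂ}

/-- **Arrays over the `ℓ`-adic numbers killed by the Lie algebra are Tate arrays.** -/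
theorem isTp_of_kill [CompactSpace Γ] (hc : Cts P) {n p : ℕ} {x : (Fin (n + 1) → ι) → ℚ_[ℓ]}
    (hx : ∀ w, x w ≠ 0 → ∑ i, deg (w i) = 2 * p) (hk : ∀ y ∈ gL j P, dv y x = 0) :
    P.IsTp n p x := by
  obtain ⟨Δ, hΔ⟩ := exists_del hc
  refine ⟨hx, Δ, fun g hg => ?_⟩
  obtain ⟨hR, hχ⟩ := hΔ g hg
  obtain ⟨Z, z, hZ⟩ := exists_log hR hχ
  have h1 : Z + Matrix.diagonal (fun i => z / 2 * (deg i : ℚ_[ℓ])) ∈ gL j P := by
    change (Z + Matrix.diagonal fun i => z / 2 * (deg i : ℚ_[ℓ])).map j ∈ LT (TT j P)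
    rw [mem_LT]
    rintro m a ⟨q, ha⟩
    rw [dv_eq, dv_map, dv_shift Z z ha.1, (hZ m q a).1 (fix_Tp hR hχ ha)]
    funext w
    exact map_zero j
  have h2 := hk _ h1
  rw [dv_shift Z z hx] at h2
  have h3 := (hZ n p x).2 h2
  rw [tw, Matrix.smul_mulVec] at h3
  exact h3

/-- The arrays killed by the Lie algebra. -/
def TI (j : ℚ_[ℓ] →+* ℂ) (P : GRep deg ℚ_[ℓ] Γ) (n : ℕ) :
    Submodule ℂ ((Fin (n + 1) → ι) → ℂ) where
  carrier := {c | ∀ y ∈ LT (TT j P), dk (Fin (n + 1)) y *ᵥ c = 0}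
  add_mem' {a b} ha hb y hy := by rw [Matrix.mulVec_add, ha y hy, hb y hy, add_zero]
  zero_mem' y _ := Matrix.mulVec_zero _
  smul_mem' r a ha y hy := by rw [Matrix.mulVec_smul, ha y hy, smul_zero]

omit [IsTopologicalGroup Γ] in
lemma TT_le_TI (n : ℕ) : TT j P n ≤ TI j P n := fun c hc _ hy => hy n c hc

omit [IsTopologicalGroup Γ] in
lemma LT_TI : LT (TI j P) = LT (TT j P) := by
  apply le_antisymm
  · intro y hy n c hc
    exact hy n c (TT_le_TI n hc)
  · intro y hy n c hc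
    exact hc y hy

/-- The homogeneous parts. -/
def hpart {R : Type*} [Zero R] (deg : ι → ℕ) {κ : Type} [Fintype κ] (d : ℕ)
    (c : (κ → ι) → R) : (κ → ι) → R := fun w => if ∑ k, deg (w k) = d then c w else 0

omit [TopologicalSpace Γ] [IsTopologicalGroup Γ] in
lemma dv_hpart {R : Type*} [CommRing R] {κ : Type} [Fintype κ] [DecidableEq κ]
    {y : Matrix ι ι R} (hy : ∀ i k, deg i ≠ deg k → y i k = 0) (d : ℕ) (c : (κ → ι) → R) :
    dv y (hpart deg d c) = hpart deg d (dv y c) := by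
  funext w
  rw [dv, hpart]
  have key : ∀ k t, y (w k) t * hpart deg d c (Function.update w k t) =
      if ∑ k, deg (w k) = d then y (w k) t * c (Function.update w k t) else 0 := by
    intro k t
    by_cases h : deg (w k) = deg t
    · have h1 : ∑ i, deg (Function.update w k t i) = ∑ i, deg (w i) := by
        refine Finset.sum_congr rfl fun i _ => ?_
        by_cases hi : i = k
        · subst hi; rw [Function.update_self, h]
        · rw [Function.update_of_ne hi]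
      rw [hpart, h1, mul_ite, mul_zero]
    · rw [hy _ _ h, zero_mul, zero_mul, ite_self]
  simp only [key]
  by_cases h : ∑ k, deg (w k) = d
  · simp only [if_pos h]
    rfl
  · simp only [if_neg h, Finset.sum_const_zero]

omit [IsTopologicalGroup Γ] in
lemma mem_TI {n : ℕ} {c : (Fin (n + 1) → ι) → ℂ} :
    c ∈ TI j P n ↔ ∀ y ∈ LT (TT j P), dv y c = 0 :=
  forall_congr' fun y => imp_congr Iff.rfl (by rw [dv_eq])

variable {H : HData ι}

/-- **Homogeneous complex arrays of even degree killed by the Lie algebra.** -/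
theorem TI_hom [CompactSpace Γ] (hc : Cts P) {n p : ℕ} {c : (Fin (n + 1) → ι) → ℂ}
    (h : c ∈ TI j P n) (hx : ∀ w, c w ≠ 0 → ∑ i, deg (w i) = 2 * p) : c ∈ TT j P n := by
  classical
  let M : (gL j P × (Fin (n + 1) → ι)) ⊕ (Fin (n + 1) → ι) → (Fin (n + 1) → ι) → ℚ_[ℓ] :=
    Sum.elim (fun yw v => ∑ k, ∑ t, if Function.update yw.2 k t = v then yw.1.1 (yw.2 k) t else 0)
      fun w v => if w = v ∧ ∑ i, deg (w i) ≠ 2 * p then 1 else 0
  have hsum : ∀ {R : Type} [CommRing R] (φ : ℚ_[ℓ] →+* R) (y : gL j P) (w : Fin (n + 1) → ι)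
      (u : (Fin (n + 1) → ι) → R), ∑ v, φ (M (Sum.inl (y, w)) v) * u v =
        dv ((y : Matrix ι ι ℚ_[ℓ]).map φ) u w := by
    intro R _ φ y w u
    simp only [M, Sum.elim_inl, map_sum, Finset.sum_mul]
    rw [Finset.sum_comm, dv]
    refine Finset.sum_congr rfl fun k _ => ?_
    rw [Finset.sum_comm]
    refine Finset.sum_congr rfl fun t _ => ?_
    rw [Finset.sum_eq_single (Function.update w k t)]
    · rw [if_pos rfl, Matrix.map_apply]
    · intro v _ hv
      rw [if_neg (Ne.symm hv), map_zero, zero_mul]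
    · intro h; exact absurd (Finset.mem_univ _) h
  have hM : ∀ k, ∑ v, j (M k v) * c v = 0 := by
    rintro (⟨y, w⟩ | w)
    · rw [hsum j y w c]
      have h1 := mem_TI.1 h _ y.2
      exact congrFun h1 w
    · refine Finset.sum_eq_zero fun v _ => ?_
      change j (if w = v ∧ ∑ i, deg (w i) ≠ 2 * p then 1 else 0) * c v = 0
      by_cases h1 : w = v ∧ ∑ i, deg (w i) ≠ 2 * p
      · obtain ⟨rfl, h3⟩ := h1
        have h4 : c w = 0 := by
          by_contra h5
          exact h3 (hx w h5)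
        rw [h4, mul_zero]
      · rw [if_neg h1, map_zero, zero_mul]
  have h3 := desc_sol j M hM
  refine Submodule.span_mono ?_ h3
  rintro x ⟨u, hu, rfl⟩
  refine ⟨u, ⟨p, isTp_of_kill (j := j) hc (fun w hw => ?_) fun y hy => ?_⟩, rfl⟩
  · have h4 := hu (Sum.inr w)
    change ∑ v, (if w = v ∧ ∑ i, deg (w i) ≠ 2 * p then (1 : ℚ_[ℓ]) else 0) * u v = 0 at h4
    by_contra h5
    rw [Finset.sum_eq_single w] at h4
    · rw [if_pos ⟨rfl, h5⟩, one_mul] at h4
      exact hw h4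
    · intro v _ hv
      rw [if_neg fun h => hv h.1.symm, zero_mul]
    · intro h; exact absurd (Finset.mem_univ _) h
  · funext w
    have h4 := hu (Sum.inl (⟨y, hy⟩, w))
    have h5 := hsum (RingHom.id ℚ_[ℓ]) ⟨y, hy⟩ w u
    have h6 : (y : Matrix ι ι ℚ_[ℓ]).map (RingHom.id ℚ_[ℓ]) = y := by
      ext i k; rfl
    rw [h6] at h5
    exact h5.symm.trans h4

/-- The homogeneous parts of arrays killed by the Lie algebra. -/
lemma TI_hpart (hd : Hom2 deg H) {Δ : OpenSubgroup Γ} (hQ : InvQ j P H Δ) {n : ℕ}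
    {c : (Fin (n + 1) → ι) → ℂ} (h : c ∈ TI j P n) (d : ℕ) : hpart deg d c ∈ TI j P n := by
  rw [mem_TI] at h ⊢
  intro y hy
  have h1 : ∀ i k, deg i ≠ deg k → y i k = 0 := fun i k hik => LT_deg hd hQ hy hik
  rw [dv_hpart h1, h y hy]
  funext w
  exact ite_self _

omit [TopologicalSpace Γ] [IsTopologicalGroup Γ] in
/-- An array is the sum of its homogeneous parts. -/
lemma sum_hpart {κ : Type} [Fintype κ] [DecidableEq κ] (c : (κ → ι) → ℂ) :
    c = ∑ d ∈ Finset.univ.image (fun w : κ → ι => ∑ k, deg (w k)), hpart deg d c := by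
  classical
  funext w
  rw [Finset.sum_apply, Finset.sum_eq_single (∑ k, deg (w k))]
  · rw [hpart, if_pos rfl]
  · intro d _ hd
    rw [hpart, if_neg (Ne.symm hd)]
  · intro h
    exact absurd (Finset.mem_image_of_mem _ (Finset.mem_univ w)) h

/-- **Arrays of even degree killed by the Lie algebra are combinations of Tate arrays.** -/
theorem TI_even [CompactSpace Γ] (hc : Cts P) (hd : Hom2 deg H) {Δ : OpenSubgroup Γ}
    (hQ : InvQ j P H Δ) {n : ℕ} {c : (Fin (n + 1) → ι) → ℂ} (h : c ∈ TI j P n)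
    (hev : ∀ d, ¬ Even d → hpart deg d c = 0) : c ∈ TT j P n := by
  rw [sum_hpart (deg := deg) c]
  refine Submodule.sum_mem _ fun d _ => ?_
  by_cases hd2 : Even d
  · obtain ⟨p, hp⟩ := hd2
    refine TI_hom hc (p := p) (TI_hpart hd hQ h d) fun w hw => ?_
    by_contra h1
    apply hw
    rw [hpart, if_neg]
    omega
  · rw [hev d hd2]
    exact Submodule.zero_mem _

end Pool.Agent.L0h10.RU
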