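import Pool.Agent.L0h10.RQ.Conj
import Pool.Agent.L0h10.RQ.Crd

/-!
# The stabiliser of the family: adjoints, invariant subspaces and arrays
-/

set_option linter.unusedSectionVars false

namespace Pool.Agent.L0h10.RU

open Matrix ComplexConjugate ComplexOrder
open Pool.Agent.N996.BP Pool.Agent.N996.FP
open Pool.Agent.L0h10.TS (ar2 ar2_inj dk_ar2 kp_ar2 dk_rei dk_empty dk_mulVec_apply)
open Pool.Agent.L0h10.RQ

variable {ι : Type} [Fintype ι] [DecidableEq ι]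
variable {H : HData ι} {A : ∀ n : ℕ, Submodule ℚ ((Fin (n + 1) → ι) → ℚ)}

lemma kp_map_conj (κ : Type) [Fintype κ] [DecidableEq κ] (z : Matrix ι ι ℂ) :
    kp κ (z.map conj) = (kp κ z).map conj := by
  ext i j
  rw [kp_apply, Matrix.map_apply, kp_apply, map_prod]
  rfl

/-- Complex conjugation. -/
lemma FixA.cj {g : Matrix ι ι ℂ} (hg : FixA A g) : FixA A (g.map conj) := by
  intro κ _ _ a ha
  rw [kp_map_conj]
  funext i
  have h2 := congrArg conj (congrFun (hg κ _ ha) i)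
  rw [Matrix.mulVec, dotProduct, map_sum] at h2
  rw [Matrix.mulVec, dotProduct]
  have h3 : conj (ca a i) = ca a i := by simp [ca]
  rw [h3] at h2
  refine Eq.trans (Finset.sum_congr rfl fun j _ => ?_) h2
  rw [map_mul]
  congr 1
  simp [ca]

lemma FixA.mul' {g h : Matrix ι ι ℂ} (hg : FixA A g) (hh : FixA A h) : FixA A (g * h) := by
  intro κ _ _ a ha
  rw [kp_mul, ← Matrix.mulVec_mulVec, hh κ a ha, hg κ a ha]

/-- **Arrays fixed by the stabiliser belong to the family.** -/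
theorem AC_of_fix (fam : RFam H A) (huni : uni ℚ H.D.o Unit ∈ AQ A Unit)
    (hinv : arr (kp Unit H.Qir) ∈ AQ A (Unit ⊕ Unit)) {κ : Type} [Fintype κ] [DecidableEq κ]
    {c : (κ → ι) → ℂ} (hc : ∀ g, FixA A g → kp κ g *ᵥ c = c) : c ∈ AC A κ := by
  classical
  have hfam := isFam' fam huni hinv
  -- real arrays
  have hreal : ∀ h : (κ → ι) → ℝ,
      (∀ g, FixA A g → kp κ g *ᵥ (fun i => ((h i : ℝ) : ℂ)) = fun i => ((h i : ℝ) : ℂ)) →
      h ∈ AR A κ := by
    intro h hh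
    refine mem_of_fixed (κ := κ) hfam h ?_ ?_
    · have h1 := hh _ (fixA_C fam)
      rw [kp_cR] at h1
      ext i
      have h2 := congrFun h1 i
      rw [Matrix.mulVec, dotProduct] at h2 ⊢
      have h3 : ((∑ j, kp κ H.D.C i j * h j : ℝ) : ℂ) = ((h i : ℝ) : ℂ) := by
        push_cast
        exact h2
      exact_mod_cast h3
    · intro g hg
      refine hh g (fun κ _ _ a ha => ?_)
      have h4 := hg κ _ (AR_of ha)
      simp only [Complex.ofReal_ratCast] at h4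
      exact h4
  have hcj : ∀ g, FixA A g → kp κ g *ᵥ (fun i => conj (c i)) = fun i => conj (c i) := by
    intro g hg
    have h1 := hc _ (FixA.cj hg)
    rw [kp_map_conj] at h1
    funext i
    have h2 := congrArg conj (congrFun h1 i)
    rw [Matrix.mulVec, dotProduct, map_sum] at h2
    rw [Matrix.mulVec, dotProduct, ← h2]
    refine Finset.sum_congr rfl fun t _ => ?_
    rw [map_mul, Matrix.map_apply, Complex.conj_conj]
  have h1 : ∀ g, FixA A g → kp κ g *ᵥ (fun i => (((c i).re : ℝ) : ℂ)) =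
      fun i => (((c i).re : ℝ) : ℂ) := by
    intro g hg
    have h2 : (fun i => (((c i).re : ℝ) : ℂ)) = (2 : ℂ)⁻¹ • (c + fun i => conj (c i)) := by
      funext i
      rw [Pi.smul_apply, Pi.add_apply, smul_eq_mul, Complex.add_conj]
      push_cast
      ring
    rw [h2, Matrix.mulVec_smul, Matrix.mulVec_add, hc g hg, hcj g hg]
  have h2 : ∀ g, FixA A g → kp κ g *ᵥ (fun i => (((c i).im : ℝ) : ℂ)) =
      fun i => (((c i).im : ℝ) : ℂ) := by
    intro g hg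
    have h3 : (fun i => (((c i).im : ℝ) : ℂ)) =
        (2 * Complex.I : ℂ)⁻¹ • (c - fun i => conj (c i)) := by
      funext i
      rw [Pi.smul_apply, Pi.sub_apply, smul_eq_mul, Complex.sub_conj]
      have : (2 * Complex.I : ℂ) ≠ 0 := mul_ne_zero two_ne_zero Complex.I_ne_zero
      field_simp
      push_cast
      ring
    rw [h3, Matrix.mulVec_smul, Matrix.mulVec_sub, hc g hg, hcj g hg]
  have h3 : c = (fun i => (((c i).re : ℝ) : ℂ)) + Complex.I • fun i => (((c i).im : ℝ) : ℂ) := by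
    funext i
    rw [Pi.add_apply, Pi.smul_apply, smul_eq_mul, mul_comm, Complex.re_add_im]
  rw [h3]
  exact Submodule.add_mem _ (AC_of_AR (hreal _ h1))
    (Submodule.smul_mem _ _ (AC_of_AR (hreal _ h2)))

/-- The adjoint of an element of the stabiliser. -/
lemma exists_adj (fam : RFam H A) (hinv : arr (kp Unit H.Qir) ∈ AQ A (Unit ⊕ Unit))
    {g : Matrix ι ι ℂ} (hg : FixA A g) : ∃ g', FixA A g' ∧ nz H g' = (nz H g)ᴴ := by
  have hgc := FixA.cj hg
  have h0 := FixA_form hinv hgc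
  -- the inverse of the conjugate
  obtain ⟨R, hR⟩ : ∃ R, R = cQ H.Qir * (g.map conj)ᵀ * cQ H.Qr := ⟨_, rfl⟩
  have h6 : g.map conj * R = 1 := by
    rw [hR]
    calc g.map conj * (cQ H.Qir * (g.map conj)ᵀ * cQ H.Qr) =
        (g.map conj * cQ H.Qir * (g.map conj)ᵀ) * cQ H.Qr := by simp only [Matrix.mul_assoc]
      _ = 1 := by rw [h0, Qi_Q]
  have h7 : R * g.map conj = 1 := mul_eq_one_comm.1 h6
  have hRf : FixA A R := hgc.inv h7
  refine ⟨cR H.D.Ci * R * cR H.D.C, FixA.mul' (FixA.mul' (fixA_Ci fam) hRf) (fixA_C fam), ?_⟩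
  have h3 : gᴴ = cQ H.Qr * R * cQ H.Qir := by
    have h4 : gᴴ = (g.map conj)ᵀ := by
      ext i j; simp [Matrix.conjTranspose_apply]
    rw [h4, hR]
    calc (g.map conj)ᵀ = (cQ H.Qr * cQ H.Qir) * (g.map conj)ᵀ * (cQ H.Qr * cQ H.Qir) := by
          rw [Q_Qi, Matrix.one_mul, Matrix.mul_one]
      _ = _ := by simp only [Matrix.mul_assoc]
  -- `Q = Mᴴ M C⁻¹`
  have h5 : (cR H.D.M)ᴴ * cR H.D.M = cQ H.Qr * cR H.D.C := by
    rw [cR_conjTranspose, ← cR_mul, H.D.hS, cR_mul, cR_Q]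
  have h6 : (cR H.D.M)ᴴ * (cR H.D.Mi)ᴴ = 1 := by
    rw [← Matrix.conjTranspose_mul, Mi_M, Matrix.conjTranspose_one]
  have h6' : (cR H.D.Mi)ᴴ * (cR H.D.M)ᴴ = 1 := mul_eq_one_comm.1 h6
  have h7 : (cR H.D.Mi)ᴴ * cQ H.Qr = cR H.D.M * cR H.D.Ci := by
    calc (cR H.D.Mi)ᴴ * cQ H.Qr = (cR H.D.Mi)ᴴ * (cQ H.Qr * cR H.D.C) * cR H.D.Ci := by
          rw [Matrix.mul_assoc, Matrix.mul_assoc, C_Ci, Matrix.mul_one]
      _ = ((cR H.D.Mi)ᴴ * (cR H.D.M)ᴴ) * cR H.D.M * cR H.D.Ci := by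
          rw [← h5]; simp only [Matrix.mul_assoc]
      _ = _ := by rw [h6', Matrix.one_mul]
  have h8 : cQ H.Qir * (cR H.D.M)ᴴ = cR H.D.C * cR H.D.Mi := by
    calc cQ H.Qir * (cR H.D.M)ᴴ = cQ H.Qir * ((cR H.D.M)ᴴ * cR H.D.M) * cR H.D.Mi := by
          rw [Matrix.mul_assoc, Matrix.mul_assoc, M_Mi, Matrix.mul_one]
      _ = (cQ H.Qir * cQ H.Qr) * cR H.D.C * cR H.D.Mi := by
          rw [h5]; simp only [Matrix.mul_assoc]
      _ = _ := by rw [Qi_Q, Matrix.one_mul]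
  rw [nz, nz, Matrix.conjTranspose_mul, Matrix.conjTranspose_mul, h3]
  calc cR H.D.M * (cR H.D.Ci * R * cR H.D.C) * cR H.D.Mi =
      (cR H.D.M * cR H.D.Ci) * R * (cR H.D.C * cR H.D.Mi) := by simp only [Matrix.mul_assoc]
    _ = ((cR H.D.Mi)ᴴ * cQ H.Qr) * R * (cQ H.Qir * (cR H.D.M)ᴴ) := by rw [h7, h8]
    _ = _ := by simp only [Matrix.mul_assoc]

/-- **Projectors to invariant subspaces.** -/
theorem exists_proj (fam : RFam H A) (hinv : arr (kp Unit H.Qir) ∈ AQ A (Unit ⊕ Unit))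
    {U : Submodule ℂ (ι → ℂ)} (hU : ∀ g, FixA A g → ∀ u ∈ U, g *ᵥ u ∈ U) :
    ∃ p : Matrix ι ι ℂ, (∀ v, p *ᵥ v ∈ U) ∧ (∀ v ∈ U, p *ᵥ v = v) ∧
      ∀ g, FixA A g → p * g = g * p := by
  classical
  let W : Submodule ℂ (ι → ℂ) :=
    { carrier := {v | ∀ u ∈ U, star (cR H.D.M *ᵥ u) ⬝ᵥ (cR H.D.M *ᵥ v) = 0}
      add_mem' := fun {a b} ha hb u hu => by
        rw [Matrix.mulVec_add, dotProduct_add, ha u hu, hb u hu, add_zero]
      zero_mem' := fun u _ => by rw [Matrix.mulVec_zero, dotProduct_zero]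
      smul_mem' := fun r a ha u hu => by
        rw [Matrix.mulVec_smul, dotProduct_smul, ha u hu, smul_zero] }
  have hW : ∀ v, v ∈ W ↔ ∀ u ∈ U, star (cR H.D.M *ᵥ u) ⬝ᵥ (cR H.D.M *ᵥ v) = 0 :=
    fun v => Iff.rfl
  have hdisj : ∀ v ∈ U, v ∈ W → v = 0 := by
    intro v hv hw
    have h1 := (hW v).1 hw v hv
    have h2 : cR H.D.M *ᵥ v = 0 := dotProduct_star_self_eq_zero.1 h1
    have h3 : v = cR H.D.Mi *ᵥ (cR H.D.M *ᵥ v) := by
      rw [Matrix.mulVec_mulVec, Mi_M, Matrix.one_mulVec]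
    rw [h3, h2, Matrix.mulVec_zero]
  have hc : IsCompl U W := by
    constructor
    · rw [Submodule.disjoint_def]
      exact hdisj
    · rw [codisjoint_iff, Submodule.eq_top_iff']
      intro v
      obtain ⟨u, hu, h1⟩ := exists_orth (cR H.D.M) U v
      exact Submodule.mem_sup.2 ⟨u, hu, v - u, (hW _).2 h1, by abel⟩
  have hWg : ∀ g, FixA A g → ∀ v ∈ W, g *ᵥ v ∈ W := by
    intro g hg v hv
    rw [hW] at hv ⊢
    intro u hu
    obtain ⟨g', hg', h1⟩ := exists_adj fam hinv hg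
    have h2 := hv _ (hU g' hg' u hu)
    -- `M g' = (M g M⁻¹)ᴴ M`
    have h3 : cR H.D.M * g' = (nz H g)ᴴ * cR H.D.M := by
      rw [← h1, nz, Matrix.mul_assoc, Mi_M, Matrix.mul_one]
    have h4 : cR H.D.M * g = nz H g * cR H.D.M := by
      rw [nz, Matrix.mul_assoc, Mi_M, Matrix.mul_one]
    rw [Matrix.mulVec_mulVec, h3, ← Matrix.mulVec_mulVec, Matrix.star_mulVec,
      Matrix.conjTranspose_conjTranspose, ← Matrix.dotProduct_mulVec] at h2
    rw [Matrix.mulVec_mulVec, h4, ← Matrix.mulVec_mulVec]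
    exact h2
  let f : (ι → ℂ) →ₗ[ℂ] (ι → ℂ) := U.subtype ∘ₗ U.projectionOnto W hc
  have hf0 : ∀ v, f v ∈ U := fun v => (U.projectionOnto W hc v).2
  have hf1 : ∀ v ∈ U, f v = v := by
    intro v hv
    change ((U.projectionOnto W hc v : U) : ι → ℂ) = v
    have := Submodule.projectionOnto_apply_left hc ⟨v, hv⟩
    rw [this]
  have hf2 : ∀ v ∈ W, f v = 0 := by
    intro v hv
    change ((U.projectionOnto W hc v : U) : ι → ℂ) = 0
    have := Submodule.projectionOnto_apply_right hc ⟨v, hv⟩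
    rw [this]
    rfl
  obtain ⟨p, hp⟩ : ∃ p, p = LinearMap.toMatrix' f := ⟨_, rfl⟩
  have hpv : ∀ v, p *ᵥ v = f v := by
    intro v
    rw [hp, ← Matrix.toLin'_apply, Matrix.toLin'_toMatrix']
  refine ⟨p, fun v => by rw [hpv]; exact hf0 v, fun v hv => by rw [hpv]; exact hf1 v hv,
    fun g hg => ?_⟩
  apply Matrix.mulVec_injective
  funext v
  change (p * g) *ᵥ v = (g * p) *ᵥ v
  rw [← Matrix.mulVec_mulVec, ← Matrix.mulVec_mulVec, hpv, hpv]
  have hv : v ∈ U ⊔ W := by rw [hc.sup_eq_top]; exact Submodule.mem_top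
  obtain ⟨a, ha, b, hb, rfl⟩ := Submodule.mem_sup.1 hv
  rw [Matrix.mulVec_add, map_add, hf1 _ (hU g hg a ha), hf2 _ (hWg g hg b hb), map_add, hf1 a ha,
    hf2 b hb, add_zero, add_zero]

/-- Matrices which commute with the stabiliser belong to the family. -/
lemma AC_of_comm (fam : RFam H A) (huni : uni ℚ H.D.o Unit ∈ AQ A Unit)
    (hinv : arr (kp Unit H.Qir) ∈ AQ A (Unit ⊕ Unit)) {p : Matrix ι ι ℂ}
    (hp : ∀ g, FixA A g → p * g = g * p) : ar2 (p * cQ H.Qir) ∈ AC A (Fin (1 + 1)) := by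
  refine AC_of_fix fam huni hinv fun g hg => ?_
  rw [kp_ar2]
  congr 1
  have h3 := FixA_form hinv hg
  calc g * (p * cQ H.Qir) * gᵀ = (g * p) * cQ H.Qir * gᵀ := by simp only [Matrix.mul_assoc]
    _ = p * (g * cQ H.Qir * gᵀ) := by rw [← hp g hg]; simp only [Matrix.mul_assoc]
    _ = _ := by rw [h3]

end Pool.Agent.L0h10.RU
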