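import Pool.Agent.L0h10.RP.Wcw

/-!
# The bounded power theorem, with a part of the generators
-/

set_option linter.unusedSectionVars false

namespace Pool.Agent.L0h10.RP

open Matrix Pool.Agent.N996.BP Pool.Agent.N996.FP ComplexConjugate ComplexOrder

variable {ι : Type} [Fintype ι] [DecidableEq ι] {H : HData ι} {x z : Matrix ι ι ℂ} {n : ℕ}

/-- The Lie algebra is spanned by brackets and by the generators with the property `p`. -/
def GenBy (H : HData ι) (p : H.S → Prop) : Prop :=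
  ∀ m ∈ hn H, m ∈ Submodule.span ℂ ({m | ∃ a ∈ hn H, ∃ b ∈ hn H, m = a * b - b * a} ∪
    {m | ∃ σ, p σ ∧ m = cji H (Ng H σ)})

/-- **Relations between the characters.** -/
lemma char_relX {p : H.S → Prop} (hp : GenBy H p) (hz : ∀ w ∈ hn H, z * w = w * z)
    (hx : IsReg (hn H) x) (B : Bz (hn H) x z ⊤ n)
    {S : Fin n → Finset (Fin n)} (hS : ∀ k i, i ∈ S k ↔ B.T i - B.T k ∈ QL (hn H) x)
    (y : Fin n → ℕ) (hy : ∀ σ : H.S, p σ → ∑ k, (y k : ℂ) *
      ((∑ j ∈ S k, B.T j) * cji H (Ng H σ)).trace = 0) :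
    ∑ k, (y k : ℂ) • ∑ j ∈ S k, B.T j = 0 := by
  let R := Σ k : Fin n, Fin (y k)
  let κ := Σ r : R, Fin (S r.1).card
  obtain ⟨δ, hδ⟩ : ∃ δ : (κ → ι) → ℂ, δ = bt fun r : R => wS B.v (S r.1) := ⟨_, rfl⟩
  have hδ0 : δ ≠ 0 := by
    rw [hδ]
    exact bt_ne fun r => wS_ne B.li _
  have hact : ∀ w ∈ hn H, dk κ w *ᵥ δ =
      (∑ k, (y k : ℂ) * ((∑ j ∈ S k, B.T j) * w).trace) • δ := by
    intro w hw
    have h1 := dk_bt_eig (w := w) (p := fun r : R => wS B.v (S r.1))
      (s := fun r => ((∑ j ∈ S r.1, B.T j) * w).trace) fun r =>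
        delta_actH hz hx B (hS r.1) hw
    rw [hδ, h1]
    congr 1
    rw [Fintype.sum_sigma]
    refine Finset.sum_congr rfl fun k _ => ?_
    change ∑ _ : Fin (y k), ((∑ j ∈ S k, B.T j) * w).trace = _
    rw [Finset.sum_const, Finset.card_univ, Fintype.card_fin, nsmul_eq_mul]
  have hlin : ∀ w, (∑ k, (y k : ℂ) * ((∑ j ∈ S k, B.T j) * w).trace) =
      ((∑ k, (y k : ℂ) • ∑ j ∈ S k, B.T j) * w).trace := by
    intro w
    rw [Finset.sum_mul, Matrix.trace_sum]
    refine Finset.sum_congr rfl fun k _ => ?_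
    rw [Matrix.smul_mul, Matrix.trace_smul, smul_eq_mul]
  have hall : ∀ m ∈ hn H, ((∑ k, (y k : ℂ) • ∑ j ∈ S k, B.T j) * m).trace = 0 := by
    intro m hm
    have h0 := hp m hm
    clear hm
    induction h0 using Submodule.span_induction with
    | mem m hm =>
      rcases hm with ⟨a, ha, b, hb, rfl⟩ | ⟨σ, hσ, rfl⟩
      · have hab : a * b - b * a ∈ hn H := (isLA_hn H).lie a ha b hb
        have h1 := hact _ hab
        have h2 : dk κ (a * b - b * a) *ᵥ δ = 0 := by
          have h3 : dk κ (a * b - b * a) = br (dk κ a) (dk κ b) := dk_br (κ := κ) a b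
          rw [h3, br, Matrix.sub_mulVec, ← Matrix.mulVec_mulVec, ← Matrix.mulVec_mulVec,
            hact a ha, hact b hb, Matrix.mulVec_smul, Matrix.mulVec_smul, hact a ha, hact b hb,
            smul_smul, smul_smul, mul_comm, sub_self]
        rw [h2, hlin] at h1
        exact (smul_eq_zero.1 h1.symm).resolve_right hδ0
      · rw [← hlin]
        exact hy σ hσ
    | zero => rw [Matrix.mul_zero, Matrix.trace_zero]
    | add a b _ _ ha hb => rw [Matrix.mul_add, Matrix.trace_add, ha, hb, add_zero]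
    | smul c a _ ha => rw [Matrix.mul_smul, Matrix.trace_smul, ha, smul_zero]
  exact ct_nondeg (isLA_hn H) hx.herm (Submodule.sum_mem _ fun k _ => Submodule.smul_mem _ _
    (Submodule.sum_mem _ fun i _ => (B.wt i).mem)) fun t ht => hall t ht.1

/-- The characters have small integral values on the generators. -/
lemma char_intX {w : ℕ} {σ : H.S} (hE : ∀ (u : ι → ℂ), u ≠ 0 → ∀ μ : ℂ,
      Ng H σ *ᵥ u = μ • u → ∃ a : ℤ, |a| ≤ w ∧ μ = a)
    (hz : ∀ w ∈ hn H, z * w = w * z)
    (hx : IsReg (hn H) x) (B : Bz (hn H) x z ⊤ n) {k : Fin n}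
    {S : Finset (Fin n)} (hS : ∀ i, i ∈ S ↔ B.T i - B.T k ∈ QL (hn H) x) :
    ∃ a : ℤ, |a| ≤ (w : ℤ) * S.card ∧ ((∑ j ∈ S, B.T j) * cji H (Ng H σ)).trace = a := by
  classical
  have hw : cji H (Ng H σ) ∈ hn H := by rw [mem_hn, cj_cji]; exact Ng_mem σ
  obtain ⟨w', hwe⟩ : ∃ w', w' = cji H (Ng H σ) := ⟨_, rfl⟩
  rw [← hwe] at hw ⊢
  -- the eigenvalues
  have heig : ∀ v : ι → ℂ, v ≠ 0 → ∀ μ : ℂ, w' *ᵥ v = μ • v → ∃ a : ℤ, |a| ≤ w ∧ μ = a := by
    intro v hv0 μ hμ
    obtain ⟨v', hv'⟩ : ∃ v', v' = Mi H *ᵥ v := ⟨_, rfl⟩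
    have h0 : v = Mm H *ᵥ v' := by
      rw [hv', Matrix.mulVec_mulVec, Mm_Mi, Matrix.one_mulVec]
    have h1 : Ng H σ *ᵥ v' = μ • v' := by
      have h2 : Ng H σ = Mi H * w' * Mm H := by
        rw [hwe]; exact (cj_cji H (Ng H σ)).symm
      rw [h2, ← Matrix.mulVec_mulVec, ← h0, ← Matrix.mulVec_mulVec, hμ, Matrix.mulVec_smul, ← hv']
    have hv'0 : v' ≠ 0 := by
      rintro h4
      apply hv0
      rw [h0, h4, Matrix.mulVec_zero]
    exact hE v' hv'0 μ h1
  rw [char_valH hz hx B hS hw]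
  let u : Fin n → (⊤ : Submodule ℂ (ι → ℂ)) := fun j => ⟨w' *ᵥ (B.v j : ι → ℂ),
    memTop _ (B.v j).2⟩
  let E : Matrix S S ℂ := Matrix.of fun i j => B.bas.repr (u j) i
  obtain ⟨a, ha1, ha2⟩ := int_traceW (w := w) E fun c hc μ hμ => by
    let v : (⊤ : Submodule ℂ (ι → ℂ)) := ∑ j : S, c j • B.v j
    have hv0 : v ≠ 0 := by
      intro h0
      apply hc
      funext j
      have h1 := congrArg (fun v => B.bas.repr v j) h0
      simp only [v, map_sum, map_smul, Finsupp.finsetSum_apply, Finsupp.smul_apply,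
        smul_eq_mul, map_zero, Finsupp.zero_apply] at h1
      rw [Finset.sum_eq_single j] at h1
      · rw [← B.bas_apply, Module.Basis.repr_self, Finsupp.single_eq_same, mul_one] at h1
        exact h1
      · intro b _ hb
        rw [← B.bas_apply, Module.Basis.repr_self, Finsupp.single_apply,
          if_neg (fun h => hb (Subtype.ext h)), mul_zero]
      · intro h; exact absurd (Finset.mem_univ _) h
    refine heig v (fun h => hv0 (Subtype.ext h)) μ ?_
    have h1 : (⟨w' *ᵥ (v : ι → ℂ), memTop _ v.2⟩ : (⊤ : Submodule ℂ (ι → ℂ))) =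
        ∑ j : S, c j • u j := by
      apply Subtype.ext
      simp only [v, Submodule.coe_sum, Submodule.coe_smul, Matrix.mulVec_sum,
        Matrix.mulVec_smul, u]
    have h2 : (⟨w' *ᵥ (v : ι → ℂ), memTop _ v.2⟩ : (⊤ : Submodule ℂ (ι → ℂ))) = μ • v := by
      rw [h1]
      apply B.bas.repr.injective
      ext i
      rw [map_sum, Finsupp.finsetSum_apply, map_smul, Finsupp.smul_apply]
      simp only [map_smul, Finsupp.smul_apply, smul_eq_mul, v, map_sum,
        Finsupp.finsetSum_apply]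
      by_cases hi : i ∈ S
      · have h3 := congrFun hμ ⟨i, hi⟩
        rw [Matrix.mulVec, dotProduct, Pi.smul_apply, smul_eq_mul] at h3
        rw [Finset.sum_congr rfl fun (j : S) _ => mul_comm (c j) (B.bas.repr (u j) i)]
        change ∑ j : S, B.bas.repr (u j) i * c j = _
        change ∑ j : S, B.bas.repr (u j) i * c j = _ at h3
        rw [h3, Finset.sum_eq_single (⟨i, hi⟩ : S)]
        · rw [← B.bas_apply, Module.Basis.repr_self, Finsupp.single_eq_same, mul_one]
        · intro b _ hb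
          rw [← B.bas_apply, Module.Basis.repr_self, Finsupp.single_apply,
            if_neg (fun h => hb (Subtype.ext h)), mul_zero]
        · intro h; exact absurd (Finset.mem_univ _) h
      · rw [Finset.sum_eq_zero, Finset.sum_eq_zero, mul_zero]
        · intro j _
          rw [← B.bas_apply, Module.Basis.repr_self, Finsupp.single_apply,
            if_neg (fun h : (j : Fin n) = i => hi (h ▸ j.2)), mul_zero]
        · intro j _
          have h3 : B.bas.repr (u j) i = 0 := stab_cosetH hx B hS hw j.2 hi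
          rw [h3, mul_zero]
    exact congrArg Subtype.val h2
  refine ⟨a, ?_, ?_⟩
  · rwa [Fintype.card_coe] at ha1
  · rw [← ha2, Matrix.trace, ← Finset.sum_coe_sort S]
    rfl

/-- **The bound for irreducible multisets of weights.** -/
theorem irr_countX {q : H.S → Prop} (hq : GenBy H q) {w : ℕ} (hw1 : 1 ≤ w)
    (hE : ∀ (σ : H.S), q σ → ∀ (u : ι → ℂ), u ≠ 0 → ∀ μ : ℂ,
      Ng H σ *ᵥ u = μ • u → ∃ a : ℤ, |a| ≤ w ∧ μ = a)
    (hz : ∀ w ∈ hn H, z * w = w * z) {t g : ℕ}
    (ht : Fintype.card ι ≤ t + Module.finrank ℂ (Z0 H)) (hg : t ≤ 2 * g + 1)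
    (hx : IsReg (hn H) x) (hz0 : ∀ v ∈ Z0 H, z *ᵥ v = v) (B : Bz (hn H) x z ⊤ n)
    {s : Multiset (Fin n)} (hs : B.tot s = 0)
    (hirr : ∀ t ≤ s, B.tot t ∈ QL (hn H) x → t = 0 ∨ t = s) (i : Fin n) (p : Fin n → Prop)
    [DecidablePred p] (hp : ∀ j, p j → B.T j - B.T i ∈ QL (hn H) x) :
    (s.filter p).card ≤ max 2 ((w * g ^ 2) ^ g) := by
  classical
  by_cases h2i : 2 • B.T i ∈ QL (hn H) x
  · exact (B.count_le hirr two_pos le_rfl h2i p hp).trans (le_max_left _ _)
  by_cases hcs : s.card ≤ 2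
  · exact ((Multiset.card_le_card (Multiset.filter_le p s)).trans hcs).trans (le_max_left _ _)
  push Not at hcs
  refine le_trans ?_ (le_max_right _ _)
  rcases Multiset.empty_or_exists_mem (s.filter p) with h0 | ⟨j₀, hj₀⟩
  · rw [h0, Multiset.card_zero]
    exact Nat.zero_le _
  have hj₀s := Multiset.mem_of_mem_filter hj₀
  have hj₀p := hp j₀ (Multiset.of_mem_filter hj₀)
  -- the classes
  let Pc : Fin n → Fin n → Prop := fun a c => B.T a - B.T c ∈ QL (hn H) x
  have hPc : ∀ a c, Pc a c ↔ B.T a - B.T c ∈ QL (hn H) x := fun _ _ => Iff.rfl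
  have hrefl : ∀ a, Pc a a := fun a => by
    rw [hPc, sub_self]; exact (QL _ x).zero_mem
  have hsymm : ∀ {a b}, Pc a b → Pc b a := fun {a b} h => by
    rw [hPc] at h ⊢
    have := (QL _ x).neg_mem h
    rwa [neg_sub] at this
  have htrans : ∀ {a b c}, Pc a b → Pc b c → Pc a c := fun {a b c} h h' => by
    rw [hPc] at h h' ⊢
    have := (QL _ x).add_mem h h'
    rwa [sub_add_sub_cancel] at this
  let S : Fin n → Finset (Fin n) := fun k => Finset.univ.filter fun j => Pc j k
  have hS : ∀ k i, i ∈ S k ↔ B.T i - B.T k ∈ QL (hn H) x := fun k i => by simp [S, Pc]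
  have hSne : ∀ k, (S k).Nonempty := fun k => ⟨k, (hS k k).2 (hrefl k)⟩
  let rep : Fin n → Fin n := fun k => (S k).min' (hSne k)
  have hrep : ∀ k, Pc (rep k) k := fun k => (hS k _).1 ((S k).min'_mem (hSne k))
  have hSeq : ∀ {a b}, Pc a b → S a = S b := fun {a b} h => by
    ext c
    rw [hS, hS]
    exact ⟨fun h' => htrans h' h, fun h' => htrans h' (hsymm h)⟩
  have hrepeq : ∀ {a b}, Pc a b → rep a = rep b := fun {a b} h => by
    simp only [rep, hSeq h]
  -- the opposite classes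
  have hopp : ∀ i j, (2 • B.T i ∉ QL (hn H) x ∧ ∃ j ∈ s, Pc i j) →
      (2 • B.T j ∉ QL (hn H) x ∧ ∃ i ∈ s, Pc j i) → B.T i + B.T j ∉ QL (hn H) x := by
    rintro i j ⟨hi, i', hi's, hii⟩ ⟨hj, j', hj's, hjj⟩ hij
    by_cases hne : i' = j'
    · subst hne
      apply hi
      have h1 := (QL _ x).add_mem hij ((QL _ x).sub_mem hii hjj)
      have h2 : B.T i + B.T j + (B.T i - B.T i' - (B.T j - B.T i')) = 2 • B.T i := by
        rw [two_nsmul]; abel
      rwa [h2] at h1
    · have h1 : i' ::ₘ ({j'} : Multiset (Fin n)) ≤ s := by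
        rw [Multiset.le_iff_count]
        intro a
        rw [Multiset.count_cons, Multiset.count_singleton]
        by_cases h3 : a = j'
        · have h4 : a ≠ i' := fun h => hne (h ▸ h3)
          rw [if_pos h3, if_neg h4, h3]
          exact Multiset.one_le_count_iff_mem.2 hj's
        · rw [if_neg h3]
          by_cases h4 : a = i'
          · rw [if_pos h4, h4]
            exact Multiset.one_le_count_iff_mem.2 hi's
          · rw [if_neg h4]
            exact Nat.zero_le _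
      have h2 : B.tot (i' ::ₘ ({j'} : Multiset (Fin n))) ∈ QL (hn H) x := by
        rw [B.tot_cons, Bz.tot, Multiset.map_singleton, Multiset.sum_singleton]
        have h3 := (QL _ x).sub_mem hij ((QL _ x).add_mem hii hjj)
        have h4 : B.T i + B.T j - (B.T i - B.T i' + (B.T j - B.T j')) = B.T i' + B.T j' := by
          abel
        rwa [h4] at h3
      rcases hirr _ h1 h2 with h3 | h3
      · exact Multiset.cons_ne_zero h3
      · rw [← h3, Multiset.card_cons, Multiset.card_singleton] at hcs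
        omega
  let U : Finset (Fin n) := Finset.univ.filter fun i => 2 • B.T i ∉ QL (hn H) x ∧ ∃ j ∈ s, Pc i j
  have hU : ∀ i, i ∈ U ↔ (2 • B.T i ∉ QL (hn H) x ∧ ∃ j ∈ s, Pc i j) := fun i => by simp [U]
  have hUg : U.card ≤ g := by
    have h1 := half_ofH ht hx hz0 B U fun i hi j hj h0 => by
      refine hopp i j ((hU i).1 hi) ((hU j).1 hj) ?_
      rw [h0]
      exact (QL _ x).zero_mem
    omega
  let R : Finset (Fin n) := U.filter fun c => rep c = c
  have hR : ∀ c, c ∈ R ↔ c ∈ U ∧ rep c = c := fun c => by simp [R]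
  have hUrep : ∀ i ∈ U, rep i ∈ R := by
    intro i hi
    obtain ⟨h1, j, hj, hij⟩ := (hU i).1 hi
    refine (hR _).2 ⟨(hU _).2 ⟨fun h3 => h1 ?_, j, hj, htrans (hrep i) hij⟩,
      hrepeq (hrep i)⟩
    have h4 := (QL _ x).nsmul_mem (hrep i) 2
    have h5 := (QL _ x).sub_mem h3 h4
    have h6 : 2 • B.T (rep i) - 2 • (B.T (rep i) - B.T i) = 2 • B.T i := by
      rw [smul_sub, sub_sub_cancel]
    rwa [h6] at h5
  have hdis : ∀ a, ∀ c ∈ R, ∀ c' ∈ R, Pc a c → Pc a c' → c = c' := by
    intro a c hc c' hc' h h'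
    rw [← ((hR c).1 hc).2, ← ((hR c').1 hc').2]
    exact hrepeq (htrans (hsymm h) h')
  have hSU : ∀ c ∈ R, S c ⊆ U := by
    intro c hc j hj
    have hjc : Pc j c := (hS c j).1 hj
    obtain ⟨h1, j', hj', hcj'⟩ := (hU c).1 ((hR c).1 hc).1
    refine (hU j).2 ⟨fun h3 => h1 ?_, j', hj', htrans hjc hcj'⟩
    have h4 := (QL _ x).nsmul_mem hjc 2
    have h5 := (QL _ x).sub_mem h3 h4
    have h6 : 2 • B.T j - 2 • (B.T j - B.T c) = 2 • B.T c := by
      rw [smul_sub, sub_sub_cancel]
    rwa [h6] at h5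
  have hmg : ∀ c ∈ R, (S c).card ≤ g := fun c hc => (Finset.card_le_card (hSU c hc)).trans hUg
  have hRg : R.card ≤ g := (Finset.card_le_card (Finset.filter_subset _ _)).trans hUg
  -- the data of the relations
  choose lam hlam1 hlam2 using fun (c : R) (σ : {σ : H.S // q σ}) =>
    char_intX (hE σ.1 σ.2) hz hx B (hS c)
  let m : R → ℕ := fun c => (S c).card
  let nn : R → ℕ := fun c => (s.filter fun a => Pc a c).card
  have hm0 : ∀ c : R, 0 < m c := fun c => Finset.card_pos.2 (hSne c)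
  have hDm : ∀ c, ∑ j ∈ S c, B.T j - (S c).card • B.T c ∈ QL (hn H) x := by
    intro c
    have h4 : ∑ j ∈ S c, (B.T j - B.T c) ∈ QL (hn H) x :=
      (QL (hn H) x).sum_mem fun j hj => (hS c j).1 hj
    rwa [Finset.sum_sub_distrib, Finset.sum_const] at h4
  have hQt : ∀ (t q : Matrix ι ι ℂ), (∀ q ∈ QL (hn H) x, (t * q).trace = 0) →
      q ∈ QL (hn H) x → (q * t).trace = 0 := fun t q ht hq => by
    rw [Matrix.trace_mul_comm]; exact ht q hq
  -- the relation
  obtain ⟨Δ, hΔ⟩ : ∃ Δ : Matrix ι ι ℂ, Δ = ∑ c : R, ((nn c : ℂ) / (m c : ℂ)) •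
    ∑ j ∈ S c, B.T j := ⟨_, rfl⟩
  have hΔH : Δᴴ = Δ := by
    rw [hΔ, Matrix.conjTranspose_sum]
    refine Finset.sum_congr rfl fun c _ => ?_
    rw [Matrix.conjTranspose_smul, Matrix.conjTranspose_sum]
    congr 1
    · rw [star_div₀]
      simp
    · exact Finset.sum_congr rfl fun j _ => (B.wt j).herm
  have hΔQ : ∀ q ∈ QL (hn H) x, (Δ * q).trace = 0 := by
    intro q hq
    rw [hΔ, Finset.sum_mul, Matrix.trace_sum]
    refine Finset.sum_eq_zero fun c _ => ?_
    rw [Matrix.smul_mul, Matrix.trace_smul, char_rootH hz hx B (hS c) hq, smul_zero]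
  have hΔ0 : Δ = 0 := by
    -- values on the weights
    let F : Fin n → ℂ := fun a => (B.T a * Δ).trace
    have hker : ∀ q ∈ QL (hn H) x, (q * Δ).trace = 0 := fun q hq => hQt Δ q hΔQ hq
    have h1 := sum_classes (P := Pc) (⊥ : AddSubgroup ℂ) F R hdis (fun a c _ hac => by
        rw [AddSubgroup.mem_bot]
        change (B.T a * Δ).trace - (B.T c * Δ).trace = 0
        rw [← Matrix.trace_sub, ← Matrix.sub_mul]
        exact hker _ hac) s (fun a ha hna => by
        rw [AddSubgroup.mem_bot]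
        change (B.T a * Δ).trace = 0
        by_cases h2a : 2 • B.T a ∈ QL (hn H) x
        · have h3 := hker _ h2a
          rw [two_nsmul, Matrix.add_mul, Matrix.trace_add] at h3
          rwa [← two_mul, mul_eq_zero, or_iff_right two_ne_zero] at h3
        · exfalso
          exact hna (rep a) (hUrep a ((hU a).2 ⟨h2a, a, ha, hrefl a⟩)) (hsymm (hrep a)))
    rw [AddSubgroup.mem_bot, sub_eq_zero] at h1
    have h2 : (s.map F).sum = 0 := by
      have h3 : ∀ u : Multiset (Fin n), (u.map F).sum = (B.tot u * Δ).trace := by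
        intro u
        induction u using Multiset.induction_on with
        | empty =>
          rw [Multiset.map_zero, Multiset.sum_zero, Bz.tot, Multiset.map_zero,
            Multiset.sum_zero, Matrix.zero_mul, Matrix.trace_zero]
        | cons a u ih =>
          rw [Multiset.map_cons, Multiset.sum_cons, ih, B.tot_cons, Matrix.add_mul,
            Matrix.trace_add]
      rw [h3, hs, Matrix.zero_mul, Matrix.trace_zero]
    have h3 : (Δ * Δ).trace = 0 := by
      have h4 : (Δ * Δ).trace = ∑ c : R, (nn c : ℂ) * F c := by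
        conv_lhs => rw [hΔ]
        rw [Finset.sum_mul, Matrix.trace_sum]
        refine Finset.sum_congr rfl fun c _ => ?_
        rw [Matrix.smul_mul, Matrix.trace_smul, smul_eq_mul, ← hΔ]
        have h5 : ((∑ j ∈ S c, B.T j) * Δ).trace = (m c : ℂ) * F c := by
          have h6 := hker _ (hDm c)
          rw [Matrix.sub_mul, Matrix.trace_sub, sub_eq_zero] at h6
          rw [h6, Matrix.smul_mul, Matrix.trace_smul, nsmul_eq_mul]
        rw [h5]
        have h7 : (m c : ℂ) ≠ 0 := by exact_mod_cast (hm0 c).ne'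
        field_simp
      rw [h4, Finset.sum_coe_sort R (fun c => ((s.filter fun a => Pc a c).card : ℂ) * F c),
        ← h2, h1]
      exact Finset.sum_congr rfl fun c _ => (nsmul_eq_mul _ _).symm
    have h4 : nsq Δ = 0 := by rw [nsq, hΔH]; exact h3
    exact nsq_eq_zero h4
  have hrel : IsRel lam fun c => (nn c : ℚ) / (m c : ℚ) := by
    intro σ
    have h1 : (Δ * cji H (Ng H σ)).trace = 0 := by
      rw [hΔ0, Matrix.zero_mul, Matrix.trace_zero]
    rw [hΔ, Finset.sum_mul, Matrix.trace_sum] at h1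
    have h2 : ∑ c : R, (((nn c : ℚ) / (m c : ℚ) * (lam c σ : ℚ) : ℚ) : ℂ) = 0 := by
      rw [← h1]
      refine Finset.sum_congr rfl fun c _ => ?_
      rw [Matrix.smul_mul, Matrix.trace_smul, smul_eq_mul, hlam2 c σ]
      push_cast
      rfl
    exact_mod_cast h2
  -- irreducibility
  have hirr2 : ∀ y : R → ℕ, y ≠ 0 → IsRel lam (fun c => (y c : ℚ)) →
      (∀ c, m c * y c ≤ nn c) → ∀ c, m c * y c = nn c := by
    intro y hy0 hyr hyn
    let y' : Fin n → ℕ := fun c => if h : c ∈ R then y ⟨c, h⟩ else 0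
    have hy' : ∀ c : R, y' c = y c := fun c => by simp only [y']; rw [dif_pos c.2]
    have hy'' : ∀ c, c ∉ R → y' c = 0 := fun c hc => by simp only [y']; rw [dif_neg hc]
    have h1 : ∑ k, (y' k : ℂ) • ∑ j ∈ S k, B.T j = 0 := by
      refine char_relX hq hz hx B hS y' fun σ hσ => ?_
      have h2 : ∑ k, (y' k : ℂ) * ((∑ j ∈ S k, B.T j) * cji H (Ng H σ)).trace =
          ∑ c : R, (((y c : ℚ) * (lam c ⟨σ, hσ⟩ : ℚ) : ℚ) : ℂ) := by
        rw [← Finset.sum_subset (Finset.subset_univ R), ← Finset.sum_coe_sort R]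
        · refine Finset.sum_congr rfl fun c _ => ?_
          rw [hy' c, hlam2 c ⟨σ, hσ⟩]
          push_cast
          rfl
        · intro c _ hc
          rw [hy'' c hc, Nat.cast_zero, zero_mul]
      rw [h2, ← Rat.cast_sum, hyr ⟨σ, hσ⟩, Rat.cast_zero]
    obtain ⟨t, hts, htc, htP⟩ := exists_sub (P := Pc) s (fun c => (S c).card * y' c) R hdis
      (fun c hc => by
        have h2 := hyn ⟨c, hc⟩
        rw [← hy' ⟨c, hc⟩] at h2
        exact h2)
    have htQ : B.tot t ∈ QL (hn H) x := by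
      have h2 := sum_classes (P := Pc) (QL (hn H) x) B.T R hdis (fun a c _ hac => hac) t
        (fun a ha hna => by
          obtain ⟨c, hc, hac⟩ := htP a ha
          exact absurd hac (hna c hc))
      rw [Finset.sum_congr rfl fun c hc => by rw [htc c hc]] at h2
      have h3 : ∑ c ∈ R, y' c • ((S c).card • B.T c - ∑ j ∈ S c, B.T j) ∈ QL (hn H) x := by
        refine (QL (hn H) x).sum_mem fun c _ => (QL (hn H) x).nsmul_mem ?_ _
        have := (QL (hn H) x).neg_mem (hDm c)
        rwa [neg_sub] at this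
      have h4 : ∑ c ∈ R, y' c • ∑ j ∈ S c, B.T j = 0 := by
        rw [← h1, ← Finset.sum_subset (Finset.subset_univ R)]
        · refine Finset.sum_congr rfl fun c _ => ?_
          rw [Nat.cast_smul_eq_nsmul]
        · intro c _ hc
          rw [hy'' c hc, Nat.cast_zero, zero_smul]
      simp only [smul_sub, Finset.sum_sub_distrib] at h3
      rw [h4, sub_zero] at h3
      have h5 := (QL (hn H) x).add_mem h2 h3
      have h6 : (t.map B.T).sum - ∑ c ∈ R, ((S c).card * y' c) • B.T c +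
          ∑ c ∈ R, y' c • (S c).card • B.T c = (t.map B.T).sum := by
        have h7 : ∑ c ∈ R, ((S c).card * y' c) • B.T c = ∑ c ∈ R, y' c • (S c).card • B.T c :=
          Finset.sum_congr rfl fun c _ => by rw [smul_smul, mul_comm]
        rw [h7, sub_add_cancel]
      rw [h6] at h5
      exact h5
    intro c
    rcases hirr t hts htQ with h2 | h2
    · exfalso
      apply hy0
      funext c
      have h3 := htc c c.2
      rw [h2, Multiset.filter_zero, Multiset.card_zero, hy' c] at h3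
      exact (Nat.mul_eq_zero.1 h3.symm).resolve_left (hm0 c).ne'
    · have h3 := htc c c.2
      rw [h2, hy' c] at h3
      exact h3.symm
  -- the bound
  have hl : ∀ (c : R) (σ : {σ : H.S // q σ}), |lam c σ| ≤ ((w * g : ℕ) : ℤ) := fun c σ =>
    (hlam1 c σ).trans (by
      push_cast
      exact mul_le_mul_of_nonneg_left (by exact_mod_cast hmg c c.2) (by positivity))
  have hiU : i ∈ U := (hU i).2 ⟨h2i, j₀, hj₀s, hsymm hj₀p⟩
  have hc₀ : rep i ∈ R := hUrep i hiU
  have hg1 : 1 ≤ g := (Finset.card_pos.2 ⟨i, hiU⟩).trans_le hUg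
  have hwg1 : 1 ≤ w * g := Nat.mul_pos hw1 hg1
  have hfin := irr_bound hwg1 hl hm0 hrel hirr2 ⟨rep i, hc₀⟩
  have h1 : (s.filter p).card ≤ nn ⟨rep i, hc₀⟩ := by
    refine Multiset.card_le_card (Multiset.monotone_filter_right s fun a ha => ?_)
    exact htrans (hp a ha) (hsymm (hrep i))
  refine h1.trans (hfin.trans ?_)
  rw [Fintype.card_coe]
  have h3 : 1 ≤ R.card := Finset.card_pos.2 ⟨_, hc₀⟩
  have h4 : (R.card * (w * g)) ^ (R.card - 1) ≤ (g * (w * g)) ^ (g - 1) := by
    have h5 : 1 ≤ g * (w * g) := Nat.mul_pos hg1 hwg1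
    exact (Nat.pow_le_pow_left (Nat.mul_le_mul_right (w * g) hRg) _).trans
      (Nat.pow_le_pow_right h5 (by omega))
  calc m ⟨rep i, hc₀⟩ * (R.card * (R.card * (w * g)) ^ (R.card - 1)) ≤
      g * (g * (g * (w * g)) ^ (g - 1)) :=
        Nat.mul_le_mul (hmg _ hc₀) (Nat.mul_le_mul hRg h4)
    _ = g * g * (w * g ^ 2) ^ (g - 1) := by ring
    _ ≤ (w * g ^ 2) * (w * g ^ 2) ^ (g - 1) := by
        refine Nat.mul_le_mul_right _ ?_
        rw [← pow_two]
        exact Nat.le_mul_of_pos_left _ hw1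
    _ = (w * g ^ 2) ^ g := by
        obtain ⟨g', rfl⟩ : ∃ g', g = g' + 1 := ⟨g - 1, by omega⟩
        rw [Nat.add_sub_cancel, ← pow_succ']

/-- **The general case.** -/
theorem fix_genX {q : H.S → Prop} (hq : GenBy H q) {w : ℕ} (hw1 : 1 ≤ w)
    (hE : ∀ (σ : H.S), q σ → ∀ (u : ι → ℂ), u ≠ 0 → ∀ μ : ℂ,
      Ng H σ *ᵥ u = μ • u → ∃ a : ℤ, |a| ≤ w ∧ μ = a) {N t : ℕ}
    (h4 : 4 ≤ N) (htN : (w * t) ^ t ≤ N) (ht : Fintype.card ι ≤ t + Module.finrank ℂ (Z0 H))
    {g : Matrix ι ι ℂ} (hfix : ∀ (κ : Type) [Fintype κ] [DecidableEq κ], Fintype.card κ ≤ N →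
      Fixes H g κ) : g ∈ So H := by
  classical
  refine fix_of_le (M := max 2 ((w * (t / 2) ^ 2) ^ (t / 2))) h4 ?_ ht
    (fun z x m B hx hz hz0 s hs hirr i h2 p _ hp => ?_) hfix
  · obtain ⟨g, hg⟩ : ∃ g, g = t / 2 := ⟨_, rfl⟩
    rw [← hg]
    rw [max_eq_right (le_max_left 2 ((w * g ^ 2) ^ g)), mul_comm, mul_max]
    have ht1 : t ≤ N ∨ t = 0 := by
      rcases Nat.eq_zero_or_pos t with h0 | h0
      · exact Or.inr h0
      · left
        refine le_trans ?_ htN
        calc t ≤ w * t := Nat.le_mul_of_pos_left _ hw1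
          _ ≤ (w * t) ^ t := Nat.le_self_pow h0.ne' _
    refine max_le (by rcases ht1 with h | h <;> omega) ?_
    rw [Nat.mul_comm]
    rcases Nat.lt_or_ge t 2 with h2 | h2
    · have hg0 : g = 0 := by omega
      rw [hg0, pow_zero, one_mul]
      omega
    · refine le_trans ?_ (Nat.mul_le_mul_left 2 htN)
      have hg1 : 1 ≤ g := by omega
      have h2g : 2 * g ≤ t := by omega
      have h5 : 4 ^ g * (w * g ^ 2) ^ g ≤ w ^ t * t ^ (2 * g) := by
        calc 4 ^ g * (w * g ^ 2) ^ g = (w * (2 * g) ^ 2) ^ g := by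
              rw [← mul_pow]; congr 1; ring
          _ ≤ (w * t ^ 2) ^ g := Nat.pow_le_pow_left
              (Nat.mul_le_mul_left _ (Nat.pow_le_pow_left h2g 2)) _
          _ = w ^ g * t ^ (2 * g) := by rw [mul_pow, ← pow_mul]
          _ ≤ w ^ t * t ^ (2 * g) := Nat.mul_le_mul_right _
              (Nat.pow_le_pow_right hw1 (by omega))
      rcases (by omega : t = 2 * g ∨ t = 2 * g + 1) with h6 | h6
      · -- even
        have h7 : t ≤ 2 * 4 ^ g := by
          have h8 : g < 4 ^ g := Nat.lt_pow_self (by norm_num)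
          omega
        have h9 : (w * g ^ 2) ^ g * t ≤ 2 * (4 ^ g * (w * g ^ 2) ^ g) := by
          calc (w * g ^ 2) ^ g * t ≤ (w * g ^ 2) ^ g * (2 * 4 ^ g) := Nat.mul_le_mul_left _ h7
            _ = _ := by ring
        refine h9.trans (Nat.mul_le_mul_left 2 (h5.trans ?_))
        rw [mul_pow, ← h6]
      · -- odd
        have h9 : (w * g ^ 2) ^ g * t ≤ 4 ^ g * (w * g ^ 2) ^ g * t :=
          Nat.mul_le_mul_right _ (Nat.le_mul_of_pos_left _ (by positivity))
        have h10 : 4 ^ g * (w * g ^ 2) ^ g * t ≤ (w * t) ^ t := by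
          calc 4 ^ g * (w * g ^ 2) ^ g * t ≤ w ^ t * t ^ (2 * g) * t :=
                Nat.mul_le_mul_right _ h5
            _ = w ^ t * t ^ (2 * g + 1) := by ring
            _ = (w * t) ^ t := by rw [← h6, mul_pow]
        have h11 := h9.trans h10
        omega
  · have hg2 : t ≤ 2 * (t / 2) + 1 := by omega
    exact irr_countX hq hw1 hE hz ht hg2 hx hz0 B hs hirr i p hp

end Pool.Agent.L0h10.RP
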