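import Pool.Agent.L0h10.RU.Cas3
import Pool.Agent.L0h10.RU.Wcx
import Pool.Agent.L0h10.RT.Int

/-!
# Hodge-Tate matrices
-/

set_option linter.unusedSectionVars false

namespace Pool.Agent.L0h10.RU

open Matrix Module
open Pool.Agent.N996.BP Pool.Agent.N996.FP
open Pool.Agent.L0h10.TS (ar2 ar2_inj ar2_surj dk_ar2 kp_ar2 dk_rei dk_empty dk_mulVec_apply GRep
  desc_sol desc_span dv dv_eq dv_map)
open Pool.Agent.L0h10.RQ

variable {ι : Type} [Fintype ι] [DecidableEq ι] {deg : ι → ℕ}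

/-- The coordinate vectors are combinations of eigenvectors with small integral eigenvalues of the
same parity as the degree. -/
def IsHTm (deg : ι → ℕ) (w : ℕ) (y : Matrix ι ι ℂ) : Prop :=
  ∀ i, (Pi.single i (1 : ℂ) : ι → ℂ) ∈ Submodule.span ℂ
    {u | ∃ m : ℤ, |m| ≤ w ∧ m % 2 = (deg i : ℤ) % 2 ∧ y *ᵥ u = (m : ℂ) • u}

lemma sum_single (v : ι → ℂ) : v = ∑ i, v i • (Pi.single i (1 : ℂ) : ι → ℂ) := by
  funext k
  rw [Finset.sum_apply, Finset.sum_eq_single k]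
  · rw [Pi.smul_apply, Pi.single_eq_same, smul_eq_mul, mul_one]
  · intro b _ hb
    rw [Pi.smul_apply, Pi.single_eq_of_ne (Ne.symm hb), smul_zero]
  · intro h; exact absurd (Finset.mem_univ k) h

lemma IsHTm.isInt {w : ℕ} {y : Matrix ι ι ℂ} (h : IsHTm deg w y) : IsInt w y := by
  refine isInt_of fun v => ?_
  rw [sum_single v]
  refine Submodule.sum_mem _ fun i _ => Submodule.smul_mem _ _ (Submodule.span_mono ?_ (h i))
  rintro u ⟨m, h1, -, h2⟩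
  exact ⟨m, h1, h2⟩

lemma isIdem_pj {w : ℕ} {y : Matrix ι ι ℂ} {π : ℤ → Matrix ι ι ℂ} (h : IsPj w y π) :
    IsIdem (Finset.Icc (-w : ℤ) w) π where
  one := h.sum
  mul _ hk _ hl := h.mul hk hl

/-- Arrays killed by an integral matrix are fixed by its one-parameter group. -/
lemma fix_pj {w : ℕ} {y : Matrix ι ι ℂ} {π : ℤ → Matrix ι ι ℂ} (h : IsPj w y π) {κ : Type}
    [Fintype κ] [DecidableEq κ] {c : (κ → ι) → ℂ} (hc : dk κ y *ᵥ c = 0) {t : ℂ} (ht : t ≠ 0) :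
    kp κ (∑ k ∈ Finset.Icc (-w : ℤ) w, t ^ k • π k) *ᵥ c = c := by
  have hI := isIdem_pj h
  have h1 : Fd κ (Finset.Icc (-w : ℤ) w) π (fun m => (m : ℂ)) *ᵥ c = 0 := by
    rw [Fd_dk hI, h.eq_sum]
    exact hc
  have h2 : (fun m : ℤ => t ^ m) =
      fun m : ℤ => (fun _ : ℤ => (1 : ℂ)) m +
        (fun m : ℤ => (fun m : ℤ => ((t ^ m - 1) / m)) m *
          (fun m : ℤ => (m : ℂ)) m) m := by
    funext m
    simp only
    by_cases hm : m = 0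
    · rw [hm]; simp
    · have hm' : (m : ℂ) ≠ 0 := by exact_mod_cast hm
      rw [div_mul_cancel₀ _ hm']
      ring
  rw [← Fd_kp ht, h2, Fd_add, Matrix.add_mulVec, Fd_one hI, Matrix.one_mulVec,
    ← Fd_mul hI, ← Matrix.mulVec_mulVec, h1, Matrix.mulVec_zero, add_zero]

/-- The projectors at an eigenvector. -/
lemma pj_eig {w : ℕ} {y : Matrix ι ι ℂ} {π : ℤ → Matrix ι ι ℂ} (h : IsPj w y π) {m : ℤ}
    {u : ι → ℂ} (hu : y *ᵥ u = (m : ℂ) • u) {k : ℤ} (hk : k ∈ Finset.Icc (-w : ℤ) w)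
    (hkm : k ≠ m) : π k *ᵥ u = 0 := by
  have h1 : (k : ℂ) • (π k *ᵥ u) = (m : ℂ) • (π k *ᵥ u) := by
    rw [← Matrix.smul_mulVec, ← h.right k hk, ← Matrix.mulVec_mulVec, hu, Matrix.mulVec_smul]
  rw [← sub_eq_zero, ← sub_smul, smul_eq_zero, sub_eq_zero] at h1
  rcases h1 with h2 | h2
  · exact absurd (by exact_mod_cast h2) hkm
  · exact h2

lemma neg_one_par {m : ℤ} {d : ℕ} (h : m % 2 = (d : ℤ) % 2) : (-1 : ℂ) ^ m = (-1) ^ d := by
  rcases Nat.even_or_odd d with hd | hd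
  · have h1 : Even m := by
      rw [Int.even_iff, h]
      obtain ⟨r, rfl⟩ := hd
      omega
    rw [h1.neg_one_zpow, hd.neg_one_pow]
  · have h1 : Odd m := by
      rw [Int.odd_iff, h]
      obtain ⟨r, rfl⟩ := hd
      omega
    rw [h1.neg_one_zpow, hd.neg_one_pow]

/-- The parity. -/
lemma IsHTm.par {w : ℕ} {y : Matrix ι ι ℂ} (h : IsHTm deg w y) {π : ℤ → Matrix ι ι ℂ}
    (hπ : IsPj w y π) : ∑ k ∈ Finset.Icc (-w : ℤ) w, (-1 : ℂ) ^ k • π k =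
      Matrix.diagonal fun i => (-1 : ℂ) ^ deg i := by
  apply Matrix.mulVec_injective
  funext v
  change (∑ k ∈ Finset.Icc (-w : ℤ) w, (-1 : ℂ) ^ k • π k) *ᵥ v =
    (Matrix.diagonal fun i => (-1 : ℂ) ^ deg i) *ᵥ v
  rw [sum_single v, Matrix.mulVec_sum, Matrix.mulVec_sum]
  refine Finset.sum_congr rfl fun i _ => ?_
  rw [Matrix.mulVec_smul, Matrix.mulVec_smul]
  congr 1
  have key : ∀ u ∈ Submodule.span ℂ
      {u | ∃ m : ℤ, |m| ≤ w ∧ m % 2 = (deg i : ℤ) % 2 ∧ y *ᵥ u = (m : ℂ) • u},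
      (∑ k ∈ Finset.Icc (-w : ℤ) w, (-1 : ℂ) ^ k • π k) *ᵥ u = (-1 : ℂ) ^ deg i • u := by
    intro u hu
    induction hu using Submodule.span_induction with
    | mem u hu =>
      obtain ⟨m, h1, h2, h3⟩ := hu
      have hm : m ∈ Finset.Icc (-w : ℤ) w := by
        rw [Finset.mem_Icc]; exact abs_le.1 h1
      have h4 : π m *ᵥ u = u := by
        have h5 : (∑ k ∈ Finset.Icc (-w : ℤ) w, π k) *ᵥ u = u := by
          rw [hπ.sum, Matrix.one_mulVec]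
        rw [Matrix.sum_mulVec, Finset.sum_eq_single m (fun k hk hkm => pj_eig hπ h3 hk hkm)
          (fun h => absurd hm h)] at h5
        exact h5
      rw [Matrix.sum_mulVec, Finset.sum_eq_single m (fun k hk hkm => by
        rw [Matrix.smul_mulVec, pj_eig hπ h3 hk hkm, smul_zero]) (fun h => absurd hm h),
        Matrix.smul_mulVec, h4, neg_one_par h2]
    | zero => rw [Matrix.mulVec_zero, smul_zero]
    | add a b _ _ ha hb => rw [Matrix.mulVec_add, ha, hb, smul_add]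
    | smul r a _ ha => rw [Matrix.mulVec_smul, ha, smul_comm]
  rw [key _ (h i)]
  funext k
  rw [Matrix.mulVec_diagonal, Pi.smul_apply, smul_eq_mul]
  by_cases hk : k = i
  · subst hk; rfl
  · rw [Pi.single_eq_of_ne hk, mul_zero, mul_zero]

/-- Arrays of odd degree are not killed by Hodge-Tate matrices. -/
lemma IsHTm.odd {w : ℕ} {y : Matrix ι ι ℂ} (h : IsHTm deg w y) {κ : Type} [Fintype κ]
    [DecidableEq κ] {d : ℕ} {c : (κ → ι) → ℂ} (hc : dk κ y *ᵥ c = 0)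
    (hs : ∀ w, c w ≠ 0 → ∑ i, deg (w i) = d) (hd : ¬ Even d) : c = 0 := by
  obtain ⟨π, hπ⟩ := h.isInt
  have h1 := fix_pj hπ hc (t := -1) (neg_ne_zero.2 one_ne_zero)
  rw [h.par hπ, kp_par _ c hs, (Nat.not_even_iff_odd.1 hd).neg_one_pow, neg_smul, one_smul] at h1
  exact self_eq_neg.1 h1.symm

/-- Eigenvalues of integral matrices. -/
lemma eig_int {w : ℕ} {y : Matrix ι ι ℂ} (h : IsInt w y) {u : ι → ℂ} (hu : u ≠ 0) {μ : ℂ}
    (hμ : y *ᵥ u = μ • u) : ∃ a : ℤ, |a| ≤ w ∧ μ = a := by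
  obtain ⟨π, hπ⟩ := h
  obtain ⟨k, hk, hku⟩ : ∃ k ∈ Finset.Icc (-w : ℤ) w, π k *ᵥ u ≠ 0 := by
    by_contra hcon
    push Not at hcon
    apply hu
    rw [← Matrix.one_mulVec u, ← hπ.sum, Matrix.sum_mulVec]
    exact Finset.sum_eq_zero hcon
  refine ⟨k, abs_le.2 (Finset.mem_Icc.1 hk), ?_⟩
  have h1 : (k : ℂ) • (π k *ᵥ u) = μ • (π k *ᵥ u) := by
    rw [← Matrix.smul_mulVec, ← hπ.right k hk, ← Matrix.mulVec_mulVec, hμ, Matrix.mulVec_smul]
  rw [← sub_eq_zero, ← sub_smul, smul_eq_zero, or_iff_left hku, sub_eq_zero] at h1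
  exact h1.symm

section

variable {H : HData ι} {A : ∀ n : ℕ, Submodule ℚ ((Fin (n + 1) → ι) → ℚ)}
  {T : ∀ n : ℕ, Submodule ℂ ((Fin (n + 1) → ι) → ℂ)}

/-- The situation with integral elements. -/
theorem Dat0.dat_of (D : Dat0 H A T) {w : ℕ}
    (hw : LT T ≤ Submodule.span ℂ {y | y ∈ LT T ∧ IsInt w y}) : Dat H A T w := by
  refine ⟨D.fam, D.huni, D.hinv, D.le, fun n c hc => D.gen n c fun y hy => ?_, D.two, D.proj⟩
  have h1 := hw hy
  clear hy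
  induction h1 using Submodule.span_induction with
  | mem y hy => exact hc y hy.1 hy.2
  | zero =>
    have h2 : dk (Fin (n + 1)) (0 : Matrix ι ι ℂ) = 0 := (dkL (Fin (n + 1))).map_zero
    rw [h2, Matrix.zero_mulVec]
  | add a b _ _ ha hb =>
    have h2 : dk (Fin (n + 1)) (a + b) = dk (Fin (n + 1)) a + dk (Fin (n + 1)) b :=
      (dkL (Fin (n + 1))).map_add a b
    rw [h2, Matrix.add_mulVec, ha, hb, add_zero]
  | smul r a _ ha =>
    have h2 : dk (Fin (n + 1)) (r • a) = r • dk (Fin (n + 1)) a :=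
      (dkL (Fin (n + 1))).map_smul r a
    rw [h2, Matrix.smul_mulVec, ha, smul_zero]

variable (T) in
/-- The Lie algebra is spanned by commutators and by Hodge-Tate matrices. -/
def HTGen (deg : ι → ℕ) (w : ℕ) : Prop :=
  ∀ y ∈ LT T, y ∈ Submodule.span ℂ ({m | ∃ a ∈ LT T, ∃ b ∈ LT T, m = a * b - b * a} ∪
    {m | m ∈ LT T ∧ IsHTm deg w m})

/-- The generators. -/
lemma genBy_of {w w' : ℕ} (D : Dat H A T w') (hw : w ≤ w') (h : HTGen T deg w) :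
    RP.GenBy D.hd fun σ => IsHTm deg w σ.1 := by
  intro m hm
  have h1 := h _ (D.mem_hn.1 hm)
  have h2 : m = RP.cji D.hd (RP.cj D.hd m) := (RP.cji_cj D.hd m).symm
  have e1 : ∀ x, RP.cji D.hd x = nz H x := fun x => rfl
  rw [h2, e1]
  generalize RP.cj D.hd m = y at h1
  induction h1 using Submodule.span_induction with
  | mem y hy =>
    rcases hy with ⟨a, ha, b, hb, rfl⟩ | ⟨hy, hy'⟩
    · refine Submodule.subset_span (Or.inl ⟨nz H a, ?_, nz H b, ?_, ?_⟩)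
      · rw [D.mem_hn, ← e1, RP.cj_cji]; exact ha
      · rw [D.mem_hn, ← e1, RP.cj_cji]; exact hb
      · rw [nz_sub, nz_mul, nz_mul]
    · let σ : D.hd.S := (⟨y, hy, isInt_mono hw hy'.isInt⟩ : SS T w')
      have h3 : nz H y = RP.cji D.hd (RP.Ng D.hd σ) := by
        rw [D.Ng_eq σ]
        rfl
      exact Submodule.subset_span (Or.inr ⟨σ, hy', h3⟩)
  | zero =>
    have h0 : nz H (0 : Matrix ι ι ℂ) = 0 := by rw [nz, Matrix.mul_zero, Matrix.zero_mul]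
    rw [h0]
    exact Submodule.zero_mem _
  | add a b _ _ ha hb => rw [nz_add]; exact Submodule.add_mem _ ha hb
  | smul r a _ ha => rw [nz_smul]; exact Submodule.smul_mem _ _ ha

end

variable {ℓ : ℕ} [hℓ : Fact ℓ.Prime]
  {Γ : Type*} [Group Γ] [TopologicalSpace Γ] {P : GRep deg ℚ_[ℓ] Γ} {j : ℚ_[ℓ] →+* ℂ}
  {H : HData ι} {A : ∀ n : ℕ, Submodule ℚ ((Fin (n + 1) → ι) → ℚ)} {N : ℕ}

namespace Crd2

variable [IsTopologicalGroup Γ] [CompactSpace Γ] (D : Crd2 deg j P H A N)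
include D

/-- All invariants are combinations of Tate arrays. -/
theorem TI_le_HT {w : ℕ} {y : Matrix ι ι ℂ} (hy : y ∈ LT (TT j P)) (hy' : IsHTm deg w y)
    {n : ℕ} {c : (Fin (n + 1) → ι) → ℂ} (hc : c ∈ TI j P n) : c ∈ TT j P n := by
  obtain ⟨Δ, hQ⟩ := D.form
  refine TI_even D.cts D.hd hQ hc fun d hd => ?_
  exact hy'.odd (TI_hpart D.hd hQ hc d _ hy) (fun w hw => hpart_supp w hw) hd

/-- **Semisimple Lie algebras.** -/
theorem all_tr2 {w : ℕ} {y : Matrix ι ι ℂ} (hy : y ∈ LT (TT j P)) (hy' : IsHTm deg w y)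
    (hcen : ∀ y ∈ LT (TT j P), (∀ z ∈ LT (TT j P), y * z = z * y) → y = 0)
    {S : Submodule ℚ_[ℓ] (ι → ℚ_[ℓ])}
    (hS : ∀ b ∈ S, (fun w : Fin (0 + 1) → ι => j (b (w 0))) ∈ TT j P 0)
    (htN : finrank ℚ_[ℓ] ((ι → ℚ_[ℓ]) ⧸ S) ^ 2 / 4 ≤ N) (n : ℕ) :
    ∀ c ∈ TT j P n, c ∈ AC A (Fin (n + 1)) := by
  obtain ⟨w, DD⟩ := D.dat0.exists_dat
  intro c hc
  refine DD.all (N := N) (fun n hn c hc => D.small n hn c (D.TI_le_HT hy hy' hc))
    (fun g hfix => RP.fix_tr (fun σ y hy => ?_) D.hN htN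
      (card_le' DD fun b hb => TT_le_TI 0 (hS b hb)) hfix) n c (TT_le_TI n hc)
  obtain ⟨h1, -⟩ := DD.isC_iff.1 hy
  rw [DD.Ng_eq]
  exact DD.tr_comm (by rw [LT_TI]; exact hcen) h1 σ.2.1

/-- **The general case.** -/
theorem all_gen2 {w : ℕ} {y : Matrix ι ι ℂ} (hy : y ∈ LT (TT j P)) (hy' : IsHTm deg w y)
    (hG : HTGen (TT j P) deg w) {S : Submodule ℚ_[ℓ] (ι → ℚ_[ℓ])}
    (hS : ∀ b ∈ S, (fun w : Fin (0 + 1) → ι => j (b (w 0))) ∈ TT j P 0)
    (htN : (max 1 w * finrank ℚ_[ℓ] ((ι → ℚ_[ℓ]) ⧸ S)) ^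
      finrank ℚ_[ℓ] ((ι → ℚ_[ℓ]) ⧸ S) ≤ N) (n : ℕ) :
    ∀ c ∈ TT j P n, c ∈ AC A (Fin (n + 1)) := by
  obtain ⟨w₁, hw₁⟩ := D.dat0.exists_w
  have DD : Dat H A (TI j P) (max w w₁) :=
    D.dat0.dat_of (hw₁.trans (Dat0.spn_mono (le_max_right w w₁)))
  have hG' : HTGen (TI j P) deg w := by
    intro y hy
    have h1 := hG y (by rwa [← LT_TI])
    refine Submodule.span_mono ?_ h1
    rintro m (⟨a, ha, b, hb, rfl⟩ | ⟨h2, h3⟩)
    · exact Or.inl ⟨a, by rwa [LT_TI], b, by rwa [LT_TI], rfl⟩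
    · exact Or.inr ⟨by rwa [LT_TI], h3⟩
  intro c hc
  refine DD.all (N := N) (fun n hn c hc => D.small n hn c (D.TI_le_HT hy hy' hc))
    (fun g hfix => RP.fix_genX (genBy_of DD (le_max_left w w₁) hG') (le_max_left 1 w)
      (fun σ hσ u hu μ hμ => ?_) D.hN htN
      (card_le' DD fun b hb => TT_le_TI 0 (hS b hb)) hfix) n c (TT_le_TI n hc)
  rw [DD.Ng_eq] at hμ
  obtain ⟨a, ha, h1⟩ := eig_int hσ.isInt hu hμ
  exact ⟨a, ha.trans (by exact_mod_cast le_max_right 1 w), h1⟩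

end Crd2

end Pool.Agent.L0h10.RU
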