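import Pool.Agent.L0h10.RU.Semi
import Pool.Agent.L0h10.RU.HT

/-!
# Semisimplicity
-/

set_option linter.unusedSectionVars false

namespace Pool.Agent.L0h10.RU

open Matrix Module ComplexOrder
open Pool.Agent.N996.BP Pool.Agent.N996.FP
open Pool.Agent.L0h10.TS (ar2 ar2_inj ar2_surj dk_ar2 kp_ar2 dk_rei dk_empty dk_mulVec_apply GRep
  desc_sol dv dv_eq dv_map)
open Pool.Agent.L0h10.RQ

variable {ι : Type} [Fintype ι] [DecidableEq ι] {deg : ι → ℕ}
variable {H : HData ι} {A : ∀ n : ℕ, Submodule ℚ ((Fin (n + 1) → ι) → ℚ)} {N : ℕ}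

/-- **Orthogonal projectors.** -/
theorem exists_orp {S : Set (Matrix ι ι ℂ)} (hS : ∀ g ∈ S, ∃ g' ∈ S, nz H g' = (nz H g)ᴴ)
    {U : Submodule ℂ (ι → ℂ)} (hU : ∀ g ∈ S, ∀ u ∈ U, g *ᵥ u ∈ U) :
    ∃ p : Matrix ι ι ℂ, (∀ v, p *ᵥ v ∈ U) ∧ (∀ v ∈ U, p *ᵥ v = v) ∧
      ∀ g ∈ S, p * g = g * p := by
  classical
  let W : Submodule ℂ (ι → ℂ) :=
    { carrier := {v | ∀ u ∈ U, star (cR H.D.M *ᵥ u) ⬝ᵥ (cR H.D.M *ᵥ v) = 0}
      add_mem' := fun {a b} ha hb u hu => by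
        rw [Matrix.mulVec_add, dotProduct_add, ha u hu, hb u hu, add_zero]
      zero_mem' := fun u _ => by rw [Matrix.mulVec_zero, dotProduct_zero]
      smul_mem' := fun r a ha u hu => by
        rw [Matrix.mulVec_smul, dotProduct_smul, ha u hu, smul_zero] }
  have hW : ∀ v, v ∈ W ↔ ∀ u ∈ U, star (cR H.D.M *ᵥ u) ⬝ᵥ (cR H.D.M *ᵥ v) = 0 :=
    fun v => Iff.rfl
  have hdisj : ∀ v ∈ U, v ∈ W → v = 0 := by
    intro v hv hw
    have h1 := (hW v).1 hw v hv
    have h2 : cR H.D.M *ᵥ v = 0 := dotProduct_star_self_eq_zero.1 h1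
    have h3 : v = cR H.D.Mi *ᵥ (cR H.D.M *ᵥ v) := by
      rw [Matrix.mulVec_mulVec, Mi_M, Matrix.one_mulVec]
    rw [h3, h2, Matrix.mulVec_zero]
  have hc : IsCompl U W := by
    constructor
    · rw [Submodule.disjoint_def]
      exact hdisj
    · rw [codisjoint_iff, Submodule.eq_top_iff']
      intro v
      obtain ⟨u, hu, h1⟩ := exists_orth (cR H.D.M) U v
      exact Submodule.mem_sup.2 ⟨u, hu, v - u, (hW _).2 h1, by abel⟩
  have hWg : ∀ g ∈ S, ∀ v ∈ W, g *ᵥ v ∈ W := by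
    intro g hg v hv
    rw [hW] at hv ⊢
    intro u hu
    obtain ⟨g', hg', h1⟩ := hS g hg
    have h2 := hv _ (hU g' hg' u hu)
    have h3 : cR H.D.M * g' = (nz H g)ᴴ * cR H.D.M := by
      rw [← h1, nz, Matrix.mul_assoc, Mi_M, Matrix.mul_one]
    have h4 : cR H.D.M * g = nz H g * cR H.D.M := by
      rw [nz, Matrix.mul_assoc, Mi_M, Matrix.mul_one]
    rw [Matrix.mulVec_mulVec, h3, ← Matrix.mulVec_mulVec, Matrix.star_mulVec,
      Matrix.conjTranspose_conjTranspose, ← Matrix.dotProduct_mulVec] at h2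
    rw [Matrix.mulVec_mulVec, h4, ← Matrix.mulVec_mulVec]
    exact h2
  let f : (ι → ℂ) →ₗ[ℂ] (ι → ℂ) := U.subtype ∘ₗ U.projectionOnto W hc
  have hf0 : ∀ v, f v ∈ U := fun v => (U.projectionOnto W hc v).2
  have hf1 : ∀ v ∈ U, f v = v := by
    intro v hv
    change ((U.projectionOnto W hc v : U) : ι → ℂ) = v
    have := Submodule.projectionOnto_apply_left hc ⟨v, hv⟩
    rw [this]
  have hf2 : ∀ v ∈ W, f v = 0 := by
    intro v hv
    change ((U.projectionOnto W hc v : U) : ι → ℂ) = 0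
    have := Submodule.projectionOnto_apply_right hc ⟨v, hv⟩
    rw [this]
    rfl
  obtain ⟨p, hp⟩ : ∃ p, p = LinearMap.toMatrix' f := ⟨_, rfl⟩
  have hpv : ∀ v, p *ᵥ v = f v := by
    intro v
    rw [hp, ← Matrix.toLin'_apply, Matrix.toLin'_toMatrix']
  refine ⟨p, fun v => by rw [hpv]; exact hf0 v, fun v hv => by rw [hpv]; exact hf1 v hv,
    fun g hg => ?_⟩
  apply Matrix.mulVec_injective
  funext v
  change (p * g) *ᵥ v = (g * p) *ᵥ v
  rw [← Matrix.mulVec_mulVec, ← Matrix.mulVec_mulVec, hpv, hpv]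
  have hv : v ∈ U ⊔ W := by rw [hc.sup_eq_top]; exact Submodule.mem_top
  obtain ⟨a, ha, b, hb, rfl⟩ := Submodule.mem_sup.1 hv
  rw [Matrix.mulVec_add, map_add, hf1 _ (hU g hg a ha), hf2 _ (hWg g hg b hb), map_add, hf1 a ha,
    hf2 b hb, add_zero, add_zero]

/-- Subspaces stable under `2 ^ y` are stable under `y`. -/
lemma stab_two {w : ℕ} {y : Matrix ι ι ℂ} {π : ℤ → Matrix ι ι ℂ} (h : IsPj w y π)
    {U : Submodule ℂ (ι → ℂ)}
    (hU : ∀ u ∈ U, (∑ k ∈ Finset.Icc (-w : ℤ) w, (2 : ℂ) ^ k • π k) *ᵥ u ∈ U) :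
    ∀ u ∈ U, y *ᵥ u ∈ U := by
  classical
  intro u hu
  obtain ⟨s, hs⟩ : ∃ s, s = Finset.Icc (-w : ℤ) w := ⟨_, rfl⟩
  rw [← hs] at hU
  have key : ∀ p : Polynomial ℂ, (∑ k ∈ s, p.eval ((2 : ℂ) ^ k) • π k) *ᵥ u ∈ U := by
    intro p
    induction p using Polynomial.induction_on' with
    | add p q hp hq =>
      have h1 : ∑ k ∈ s, (p + q).eval ((2 : ℂ) ^ k) • π k =
          ∑ k ∈ s, p.eval ((2 : ℂ) ^ k) • π k + ∑ k ∈ s, q.eval ((2 : ℂ) ^ k) • π k := by
        rw [← Finset.sum_add_distrib]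
        refine Finset.sum_congr rfl fun k _ => ?_
        rw [Polynomial.eval_add, add_smul]
      rw [h1, Matrix.add_mulVec]
      exact Submodule.add_mem _ hp hq
    | monomial n a =>
      have h1 : ∀ n : ℕ, (∑ k ∈ s, ((2 : ℂ) ^ k) ^ n • π k) *ᵥ u ∈ U := by
        intro n
        induction n with
        | zero =>
          have h2 : ∑ k ∈ s, ((2 : ℂ) ^ k) ^ 0 • π k = 1 := by
            rw [← h.sum, ← hs]
            exact Finset.sum_congr rfl fun k _ => by rw [pow_zero, one_smul]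
          rw [h2, Matrix.one_mulVec]
          exact hu
        | succ n ih =>
          have h2 : ∑ k ∈ s, ((2 : ℂ) ^ k) ^ (n + 1) • π k =
              (∑ k ∈ s, (2 : ℂ) ^ k • π k) * ∑ k ∈ s, ((2 : ℂ) ^ k) ^ n • π k := by
            rw [Finset.sum_mul_sum]
            refine Finset.sum_congr rfl fun k hk => ?_
            rw [Finset.sum_eq_single k]
            · rw [Matrix.smul_mul, Matrix.mul_smul, smul_smul,
                h.mul (by rw [← hs]; exact hk) (by rw [← hs]; exact hk), if_pos rfl, pow_succ,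
                mul_comm]
            · intro l hl hlk
              rw [Matrix.smul_mul, Matrix.mul_smul,
                h.mul (by rw [← hs]; exact hk) (by rw [← hs]; exact hl), if_neg (Ne.symm hlk),
                smul_zero, smul_zero]
            · intro h3; exact absurd hk h3
          rw [h2, ← Matrix.mulVec_mulVec]
          exact hU _ ih
      have h2 : ∑ k ∈ s, (Polynomial.monomial n a).eval ((2 : ℂ) ^ k) • π k =
          a • ∑ k ∈ s, ((2 : ℂ) ^ k) ^ n • π k := by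
        rw [Finset.smul_sum]
        refine Finset.sum_congr rfl fun k _ => ?_
        rw [Polynomial.eval_monomial, smul_smul]
      rw [h2, Matrix.smul_mulVec]
      exact Submodule.smul_mem _ _ (h1 n)
  have hinj : Set.InjOn (fun k : ℤ => (2 : ℂ) ^ k) s := by
    intro a _ b _ hab
    have h1 : (2 : ℂ) ^ a = 2 ^ b := hab
    have h2 : (2 : ℝ) ^ a = 2 ^ b := by
      have h3 := congrArg norm h1
      rwa [norm_zpow, norm_zpow, Complex.norm_ofNat] at h3
    exact zpow_right_injective₀ two_pos (by norm_num) h2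
  have h1 := key (Lagrange.interpolate s (fun k : ℤ => (2 : ℂ) ^ k) fun k => (k : ℂ))
  have h2 : ∑ k ∈ s, (Lagrange.interpolate s (fun k : ℤ => (2 : ℂ) ^ k)
      fun k => (k : ℂ)).eval ((2 : ℂ) ^ k) • π k = y := by
    rw [← h.eq_sum, ← hs]
    refine Finset.sum_congr rfl fun k hk => ?_
    rw [Lagrange.eval_interpolate_at_node (fun k : ℤ => (k : ℂ)) hinj hk]
  rwa [h2] at h1

/-- Matrices which fix the array of the minors preserve the subspace. -/
lemma stab_mn {L : Type} [Field L] {j : L →+* ℂ} {U : Submodule L (ι → L)} {n : ℕ}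
    {B : Matrix (Fin (n + 1)) ι L} (hB : LinearIndependent L B.row)
    (hB1 : ∀ i, B.row i ∈ U)
    (hB2 : ∀ u ∈ U, ∃ c : Fin (n + 1) → L, u = ∑ i, c i • B.row i) {g : Matrix ι ι ℂ}
    (hg : kp (Fin (n + 1)) g *ᵥ (fun w => j (mn B w)) = fun w => j (mn B w)) :
    ∀ u ∈ Submodule.span ℂ {x | ∃ v ∈ U, x = fun i => j (v i)},
      g *ᵥ u ∈ Submodule.span ℂ {x | ∃ v ∈ U, x = fun i => j (v i)} := by
  have hrow : ∀ i, (fun t => j (B i t)) ∈
      Submodule.span ℂ {x | ∃ v ∈ U, x = fun i => j (v i)} := fun i =>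
    Submodule.subset_span ⟨B.row i, hB1 i, rfl⟩
  obtain ⟨w0, hw0⟩ := exists_mn hB
  have e1 : (fun w => j (mn B w)) = mn (B.map j) := by
    funext w
    rw [mn_map]
  rw [e1, kp_mn] at hg
  have hw : mn (B.map j) w0 ≠ 0 := by
    rw [mn_map]
    exact fun h => hw0 ((map_eq_zero j).1 h)
  obtain ⟨C, hC⟩ := eq_of_mn hg hw
  intro u hu
  induction hu using Submodule.span_induction with
  | mem x hx =>
    obtain ⟨v, hv, rfl⟩ := hx
    obtain ⟨c, hc⟩ := hB2 v hv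
    have h2 : (fun i => j (v i)) = ∑ i, j (c i) • fun t => j (B i t) := by
      funext t
      have h3 := congrArg j (congrFun hc t)
      rw [Finset.sum_apply, map_sum] at h3
      rw [Finset.sum_apply, h3]
      refine Finset.sum_congr rfl fun i _ => ?_
      rw [Pi.smul_apply, Pi.smul_apply, smul_eq_mul, smul_eq_mul, map_mul]
      rfl
    rw [h2, Matrix.mulVec_sum]
    refine Submodule.sum_mem _ fun i _ => ?_
    rw [Matrix.mulVec_smul]
    refine Submodule.smul_mem _ _ ?_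
    have h4 : g *ᵥ (fun t => j (B i t)) = ∑ k, C i k • fun t => j (B k t) := by
      funext t
      have h5 := congrFun (congrFun hC i) t
      rw [Matrix.mul_apply, Matrix.mul_apply] at h5
      rw [Matrix.mulVec, dotProduct, Finset.sum_apply]
      refine Eq.trans (Finset.sum_congr rfl fun k _ => ?_) (h5.trans (Finset.sum_congr rfl
        fun k _ => ?_))
      · rw [Matrix.transpose_apply, Matrix.map_apply, mul_comm]
      · rw [Pi.smul_apply, smul_eq_mul, Matrix.map_apply]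
    rw [h4]
    exact Submodule.sum_mem _ fun k _ => Submodule.smul_mem _ _ (hrow k)
  | zero => rw [Matrix.mulVec_zero]; exact Submodule.zero_mem _
  | add a b _ _ ha hb => rw [Matrix.mulVec_add]; exact Submodule.add_mem _ ha hb
  | smul r a _ ha => rw [Matrix.mulVec_smul]; exact Submodule.smul_mem _ _ ha

variable {L : Type} [Field L] [CharZero L] {Γ : Type*} [Group Γ] [TopologicalSpace Γ]

/-- The arrays of the minors of stable subspaces are Tate arrays. -/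
lemma mn_isT {P : GRep deg L Γ} {n : ℕ}
    (line : ∀ (d : ℕ) (b : (Fin (n + 1) → ι) → L), (∀ w, b w ≠ 0 → ∑ i, deg (w i) = d) →
      (∀ g, ∃ c : L, kp (Fin (n + 1)) (P.R g) *ᵥ b = c • b) → P.IsT n b)
    {U : Submodule L (ι → L)} (hU : ∀ g : Γ, ∀ u ∈ U, P.R g *ᵥ u ∈ U)
    (hδ : ∀ u ∈ U, Matrix.diagonal (fun i => (2 : L) ^ deg i) *ᵥ u ∈ U)
    {B : Matrix (Fin (n + 1)) ι L} (hB : LinearIndependent L B.row)
    (hB1 : ∀ i, B.row i ∈ U)
    (hB2 : ∀ u ∈ U, ∃ c : Fin (n + 1) → L, u = ∑ i, c i • B.row i) : P.IsT n (mn B) := by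
  obtain ⟨w0, hw0⟩ := exists_mn hB
  obtain ⟨C, hC⟩ := exists_C hB1 hB2 hδ
  have h1 : kp (Fin (n + 1)) (Matrix.diagonal fun i => (2 : L) ^ deg i) *ᵥ mn B =
      C.det • mn B := by
    rw [kp_mn, hC, mn_mul]
  have h2 : ∀ w, mn B w ≠ 0 → (2 : L) ^ (∑ i, deg (w i)) = C.det := by
    intro w hw
    have h3 := congrFun h1 w
    rw [RQ.kp_diag, Pi.smul_apply, smul_eq_mul, Finset.prod_pow_eq_pow_sum] at h3
    exact mul_right_cancel₀ hw h3
  refine line (∑ i, deg (w0 i)) _ (fun w hw => ?_) fun g => ?_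
  · have h3 := (h2 w hw).trans (h2 w0 hw0).symm
    have h4 : (2 : ℕ) ^ (∑ i, deg (w i)) = 2 ^ (∑ i, deg (w0 i)) := by exact_mod_cast h3
    exact Nat.pow_right_injective le_rfl h4
  · obtain ⟨C', hC'⟩ := exists_C hB1 hB2 (hU g)
    exact ⟨C'.det, by rw [kp_mn, hC', mn_mul]⟩

variable {ℓ : ℕ} [hℓ : Fact ℓ.Prime] {P : GRep deg ℚ_[ℓ] Γ} {j : ℚ_[ℓ] →+* ℂ}

/-- Subspaces stable under the Lie algebra. -/
theorem Crd2.exists_prs [IsTopologicalGroup Γ] [CompactSpace Γ] (D : Crd2 deg j P H A N)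
    {U : Submodule ℚ_[ℓ] (ι → ℚ_[ℓ])}
    (hδ : ∀ u ∈ U, Matrix.diagonal (fun i => (2 : ℚ_[ℓ]) ^ deg i) *ᵥ u ∈ U)
    (hstab : ∀ y ∈ LT (TT j P), ∀ u ∈ Submodule.span ℂ {x | ∃ v ∈ U, x = fun i => j (v i)},
      y *ᵥ u ∈ Submodule.span ℂ {x | ∃ v ∈ U, x = fun i => j (v i)}) :
    ∃ p : Matrix ι ι ℚ_[ℓ], (∀ v, p *ᵥ v ∈ U) ∧ (∀ v ∈ U, p *ᵥ v = v) ∧
      (∀ i k, deg i ≠ deg k → p i k = 0) ∧
      ∃ Δ : OpenSubgroup Γ, ∀ g ∈ Δ, p * P.R g = P.R g * p := by
  obtain ⟨Δ, hQ⟩ := D.form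
  obtain ⟨w, hw⟩ := D.dat0.exists_w
  obtain ⟨UC, hUC⟩ : ∃ UC : Submodule ℂ (ι → ℂ),
    UC = Submodule.span ℂ {x | ∃ v ∈ U, x = fun i => j (v i)} := ⟨_, rfl⟩
  rw [← hUC] at hstab
  have DD := D.dat0.dat_of hw
  obtain ⟨q, hq0, hq1, hqg⟩ := exists_orp (H := H) (S := {y | y ∈ LT (TI j P)}) (U := UC)
    (fun g hg => by
      obtain ⟨z, hz, h1⟩ := DD.exists_star hg
      refine ⟨z, hz, ?_⟩
      rw [← h1, Matrix.conjTranspose_conjTranspose]) (fun y hy => hstab y (by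
        rw [← LT_TI]; exact hy))
  rw [hUC] at hq0 hq1
  refine pr_desc hQ hδ hq0 hq1 (D.comm_TT' fun z hz => ?_)
  rw [← LT_TI] at hz
  exact (hqg z hz).symm

/-- **Semisimplicity.** -/
theorem Crd2.exists_pr [IsTopologicalGroup Γ] [CompactSpace Γ] (D : Crd2 deg j P H A N)
    (line : ∀ (n d : ℕ) (b : (Fin (n + 1) → ι) → ℚ_[ℓ]), n + 1 ≤ N →
      (∀ w, b w ≠ 0 → ∑ i, deg (w i) = d) →
      (∀ g, ∃ c : ℚ_[ℓ], kp (Fin (n + 1)) (P.R g) *ᵥ b = c • b) → P.IsT n b)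
    {U : Submodule ℚ_[ℓ] (ι → ℚ_[ℓ])} (hU : ∀ g : Γ, ∀ u ∈ U, P.R g *ᵥ u ∈ U)
    (hδ : ∀ u ∈ U, Matrix.diagonal (fun i => (2 : ℚ_[ℓ]) ^ deg i) *ᵥ u ∈ U)
    (hUN : finrank ℚ_[ℓ] U ≤ N) :
    ∃ p : Matrix ι ι ℚ_[ℓ], (∀ v, p *ᵥ v ∈ U) ∧ (∀ v ∈ U, p *ᵥ v = v) ∧
      (∀ i k, deg i ≠ deg k → p i k = 0) ∧
      ∃ Δ : OpenSubgroup Γ, ∀ g ∈ Δ, p * P.R g = P.R g * p := by
  obtain ⟨w, hw⟩ := D.dat0.exists_w
  obtain ⟨UC, hUC⟩ : ∃ UC : Submodule ℂ (ι → ℂ),
    UC = Submodule.span ℂ {x | ∃ v ∈ U, x = fun i => j (v i)} := ⟨_, rfl⟩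
  -- the Lie algebra preserves the subspace
  have hstab : ∀ y ∈ LT (TI j P), ∀ u ∈ UC, y *ᵥ u ∈ UC := by
    have h0 : ∀ y ∈ LT (TI j P), IsInt w y → ∀ u ∈ UC, y *ᵥ u ∈ UC := by
      intro y hy hi
      obtain ⟨π, hπ⟩ := hi
      refine stab_two hπ ?_
      rw [hUC]
      obtain ⟨d, hd⟩ : ∃ d, finrank ℚ_[ℓ] U = d := ⟨_, rfl⟩
      obtain ⟨B, hB, hB1, hB2⟩ := exists_rows U hd
      cases d with
      | zero =>
        have h0 : ∀ v ∈ U, v = 0 := by
          intro v hv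
          obtain ⟨c, hc⟩ := hB2 v hv
          rw [hc, Finset.univ_eq_empty, Finset.sum_empty]
        intro u hu
        have h1 : u = 0 := by
          induction hu using Submodule.span_induction with
          | mem x hx =>
            obtain ⟨v, hv, rfl⟩ := hx
            rw [h0 v hv]
            funext i
            exact map_zero j
          | zero => rfl
          | add a b _ _ ha hb => rw [ha, hb, add_zero]
          | smul r a _ ha => rw [ha, smul_zero]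
        rw [h1, Matrix.mulVec_zero]
        exact Submodule.zero_mem _
      | succ n =>
        refine stab_mn hB hB1 hB2 (fix_pj hπ ?_ two_ne_zero)
        have h1 := TT_of (j := j) (mn_isT (fun d b => line n d b (by omega)) hU hδ hB hB1 hB2)
        rw [LT_TI] at hy
        exact hy n _ h1
    intro y hy u hu
    have h1 := hw hy
    clear hy
    induction h1 using Submodule.span_induction with
    | mem y hy => exact h0 y hy.1 hy.2 u hu
    | zero => rw [Matrix.zero_mulVec]; exact Submodule.zero_mem _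
    | add a b _ _ ha hb => rw [Matrix.add_mulVec]; exact Submodule.add_mem _ ha hb
    | smul r a _ ha => rw [Matrix.smul_mulVec]; exact Submodule.smul_mem _ _ ha
  refine D.exists_prs hδ fun y hy => ?_
  rw [← hUC]
  exact hstab y (by rw [LT_TI]; exact hy)

end Pool.Agent.L0h10.RU
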