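import Pool.Agent.L0h10.RT.Core2
import Pool.Agent.L0h10.RU.Semi2
import Pool.Agent.N996.FP.Geo4

/-!
# The situation in coordinates
-/

set_option linter.unusedSectionVars false

open CategoryTheory AlgebraicGeometry TensorProduct Matrix

universe u v

namespace Pool.Agent.L0h10.RU

open Module
open Pool.Agent.H914 Pool.Agent.H914.VarClass Pool.Agent.H914.VarClass.Obj
  Pool.Agent.H914.WeilCohomology
open Pool.Agent.Y121.AHS
open Pool.Agent.Y133.Half (pw pfst psnd wb wb_zero wb_succ ClassPred PH)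
open Pool.Agent.Y121.AH (hodgePred)
open Pool.Agent.N996.BP Pool.Agent.N996.FP Pool.Agent.N996.BP.Geo
open Pool.Agent.N996.FP.Geo (form_gr)
open Pool.Agent.L0h10.TS (GaloisAction IsTate cross_one isDeg_mapL mapL_em mapL_smL mapL_add
  mapL_zero smL_one emL_add emL_smul emL_zero exists_cl ve emL_clw cL toRep isT_iff isDeg_ve
  wb_mem hp desc_span ar2 ar2_inj ar2_surj kp_ar2 sum_fin2 GRep isTp_iff vB vB_apply gal_vB mt
  isDeg_vB Q_gr Operators IsInfinitesimal KillsTate opOf opOf_zero inf_eq opOf_kill up_ve up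
  IsComb jj vB_inj vB_smul smL_eq ActsSemisimply ss_coord gal_ve ve_smul)
open Pool.Agent.L0h10.RQ Pool.Agent.L0h10.RT

section Par

variable {k : Type u} [Field k] {𝒱 : VarClass k} {ops : CycleOps 𝒱}
  {T : Pool.Agent.Y121.AH.HodgeTheory ops} {X : 𝒱.Obj}

lemma lpar_gr {i : ℕ} {y : ℂ ⊗[T.W.K] T.W.H X}
    (hy : y ∈ (T.W.gr X i).baseChange ℂ) (hF : DirectSum.IsInternal (Fx T X)) :
    dG hF (fun k => (-1 : ℂ) ^ k) y = (-1 : ℂ) ^ i • y := by
  rw [Submodule.baseChange_eq_span] at hy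
  have key : ∀ x ∈ (⨆ s : {s : ℤ × ℤ // s.1 + s.2 = i}, Fx T X s.1),
      dG hF (fun k => (-1 : ℂ) ^ k) x = (-1 : ℂ) ^ i • x := by
    intro x hx
    refine Submodule.iSup_induction (fun s : {s : ℤ × ℤ // s.1 + s.2 = i} => Fx T X s.1)
      (motive := fun x => dG hF (fun k => (-1 : ℂ) ^ k) x = (-1 : ℂ) ^ i • x) hx ?_ ?_ ?_
    · rintro ⟨⟨a, b⟩, hr⟩ x hx
      rw [dG_apply hF _ hx]
      congr 1
      refine neg_one_par ?_
      have hr' : a + b = i := hr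
      omega
    · rw [map_zero, smul_zero]
    · intro x y hx hy; rw [map_add, hx, hy, smul_add]
  induction hy using Submodule.span_induction with
  | mem x hx =>
    obtain ⟨c, hc, rfl⟩ := hx
    exact key _ (T.dec.span hc)
  | zero => rw [map_zero, smul_zero]
  | add x y _ _ hx hy => rw [map_add, hx, hy, smul_add]
  | smul c x _ hx => rw [map_smul, hx, smul_comm]

/-- The parity of the Weil operator. -/
lemma par_of {ι : Type} [Fintype ι] [DecidableEq ι] {e : Basis ι T.W.K (T.W.H X)} {deg : ι → ℕ}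
    (hdeg : ∀ i, e i ∈ T.W.gr X (deg i)) {H : HData ι}
    (hF : DirectSum.IsInternal (Fx T X))
    (hH : ∀ t : ℂ, t ≠ 0 → H.l t = mG hF e (fun k => t ^ k)) :
    H.l (-1) = Matrix.diagonal fun i => (-1 : ℂ) ^ deg i := by
  apply Matrix.mulVec_injective
  funext v
  change H.l (-1) *ᵥ v = (Matrix.diagonal fun i => (-1 : ℂ) ^ deg i) *ᵥ v
  rw [sum_single v, Matrix.mulVec_sum, Matrix.mulVec_sum]
  refine Finset.sum_congr rfl fun i _ => ?_
  rw [Matrix.mulVec_smul, Matrix.mulVec_smul]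
  congr 1
  have h1 : crd e ((1 : ℂ) ⊗ₜ[T.W.K] e i) = Pi.single i 1 := by
    funext k
    rw [crd_tmul, one_mul, Basis.repr_self, Finsupp.single_apply, Pi.single_apply]
    by_cases hk : i = k
    · rw [if_pos hk, if_pos hk.symm, map_one]
    · rw [if_neg hk, if_neg (Ne.symm hk), map_zero]
  have h2 := lpar_gr (T := T) (X := X) (i := deg i)
    (Submodule.tmul_mem_baseChange_of_mem (1 : ℂ) (hdeg i)) hF
  have h3 := congrArg (crd e) h2
  rw [crd_dG, ← hH _ (neg_ne_zero.2 one_ne_zero)] at h3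
  have h4 : crd e ((-1 : ℂ) ^ deg i • ((1 : ℂ) ⊗ₜ[T.W.K] e i)) =
      (-1 : ℂ) ^ deg i • crd e ((1 : ℂ) ⊗ₜ[T.W.K] e i) := by
    rw [crd, crd, map_smul]
    rfl
  rw [h4, h1] at h3
  rw [h3]
  funext k
  rw [Matrix.mulVec_diagonal, Pi.smul_apply, smul_eq_mul]
  by_cases hk : k = i
  · subst hk; rfl
  · rw [Pi.single_eq_of_ne hk, mul_zero, mul_zero]

end Par

variable {k : Type u} [Field k] {𝒱 : VarClass k} {ops : CycleOps 𝒱} {T : HodgeTheory ops}
  {X : 𝒱.Obj} {Γ : Type v} [Group Γ] [TopologicalSpace Γ]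

section Def

variable {L : Type} [Field L] [Algebra T.W.K L] (G : GaloisAction T X Γ L)

/-- The representation is continuous. -/
def IsCts [TopologicalSpace L] : Prop :=
  Continuous G.χ ∧ ∀ (x : HL T.W L (pw X 0)) (f : HL T.W L (pw X 0) → L), IsLinearMap L f →
    Continuous fun g => f (G.ρ 0 g x)

/-- The stable lines are spanned by Tate classes. -/
def LinesTate (N : ℕ) : Prop := ∀ (n i : ℕ) (x : HL T.W L (pw X n)), n < N → IsDeg i x →
  (∀ g, ∃ c : L, smL c x = G.ρ n g x) → ∃ j, IsTate G n j x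

variable {G} {ι : Type} [Fintype ι] [DecidableEq ι] {e : Basis ι T.W.K (T.W.H X)} {deg : ι → ℕ}
  (hdeg : ∀ i, e i ∈ T.W.gr X (deg i))

lemma line_coord {N : ℕ} (h : LinesTate G N) (n d : ℕ) (b : (Fin (n + 1) → ι) → L)
    (hn : n + 1 ≤ N) (hb : ∀ w, b w ≠ 0 → ∑ i, deg (w i) = d)
    (hg : ∀ g, ∃ c : L, kp (Fin (n + 1)) ((toRep G e hdeg).R g) *ᵥ b = c • b) :
    (toRep G e hdeg).IsT n b := by
  refine (isT_iff G e hdeg).2 (h n d (ve L e n b) hn ((isDeg_ve hdeg).2 hb) fun g => ?_)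
  obtain ⟨c, hc⟩ := hg g
  refine ⟨c, ?_⟩
  rw [gal_ve]
  change kp (Fin (n + 1)) (mt (Z := X) e (G.ρ 0 g)) *ᵥ b = c • b at hc
  rw [hc, ve_smul]

end Def

variable {ℓ : ℕ} [hℓ : Fact ℓ.Prime] [Algebra T.W.K ℚ_[ℓ]] {G : GaloisAction T X Γ ℚ_[ℓ]}

lemma cts_coord {ι : Type} [Fintype ι] [DecidableEq ι] {e : Basis ι T.W.K (T.W.H X)} {deg : ι → ℕ}
    (hdeg : ∀ i, e i ∈ T.W.gr X (deg i)) (h : IsCts G) : Cts (toRep G e hdeg) where
  χ := h.1
  R i k := by
    have h1 := h.2 (vB ℚ_[ℓ] e (Pi.single k 1) : HL T.W ℚ_[ℓ] X)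
      (fun x => (vB ℚ_[ℓ] e).symm (show HL T.W ℚ_[ℓ] X from x) i)
      ⟨fun x y => by
        change (vB ℚ_[ℓ] e).symm ((show HL T.W ℚ_[ℓ] X from x) + (show HL T.W ℚ_[ℓ] X from y)) i = _
        rw [map_add]
        rfl, fun c x => by
        change (vB ℚ_[ℓ] e).symm (c • (show HL T.W ℚ_[ℓ] X from x)) i = _
        rw [map_smul]
        rfl⟩
    have h2 : (fun g => (vB ℚ_[ℓ] e).symm (show HL T.W ℚ_[ℓ] X from
        G.ρ 0 g (vB ℚ_[ℓ] e (Pi.single k 1) : HL T.W ℚ_[ℓ] X)) i) =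
        fun g => (toRep G e hdeg).R g i k := by
      funext g
      have h3 := gal_vB G e g (Pi.single k 1)
      have h4 : (vB ℚ_[ℓ] e).symm (show HL T.W ℚ_[ℓ] X from
          G.ρ 0 g (vB ℚ_[ℓ] e (Pi.single k 1) : HL T.W ℚ_[ℓ] X)) =
          mt (Z := X) e (G.ρ 0 g) *ᵥ Pi.single k 1 := by
        apply (vB ℚ_[ℓ] e).injective
        rw [LinearEquiv.apply_symm_apply]
        exact h3
      rw [h4, Matrix.mulVec_single_one, Matrix.col_apply]
      rfl
    rw [← h2]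
    exact h1

/-- The situation in coordinates. -/
structure Crd1 {ι : Type} [Fintype ι] [DecidableEq ι] (deg : ι → ℕ) (j : ℚ_[ℓ] →+* ℂ)
    (P : GRep deg ℚ_[ℓ] Γ) (H : HData ι)
    (A : ∀ n : ℕ, Submodule ℚ ((Fin (n + 1) → ι) → ℚ)) (N : ℕ) : Prop where
  hd : Hom2 deg H
  par : H.l (-1) = Matrix.diagonal fun i => (-1 : ℂ) ^ deg i
  fam : RFam H A
  huni : uni ℚ H.D.o Unit ∈ AQ A Unit
  le : ∀ n, ∀ a ∈ A n, ca a ∈ TT j P n
  form : ∃ Δ : OpenSubgroup Γ, InvQ j P H Δ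
  cts : Cts P
  hN : 4 ≤ N
  small : ∀ n, n + 1 ≤ N → ∀ c ∈ TT j P n, c ∈ AC A (Fin (n + 1))

namespace Crd1

variable {ι : Type} [Fintype ι] [DecidableEq ι] {deg : ι → ℕ} {j : ℚ_[ℓ] →+* ℂ}
  {P : GRep deg ℚ_[ℓ] Γ} {H : HData ι} {A : ∀ n : ℕ, Submodule ℚ ((Fin (n + 1) → ι) → ℚ)} {N : ℕ}

lemma crd2 (D : Crd1 deg j P H A N) (ss : HasPr j P) : Crd2 deg j P H A N :=
  ⟨D.hd, D.par, D.fam, D.huni, D.le, D.form, ss, D.cts, D.hN, D.small⟩

lemma hinv (D : Crd1 deg j P H A N) : arr (kp Unit H.Qir) ∈ AQ A (Unit ⊕ Unit) := by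
  obtain ⟨Δ, hQ⟩ := D.form
  have h1 := D.small 1 (by have := D.hN; omega) _ (Qi_TT D.hd hQ)
  have h2 : ar2 (cQ H.Qir) = ca (ar2 H.Qir) := rfl
  rw [h2] at h1
  have h3 := D.fam.rei e2.symm (AQ_of_AC h1)
  have h4 : rei e2.symm (ar2 H.Qir) = arr (kp Unit H.Qir) := by
    have h5 := rei_arr_Unit (kp Unit H.Qir) e2 rfl rfl
    have h6 : (Matrix.of fun i k => kp Unit H.Qir (fun _ => i) (fun _ => k)) = H.Qir := by
      ext i k
      rw [Matrix.of_apply, kp_apply, Fintype.prod_unique]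
    rw [h6] at h5
    rw [← h5, rei_rei, Equiv.self_trans_symm]
    rfl
  rwa [h4] at h3

lemma lin (D : Crd1 deg j P H A N)
    (line : ∀ (n d : ℕ) (b : (Fin (n + 1) → ι) → ℚ_[ℓ]), n + 1 ≤ N →
      (∀ w, b w ≠ 0 → ∑ i, deg (w i) = d) →
      (∀ g, ∃ c : ℚ_[ℓ], kp (Fin (n + 1)) (P.R g) *ᵥ b = c • b) → P.IsT n b) :
    Lin deg j P H A N :=
  ⟨D.hd, D.fam, D.huni, D.le, D.form, D.hinv, D.small, line⟩

end Crd1

theorem exists_crd1 {Q : ClassPred T.W} [IsTopologicalGroup Γ] [Nontrivial (T.W.H X)]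
    (j : ℚ_[ℓ] →+* ℂ)
    {ψ : Pool.Agent.N996.FP.RForm T.W X} (hψ : IsPHS (tauT (toH T)) (Fx (toH T) X) ψ X.dim)
    (hQH : ∀ n, Q.sp (pw X n) ≤ (hodgePred (toH T)).sp (pw X n))
    (hQT : QTate G Q) (hI : InvForm G (formL ℚ_[ℓ] ψ)) (hc : IsCts G)
    {N : ℕ} (hN : 4 ≤ N) (hT : TateQ G Q (N - 1)) :
    ∃ (ι : Type) (_ : Fintype ι) (_ : DecidableEq ι) (e : Basis ι T.W.K (T.W.H X)) (deg : ι → ℕ)
      (hdeg : ∀ i, e i ∈ T.W.gr X (deg i)) (H : HData ι) (r : ℂ),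
      cQ H.Qr = r • (fM e ψ)ᵀ ∧ Crd1 deg j (toRep G e hdeg) H (AA Q e) N := by
  classical
  have hnt : Nontrivial ((toH T).W.H X) := inferInstanceAs (Nontrivial (T.W.H X))
  obtain ⟨ι, _, _, e, o, deg, heo, hdeg⟩ := exists_ubasis (toH T).W X
  have ho : (1 : ℂ) ⊗ₜ[(toH T).W.K] e o ∈ Fx (toH T) X (0, 0) := by
    rw [heo]
    have h1 := (isHodge_one (T := toH T) (X := X)).2
    exact h1
  obtain ⟨H, hHo, hHw, hH, r, hr, hQ⟩ := hψ.exists_hdata2 e o ho
  have hd : Hom2 deg H := hom2_of (T := T) (e := e) hdeg hψ hQ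
  obtain ⟨Δ, hInv⟩ := invQ_of (T := T) (e := e) (G := G) (j := j) hdeg hψ hQ hI
  have hsmall : ∀ n, n + 1 ≤ N → TateQ G Q n := fun n hn =>
    tateQ_mono hQT (show n ≤ N - 1 by omega) hT
  have hT1 : TateQ G Q 1 := hsmall 1 (by omega)
  have hdp : dp T.W X ∈ Q.sp (pw X 1) := dp_Q (T := T) (e := e) hdeg hQT hT1 j
  -- the parities
  let p : ι → Fin 2 := fun j => ⟨deg j % 2, Nat.mod_lt _ two_pos⟩
  have hp : ∀ j, e j ∈ PH T.W X (p j : ℕ) := fun j =>
    PH.of' (by change deg j % 2 = (deg j % 2) % 2; omega) (hdeg j)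
  obtain ⟨q, hq, hqQ⟩ := exists_qQ (T := T) (e := e) hdeg hQT hT1 hInv hd
  have hqE : q ∈ PH T.W (X.prod X) 0 := Q.sys.even hq
  have hfam : RFam H (AA (T := T) Q e) :=
    { perm := fun n σ a ha => arrc_perm (W := T.W) hp hdp n σ ha
      tens := fun n m a b ha hb => arrc_tens (W := T.W) e n m ha hb
      contr := fun n a ha => arrc_contr (W := T.W) (fun j => ⟨_, hp j⟩) hq hqE hqQ n ha
      le := fun n a ha => (inv_cls (T := toH T) e hH n a).1 (inv_iff.2 (hQH n ha)) }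
  refine ⟨ι, inferInstance, inferInstance, e, deg, hdeg, H, r, hQ, ?_⟩
  exact
    { hd := hd
      par := par_of (T := toH T) (X := X) (e := e) hdeg hψ.int hH
      fam := hfam
      huni := by
        intro n e'
        obtain rfl : n = 0 := by
          have := Fintype.card_congr e'
          rw [Fintype.card_fin, Fintype.card_unit] at this
          omega
        have h1 : rei e' (uni ℚ H.D.o Unit) = uni ℚ H.D.o (Fin (0 + 1)) := by
          funext w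
          rw [rei, uni, uni]
          exact Equiv.prod_comp e' fun k => if w k = H.D.o then (1 : ℚ) else 0
        rw [h1]
        refine mem_AA.2 ?_
        have h2 : clw (W := T.W) e 0 (uni ℚ H.D.o (Fin (0 + 1))) = 1 :=
          (clw_uni (T := T) e H.D.o).trans (by rw [hHo]; exact heo)
        rw [h2]
        exact ClassPred.sp_of (one_P (T := T) (Q := Q) X)
      le := fun n a ha => AA_TT (T := T) hdeg hQT ha
      form := ⟨Δ, hInv⟩
      cts := cts_coord hdeg hc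
      hN := hN
      small := by
        intro n hn c hc
        have h1 := TT_AA (T := T) hdeg (hsmall n hn) hc
        refine Submodule.span_mono (Set.image_mono fun a ha => ?_) h1
        exact hfam.mem_iff.2 ha }

end Pool.Agent.L0h10.RU
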