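import Pool.Agent.L0h10.RU.Geo1

/-!
# Hodge-Tate operators in coordinates
-/

set_option linter.unusedSectionVars false

open CategoryTheory AlgebraicGeometry TensorProduct Matrix

universe u v

namespace Pool.Agent.L0h10.RU

open Module
open Pool.Agent.H914 Pool.Agent.H914.VarClass Pool.Agent.H914.VarClass.Obj
  Pool.Agent.H914.WeilCohomology
open Pool.Agent.Y121.AHS
open Pool.Agent.Y133.Half (pw pfst psnd wb wb_zero wb_succ ClassPred PH)
open Pool.Agent.Y121.AH (hodgePred)
open Pool.Agent.N996.BP Pool.Agent.N996.FP Pool.Agent.N996.BP.Geo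
open Pool.Agent.L0h10.TS (GaloisAction IsTate ve toRep isT_iff isDeg_ve
  vB vB_apply gal_vB mt mt_spec mt_inj vB_single up_em IsLin
  isDeg_vB Operators IsInfinitesimal KillsTate opOf opOf_zero opOf_inf inf_eq opOf_kill up_ve up
  IsComb jj vB_inj vB_smul smL_eq ActsSemisimply ss_coord gal_ve ve_smul map_mul_th)
open Pool.Agent.L0h10.RQ Pool.Agent.L0h10.RT

variable {k : Type u} [Field k] {𝒱 : VarClass k} {ops : CycleOps 𝒱} {T : HodgeTheory ops}
  {X : 𝒱.Obj} {L Ω : Type} [Field L] [Field Ω] [Algebra T.W.K L] [Algebra T.W.K Ω] [Algebra L Ω]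
  [IsScalarTower T.W.K L Ω] {Γ : Type v} [Group Γ] [TopologicalSpace Γ] (G : GaloisAction T X Γ L)

/-- A Hodge-Tate operator: an infinitesimal operator which kills the Tate classes and such that the
part of degree `i` of `H(X)` is contained in the span of the eigenvectors with integral eigenvalues
of absolute value at most `w` and of the parity of `i`. -/
structure IsHT (w : ℕ) (D : Operators T X Ω) : Prop where
  inf : IsInfinitesimal D
  tate : KillsTate G D
  int : ∀ (i : ℕ) (x : HL T.W L (pw X 0)), IsDeg i x →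
    IsComb Ω (fun y : HL T.W Ω (pw X 0) => ∃ m : ℤ, |m| ≤ w ∧ m % 2 = (i : ℤ) % 2 ∧
      smL (m : Ω) y = D 0 y) (up Ω x)

/-- The commutator of two maps. -/
noncomputable def comm0 (f g : HL T.W Ω (pw X 0) → HL T.W Ω (pw X 0)) :
    HL T.W Ω (pw X 0) → HL T.W Ω (pw X 0) := fun x => f (g x) - g (f x)

variable (Ω) in
/-- There is a Hodge-Tate operator, and all infinitesimal operators which kill the Tate classes are
combinations of Hodge-Tate operators and of commutators. -/
def HTG (w : ℕ) : Prop := (∃ D : Operators T X Ω, IsHT G w D) ∧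
  ∀ D : Operators T X Ω, IsInfinitesimal D → KillsTate G D →
    IsComb Ω (fun f : HL T.W Ω (pw X 0) → HL T.W Ω (pw X 0) =>
      (∃ E : Operators T X Ω, IsHT G w E ∧ E 0 = f) ∨
      ∃ E F : Operators T X Ω, (IsInfinitesimal E ∧ KillsTate G E) ∧
        (IsInfinitesimal F ∧ KillsTate G F) ∧ comm0 (E 0) (F 0) = f) (D 0)

variable [CharZero L]
  {ι : Type} [Fintype ι] [DecidableEq ι] {e : Basis ι T.W.K (T.W.H X)} {deg : ι → ℕ}
  (hdeg : ∀ i, e i ∈ T.W.gr X (deg i))

/-- Hodge-Tate operators in coordinates. -/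
lemma ht_coord (θ : Ω ≃+* ℂ) {w : ℕ} {E : Operators T X Ω} (hE : IsHT G w E) :
    (mt (Z := X) e (E 0)).map θ ∈ LT (TT (jj L θ) (toRep G e hdeg)) ∧
      IsHTm deg w ((mt (Z := X) e (E 0)).map θ) := by
  obtain ⟨y, hy⟩ : ∃ y, y = mt (Z := X) e (E 0) := ⟨_, rfl⟩
  have h1 : E = opOf e y := by rw [hy]; exact inf_eq hE.inf
  rw [← hy]
  refine ⟨?_, fun i => ?_⟩
  · refine (kt_iff G hdeg θ y).1 ?_
    rw [← h1]
    exact hE.tate
  · have key : ∀ x ∈ Submodule.span Ω {z : HL T.W Ω X | ∃ m : ℤ, |m| ≤ w ∧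
        m % 2 = (deg i : ℤ) % 2 ∧ smL (m : Ω) z =
        (E 0 z : HL T.W Ω X)}, (fun i => θ ((vB Ω e).symm x i)) ∈
        Submodule.span ℂ {u | ∃ m : ℤ, |m| ≤ w ∧ m % 2 = (deg i : ℤ) % 2 ∧
          (y.map θ) *ᵥ u = (m : ℂ) • u} := by
      intro x hx
      induction hx using Submodule.span_induction with
      | mem x hx =>
        obtain ⟨m, hm, hm2, h2⟩ := hx
        obtain ⟨u, rfl⟩ := (vB Ω e).surjective x
        rw [LinearEquiv.symm_apply_apply]
        refine Submodule.subset_span ⟨m, hm, hm2, ?_⟩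
        have h3 : opOf e y 0 (vB Ω e u : HL T.W Ω X) = (vB Ω e (y *ᵥ u) : HL T.W Ω X) :=
          opOf_zero e y u
        rw [h1, h3, ← vB_smul] at h2
        have h4 := vB_inj h2
        funext i
        have h5 := congrArg θ (congrFun h4 i)
        rw [Pi.smul_apply, smul_eq_mul, map_mul, map_intCast, Matrix.mulVec, dotProduct,
          map_sum] at h5
        rw [Pi.smul_apply, smul_eq_mul, h5, Matrix.mulVec, dotProduct]
        refine Finset.sum_congr rfl fun t _ => ?_
        rw [map_mul, Matrix.map_apply]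
      | zero =>
        have h5 : (fun i => θ ((vB Ω e).symm (0 : HL T.W Ω X) i)) = 0 := by
          funext i
          rw [map_zero]
          exact map_zero θ
        rw [h5]
        exact Submodule.zero_mem _
      | add a b _ _ ha hb =>
        have h5 : (fun i => θ ((vB Ω e).symm (a + b) i)) =
            (fun i => θ ((vB Ω e).symm a i)) + fun i => θ ((vB Ω e).symm b i) := by
          funext i
          rw [map_add]
          exact map_add θ _ _
        rw [h5]
        exact Submodule.add_mem _ ha hb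
      | smul c a _ ha =>
        have h5 : (fun i => θ ((vB Ω e).symm (c • a) i)) =
            θ c • fun i => θ ((vB Ω e).symm a i) := by
          funext i
          rw [map_smul]
          exact map_mul θ _ _
        rw [h5]
        exact Submodule.smul_mem _ _ ha
    have h2 : IsDeg (deg i) (emL T.W L (e i) : HL T.W L X) :=
      Submodule.tmul_mem_baseChange_of_mem _ (hdeg i)
    have h3 := key _ (hE.int (deg i) (emL T.W L (e i) : HL T.W L X) h2)
    have h4 : (up Ω (emL T.W L (e i) : HL T.W L X) : HL T.W Ω X) = vB Ω e (Pi.single i 1) := by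
      rw [vB_single]
      exact up_em (e i)
    have h5 : (fun t => θ ((vB Ω e).symm (up Ω (emL T.W L (e i) : HL T.W L X) : HL T.W Ω X) t)) =
        Pi.single i 1 := by
      rw [h4]
      funext t
      rw [LinearEquiv.symm_apply_apply, Pi.single_apply, Pi.single_apply]
      split_ifs
      · exact map_one θ
      · exact map_zero θ
    have h6 : (fun t => θ ((vB Ω e).symm (up Ω (emL T.W L (e i) : HL T.W L X) : HL T.W Ω X) t)) ∈
        Submodule.span ℂ {u | ∃ m : ℤ, |m| ≤ w ∧ m % 2 = (deg i : ℤ) % 2 ∧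
          (y.map θ) *ᵥ u = (m : ℂ) • u} := h3
    rw [h5] at h6
    exact h6

lemma isLin_inf {E : Operators T X Ω} (hE : IsInfinitesimal E) (n : ℕ) : IsLin (E n) :=
  ⟨hE.add n, hE.smul n⟩

/-- The generators in coordinates. -/
lemma htg_coord (θ : Ω ≃+* ℂ) {w : ℕ} (h : HTG Ω G w) :
    (∃ y ∈ LT (TT (jj L θ) (toRep G e hdeg)), IsHTm deg w y) ∧
      HTGen (TT (jj L θ) (toRep G e hdeg)) deg w := by
  obtain ⟨⟨D, hD⟩, h⟩ := h
  refine ⟨⟨_, ht_coord G hdeg θ hD⟩, fun y hy => ?_⟩
  obtain ⟨y', hy'⟩ : ∃ y' : Matrix ι ι Ω, y' = y.map θ.symm := ⟨_, rfl⟩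
  have hyy : y'.map θ = y := by
    rw [hy']
    ext i j
    exact θ.apply_symm_apply _
  have h1 := h (opOf e y') (opOf_inf e y') ((kt_iff G hdeg θ y').2 (by rw [hyy]; exact hy))
  have key : ∀ f ∈ Submodule.span Ω {f : HL T.W Ω (pw X 0) → HL T.W Ω (pw X 0) |
      (∃ E : Operators T X Ω, IsHT G w E ∧ E 0 = f) ∨
      ∃ E F : Operators T X Ω, (IsInfinitesimal E ∧ KillsTate G E) ∧
        (IsInfinitesimal F ∧ KillsTate G F) ∧ comm0 (E 0) (F 0) = f},
      (mt (Z := X) e f).map θ ∈ Submodule.span ℂ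
        ({m | ∃ a ∈ LT (TT (jj L θ) (toRep G e hdeg)), ∃ b ∈ LT (TT (jj L θ) (toRep G e hdeg)),
          m = a * b - b * a} ∪
        {m | m ∈ LT (TT (jj L θ) (toRep G e hdeg)) ∧ IsHTm deg w m}) := by
    intro f hf
    induction hf using Submodule.span_induction with
    | mem f hf =>
      rcases hf with ⟨E, hE, rfl⟩ | ⟨E, F, ⟨hE, hE'⟩, ⟨hF, hF'⟩, rfl⟩
      · exact Submodule.subset_span (Or.inr (ht_coord G hdeg θ hE))
      · have h2 : mt (Z := X) e (comm0 (E 0) (F 0)) =
            mt (Z := X) e (E 0) * mt (Z := X) e (F 0) -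
              mt (Z := X) e (F 0) * mt (Z := X) e (E 0) := by
          refine mt_inj (Z := X) e fun i => ?_
          have h3 : ∀ v : ι → Ω, E 0 (vB Ω e v : HL T.W Ω X) =
              (vB Ω e (mt (Z := X) e (E 0) *ᵥ v) : HL T.W Ω X) := fun v =>
            mt_spec (Z := X) e (isLin_inf hE 0) v
          have h4 : ∀ v : ι → Ω, F 0 (vB Ω e v : HL T.W Ω X) =
              (vB Ω e (mt (Z := X) e (F 0) *ᵥ v) : HL T.W Ω X) := fun v =>
            mt_spec (Z := X) e (isLin_inf hF 0) v
          have h5 : (emL T.W Ω (e i) : HL T.W Ω X) = vB Ω e (Pi.single i 1) :=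
            (vB_single e i).symm
          change E 0 (F 0 (emL T.W Ω (e i) : HL T.W Ω X)) -
            F 0 (E 0 (emL T.W Ω (e i) : HL T.W Ω X)) = _
          rw [h5, h4, h3, h3, h4, Matrix.sub_mulVec, map_sub, Matrix.mulVec_mulVec,
            Matrix.mulVec_mulVec]
          rfl
        have h3 : ∀ a b : Matrix ι ι Ω, (a - b).map θ = a.map θ - b.map θ := by
          intro a b
          ext i k
          rw [Matrix.map_apply, Matrix.sub_apply, Matrix.sub_apply, map_sub, Matrix.map_apply,
            Matrix.map_apply]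
        rw [h2, h3, map_mul_th, map_mul_th]
        have e1 : E = opOf e (mt (Z := X) e (E 0)) := inf_eq hE
        have e2 : F = opOf e (mt (Z := X) e (F 0)) := inf_eq hF
        exact Submodule.subset_span (Or.inl ⟨_, (kt_iff G hdeg θ _).1 (by rw [← e1]; exact hE'), _,
          (kt_iff G hdeg θ _).1 (by rw [← e2]; exact hF'), rfl⟩)
    | zero =>
      have h2 : (mt (Z := X) e (0 : HL T.W Ω (pw X 0) → HL T.W Ω (pw X 0))).map θ = 0 := by
        ext i k
        change θ ((vB Ω e).symm (0 : HL T.W Ω X) i) = 0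
        rw [map_zero]
        exact map_zero θ
      rw [h2]
      exact Submodule.zero_mem _
    | add f g _ _ hf hg =>
      have h2 : (mt (Z := X) e (f + g)).map θ = (mt (Z := X) e f).map θ +
          (mt (Z := X) e g).map θ := by
        ext i k
        rw [Matrix.add_apply]
        have h3 : (vB Ω e).symm ((f (emL T.W Ω (e k) : HL T.W Ω X) : HL T.W Ω X) +
          (g (emL T.W Ω (e k) : HL T.W Ω X) : HL T.W Ω X)) i =
            (vB Ω e).symm (f (emL T.W Ω (e k) : HL T.W Ω X) : HL T.W Ω X) i +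
            (vB Ω e).symm (g (emL T.W Ω (e k) : HL T.W Ω X) : HL T.W Ω X) i := by
          exact congrFun ((vB Ω e).symm.map_add
            (show HL T.W Ω X from f (emL T.W Ω (e k) : HL T.W Ω X))
            (show HL T.W Ω X from g (emL T.W Ω (e k) : HL T.W Ω X))) i
        exact (congrArg θ h3).trans (map_add θ _ _)
      rw [h2]
      exact Submodule.add_mem _ hf hg
    | smul c f _ hf =>
      have h2 : (mt (Z := X) e (c • f)).map θ = θ c • (mt (Z := X) e f).map θ := by
        ext i k
        rw [Matrix.smul_apply]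
        have h3 : (vB Ω e).symm (c • (f (emL T.W Ω (e k) : HL T.W Ω X) : HL T.W Ω X)) i =
            c * (vB Ω e).symm (f (emL T.W Ω (e k) : HL T.W Ω X) : HL T.W Ω X) i := by
          exact congrFun ((vB Ω e).symm.map_smul c
            (show HL T.W Ω X from f (emL T.W Ω (e k) : HL T.W Ω X))) i
        exact (congrArg θ h3).trans (map_mul θ _ _)
      rw [h2]
      exact Submodule.smul_mem _ _ hf
  have h2 := key _ h1
  have h3 : mt (Z := X) e (opOf e y' 0) = y' := by
    refine mt_inj (Z := X) e fun i => ?_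
    have h5 : (emL T.W Ω (e i) : HL T.W Ω X) = vB Ω e (Pi.single i 1) := (vB_single e i).symm
    rw [h5]
    exact opOf_zero e y' _
  rw [h3, hyy] at h2
  exact h2

end Pool.Agent.L0h10.RU
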