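import Pool.Agent.L0h10.RU.Par
import Pool.Agent.L0h10.RU.HT

/-!
# The general case without Hodge-Tate matrices
-/

set_option linter.unusedSectionVars false

namespace Pool.Agent.L0h10.RP

open Matrix Pool.Agent.N996.BP Pool.Agent.N996.FP ComplexConjugate ComplexOrder

variable {ι : Type} [Fintype ι] [DecidableEq ι] {H : HData ι}

/-- The general case. -/
theorem fix_genM {q : H.S → Prop} (hq : GenBy H q) {w : ℕ} (hw1 : 1 ≤ w)
    (hE : ∀ (σ : H.S), q σ → ∀ (u : ι → ℂ), u ≠ 0 → ∀ μ : ℂ,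
      Ng H σ *ᵥ u = μ • u → ∃ a : ℤ, |a| ≤ w ∧ μ = a) {N t : ℕ}
    (h4 : 4 ≤ N) (hM : max 2 ((w * (t / 2) ^ 2) ^ (t / 2)) * t ≤ 2 * N)
    (ht : Fintype.card ι ≤ t + Module.finrank ℂ (Z0 H))
    {g : Matrix ι ι ℂ} (hfix : ∀ (κ : Type) [Fintype κ] [DecidableEq κ], Fintype.card κ ≤ N →
      Fixes H g κ) : g ∈ So H := by
  refine fix_of_le (M := max 2 ((w * (t / 2) ^ 2) ^ (t / 2))) h4
    (by rwa [max_eq_right (le_max_left 2 _)]) ht
    (fun z x m B hx hz hz0 s hs hirr i h2 p _ hp => ?_) hfix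
  exact irr_countX hq hw1 hE hz ht (by omega) hx hz0 B hs hirr i p hp

/-- The bound. -/
lemma ar_bound {w t N : ℕ} (hw1 : 1 ≤ w) (h8 : 8 ≤ N) (htN : (w * t) ^ t ≤ N) :
    max 2 ((w * (t / 2) ^ 2) ^ (t / 2)) * t ≤ 2 * (N / 2) := by
  obtain ⟨g, hg⟩ : ∃ g, g = t / 2 := ⟨_, rfl⟩
  rw [← hg]
  rcases Nat.lt_or_ge t 2 with h2 | h2
  · have hg0 : g = 0 := by omega
    rw [hg0, pow_zero]
    have h3 : max 2 1 * t ≤ 2 := by
      rw [max_eq_left (by norm_num)]; omega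
    omega
  · have hg1 : 1 ≤ g := by omega
    have h2g : 2 * g ≤ t := by omega
    have hpos : 1 ≤ (w * g ^ 2) ^ g := Nat.one_le_pow _ _ (Nat.mul_pos hw1 (by positivity))
    have h5 : 4 ^ g * (w * g ^ 2) ^ g ≤ w ^ t * t ^ (2 * g) := by
      calc 4 ^ g * (w * g ^ 2) ^ g = (w * (2 * g) ^ 2) ^ g := by
            rw [← mul_pow]; congr 1; ring
        _ ≤ (w * t ^ 2) ^ g := Nat.pow_le_pow_left
            (Nat.mul_le_mul_left _ (Nat.pow_le_pow_left h2g 2)) _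
        _ = w ^ g * t ^ (2 * g) := by rw [mul_pow, ← pow_mul]
        _ ≤ w ^ t * t ^ (2 * g) := Nat.mul_le_mul_right _
            (Nat.pow_le_pow_right hw1 (by omega))
    have h4g : ∀ g : ℕ, 1 ≤ g → 2 * g + 2 ≤ 4 ^ g := by
      intro g hg
      induction g, hg using Nat.le_induction with
      | base => norm_num
      | succ g _ ih => rw [pow_succ]; omega
    have h7 : (w * g ^ 2) ^ g * t + 1 ≤ (w * t) ^ t := by
      rcases (by omega : t = 2 * g ∨ t = 2 * g + 1) with h6 | h6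
      · have h8 := h4g g hg1
        calc (w * g ^ 2) ^ g * t + 1 ≤ (w * g ^ 2) ^ g * t + (w * g ^ 2) ^ g :=
              Nat.add_le_add_left hpos _
          _ = (w * g ^ 2) ^ g * (t + 1) := by ring
          _ ≤ (w * g ^ 2) ^ g * 4 ^ g := Nat.mul_le_mul_left _ (by omega)
          _ = 4 ^ g * (w * g ^ 2) ^ g := mul_comm _ _
          _ ≤ w ^ t * t ^ (2 * g) := h5
          _ = (w * t) ^ t := by rw [← h6, mul_pow]
      · have h8 : 2 ≤ 4 ^ g := by have := h4g g hg1; omega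
        have h9 : 1 ≤ (w * g ^ 2) ^ g * t := Nat.mul_pos hpos (by omega)
        calc (w * g ^ 2) ^ g * t + 1 ≤ 2 * ((w * g ^ 2) ^ g * t) := by omega
          _ ≤ 4 ^ g * ((w * g ^ 2) ^ g * t) := Nat.mul_le_mul_right _ h8
          _ = 4 ^ g * (w * g ^ 2) ^ g * t := by ring
          _ ≤ w ^ t * t ^ (2 * g) * t := Nat.mul_le_mul_right _ h5
          _ = w ^ t * t ^ (2 * g + 1) := by ring
          _ = (w * t) ^ t := by rw [← h6, mul_pow]
    have h8 : 2 * t ≤ 2 * (N / 2) := by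
      rcases Nat.lt_or_ge t 4 with h9 | h9
      · omega
      · have h10 : 4 * t ≤ N := by
          calc 4 * t ≤ t * t := Nat.mul_le_mul_right _ h9
            _ = t ^ 2 := by ring
            _ ≤ t ^ t := Nat.pow_le_pow_right (by omega) (by omega)
            _ ≤ (w * t) ^ t := Nat.pow_le_pow_left (Nat.le_mul_of_pos_left _ hw1) _
            _ ≤ N := htN
        omega
    rw [max_mul]
    refine max_le h8 ?_
    omega

end Pool.Agent.L0h10.RP

namespace Pool.Agent.L0h10.RU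

open Matrix Module
open Pool.Agent.N996.BP Pool.Agent.N996.FP
open Pool.Agent.L0h10.TS (ar2 ar2_inj ar2_surj dk_ar2 kp_ar2 dk_rei dk_empty dk_mulVec_apply GRep
  desc_sol desc_span dv dv_eq dv_map)
open Pool.Agent.L0h10.RQ

variable {ι : Type} [Fintype ι] [DecidableEq ι] {deg : ι → ℕ} {H : HData ι}
  {A : ∀ n : ℕ, Submodule ℚ ((Fin (n + 1) → ι) → ℚ)}
  {T : ∀ n : ℕ, Submodule ℂ ((Fin (n + 1) → ι) → ℂ)}

variable (T) in
/-- The Lie algebra is spanned by commutators and by small integral matrices. -/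
def IntGen (w : ℕ) : Prop :=
  ∀ y ∈ LT T, y ∈ Submodule.span ℂ ({m | ∃ a ∈ LT T, ∃ b ∈ LT T, m = a * b - b * a} ∪
    {m | m ∈ LT T ∧ IsInt w m})

/-- The generators. -/
lemma genBy_int {w w' : ℕ} (D : Dat H A T w') (hw : w ≤ w') (h : IntGen T w) :
    RP.GenBy D.hd fun σ => IsInt w σ.1 := by
  intro m hm
  have h1 := h _ (D.mem_hn.1 hm)
  have h2 : m = RP.cji D.hd (RP.cj D.hd m) := (RP.cji_cj D.hd m).symm
  have e1 : ∀ x, RP.cji D.hd x = nz H x := fun x => rfl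
  rw [h2, e1]
  generalize RP.cj D.hd m = y at h1
  induction h1 using Submodule.span_induction with
  | mem y hy =>
    rcases hy with ⟨a, ha, b, hb, rfl⟩ | ⟨hy, hy'⟩
    · refine Submodule.subset_span (Or.inl ⟨nz H a, ?_, nz H b, ?_, ?_⟩)
      · rw [D.mem_hn, ← e1, RP.cj_cji]; exact ha
      · rw [D.mem_hn, ← e1, RP.cj_cji]; exact hb
      · rw [nz_sub, nz_mul, nz_mul]
    · let σ : D.hd.S := (⟨y, hy, isInt_mono hw hy'⟩ : SS T w')
      have h3 : nz H y = RP.cji D.hd (RP.Ng D.hd σ) := by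
        rw [D.Ng_eq σ]
        rfl
      exact Submodule.subset_span (Or.inr ⟨σ, hy', h3⟩)
  | zero =>
    have h0 : nz H (0 : Matrix ι ι ℂ) = 0 := by rw [nz, Matrix.mul_zero, Matrix.zero_mul]
    rw [h0]
    exact Submodule.zero_mem _
  | add a b _ _ ha hb => rw [nz_add]; exact Submodule.add_mem _ ha hb
  | smul r a _ ha => rw [nz_smul]; exact Submodule.smul_mem _ _ ha

variable {ℓ : ℕ} [hℓ : Fact ℓ.Prime]
  {Γ : Type*} [Group Γ] [TopologicalSpace Γ] {P : GRep deg ℚ_[ℓ] Γ} {j : ℚ_[ℓ] →+* ℂ} {N : ℕ}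

namespace Crd2

variable [IsTopologicalGroup Γ] [CompactSpace Γ] (D : Crd2 deg j P H A N)
include D

/-- There is a height. -/
theorem exists_height : ∃ w, IntGen (TT j P) w := by
  obtain ⟨w, hw⟩ := D.dat0.exists_w
  rw [LT_TI] at hw
  exact ⟨w, fun y hy => Submodule.span_mono Set.subset_union_right (hw hy)⟩

/-- **The general case.** -/
theorem all_gen3 {w : ℕ} (hG : IntGen (TT j P) w) {V : Submodule ℚ_[ℓ] (ι → ℚ_[ℓ])}
    (hV : ∀ b ∈ V, (fun w : Fin (0 + 1) → ι => j (b (w 0))) ∈ TT j P 0) (h8 : 8 ≤ N)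
    (htN : (max 1 w * finrank ℚ_[ℓ] ((ι → ℚ_[ℓ]) ⧸ V)) ^
      finrank ℚ_[ℓ] ((ι → ℚ_[ℓ]) ⧸ V) ≤ N) (n : ℕ) :
    ∀ c ∈ TT j P n, c ∈ AC A (Fin (n + 1)) := by
  obtain ⟨w₁, hw₁⟩ := D.dat0.exists_w
  have DD : Dat H A (TI j P) (max w w₁) :=
    D.dat0.dat_of (hw₁.trans (Dat0.spn_mono (le_max_right w w₁)))
  have hG' : IntGen (TI j P) w := by
    intro y hy
    have h1 := hG y (by rwa [← LT_TI])
    refine Submodule.span_mono ?_ h1
    rintro m (⟨a, ha, b, hb, rfl⟩ | ⟨h2, h3⟩)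
    · exact Or.inl ⟨a, by rwa [LT_TI], b, by rwa [LT_TI], rfl⟩
    · exact Or.inr ⟨by rwa [LT_TI], h3⟩
  intro c hc
  refine DD.all (N := N / 2) (fun n hn c hc => D.small' (by omega) hc)
    (fun g hfix => RP.fix_genM (genBy_int DD (le_max_left w w₁) hG') (le_max_left 1 w)
      (fun σ hσ u hu μ hμ => ?_) (by omega) (RP.ar_bound (le_max_left 1 w) h8 htN)
      (card_le' DD fun b hb => TT_le_TI 0 (hV b hb)) hfix) n c (TT_le_TI n hc)
  rw [DD.Ng_eq] at hμ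
  obtain ⟨a, ha, h1⟩ := eig_int hσ hu hμ
  exact ⟨a, ha.trans (by exact_mod_cast le_max_right 1 w), h1⟩

end Crd2

end Pool.Agent.L0h10.RU
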