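import Pool.Agent.L0h10.RU.Geo2
import Pool.Agent.L0h10.RU.Par2

/-!
# The height of the monodromy in coordinates
-/

set_option linter.unusedSectionVars false

open CategoryTheory AlgebraicGeometry TensorProduct Matrix

universe u v

namespace Pool.Agent.L0h10.RU

open Module
open Pool.Agent.H914 Pool.Agent.H914.VarClass Pool.Agent.H914.VarClass.Obj
  Pool.Agent.H914.WeilCohomology
open Pool.Agent.Y121.AHS
open Pool.Agent.Y133.Half (pw pfst psnd wb wb_zero wb_succ ClassPred PH)
open Pool.Agent.Y121.AH (hodgePred)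
open Pool.Agent.N996.BP Pool.Agent.N996.FP Pool.Agent.N996.BP.Geo
open Pool.Agent.L0h10.TS (GaloisAction IsTate ve toRep isT_iff isDeg_ve
  vB vB_apply gal_vB mt mt_spec mt_inj vB_single up_em IsLin
  isDeg_vB Operators IsInfinitesimal KillsTate opOf opOf_zero opOf_inf inf_eq opOf_kill up_ve up
  IsComb jj vB_inj vB_smul smL_eq ActsSemisimply ss_coord gal_ve ve_smul map_mul_th)
open Pool.Agent.L0h10.RQ Pool.Agent.L0h10.RT

variable {k : Type u} [Field k] {𝒱 : VarClass k} {ops : CycleOps 𝒱} {T : HodgeTheory ops}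
  {X : 𝒱.Obj} {L Ω : Type} [Field L] [Field Ω] [Algebra T.W.K L] [Algebra T.W.K Ω] [Algebra L Ω]
  [IsScalarTower T.W.K L Ω] {Γ : Type v} [Group Γ] [TopologicalSpace Γ] (G : GaloisAction T X Γ L)

variable (Ω) in
/-- All infinitesimal operators which kill the Tate classes are combinations of weight operators and
of commutators. -/
def HGT (w : ℕ) : Prop := ∀ D : Operators T X Ω, IsInfinitesimal D → KillsTate G D →
    IsComb Ω (fun f : HL T.W Ω (pw X 0) → HL T.W Ω (pw X 0) =>
      (∃ E : Operators T X Ω, IsWeight G w E ∧ E 0 = f) ∨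
      ∃ E F : Operators T X Ω, (IsInfinitesimal E ∧ KillsTate G E) ∧
        (IsInfinitesimal F ∧ KillsTate G F) ∧ comm0 (E 0) (F 0) = f) (D 0)

variable [CharZero L]
  {ι : Type} [Fintype ι] [DecidableEq ι] {e : Basis ι T.W.K (T.W.H X)} {deg : ι → ℕ}
  (hdeg : ∀ i, e i ∈ T.W.gr X (deg i))

lemma mt_comm0 {E F : Operators T X Ω} (hE : IsInfinitesimal E) (hF : IsInfinitesimal F) :
    mt (Z := X) e (comm0 (E 0) (F 0)) =
      mt (Z := X) e (E 0) * mt (Z := X) e (F 0) -
        mt (Z := X) e (F 0) * mt (Z := X) e (E 0) := by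
  refine mt_inj (Z := X) e fun i => ?_
  have h3 : ∀ v : ι → Ω, E 0 (vB Ω e v : HL T.W Ω X) =
      (vB Ω e (mt (Z := X) e (E 0) *ᵥ v) : HL T.W Ω X) := fun v =>
    mt_spec (Z := X) e (isLin_inf hE 0) v
  have h4 : ∀ v : ι → Ω, F 0 (vB Ω e v : HL T.W Ω X) =
      (vB Ω e (mt (Z := X) e (F 0) *ᵥ v) : HL T.W Ω X) := fun v =>
    mt_spec (Z := X) e (isLin_inf hF 0) v
  have h5 : (emL T.W Ω (e i) : HL T.W Ω X) = vB Ω e (Pi.single i 1) :=
    (vB_single e i).symm
  change E 0 (F 0 (emL T.W Ω (e i) : HL T.W Ω X)) -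
    F 0 (E 0 (emL T.W Ω (e i) : HL T.W Ω X)) = _
  rw [h5, h4, h3, h3, h4, Matrix.sub_mulVec, map_sub, Matrix.mulVec_mulVec,
    Matrix.mulVec_mulVec]
  rfl

lemma mt_opOf (y : Matrix ι ι Ω) : mt (Z := X) e (opOf (T := T) (X := X) e y 0) = y := by
  refine mt_inj (Z := X) e fun i => ?_
  have h5 : (emL T.W Ω (e i) : HL T.W Ω X) = vB Ω e (Pi.single i 1) := (vB_single e i).symm
  rw [h5]
  exact opOf_zero e y _

lemma map_sub_th (θ : Ω ≃+* ℂ) (a b : Matrix ι ι Ω) : (a - b).map θ = a.map θ - b.map θ := by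
  ext i k
  rw [Matrix.map_apply, Matrix.sub_apply, Matrix.sub_apply, map_sub, Matrix.map_apply,
    Matrix.map_apply]

/-- The generators in coordinates. -/
lemma hgt_coord (θ : Ω ≃+* ℂ) {w : ℕ} (h : HGT Ω G w) :
    IntGen (TT (jj L θ) (toRep G e hdeg)) w := by
  intro y hy
  obtain ⟨y', hy'⟩ : ∃ y' : Matrix ι ι Ω, y' = y.map θ.symm := ⟨_, rfl⟩
  have hyy : y'.map θ = y := by
    rw [hy']
    ext i j
    exact θ.apply_symm_apply _
  have h1 := h (opOf e y') (opOf_inf e y') ((kt_iff G hdeg θ y').2 (by rw [hyy]; exact hy))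
  have key : ∀ f ∈ Submodule.span Ω {f : HL T.W Ω (pw X 0) → HL T.W Ω (pw X 0) |
      (∃ E : Operators T X Ω, IsWeight G w E ∧ E 0 = f) ∨
      ∃ E F : Operators T X Ω, (IsInfinitesimal E ∧ KillsTate G E) ∧
        (IsInfinitesimal F ∧ KillsTate G F) ∧ comm0 (E 0) (F 0) = f},
      (mt (Z := X) e f).map θ ∈ Submodule.span ℂ
        ({m | ∃ a ∈ LT (TT (jj L θ) (toRep G e hdeg)), ∃ b ∈ LT (TT (jj L θ) (toRep G e hdeg)),
          m = a * b - b * a} ∪
        {m | m ∈ LT (TT (jj L θ) (toRep G e hdeg)) ∧ IsInt w m}) := by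
    intro f hf
    induction hf using Submodule.span_induction with
    | mem f hf =>
      rcases hf with ⟨E, hE, rfl⟩ | ⟨E, F, ⟨hE, hE'⟩, ⟨hF, hF'⟩, rfl⟩
      · exact Submodule.subset_span (Or.inr (weight_int G hdeg θ hE))
      · rw [mt_comm0 hE hF, map_sub_th, map_mul_th, map_mul_th]
        have e1 : E = opOf e (mt (Z := X) e (E 0)) := inf_eq hE
        have e2 : F = opOf e (mt (Z := X) e (F 0)) := inf_eq hF
        exact Submodule.subset_span (Or.inl ⟨_, (kt_iff G hdeg θ _).1 (by rw [← e1]; exact hE'), _,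
          (kt_iff G hdeg θ _).1 (by rw [← e2]; exact hF'), rfl⟩)
    | zero =>
      have h2 : (mt (Z := X) e (0 : HL T.W Ω (pw X 0) → HL T.W Ω (pw X 0))).map θ = 0 := by
        ext i k
        change θ ((vB Ω e).symm (0 : HL T.W Ω X) i) = 0
        rw [map_zero]
        exact map_zero θ
      rw [h2]
      exact Submodule.zero_mem _
    | add f g _ _ hf hg =>
      have h2 : (mt (Z := X) e (f + g)).map θ = (mt (Z := X) e f).map θ +
          (mt (Z := X) e g).map θ := by
        ext i k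
        rw [Matrix.add_apply]
        have h3 : (vB Ω e).symm ((f (emL T.W Ω (e k) : HL T.W Ω X) : HL T.W Ω X) +
          (g (emL T.W Ω (e k) : HL T.W Ω X) : HL T.W Ω X)) i =
            (vB Ω e).symm (f (emL T.W Ω (e k) : HL T.W Ω X) : HL T.W Ω X) i +
            (vB Ω e).symm (g (emL T.W Ω (e k) : HL T.W Ω X) : HL T.W Ω X) i := by
          exact congrFun ((vB Ω e).symm.map_add
            (show HL T.W Ω X from f (emL T.W Ω (e k) : HL T.W Ω X))
            (show HL T.W Ω X from g (emL T.W Ω (e k) : HL T.W Ω X))) i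
        exact (congrArg θ h3).trans (map_add θ _ _)
      rw [h2]
      exact Submodule.add_mem _ hf hg
    | smul c f _ hf =>
      have h2 : (mt (Z := X) e (c • f)).map θ = θ c • (mt (Z := X) e f).map θ := by
        ext i k
        rw [Matrix.smul_apply]
        have h3 : (vB Ω e).symm (c • (f (emL T.W Ω (e k) : HL T.W Ω X) : HL T.W Ω X)) i =
            c * (vB Ω e).symm (f (emL T.W Ω (e k) : HL T.W Ω X) : HL T.W Ω X) i := by
          exact congrFun ((vB Ω e).symm.map_smul c
            (show HL T.W Ω X from f (emL T.W Ω (e k) : HL T.W Ω X))) i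
        exact (congrArg θ h3).trans (map_mul θ _ _)
      rw [h2]
      exact Submodule.smul_mem _ _ hf
  have h2 := key _ h1
  rw [mt_opOf, hyy] at h2
  exact h2

/-- Weight operators from coordinates. -/
lemma weight_of (θ : Ω ≃+* ℂ) {w : ℕ} {y : Matrix ι ι Ω}
    (h1 : y.map θ ∈ LT (TT (jj L θ) (toRep G e hdeg))) (h2 : IsInt w (y.map θ)) :
    IsWeight G w (opOf (T := T) (X := X) e y) := by
  refine ⟨opOf_inf e y, (kt_iff G hdeg θ y).2 h1, fun x => ?_⟩
  obtain ⟨π, hπ⟩ := h2
  obtain ⟨v, rfl⟩ := (vB Ω e).surjective (show HL T.W Ω X from x)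
  let p : ℤ → Matrix ι ι Ω := fun k => (π k).map θ.symm
  have hp : ∀ k, (p k).map θ = π k := fun k => by
    ext i j
    exact θ.apply_symm_apply _
  have hinj : ∀ a b : Matrix ι ι Ω, a.map θ = b.map θ → a = b := fun a b hab => by
    ext i j
    exact θ.injective (congrFun (congrFun hab i) j)
  have hsum : ∑ k ∈ Finset.Icc (-w : ℤ) w, p k = 1 := by
    apply hinj
    have h3 : (∑ k ∈ Finset.Icc (-w : ℤ) w, p k).map θ =
        ∑ k ∈ Finset.Icc (-w : ℤ) w, (p k).map θ := by
      ext i j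
      rw [Matrix.map_apply, Matrix.sum_apply, Matrix.sum_apply, map_sum]
      rfl
    rw [h3, Finset.sum_congr rfl fun k _ => hp k, hπ.sum]
    ext i j
    rw [Matrix.map_apply, Matrix.one_apply, Matrix.one_apply]
    split_ifs
    · exact (map_one θ).symm
    · exact (map_zero θ).symm
  have hleft : ∀ k ∈ Finset.Icc (-w : ℤ) w, y * p k = (k : Ω) • p k := by
    intro k hk
    apply hinj
    rw [map_mul_th, hp, hπ.left k hk]
    ext i j
    rw [Matrix.smul_apply, Matrix.map_apply, Matrix.smul_apply, smul_eq_mul, smul_eq_mul,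
      map_mul, map_intCast]
    exact congrArg _ (congrFun (congrFun (hp k) i) j).symm
  have h3 : vB Ω e v = ∑ k ∈ Finset.Icc (-w : ℤ) w, vB Ω e (p k *ᵥ v) := by
    rw [← map_sum, ← Matrix.sum_mulVec, hsum, Matrix.one_mulVec]
  have h4 : ∀ k ∈ Finset.Icc (-w : ℤ) w, vB Ω e (p k *ᵥ v) ∈
      Submodule.span Ω {z : HL T.W Ω X | ∃ m : ℤ, |m| ≤ w ∧ smL (m : Ω) z =
        (opOf e y 0 z : HL T.W Ω X)} := by
    intro k hk
    refine Submodule.subset_span ⟨k, abs_le.2 (Finset.mem_Icc.1 hk), ?_⟩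
    have h5 : opOf e y 0 (vB Ω e (p k *ᵥ v) : HL T.W Ω X) =
      (vB Ω e (y *ᵥ (p k *ᵥ v)) : HL T.W Ω X) := opOf_zero e y _
    rw [h5, Matrix.mulVec_mulVec, hleft k hk, Matrix.smul_mulVec, vB_smul]
  have h5 := Submodule.sum_mem _ h4
  rw [← h3] at h5
  exact h5

/-- The generators from coordinates. -/
lemma hgt_of (θ : Ω ≃+* ℂ) {w : ℕ} (h : IntGen (TT (jj L θ) (toRep G e hdeg)) w) :
    HGT Ω G w := by
  intro D hD hD'
  have e1 : D = opOf e (mt (Z := X) e (D 0)) := inf_eq hD
  obtain ⟨y, hy⟩ : ∃ y, y = (mt (Z := X) e (D 0)).map θ := ⟨_, rfl⟩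
  have hback : ∀ y : Matrix ι ι ℂ, (y.map θ.symm).map θ = y := fun y => by
    ext i j
    exact θ.apply_symm_apply _
  have hback' : mt (Z := X) e (D 0) = y.map θ.symm := by
    rw [hy]
    ext i j
    exact (θ.symm_apply_apply _).symm
  have hyL : y ∈ LT (TT (jj L θ) (toRep G e hdeg)) := by
    rw [hy]
    exact (kt_iff G hdeg θ _).1 (by rw [← e1]; exact hD')
  have key : ∀ m ∈ Submodule.span ℂ
        ({m | ∃ a ∈ LT (TT (jj L θ) (toRep G e hdeg)), ∃ b ∈ LT (TT (jj L θ) (toRep G e hdeg)),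
          m = a * b - b * a} ∪
        {m | m ∈ LT (TT (jj L θ) (toRep G e hdeg)) ∧ IsInt w m}),
      (opOf (T := T) (X := X) e (m.map θ.symm) 0) ∈
        Submodule.span Ω {f : HL T.W Ω (pw X 0) → HL T.W Ω (pw X 0) |
      (∃ E : Operators T X Ω, IsWeight G w E ∧ E 0 = f) ∨
      ∃ E F : Operators T X Ω, (IsInfinitesimal E ∧ KillsTate G E) ∧
        (IsInfinitesimal F ∧ KillsTate G F) ∧ comm0 (E 0) (F 0) = f} := by
    intro m hm
    induction hm using Submodule.span_induction with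
    | mem m hm =>
      rcases hm with ⟨a, ha, b, hb, rfl⟩ | ⟨h1, h2⟩
      · refine Submodule.subset_span (Or.inr ⟨opOf e (a.map θ.symm), opOf e (b.map θ.symm),
          ⟨opOf_inf e _, (kt_iff G hdeg θ _).2 (by rw [hback]; exact ha)⟩,
          ⟨opOf_inf e _, (kt_iff G hdeg θ _).2 (by rw [hback]; exact hb)⟩, ?_⟩)
        funext x
        obtain ⟨v, rfl⟩ := (vB Ω e).surjective (show HL T.W Ω X from x)
        have h3 : ∀ (y : Matrix ι ι Ω) (v : ι → Ω), opOf e y 0 (vB Ω e v : HL T.W Ω X) =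
          (vB Ω e (y *ᵥ v) : HL T.W Ω X) := fun y v => opOf_zero e y v
        change opOf e (a.map θ.symm) 0 (opOf e (b.map θ.symm) 0 (vB Ω e v : HL T.W Ω X)) -
          opOf e (b.map θ.symm) 0 (opOf e (a.map θ.symm) 0 (vB Ω e v : HL T.W Ω X)) =
          opOf e ((a * b - b * a).map θ.symm) 0 (vB Ω e v : HL T.W Ω X)
        have h4 : (a * b - b * a).map θ.symm = a.map θ.symm * b.map θ.symm -
            b.map θ.symm * a.map θ.symm := by
          have hm : ∀ a b : Matrix ι ι ℂ, (a * b).map θ.symm = a.map θ.symm * b.map θ.symm :=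
            fun a b => Matrix.map_mul (f := (θ.symm : ℂ →+* Ω))
          rw [← hm, ← hm]
          ext i k
          exact map_sub θ.symm _ _
        rw [h3, h3, h3, h3, h3, h4, Matrix.sub_mulVec, map_sub, Matrix.mulVec_mulVec,
          Matrix.mulVec_mulVec]
        rfl
      · exact Submodule.subset_span (Or.inl ⟨_, weight_of G hdeg θ (by rw [hback]; exact h1)
          (by rw [hback]; exact h2), rfl⟩)
    | zero =>
      have h2 : opOf (T := T) (X := X) e ((0 : Matrix ι ι ℂ).map θ.symm) 0 = 0 := by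
        funext x
        obtain ⟨v, rfl⟩ := (vB Ω e).surjective (show HL T.W Ω X from x)
        have h3 : opOf e ((0 : Matrix ι ι ℂ).map θ.symm) 0 (vB Ω e v : HL T.W Ω X) =
          (vB Ω e ((0 : Matrix ι ι ℂ).map θ.symm *ᵥ v) : HL T.W Ω X) := opOf_zero e _ v
        refine h3.trans ?_
        have h4 : (0 : Matrix ι ι ℂ).map θ.symm = 0 := by
          ext i k
          exact map_zero θ.symm
        rw [h4, Matrix.zero_mulVec, map_zero]
        rfl
      rw [h2]
      exact Submodule.zero_mem _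
    | add a b _ _ ha hb =>
      have h2 : opOf (T := T) (X := X) e ((a + b).map θ.symm) 0 =
          opOf (T := T) (X := X) e (a.map θ.symm) 0 + opOf (T := T) (X := X) e (b.map θ.symm) 0 := by
        funext x
        obtain ⟨v, rfl⟩ := (vB Ω e).surjective (show HL T.W Ω X from x)
        have h3 : ∀ (y : Matrix ι ι Ω) (v : ι → Ω), opOf e y 0 (vB Ω e v : HL T.W Ω X) =
          (vB Ω e (y *ᵥ v) : HL T.W Ω X) := fun y v => opOf_zero e y v
        change opOf e ((a + b).map θ.symm) 0 (vB Ω e v : HL T.W Ω X) =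
          opOf e (a.map θ.symm) 0 (vB Ω e v : HL T.W Ω X) +
          opOf e (b.map θ.symm) 0 (vB Ω e v : HL T.W Ω X)
        have h4 : (a + b).map θ.symm = a.map θ.symm + b.map θ.symm := by
          ext i k
          exact map_add θ.symm _ _
        rw [h3, h3, h3, h4, Matrix.add_mulVec, map_add]
        rfl
      rw [h2]
      exact Submodule.add_mem _ ha hb
    | smul c a _ ha =>
      have h2 : opOf (T := T) (X := X) e ((c • a).map θ.symm) 0 =
          θ.symm c • opOf (T := T) (X := X) e (a.map θ.symm) 0 := by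
        funext x
        obtain ⟨v, rfl⟩ := (vB Ω e).surjective (show HL T.W Ω X from x)
        have h3 : ∀ (y : Matrix ι ι Ω) (v : ι → Ω), opOf e y 0 (vB Ω e v : HL T.W Ω X) =
          (vB Ω e (y *ᵥ v) : HL T.W Ω X) := fun y v => opOf_zero e y v
        change opOf e ((c • a).map θ.symm) 0 (vB Ω e v : HL T.W Ω X) =
          smL (θ.symm c) (opOf e (a.map θ.symm) 0 (vB Ω e v : HL T.W Ω X))
        have h4 : (c • a).map θ.symm = θ.symm c • a.map θ.symm := by
          ext i k
          exact map_mul θ.symm _ _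
        rw [h3, h3, h4, Matrix.smul_mulVec, vB_smul]
        rfl
      rw [h2]
      exact Submodule.smul_mem _ _ ha
  have h2 := key y (h y hyL)
  rw [← hback', ← e1] at h2
  exact h2

end Pool.Agent.L0h10.RU
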