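import Pool.Agent.L0h10.RU.Minor
import Pool.Agent.L0h10.RU.Fix
import Pool.Agent.L0h10.RQ.Red

/-!
# Stable lines and the trace form on the Lie algebra
-/

set_option linter.unusedSectionVars false

namespace Pool.Agent.L0h10.RU

open Matrix Module
open Pool.Agent.N996.BP Pool.Agent.N996.FP
open Pool.Agent.L0h10.TS (ar2 ar2_inj ar2_surj dk_ar2 kp_ar2 dk_rei dk_empty dk_mulVec_apply GRep
  desc_sol dv dv_eq dv_map)
open Pool.Agent.L0h10.RQ

variable {ι : Type} [Fintype ι] [DecidableEq ι] {deg : ι → ℕ} {L : Type} [Field L] [CharZero L]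
  {j : L →+* ℂ} {Γ : Type*} [Group Γ] [TopologicalSpace Γ] {P : GRep deg L Γ}
  {H : HData ι} {A : ∀ n : ℕ, Submodule ℚ ((Fin (n + 1) → ι) → ℚ)} {N : ℕ}

/-- The situation for stable lines. -/
structure Lin (deg : ι → ℕ) (j : L →+* ℂ) (P : GRep deg L Γ) (H : HData ι)
    (A : ∀ n : ℕ, Submodule ℚ ((Fin (n + 1) → ι) → ℚ)) (N : ℕ) : Prop where
  hd : Hom2 deg H
  fam : RFam H A
  huni : uni ℚ H.D.o Unit ∈ AQ A Unit
  le : ∀ n, ∀ a ∈ A n, ca a ∈ TT j P n
  form : ∃ Δ : OpenSubgroup Γ, InvQ j P H Δ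
  hinv : arr (kp Unit H.Qir) ∈ AQ A (Unit ⊕ Unit)
  small : ∀ n, n + 1 ≤ N → ∀ c ∈ TT j P n, c ∈ AC A (Fin (n + 1))
  line : ∀ (n d : ℕ) (b : (Fin (n + 1) → ι) → L), n + 1 ≤ N →
    (∀ w, b w ≠ 0 → ∑ i, deg (w i) = d) →
    (∀ g, ∃ c : L, kp (Fin (n + 1)) (P.R g) *ᵥ b = c • b) → P.IsT n b

/-- The matrix of a basis of a subspace. -/
lemma exists_rows {F : Type*} [Field F] (U : Submodule F (ι → F)) {d : ℕ}
    (hd : finrank F U = d) : ∃ B : Matrix (Fin d) ι F, LinearIndependent F B.row ∧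
      (∀ i, B.row i ∈ U) ∧ ∀ u ∈ U, ∃ c : Fin d → F, u = ∑ i, c i • B.row i := by
  obtain ⟨b⟩ : Nonempty (Basis (Fin d) F U) := ⟨Module.finBasisOfFinrankEq F U hd⟩
  refine ⟨Matrix.of fun i => (b i : ι → F), ?_, fun i => (b i).2, fun u hu => ?_⟩
  · exact b.linearIndependent.map' U.subtype (Submodule.ker_subtype U)
  · refine ⟨fun i => b.repr ⟨u, hu⟩ i, ?_⟩
    have h1 := congrArg (U.subtype) (b.sum_repr ⟨u, hu⟩)
    rw [map_sum] at h1
    exact h1.symm

/-- Stable subspaces. -/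
lemma exists_C {F : Type*} [Field F] {U : Submodule F (ι → F)} {d : ℕ}
    {B : Matrix (Fin d) ι F} (h1 : ∀ i, B.row i ∈ U)
    (h2 : ∀ u ∈ U, ∃ c : Fin d → F, u = ∑ i, c i • B.row i) {M : Matrix ι ι F}
    (hM : ∀ u ∈ U, M *ᵥ u ∈ U) : ∃ C : Matrix (Fin d) (Fin d) F, B * Mᵀ = C * B := by
  choose c hc using fun i => h2 _ (hM _ (h1 i))
  refine ⟨Matrix.of c, ?_⟩
  ext i t
  have h3 := congrFun (hc i) t
  rw [Matrix.mul_apply, Matrix.mul_apply]
  rw [Matrix.mulVec, dotProduct, Finset.sum_apply] at h3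
  refine Eq.trans (Finset.sum_congr rfl fun k _ => ?_) (h3.trans (Finset.sum_congr rfl
    fun k _ => ?_))
  · rw [Matrix.transpose_apply, mul_comm]; rfl
  · rfl

namespace Lin

variable (D : Lin deg j P H A N)
include D

/-- **Subspaces stable under the group are stable under the stabiliser of the family.** -/
theorem stable {U : Submodule L (ι → L)} (hU : ∀ g : Γ, ∀ u ∈ U, P.R g *ᵥ u ∈ U)
    (hδ : ∀ u ∈ U, Matrix.diagonal (fun i => (2 : L) ^ deg i) *ᵥ u ∈ U)
    (hN : finrank L U ≤ N) {g : Matrix ι ι ℂ} (hg : FixA A g) :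
    ∀ u ∈ Submodule.span ℂ {x | ∃ v ∈ U, x = fun i => j (v i)},
      g *ᵥ u ∈ Submodule.span ℂ {x | ∃ v ∈ U, x = fun i => j (v i)} := by
  obtain ⟨d, hd⟩ : ∃ d, finrank L U = d := ⟨_, rfl⟩
  obtain ⟨B, hB, hB1, hB2⟩ := exists_rows U hd
  -- the rows span
  have hrow : ∀ i, (fun t => j (B i t)) ∈
      Submodule.span ℂ {x | ∃ v ∈ U, x = fun i => j (v i)} := fun i =>
    Submodule.subset_span ⟨B.row i, hB1 i, rfl⟩
  cases d with
  | zero =>
    have h0 : ∀ v ∈ U, v = 0 := by
      intro v hv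
      obtain ⟨c, hc⟩ := hB2 v hv
      rw [hc, Finset.univ_eq_empty, Finset.sum_empty]
    intro u hu
    have h1 : u = 0 := by
      induction hu using Submodule.span_induction with
      | mem x hx =>
        obtain ⟨v, hv, rfl⟩ := hx
        rw [h0 v hv]
        funext i
        exact map_zero j
      | zero => rfl
      | add a b _ _ ha hb => rw [ha, hb, add_zero]
      | smul r a _ ha => rw [ha, smul_zero]
    rw [h1, Matrix.mulVec_zero]
    exact Submodule.zero_mem _
  | succ n =>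
    obtain ⟨w0, hw0⟩ := exists_mn hB
    -- the array of the minors spans a stable line
    have hline : P.IsT n (mn B) := by
      obtain ⟨C, hC⟩ := exists_C hB1 hB2 hδ
      have h1 : kp (Fin (n + 1)) (Matrix.diagonal fun i => (2 : L) ^ deg i) *ᵥ mn B =
          C.det • mn B := by
        rw [kp_mn, hC, mn_mul]
      have h2 : ∀ w, mn B w ≠ 0 → (2 : L) ^ (∑ i, deg (w i)) = C.det := by
        intro w hw
        have h3 := congrFun h1 w
        rw [RQ.kp_diag, Pi.smul_apply, smul_eq_mul, Finset.prod_pow_eq_pow_sum] at h3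
        exact mul_right_cancel₀ hw h3
      refine D.line n (∑ i, deg (w0 i)) _ (by omega) (fun w hw => ?_) fun g => ?_
      · have h3 := (h2 w hw).trans (h2 w0 hw0).symm
        have h4 : (2 : ℕ) ^ (∑ i, deg (w i)) = 2 ^ (∑ i, deg (w0 i)) := by exact_mod_cast h3
        exact Nat.pow_right_injective le_rfl h4
      · obtain ⟨C', hC'⟩ := exists_C hB1 hB2 (hU g)
        exact ⟨C'.det, by rw [kp_mn, hC', mn_mul]⟩
    have hAC := D.small n (by omega) _ (TT_of (j := j) hline)
    have h1 := hg.ac hAC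
    rw [← mn_map, kp_mn] at h1
    have hw : mn (B.map j) w0 ≠ 0 := by
      rw [mn_map]
      exact fun h => hw0 ((map_eq_zero j).1 h)
    obtain ⟨C, hC⟩ := eq_of_mn h1 hw
    intro u hu
    induction hu using Submodule.span_induction with
    | mem x hx =>
      obtain ⟨v, hv, rfl⟩ := hx
      obtain ⟨c, hc⟩ := hB2 v hv
      have h2 : (fun i => j (v i)) = ∑ i, j (c i) • fun t => j (B i t) := by
        funext t
        have h3 := congrArg j (congrFun hc t)
        rw [Finset.sum_apply, map_sum] at h3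
        rw [Finset.sum_apply, h3]
        refine Finset.sum_congr rfl fun i _ => ?_
        rw [Pi.smul_apply, Pi.smul_apply, smul_eq_mul, smul_eq_mul, map_mul]
        rfl
      rw [h2, Matrix.mulVec_sum]
      refine Submodule.sum_mem _ fun i _ => ?_
      rw [Matrix.mulVec_smul]
      refine Submodule.smul_mem _ _ ?_
      have h4 : g *ᵥ (fun t => j (B i t)) = ∑ k, C i k • fun t => j (B k t) := by
        funext t
        have h5 := congrFun (congrFun hC i) t
        rw [Matrix.mul_apply, Matrix.mul_apply] at h5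
        rw [Matrix.mulVec, dotProduct, Finset.sum_apply]
        refine Eq.trans (Finset.sum_congr rfl fun k _ => ?_) (h5.trans (Finset.sum_congr rfl
          fun k _ => ?_))
        · rw [Matrix.transpose_apply, Matrix.map_apply, mul_comm]
        · rw [Pi.smul_apply, smul_eq_mul, Matrix.map_apply]
      rw [h4]
      exact Submodule.sum_mem _ fun k _ => Submodule.smul_mem _ _ (hrow k)
    | zero => rw [Matrix.mulVec_zero]; exact Submodule.zero_mem _
    | add a b _ _ ha hb => rw [Matrix.mulVec_add]; exact Submodule.add_mem _ ha hb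
    | smul r a _ ha => rw [Matrix.mulVec_smul]; exact Submodule.smul_mem _ _ ha

end Lin

end Pool.Agent.L0h10.RU
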