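import Pool.Agent.L0h10.RU.Adic
import Pool.Agent.L0h10.TS.Vec2

/-!
# Logarithms of matrices over the `ℓ`-adic numbers and their action on arrays
-/

set_option linter.unusedSectionVars false

namespace Pool.Agent.L0h10.RU

open Matrix Filter Topology
open Pool.Agent.N996.BP Pool.Agent.N996.FP
open Pool.Agent.L0h10.TS (dv)

variable {ℓ : ℕ} [hℓ : Fact ℓ.Prime] {ι : Type} [Fintype ι] [DecidableEq ι]

lemma norm_prod_sub {α : Type*} (s : Finset α) (a b : α → ℚ_[ℓ]) {ε : ℝ} (h0 : 0 ≤ ε)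
    (ha : ∀ i ∈ s, ‖a i‖ ≤ 1) (hb : ∀ i ∈ s, ‖b i‖ ≤ 1) (hab : ∀ i ∈ s, ‖a i - b i‖ ≤ ε) :
    ‖∏ i ∈ s, a i - ∏ i ∈ s, b i‖ ≤ ε := by
  classical
  induction s using Finset.induction_on with
  | empty => rw [Finset.prod_empty, Finset.prod_empty, sub_self, norm_zero]; exact h0
  | insert i s hi ih =>
    rw [Finset.prod_insert hi, Finset.prod_insert hi]
    have h1 : a i * ∏ j ∈ s, a j - b i * ∏ j ∈ s, b j =
        a i * (∏ j ∈ s, a j - ∏ j ∈ s, b j) + (a i - b i) * ∏ j ∈ s, b j := by ring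
    rw [h1]
    refine norm_add_le_max' _ _ ?_ ?_
    · rw [norm_mul]
      calc _ ≤ 1 * ε := mul_le_mul (ha i (Finset.mem_insert_self _ _))
            (ih (fun j hj => ha j (Finset.mem_insert_of_mem hj))
              (fun j hj => hb j (Finset.mem_insert_of_mem hj))
              fun j hj => hab j (Finset.mem_insert_of_mem hj)) (norm_nonneg _) zero_le_one
        _ = ε := one_mul _
    · have h2 : ‖∏ j ∈ s, b j‖ ≤ 1 := by
        rw [norm_prod]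
        exact Finset.prod_le_one (fun _ _ => norm_nonneg _)
          fun j hj => hb j (Finset.mem_insert_of_mem hj)
      rw [norm_mul]
      calc _ ≤ ε * 1 := mul_le_mul (hab i (Finset.mem_insert_self _ _)) h2 (norm_nonneg _) h0
        _ = ε := mul_one _

lemma Nr.kp {ε : ℝ} (h0 : 0 ≤ ε) (hε : ε ≤ 1) {M : Matrix ι ι ℚ_[ℓ]} (h : Nr ε M) (κ : Type)
    [Fintype κ] [DecidableEq κ] : Nr ε (kp κ M) := by
  intro w v
  have h1 : (1 : Matrix (κ → ι) (κ → ι) ℚ_[ℓ]) w v = ∏ k, (1 : Matrix ι ι ℚ_[ℓ]) (w k) (v k) := by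
    rw [← kp_one, kp_apply]
  rw [Matrix.sub_apply, h1, kp_apply]
  refine norm_prod_sub _ _ _ h0 (fun k _ => h.entry hε _ _) (fun k _ => norm_one_entry _ _)
    fun k _ => ?_
  have h2 := h (w k) (v k)
  rwa [Matrix.sub_apply] at h2

lemma norm_pow_sub {ε : ℝ} (h0 : 0 ≤ ε) (hε : ε ≤ 1) {c : ℚ_[ℓ]} (hc : ‖c - 1‖ ≤ ε) (p : ℕ) :
    ‖c ^ p - 1‖ ≤ ε := by
  have h1 : ‖c‖ ≤ 1 := by
    have h2 : c = (c - 1) + 1 := by ring
    rw [h2]
    exact norm_add_le_max' _ _ (hc.trans hε) (by rw [norm_one])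
  have h2 := norm_prod_sub (Finset.range p) (fun _ => c) (fun _ => (1 : ℚ_[ℓ])) h0
    (fun _ _ => h1) (fun _ _ => by rw [norm_one]) fun _ _ => hc
  rwa [Finset.prod_const, Finset.prod_const, Finset.card_range, one_pow] at h2

lemma Nr.smul {κ : Type} [Fintype κ] [DecidableEq κ] {ε : ℝ} (h0 : 0 ≤ ε) (hε : ε ≤ 1)
    {K : Matrix κ κ ℚ_[ℓ]} (h : Nr ε K) {c : ℚ_[ℓ]} (hc : ‖c - 1‖ ≤ ε) : Nr ε (c • K) := by
  intro i k
  have h1 : (c • K - 1) i k = (c - 1) * K i k + (K - 1) i k := by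
    rw [Matrix.sub_apply, Matrix.sub_apply, Matrix.smul_apply, smul_eq_mul]; ring
  rw [h1]
  refine norm_add_le_max' _ _ ?_ (h i k)
  rw [norm_mul]
  calc _ ≤ ε * 1 := mul_le_mul hc (h.entry hε i k) (norm_nonneg _) h0
    _ = ε := mul_one _

/-- The twisted action on arrays. -/
noncomputable def tw (n p : ℕ) (M : Matrix ι ι ℚ_[ℓ]) (c : ℚ_[ℓ]) :
    Matrix (Fin (n + 1) → ι) (Fin (n + 1) → ι) ℚ_[ℓ] := c ^ p • kp (Fin (n + 1)) M

lemma tw_mul (n p : ℕ) (M N : Matrix ι ι ℚ_[ℓ]) (c d : ℚ_[ℓ]) :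
    tw n p (M * N) (c * d) = tw n p M c * tw n p N d := by
  rw [tw, tw, tw, kp_mul, mul_pow, Matrix.smul_mul, Matrix.mul_smul, smul_smul]

lemma tw_one (n p : ℕ) : tw n p (1 : Matrix ι ι ℚ_[ℓ]) 1 = 1 := by
  rw [tw, kp_one, one_pow, one_smul]

lemma tw_pow (n p : ℕ) (M : Matrix ι ι ℚ_[ℓ]) (c : ℚ_[ℓ]) (m : ℕ) :
    tw n p (M ^ m) (c ^ m) = tw n p M c ^ m := by
  induction m with
  | zero => rw [pow_zero, pow_zero, pow_zero, tw_one]
  | succ m ih => rw [pow_succ, pow_succ, pow_succ, tw_mul, ih]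

lemma Nr.tw {M : Matrix ι ι ℚ_[ℓ]} (h : Nr (rr ℓ) M) {c : ℚ_[ℓ]} (hc : ‖c - 1‖ ≤ rr ℓ)
    (n p : ℕ) : Nr (rr ℓ) (tw n p M c) :=
  (Nr.kp rr_pos.le rr_lt_one.le h _).smul rr_pos.le rr_lt_one.le
    (norm_pow_sub rr_pos.le rr_lt_one.le hc p)

/-- Finite order implies trivial action. -/
lemma fix_of_pow {κ : Type} [Fintype κ] [DecidableEq κ] {K : Matrix κ κ ℚ_[ℓ]}
    (hK : Nr (rr ℓ) K) {m : ℕ} (hm : m ≠ 0) {v : κ → ℚ_[ℓ]} (h : (K ^ m) *ᵥ v = v) :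
    K *ᵥ v = v := by
  have h1 := pow_sub_one m hK v
  rw [Matrix.sub_mulVec, Matrix.one_mulVec, h, sub_self, norm_zero] at h1
  have h2 : (m : ℚ_[ℓ]) ≠ 0 := by exact_mod_cast hm
  rcases mul_eq_zero.1 h1.symm with h3 | h3
  · exact absurd (norm_eq_zero.1 h3) h2
  · rw [Matrix.sub_mulVec, Matrix.one_mulVec] at h3
    exact sub_eq_zero.1 (norm_eq_zero.1 h3)

lemma sum_erase {R : Type*} [CommRing R] {κ : Type} [Fintype κ] [DecidableEq κ] (w : κ → ι)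
    (k : κ) (f : (κ → ι) → R) :
    ∑ v, f v * ∏ j ∈ Finset.univ.erase k, (1 : Matrix ι ι R) (w j) (v j) =
      ∑ t, f (Function.update w k t) := by
  have h1 : ∀ v : κ → ι, ∏ j ∈ Finset.univ.erase k, (1 : Matrix ι ι R) (w j) (v j) =
      ∑ t, if v = Function.update w k t then 1 else 0 := by
    intro v
    by_cases hv : ∀ j, j ≠ k → v j = w j
    · rw [Finset.prod_eq_one, Finset.sum_eq_single (v k)]
      · rw [if_pos]
        funext j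
        by_cases hj : j = k
        · subst hj; rw [Function.update_self]
        · rw [Function.update_of_ne hj, hv j hj]
      · intro t _ ht
        rw [if_neg]
        intro h2
        apply ht
        have h3 := congrFun h2 k
        rw [Function.update_self] at h3
        exact h3.symm
      · intro h; exact absurd (Finset.mem_univ _) h
      · intro j hj
        rw [hv j (Finset.ne_of_mem_erase hj), Matrix.one_apply_eq]
    · push Not at hv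
      obtain ⟨j, hj, hjv⟩ := hv
      rw [Finset.prod_eq_zero (Finset.mem_erase.2 ⟨hj, Finset.mem_univ j⟩)
        (Matrix.one_apply_ne (fun h => hjv h.symm) : (1 : Matrix ι ι R) (w j) (v j) = 0),
        Finset.sum_eq_zero]
      intro t _
      rw [if_neg]
      intro h2
      apply hjv
      have h3 := congrFun h2 j
      rwa [Function.update_of_ne hj] at h3
  simp only [h1, Finset.mul_sum]
  rw [Finset.sum_comm]
  refine Finset.sum_congr rfl fun t _ => ?_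
  rw [Finset.sum_eq_single (Function.update w k t)]
  · rw [if_pos rfl, mul_one]
  · intro v _ hv
    rw [if_neg hv, mul_zero]
  · intro h; exact absurd (Finset.mem_univ _) h

variable (ℓ ι) in
/-- The space of pairs of a matrix and a scalar. -/
abbrev PE : Type := (ι → ι → ℚ_[ℓ]) × ℚ_[ℓ]

/-- The action on an array as a function of the pair. -/
noncomputable def FF (n p : ℕ) (x : (Fin (n + 1) → ι) → ℚ_[ℓ]) (e : PE ℓ ι) :
    (Fin (n + 1) → ι) → ℚ_[ℓ] := tw n p (Matrix.of e.1) e.2 *ᵥ x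

/-- Its derivative. -/
lemma exists_deriv (n p : ℕ) (x : (Fin (n + 1) → ι) → ℚ_[ℓ]) :
    ∃ F' : PE ℓ ι →L[ℚ_[ℓ]] ((Fin (n + 1) → ι) → ℚ_[ℓ]),
      HasFDerivAt (FF n p x) F' ((fun i k => (1 : Matrix ι ι ℚ_[ℓ]) i k), 1) ∧
      ∀ e, F' e = ((p : ℚ_[ℓ]) * e.2) • x + dv (Matrix.of e.1) x := by
  obtain ⟨e0, he0⟩ : ∃ e0 : PE ℓ ι, e0 = ((fun i k => (1 : Matrix ι ι ℚ_[ℓ]) i k), 1) :=
    ⟨_, rfl⟩
  rw [← he0]
  let pr : ι → ι → (PE ℓ ι →L[ℚ_[ℓ]] ℚ_[ℓ]) := fun i k =>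
    (ContinuousLinearMap.proj (R := ℚ_[ℓ]) (φ := fun _ : ι => ℚ_[ℓ]) k).comp
      ((ContinuousLinearMap.proj (R := ℚ_[ℓ]) (φ := fun _ : ι => ι → ℚ_[ℓ]) i).comp
        (ContinuousLinearMap.fst ℚ_[ℓ] (ι → ι → ℚ_[ℓ]) ℚ_[ℓ]))
  have hpr : ∀ i k e, pr i k e = e.1 i k := fun i k e => rfl
  have h1 : ∀ i k, HasFDerivAt (fun e : PE ℓ ι => e.1 i k) (pr i k) e0 := fun i k =>
    (pr i k).hasFDerivAt
  have h2 : ∀ w v : Fin (n + 1) → ι, HasFDerivAt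
      (fun e : PE ℓ ι => ∏ k, e.1 (w k) (v k))
      (∑ k, (∏ j ∈ Finset.univ.erase k, e0.1 (w j) (v j)) • pr (w k) (v k)) e0 := fun w v =>
    HasFDerivAt.finsetProd fun k _ => h1 (w k) (v k)
  have h3 : HasFDerivAt (fun e : PE ℓ ι => e.2 ^ p)
      ((p • e0.2 ^ (p - 1)) • ContinuousLinearMap.snd ℚ_[ℓ] (ι → ι → ℚ_[ℓ]) ℚ_[ℓ]) e0 :=
    (ContinuousLinearMap.snd ℚ_[ℓ] (ι → ι → ℚ_[ℓ]) ℚ_[ℓ]).hasFDerivAt.pow p
  have h4 : ∀ w : Fin (n + 1) → ι, HasFDerivAt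
      (fun e : PE ℓ ι => ∑ v, (∏ k, e.1 (w k) (v k)) * x v)
      (∑ v, x v • (∑ k, (∏ j ∈ Finset.univ.erase k, e0.1 (w j) (v j)) • pr (w k) (v k))) e0 :=
    fun w => HasFDerivAt.fun_sum fun v _ => (h2 w v).mul_const (x v)
  let D : (Fin (n + 1) → ι) → (PE ℓ ι →L[ℚ_[ℓ]] ℚ_[ℓ]) := fun w =>
    e0.2 ^ p • ∑ v, x v • ∑ k, (∏ j ∈ Finset.univ.erase k, e0.1 (w j) (v j)) • pr (w k) (v k) +
      (∑ v, (∏ k, e0.1 (w k) (v k)) * x v) •
        (p • e0.2 ^ (p - 1)) • ContinuousLinearMap.snd ℚ_[ℓ] (ι → ι → ℚ_[ℓ]) ℚ_[ℓ]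
  have h5 : ∀ w : Fin (n + 1) → ι, HasFDerivAt
      (fun e : PE ℓ ι => e.2 ^ p * ∑ v, (∏ k, e.1 (w k) (v k)) * x v) (D w) e0 := fun w =>
    h3.mul (h4 w)
  refine ⟨ContinuousLinearMap.pi D, hasFDerivAt_pi.2 fun w => ?_, fun e => ?_⟩
  · have h6 := h5 w
    refine h6.congr_of_eventuallyEq (Filter.Eventually.of_forall fun e => ?_)
    change (tw n p (Matrix.of e.1) e.2 *ᵥ x) w = _
    rw [tw, Matrix.smul_mulVec, Pi.smul_apply, smul_eq_mul, Matrix.mulVec, dotProduct]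
    rfl
  · funext w
    have hA : ∀ v : Fin (n + 1) → ι, ∏ k, e0.1 (w k) (v k) = if w = v then 1 else 0 := by
      intro v
      rw [he0]
      change ∏ k, (1 : Matrix ι ι ℚ_[ℓ]) (w k) (v k) = _
      rw [← kp_apply, kp_one, Matrix.one_apply]
    have hB : ∑ v, (∏ k, e0.1 (w k) (v k)) * x v = x w := by
      simp only [hA, ite_mul, one_mul, zero_mul]
      rw [Finset.sum_ite_eq, if_pos (Finset.mem_univ w)]
    have hC : ∑ v, x v * ∑ k, (∏ j ∈ Finset.univ.erase k, e0.1 (w j) (v j)) * e.1 (w k) (v k) =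
        dv (Matrix.of e.1) x w := by
      simp only [Finset.mul_sum]
      rw [Finset.sum_comm, dv]
      refine Finset.sum_congr rfl fun k _ => ?_
      have h7 := sum_erase (R := ℚ_[ℓ]) w k fun v => x v * e.1 (w k) (v k)
      have h8 : ∀ t, e.1 (w k) (Function.update w k t k) = e.1 (w k) t := fun t => by
        rw [Function.update_self]
      simp only [h8] at h7
      refine Eq.trans (Finset.sum_congr rfl fun v _ => ?_)
        (h7.trans (Finset.sum_congr rfl fun t _ => ?_))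
      · rw [he0]
        ring
      · rw [mul_comm]
        rfl
    rw [ContinuousLinearMap.pi_apply]
    simp only [D, _root_.add_apply, _root_.smul_apply, _root_.sum_apply, smul_eq_mul, hpr, hB, hC, Pi.add_apply, Pi.smul_apply,
      ContinuousLinearMap.coe_snd']
    rw [he0]
    simp only [one_pow, one_mul, nsmul_eq_mul, mul_one]
    ring

lemma norm_entry_le {κ : Type} [Fintype κ] [DecidableEq κ] (E : Matrix κ κ ℚ_[ℓ]) (i k : κ) :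
    ‖E i k‖ ≤ ‖E *ᵥ Pi.single k 1‖ := by
  have h1 : E i k = (E *ᵥ Pi.single k 1) i := by
    rw [Matrix.mulVec_single_one, Matrix.col_apply]
  rw [h1]
  exact norm_le_pi_norm _ i

lemma norm_single_le {κ : Type} [Fintype κ] [DecidableEq κ] (k : κ) :
    ‖(Pi.single k 1 : κ → ℚ_[ℓ])‖ ≤ 1 := by
  rw [pi_norm_le_iff_of_nonneg zero_le_one]
  intro i
  by_cases h : i = k
  · subst h; rw [Pi.single_eq_same, norm_one]
  · rw [Pi.single_eq_of_ne h, norm_zero]; exact zero_le_one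

/-- The entries of powers. -/
lemma norm_pow_entry {κ : Type} [Fintype κ] [DecidableEq κ] {M : Matrix κ κ ℚ_[ℓ]}
    (hM : Nr (rr ℓ) M) (m : ℕ) (i k : κ) : ‖(M ^ m - 1) i k‖ ≤ ‖(m : ℚ_[ℓ])‖ * rr ℓ := by
  refine (norm_entry_le _ i k).trans ?_
  rw [pow_sub_one m hM]
  refine mul_le_mul_of_nonneg_left ?_ (norm_nonneg _)
  refine (norm_mulVec_le rr_pos.le hM _).trans ?_
  calc rr ℓ * ‖(Pi.single k 1 : κ → ℚ_[ℓ])‖ ≤ rr ℓ * 1 :=
        mul_le_mul_of_nonneg_left (norm_single_le k) rr_pos.le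
    _ = rr ℓ := mul_one _

lemma norm_pow_scalar {c : ℚ_[ℓ]} (hc : ‖c - 1‖ ≤ rr ℓ) (m : ℕ) :
    ‖c ^ m - 1‖ ≤ ‖(m : ℚ_[ℓ])‖ * rr ℓ := by
  have h1 : Nr (rr ℓ) (Matrix.diagonal fun _ : Unit => c) := by
    intro i k
    have h2 : (Matrix.diagonal (fun _ : Unit => c) - 1) i k = c - 1 := by
      rw [Matrix.sub_apply, Matrix.diagonal_apply, Matrix.one_apply,
        if_pos (Subsingleton.elim _ _), if_pos (Subsingleton.elim _ _)]
    rw [h2]; exact hc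
  have h2 := norm_pow_entry h1 m () ()
  rw [Matrix.diagonal_pow, Matrix.sub_apply, Matrix.diagonal_apply_eq, Matrix.one_apply_eq] at h2
  exact h2

/-- **Logarithms.** -/
theorem exists_log {M : Matrix ι ι ℚ_[ℓ]} {c : ℚ_[ℓ]} (hM : Nr (rr ℓ) M)
    (hc : ‖c - 1‖ ≤ rr ℓ) : ∃ (Z : Matrix ι ι ℚ_[ℓ]) (z : ℚ_[ℓ]), ∀ (n p : ℕ)
      (x : (Fin (n + 1) → ι) → ℚ_[ℓ]),
      tw n p M c *ᵥ x = x ↔ ((p : ℚ_[ℓ]) * z) • x + dv Z x = 0 := by
  have hl0 : ∀ m : ℕ, ((ℓ : ℚ_[ℓ]) ^ m) ≠ 0 := fun m =>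
    pow_ne_zero _ (by exact_mod_cast hℓ.out.ne_zero)
  have hlm : ∀ m : ℕ, (((ℓ ^ m : ℕ)) : ℚ_[ℓ]) = (ℓ : ℚ_[ℓ]) ^ m := fun m => by push_cast; rfl
  let e0 : PE ℓ ι := ((fun i k => (1 : Matrix ι ι ℚ_[ℓ]) i k), 1)
  let d : ℕ → PE ℓ ι := fun m => ((fun i k => (M ^ (ℓ ^ m) - 1) i k), c ^ (ℓ ^ m) - 1)
  let s : ℕ → PE ℓ ι := fun m => ((ℓ : ℚ_[ℓ]) ^ m)⁻¹ • d m
  have hs : ∀ m, s m ∈ Metric.closedBall (0 : PE ℓ ι) 1 := by
    intro m
    rw [mem_closedBall_zero_iff]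
    have key : ∀ a : ℚ_[ℓ], ‖a‖ ≤ ‖(((ℓ ^ m : ℕ)) : ℚ_[ℓ])‖ * rr ℓ →
        ‖((ℓ : ℚ_[ℓ]) ^ m)⁻¹ * a‖ ≤ 1 := by
      intro a ha
      rw [norm_mul, norm_inv]
      rw [hlm] at ha
      have h1 : 0 < ‖(ℓ : ℚ_[ℓ]) ^ m‖ := norm_pos_iff.2 (hl0 m)
      calc ‖(ℓ : ℚ_[ℓ]) ^ m‖⁻¹ * ‖a‖ ≤ ‖(ℓ : ℚ_[ℓ]) ^ m‖⁻¹ * (‖(ℓ : ℚ_[ℓ]) ^ m‖ * rr ℓ) :=
            mul_le_mul_of_nonneg_left ha (inv_nonneg.2 h1.le)
        _ = rr ℓ := by rw [← mul_assoc, inv_mul_cancel₀ h1.ne', one_mul]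
        _ ≤ 1 := rr_lt_one.le
    rw [Prod.norm_def, max_le_iff]
    constructor
    · rw [pi_norm_le_iff_of_nonneg zero_le_one]
      intro i
      rw [pi_norm_le_iff_of_nonneg zero_le_one]
      intro k
      exact key _ (norm_pow_entry hM _ i k)
    · exact key _ (norm_pow_scalar hc _)
  obtain ⟨a, -, φ, hφ, hlim⟩ := tendsto_subseq_of_bounded Metric.isBounded_closedBall hs
  refine ⟨Matrix.of a.1, a.2, fun n p x => ?_⟩
  obtain ⟨F', hF, hF'⟩ := exists_deriv (ℓ := ℓ) n p x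
  rw [← hF' a]
  have hds : ∀ m, d m = ((ℓ : ℚ_[ℓ]) ^ m) • s m := fun m => by
    change _ = ((ℓ : ℚ_[ℓ]) ^ m) • (((ℓ : ℚ_[ℓ]) ^ m)⁻¹ • d m)
    rw [smul_smul, mul_inv_cancel₀ (hl0 m), one_smul]
  have hlt : Tendsto (fun m : ℕ => (ℓ : ℚ_[ℓ]) ^ m) atTop (𝓝 0) :=
    tendsto_pow_atTop_nhds_zero_of_norm_lt_one (by
      rw [norm_ell]; exact inv_lt_one_of_one_lt₀ one_lt_ell)
  have hd : Tendsto (fun m => d (φ m)) atTop (𝓝 0) := by
    have h1 := (hlt.comp hφ.tendsto_atTop).smul hlim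
    rw [zero_smul] at h1
    refine h1.congr fun m => ?_
    exact (hds (φ m)).symm
  have hlim2 := (hF.hasFDerivWithinAt (s := Set.univ)).lim
    (c := fun m => ((ℓ : ℚ_[ℓ]) ^ φ m)⁻¹) (d := fun m => d (φ m)) (v := a) hd
    (Eventually.of_forall fun _ => Set.mem_univ _) hlim
  obtain ⟨K, hKdef⟩ : ∃ K, K = tw n p M c := ⟨_, rfl⟩
  have hK : Nr (rr ℓ) K := by rw [hKdef]; exact hM.tw hc n p
  have h1 : ∀ m, FF n p x (e0 + d m) = (K ^ (ℓ ^ m)) *ᵥ x := by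
    intro m
    rw [FF, hKdef, ← tw_pow]
    have h2 : Matrix.of (e0 + d m).1 = M ^ (ℓ ^ m) := by
      ext i k
      change (1 : Matrix ι ι ℚ_[ℓ]) i k + (M ^ (ℓ ^ m) - 1) i k = _
      rw [Matrix.sub_apply, add_sub_cancel]
    have h3 : (e0 + d m).2 = c ^ (ℓ ^ m) := by
      change 1 + (c ^ (ℓ ^ m) - 1) = _
      rw [add_sub_cancel]
    rw [h2, h3]
  have h0 : FF n p x e0 = x := by
    rw [FF]
    have h2 : Matrix.of e0.1 = (1 : Matrix ι ι ℚ_[ℓ]) := rfl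
    have h3 : e0.2 = 1 := rfl
    rw [h2, h3, tw_one, Matrix.one_mulVec]
  have h2 : ∀ m, ‖((ℓ : ℚ_[ℓ]) ^ φ m)⁻¹ • (FF n p x (e0 + d (φ m)) - FF n p x e0)‖ =
      ‖(K - 1) *ᵥ x‖ := by
    intro m
    rw [h1, h0, norm_smul]
    have h3 : K ^ (ℓ ^ φ m) *ᵥ x - x = (K ^ (ℓ ^ φ m) - 1) *ᵥ x := by
      rw [Matrix.sub_mulVec, Matrix.one_mulVec]
    rw [h3, pow_sub_one _ hK, hlm, norm_inv, ← mul_assoc,
      inv_mul_cancel₀ (norm_ne_zero_iff.2 (hl0 _)), one_mul]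
  have h3 := hlim2.norm
  have h4 : Tendsto (fun m => ‖((ℓ : ℚ_[ℓ]) ^ φ m)⁻¹ •
      (FF n p x (e0 + d (φ m)) - FF n p x e0)‖) atTop (𝓝 ‖(K - 1) *ᵥ x‖) := by
    simp only [h2]
    exact tendsto_const_nhds
  have h5 : ‖(K - 1) *ᵥ x‖ = ‖F' a‖ := tendsto_nhds_unique h4 h3
  rw [← norm_eq_zero (a := F' a), ← h5, norm_eq_zero, Matrix.sub_mulVec, Matrix.one_mulVec,
    sub_eq_zero, hKdef]

end Pool.Agent.L0h10.RU
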