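import Pool.Agent.N996.BP.Kp
import Mathlib

/-!
# The array of the maximal minors of a matrix
-/

set_option linter.unusedSectionVars false

namespace Pool.Agent.L0h10.RU

open Matrix
open Pool.Agent.N996.BP

variable {ι : Type} [Fintype ι] [DecidableEq ι] {d : ℕ} {R : Type*} [CommRing R]

/-- The maximal minors. -/
def mn (B : Matrix (Fin d) ι R) : (Fin d → ι) → R := fun w => (B.submatrix id w).det

/-- Determinants of products. -/
lemma det_mul_sum (B : Matrix (Fin d) ι R) (D : Matrix ι (Fin d) R) :
    (B * D).det = ∑ w : Fin d → ι, (∏ k, D (w k) k) * mn B w := by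
  classical
  rw [← Matrix.det_transpose]
  have h1 : (B * D)ᵀ = fun k => ∑ t : ι, D t k • (fun i => B i t) := by
    funext k i
    rw [Matrix.transpose_apply, Matrix.mul_apply, Finset.sum_apply]
    refine Finset.sum_congr rfl fun t _ => ?_
    rw [Pi.smul_apply, smul_eq_mul, mul_comm]
  change Matrix.detRowAlternating ((B * D)ᵀ) = _
  rw [h1]
  have h2 := (Matrix.detRowAlternating (n := Fin d) (R := R)).toMultilinearMap.map_sum
    (fun (k : Fin d) (t : ι) => D t k • (fun i => B i t))
  refine h2.trans (Finset.sum_congr rfl fun w _ => ?_)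
  have h3 := (Matrix.detRowAlternating (n := Fin d) (R := R)).toMultilinearMap.map_smul_univ
    (fun k => D (w k) k) (fun k => fun i => B i (w k))
  refine h3.trans ?_
  rw [smul_eq_mul]
  congr 1
  change Matrix.det (Matrix.of fun k i => B i (w k)) = _
  rw [mn, ← Matrix.det_transpose]
  rfl

/-- The action on the minors. -/
lemma kp_mn (M : Matrix ι ι R) (B : Matrix (Fin d) ι R) :
    kp (Fin d) M *ᵥ mn B = mn (B * Mᵀ) := by
  funext w
  have h1 : (B * Mᵀ).submatrix id w = B * (Mᵀ.submatrix id w) := by
    ext i k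
    rw [Matrix.submatrix_apply, Matrix.mul_apply, Matrix.mul_apply]
    rfl
  rw [mn, h1, det_mul_sum, Matrix.mulVec, dotProduct]
  rfl

lemma mn_mul (C : Matrix (Fin d) (Fin d) R) (B : Matrix (Fin d) ι R) :
    mn (C * B) = C.det • mn B := by
  funext w
  have h1 : (C * B).submatrix id w = C * (B.submatrix id w) := by
    ext i k
    rw [Matrix.submatrix_apply, Matrix.mul_apply, Matrix.mul_apply]
    rfl
  rw [mn, h1, Matrix.det_mul, Pi.smul_apply, smul_eq_mul, mn]

lemma mn_map {S : Type*} [CommRing S] (φ : R →+* S) (B : Matrix (Fin d) ι R) :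
    mn (B.map φ) = fun w => φ (mn B w) := by
  funext w
  rw [mn, mn, RingHom.map_det]
  rfl

variable {F : Type*} [Field F]

/-- The matrix is determined up to row operations by its minors. -/
lemma eq_of_mn {B B' : Matrix (Fin d) ι F} (h : mn B' = mn B) {w : Fin d → ι}
    (hw : mn B w ≠ 0) : ∃ C : Matrix (Fin d) (Fin d) F, B' = C * B := by
  have key : ∀ B : Matrix (Fin d) ι F, mn B w ≠ 0 → ∀ k t,
      ((B.submatrix id w)⁻¹ * B) k t = (mn B w)⁻¹ * mn B (Function.update w k t) := by
    intro B hB k t
    obtain ⟨A, hA⟩ : ∃ A, A = B.submatrix id w := ⟨_, rfl⟩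
    have hdet : A.det = mn B w := by rw [hA]; rfl
    have hu : IsUnit A.det := by rw [hdet]; exact isUnit_iff_ne_zero.2 hB
    have h1 := Matrix.det_smul_inv_mulVec_eq_cramer A (fun i => B i t) hu
    have h2 := congrFun h1 k
    rw [Pi.smul_apply, Matrix.cramer_apply, smul_eq_mul, hdet] at h2
    have h3 : A.updateCol k (fun i => B i t) = B.submatrix id (Function.update w k t) := by
      ext i m
      rw [Matrix.submatrix_apply, Matrix.updateCol_apply]
      by_cases hm : m = k
      · subst hm
        rw [if_pos rfl, Function.update_self]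
        rfl
      · rw [if_neg hm, Function.update_of_ne hm, hA]
        rfl
    rw [h3] at h2
    rw [← hA]
    change (A⁻¹ *ᵥ fun i => B i t) k = _
    rw [eq_inv_mul_iff_mul_eq₀ hB, h2]
    rfl
  have hw' : mn B' w ≠ 0 := by rw [h]; exact hw
  have h1 : (B'.submatrix id w)⁻¹ * B' = (B.submatrix id w)⁻¹ * B := by
    ext k t
    rw [key B' hw', key B hw, h]
  refine ⟨B'.submatrix id w * (B.submatrix id w)⁻¹, ?_⟩
  have hu : IsUnit (B'.submatrix id w).det := isUnit_iff_ne_zero.2 hw'
  rw [Matrix.mul_assoc, ← h1, ← Matrix.mul_assoc, Matrix.mul_nonsing_inv _ hu, Matrix.one_mul]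

/-- Independent rows have nonzero minors. -/
lemma exists_mn {B : Matrix (Fin d) ι F} (hB : LinearIndependent F B.row) :
    ∃ w, mn B w ≠ 0 := by
  by_contra hcon
  push Not at hcon
  obtain ⟨D, hD⟩ : ∃ D : Matrix ι (Fin d) F, B * D = 1 := by
    have h2 : LinearMap.ker (Matrix.toLin' Bᵀ) = ⊥ := by
      rw [LinearMap.ker_eq_bot']
      intro v hv
      rw [Matrix.toLin'_apply] at hv
      have h3 : ∑ i, v i • B.row i = 0 := by
        funext t
        have h4 := congrFun hv t
        rw [Matrix.mulVec, dotProduct] at h4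
        rw [Finset.sum_apply]
        refine Eq.trans (Finset.sum_congr rfl fun i _ => ?_) h4
        rw [Pi.smul_apply, smul_eq_mul, Matrix.transpose_apply, mul_comm]
        rfl
      funext i
      exact (Fintype.linearIndependent_iff.1 hB) v h3 i
    obtain ⟨g, hg⟩ := LinearMap.exists_leftInverse_of_injective _ h2
    refine ⟨(LinearMap.toMatrix' g)ᵀ, ?_⟩
    have h3 : LinearMap.toMatrix' g * Bᵀ = 1 := by
      have h4 := congrArg LinearMap.toMatrix' hg
      rw [LinearMap.toMatrix'_comp, LinearMap.toMatrix'_toLin', LinearMap.toMatrix'_id] at h4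
      exact h4
    have h4 := congrArg Matrix.transpose h3
    rw [Matrix.transpose_mul, Matrix.transpose_transpose, Matrix.transpose_one] at h4
    exact h4
  have h1 := det_mul_sum B D
  rw [hD, Matrix.det_one, Finset.sum_eq_zero fun w _ => by rw [hcon w, mul_zero]] at h1
  exact one_ne_zero h1

end Pool.Agent.L0h10.RU
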