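import Pool.Agent.L0h10.RQ.Rep
import Pool.Agent.L0h10.RT.Int

/-!
# Normal matrices and integral replicas
-/

set_option linter.unusedSectionVars false

namespace Pool.Agent.L0h10.RU

open Matrix Module ComplexOrder
open Pool.Agent.N996.BP Pool.Agent.N996.FP
open Pool.Agent.L0h10.RQ

variable {ι : Type} [Fintype ι] [DecidableEq ι]

/-- Semisimple matrices are diagonalisable. -/
lemma jor_ss {x : Matrix ι ι ℂ}
    (hss : Module.End.IsSemisimple (Matrix.toLin' x : Module.End ℂ (ι → ℂ))) :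
    ∃ S S' μ, Jor x S S' 0 μ := by
  classical
  obtain ⟨s, hs⟩ : ∃ s : Module.End ℂ (ι → ℂ), s = Matrix.toLin' x := ⟨_, rfl⟩
  rw [← hs] at hss
  have dec := DirectSum.isInternal_submodule_of_iSupIndep_of_iSup_eq_top
    s.eigenspaces_iSupIndep hss.iSup_eigenspace_eq_top
  let I := (ν : ℂ) × Fin (finrank ℂ (s.eigenspace ν))
  let v0 : Basis I ℂ (ι → ℂ) := dec.collectedBasis fun μ ↦ finBasis ℂ (s.eigenspace μ)
  have : Fintype I := FiniteDimensional.fintypeBasisIndex v0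
  have hcard : Fintype.card I = Fintype.card ι := by
    rw [← finrank_eq_card_basis v0, Module.finrank_fintype_fun_eq_card]
  let eqv : I ≃ ι := Fintype.equivOfCardEq hcard
  let v : Basis ι ℂ (ι → ℂ) := v0.reindex eqv
  let μ : ι → ℂ := fun i => (eqv.symm i).1
  have hsv : ∀ i, s (v i) = μ i • v i := by
    intro i
    have h1 : v i = v0 (eqv.symm i) := Basis.reindex_apply _ _ _
    rw [h1]
    exact Module.End.mem_eigenspace_iff.mp (dec.collectedBasis_mem _ (eqv.symm i))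
  have hS : LinearMap.toMatrix v v s = Matrix.diagonal μ := by
    ext i k
    rw [LinearMap.toMatrix_apply, hsv, map_smul, Basis.repr_self, Finsupp.smul_apply,
      Matrix.diagonal_apply, Finsupp.single_apply, smul_eq_mul, mul_ite, mul_one, mul_zero]
    by_cases h : i = k
    · subst h; simp
    · rw [if_neg h, if_neg (Ne.symm h)]
  refine ⟨(Pi.basisFun ℂ ι).toMatrix v, v.toMatrix (Pi.basisFun ℂ ι), μ, ?_, ?_, ?_, ?_⟩
  · exact Basis.toMatrix_mul_toMatrix_flip _ _
  · exact IsNilpotent.zero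
  · rw [Matrix.zero_mul, Matrix.mul_zero]
  · have h1 := basis_toMatrix_mul_linearMap_toMatrix_mul_basis_toMatrix
      (b := v) (b' := Pi.basisFun ℂ ι) (c := v) (c' := Pi.basisFun ℂ ι) (f := Matrix.toLin' x)
    have h2 : LinearMap.toMatrix (Pi.basisFun ℂ ι) (Pi.basisFun ℂ ι) (Matrix.toLin' x) = x := by
      rw [LinearMap.toMatrix_eq_toMatrix', LinearMap.toMatrix'_toLin']
    rw [h2] at h1
    rw [h1, ← hs, hS, add_zero]

/-- Hermitian nilpotent matrices are zero. -/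
lemma herm_nil {B : Matrix ι ι ℂ} (hB : Bᴴ = B) (h : IsNilpotent B) : B = 0 := by
  obtain ⟨m, hm⟩ := h
  have key : ∀ k : ℕ, B ^ (2 ^ k) = 0 → B = 0 := by
    intro k
    induction k with
    | zero => intro h; rwa [pow_zero, pow_one] at h
    | succ k ih =>
      intro h
      apply ih
      have h1 : (B ^ 2 ^ k)ᴴ = B ^ 2 ^ k := by rw [Matrix.conjTranspose_pow, hB]
      have h2 : (B ^ 2 ^ k)ᴴ * (B ^ 2 ^ k) = 0 := by
        rw [h1, ← pow_add, ← two_mul, ← pow_succ']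
        exact h
      exact Matrix.conjTranspose_mul_self_eq_zero.1 h2
  refine key m ?_
  have h1 : m ≤ 2 ^ m := Nat.lt_two_pow_self.le
  obtain ⟨c, hc⟩ := Nat.exists_eq_add_of_le h1
  rw [hc, pow_add, hm, Matrix.zero_mul]

/-- Normal nilpotent matrices are zero. -/
lemma normal_nil {N : Matrix ι ι ℂ} (hN : Commute Nᴴ N) (h : IsNilpotent N) : N = 0 := by
  have h1 : IsNilpotent (Nᴴ * N) := hN.isNilpotent_mul_left h
  have h2 : Nᴴ * N = 0 := herm_nil (by
    rw [Matrix.conjTranspose_mul, Matrix.conjTranspose_conjTranspose]) h1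
  exact Matrix.conjTranspose_mul_self_eq_zero.1 h2

/-- **Normal matrices are diagonalisable.** -/
lemma jor_normal {x : Matrix ι ι ℂ} (hx : Commute xᴴ x) : ∃ S S' μ, Jor x S S' 0 μ := by
  obtain ⟨n, hn, s, hs, hnil, hss, hxx⟩ :=
    Module.End.exists_isNilpotent_isSemisimple (f := (Matrix.toLin' x : Module.End ℂ (ι → ℂ)))
  obtain ⟨N, hN⟩ : ∃ N : Matrix ι ι ℂ, Matrix.toLin' N = n := ⟨LinearMap.toMatrix' n,
    Matrix.toLin'_toMatrix' n⟩
  have hcm : ∀ y : Matrix ι ι ℂ, Commute y x → Commute y N := by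
    intro y hy
    have h1 : Commute (Matrix.toLin' y : Module.End ℂ (ι → ℂ)) (Matrix.toLin' x) := by
      change Matrix.toLin' y ∘ₗ Matrix.toLin' x = Matrix.toLin' x ∘ₗ Matrix.toLin' y
      rw [← Matrix.toLin'_mul, ← Matrix.toLin'_mul, hy.eq]
    have h2 : Commute (Matrix.toLin' y : Module.End ℂ (ι → ℂ)) n :=
      Algebra.commute_of_mem_adjoin_singleton_of_commute hn h1
    rw [← hN] at h2
    have h3 : Matrix.toLin' (y * N) = Matrix.toLin' (N * y) := by
      rw [Matrix.toLin'_mul, Matrix.toLin'_mul]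
      exact h2
    exact Matrix.toLin'.injective h3
  have h1 : Commute xᴴ N := hcm _ hx
  have h2 : Commute Nᴴ x := by
    have h3 := congrArg Matrix.conjTranspose h1.eq
    rw [Matrix.conjTranspose_mul, Matrix.conjTranspose_mul,
      Matrix.conjTranspose_conjTranspose] at h3
    exact h3
  have h3 : Commute Nᴴ N := hcm _ h2
  have h4 : IsNilpotent N := by
    obtain ⟨m, hm⟩ := hnil
    refine ⟨m, ?_⟩
    apply Matrix.toLin'.injective
    rw [map_zero, ← hm, ← hN]
    exact map_pow (Matrix.toLinAlgEquiv' : Matrix ι ι ℂ ≃ₐ[ℂ] _) N m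
  have h5 : N = 0 := normal_nil h3 h4
  have h6 : n = 0 := by rw [← hN, h5, map_zero]
  rw [h6, zero_add] at hxx
  exact jor_ss (by rw [hxx]; exact hss)

/-- Replicas with integral eigenvalues. -/
lemma rep_int {S S' : Matrix ι ι ℂ} {μ : ι → ℂ} (hinv : S' * S = 1) {φ : ℂ →+ ℂ} {w : ℕ}
    {q : ι → ℤ} (hφ : ∀ i, φ (μ i) = (q i : ℂ)) (hq : ∀ i, |q i| ≤ w) :
    IsInt w (rep S S' μ φ) := by
  have hinv' : S * S' = 1 := mul_eq_one_comm.1 hinv
  have hsp : ∀ i, (S *ᵥ Pi.single i 1) ∈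
      {u : ι → ℂ | ∃ m : ℤ, |m| ≤ (w : ℤ) ∧ rep S S' μ φ *ᵥ u = (m : ℂ) • u} := by
    intro i
    refine ⟨q i, hq i, ?_⟩
    rw [rep, Matrix.mulVec_mulVec, Matrix.mul_assoc, hinv, Matrix.mul_one,
      ← Matrix.mulVec_mulVec]
    have h1 : Matrix.diagonal (fun i => φ (μ i)) *ᵥ (Pi.single i 1 : ι → ℂ) =
        (q i : ℂ) • Pi.single i 1 := by
      funext k
      rw [Matrix.mulVec_diagonal, Pi.smul_apply, smul_eq_mul]
      by_cases h : k = i
      · subst h; rw [hφ]
      · rw [Pi.single_eq_of_ne h, mul_zero, mul_zero]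
    rw [h1, Matrix.mulVec_smul]
  refine isInt_of fun v => ?_
  have h1 : v = S *ᵥ (S' *ᵥ v) := by rw [Matrix.mulVec_mulVec, hinv', Matrix.one_mulVec]
  rw [h1]
  have h2 : S' *ᵥ v = ∑ i, (S' *ᵥ v) i • (Pi.single i 1 : ι → ℂ) := by
    funext k
    rw [Finset.sum_apply, Finset.sum_eq_single k]
    · rw [Pi.smul_apply, Pi.single_eq_same, smul_eq_mul, mul_one]
    · intro b _ hb
      rw [Pi.smul_apply, Pi.single_eq_of_ne (Ne.symm hb), smul_zero]
    · intro h; exact absurd (Finset.mem_univ _) h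
  rw [h2, Matrix.mulVec_sum]
  refine Submodule.sum_mem _ fun i _ => ?_
  rw [Matrix.mulVec_smul]
  exact Submodule.smul_mem _ _ (Submodule.subset_span (hsp i))

lemma isInt_mono {w w' : ℕ} (hw : w ≤ w') {y : Matrix ι ι ℂ} (h : IsInt w y) : IsInt w' y := by
  obtain ⟨π, hπ⟩ := h
  refine isInt_of fun v => ?_
  have h1 : v = ∑ k ∈ Finset.Icc (-w : ℤ) w, π k *ᵥ v := by
    rw [← Matrix.sum_mulVec, hπ.sum, Matrix.one_mulVec]
  rw [h1]
  refine Submodule.sum_mem _ fun k hk => Submodule.subset_span ⟨k, ?_, ?_⟩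
  · rw [Finset.mem_Icc] at hk
    have : (w : ℤ) ≤ w' := by exact_mod_cast hw
    rw [abs_le]
    omega
  · rw [Matrix.mulVec_mulVec, hπ.left k hk, Matrix.smul_mulVec]

/-- **Diagonalisable matrices are combinations of integral replicas.** -/
lemma exists_int {x S S' : Matrix ι ι ℂ} {μ : ι → ℂ} (h : Jor x S S' 0 μ) :
    ∃ w : ℕ, x ∈ Submodule.span ℂ {y | ∃ φ : ℂ →+ ℂ, y = rep S S' μ φ ∧ IsInt w y} := by
  classical
  let E : Submodule ℚ ℂ := Submodule.span ℚ (Set.range μ)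
  have : FiniteDimensional ℚ E := FiniteDimensional.span_of_finite ℚ (Set.finite_range μ)
  let b := Module.finBasis ℚ E
  have hex : ∀ k, ∃ g : ℂ →ₗ[ℚ] ℚ, g ∘ₗ E.subtype = b.coord k := fun k =>
    LinearMap.exists_extend (b.coord k)
  choose g hg using hex
  have hμ : ∀ i, μ i ∈ E := fun i => Submodule.subset_span ⟨i, rfl⟩
  have hsum : ∀ i, μ i = ∑ k, (g k (μ i) : ℂ) * (b k : ℂ) := by
    intro i
    have h1 := b.sum_repr ⟨μ i, hμ i⟩
    have h2 := congrArg (Subtype.val : E → ℂ) h1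
    have h3 : (((∑ k, b.repr ⟨μ i, hμ i⟩ k • b k : E)) : ℂ) =
        ∑ k, (b.repr ⟨μ i, hμ i⟩ k) • (b k : ℂ) := by
      rw [AddSubmonoidClass.coe_finsetSum]
      rfl
    rw [h3] at h2
    refine h2.symm.trans (Finset.sum_congr rfl fun k _ => ?_)
    have h4 := LinearMap.congr_fun (hg k) ⟨μ i, hμ i⟩
    have h5 : g k (μ i) = b.repr ⟨μ i, hμ i⟩ k := h4
    rw [h5, Rat.smul_def]
  -- the common denominator
  obtain ⟨d, hd⟩ : ∃ d : ℕ, d = ∏ i : ι, ∏ k, (g k (μ i)).den := ⟨_, rfl⟩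
  have hd0 : d ≠ 0 := by
    rw [hd]
    exact Finset.prod_ne_zero_iff.2 fun i _ => Finset.prod_ne_zero_iff.2 fun k _ =>
      (g k (μ i)).den_nz
  have hint : ∀ i k, ∃ q : ℤ, (d : ℚ) * g k (μ i) = q := by
    intro i k
    have h1 : (g k (μ i)).den ∣ d := by
      rw [hd]
      exact (Finset.dvd_prod_of_mem _ (Finset.mem_univ k)).trans
        (Finset.dvd_prod_of_mem (fun i => ∏ k, (g k (μ i)).den) (Finset.mem_univ i))
    obtain ⟨c, hc⟩ := h1
    refine ⟨c * (g k (μ i)).num, ?_⟩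
    rw [hc]
    push_cast
    have h2 : ((g k (μ i)).den : ℚ) * g k (μ i) = (g k (μ i)).num := by
      rw [mul_comm]
      exact Rat.mul_den_eq_num _
    calc ((g k (μ i)).den : ℚ) * c * g k (μ i) = c * (((g k (μ i)).den : ℚ) * g k (μ i)) := by
          ring
      _ = _ := by rw [h2]
  choose q hq using hint
  let φ : Fin (finrank ℚ E) → (ℂ →+ ℂ) := fun k =>
    (algebraMap ℚ ℂ).toAddMonoidHom.comp ((d : ℚ) • g k).toAddMonoidHom
  have hφ : ∀ k z, φ k z = (((d : ℚ) * g k z : ℚ) : ℂ) := fun k z => by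
    change (algebraMap ℚ ℂ) (((d : ℚ) • g k) z) = _
    rw [LinearMap.smul_apply, smul_eq_mul, eq_ratCast]
  have hφ' : ∀ k i, φ k (μ i) = (q i k : ℂ) := fun k i => by
    rw [hφ, hq, Rat.cast_intCast]
  obtain ⟨w, hw⟩ : ∃ w : ℕ, w = ∑ i : ι, ∑ k, (q i k).natAbs := ⟨_, rfl⟩
  have hwq : ∀ i k, |q i k| ≤ (w : ℤ) := by
    intro i k
    have h1 : (q i k).natAbs ≤ w := by
      rw [hw]
      exact (Finset.single_le_sum (f := fun k => (q i k).natAbs) (fun _ _ => Nat.zero_le _)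
        (Finset.mem_univ k)).trans (Finset.single_le_sum
          (f := fun i => ∑ k, (q i k).natAbs) (fun _ _ => Nat.zero_le _) (Finset.mem_univ i))
    rw [Int.abs_eq_natAbs]
    exact_mod_cast h1
  refine ⟨w, ?_⟩
  have hx : x = ∑ k, ((b k : ℂ) / d) • rep S S' μ (φ k) := by
    have h1 : x = S * Matrix.diagonal μ * S' := by
      have h2 : S' * x * S = Matrix.diagonal μ := by rw [h.eq, add_zero]
      calc x = (S * S') * x * (S * S') := by rw [h.inv', Matrix.one_mul, Matrix.mul_one]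
        _ = S * (S' * x * S) * S' := by simp only [Matrix.mul_assoc]
        _ = _ := by rw [h2]
    have h2 : Matrix.diagonal μ = ∑ k, ((b k : ℂ) / d) •
        Matrix.diagonal (fun i => φ k (μ i)) := by
      ext i l
      rw [Matrix.sum_apply]
      by_cases hil : i = l
      · subst hil
        rw [Matrix.diagonal_apply_eq, hsum i]
        refine Finset.sum_congr rfl fun k _ => ?_
        rw [Matrix.smul_apply, Matrix.diagonal_apply_eq, hφ, smul_eq_mul]
        have hdc : (d : ℂ) ≠ 0 := by exact_mod_cast hd0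
        push_cast
        field_simp
      · rw [Matrix.diagonal_apply_ne _ hil]
        refine (Finset.sum_eq_zero fun k _ => ?_).symm
        rw [Matrix.smul_apply, Matrix.diagonal_apply_ne _ hil, smul_zero]
    rw [h1, h2, Finset.mul_sum, Finset.sum_mul]
    refine Finset.sum_congr rfl fun k _ => ?_
    rw [Matrix.mul_smul, Matrix.smul_mul, rep]
  have hx' : ∑ k, ((b k : ℂ) / d) • rep S S' μ (φ k) ∈
      Submodule.span ℂ {y | ∃ φ : ℂ →+ ℂ, y = rep S S' μ φ ∧ IsInt w y} :=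
    Submodule.sum_mem _ fun k _ => Submodule.smul_mem _ _ (Submodule.subset_span
      ⟨φ k, rfl, rep_int h.inv (fun i => hφ' k i) fun i => hwq i k⟩)
  rw [← hx] at hx'
  exact hx'

end Pool.Agent.L0h10.RU
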