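import Pool.Agent.L0h10.RU.Cas3
import Pool.Agent.L0h10.RU.Minor

/-!
# Semisimple Lie algebras: the parity
-/

set_option linter.unusedSectionVars false

namespace Pool.Agent.L0h10.RU

open Matrix Module
open Pool.Agent.N996.BP Pool.Agent.N996.FP
open Pool.Agent.L0h10.TS (ar2 ar2_inj ar2_surj dk_ar2 kp_ar2 dk_rei dk_empty dk_mulVec_apply GRep
  desc_sol desc_span dv dv_eq dv_map)
open Pool.Agent.L0h10.RQ

variable {ι : Type} [Fintype ι] [DecidableEq ι] {deg : ι → ℕ}

/-- The infinitesimal action on the minors. -/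
lemma dv_mn {R : Type*} [CommRing R] {d : ℕ} {y : Matrix ι ι R} {B : Matrix (Fin d) ι R}
    {C : Matrix (Fin d) (Fin d) R} (h : B * yᵀ = C * B) : dv y (mn B) = C.trace • mn B := by
  funext w
  obtain ⟨A, hA⟩ : ∃ A, A = B.submatrix id w := ⟨_, rfl⟩
  have h1 : ∀ k t, mn B (Function.update w k t) = ∑ i, A.adjugate k i * B i t := by
    intro k t
    have h2 : B.submatrix id (Function.update w k t) = A.updateCol k (fun i => B i t) := by
      ext i m
      rw [Matrix.submatrix_apply, Matrix.updateCol_apply]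
      by_cases hm : m = k
      · subst hm
        rw [if_pos rfl, Function.update_self]
        rfl
      · rw [if_neg hm, Function.update_of_ne hm, hA]
        rfl
    rw [mn, h2, ← Matrix.cramer_apply, Matrix.cramer_eq_adjugate_mulVec]
    rfl
  have h2 : ∀ k, ∑ t, y (w k) t * mn B (Function.update w k t) =
      (A.adjugate * (C * A)) k k := by
    intro k
    simp only [h1, Finset.mul_sum]
    rw [Finset.sum_comm, Matrix.mul_apply]
    refine Finset.sum_congr rfl fun i _ => ?_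
    have h3 := congrFun (congrFun h i) (w k)
    have h4 : (C * A) i k = (C * B) i (w k) := by
      rw [Matrix.mul_apply, Matrix.mul_apply, hA]
      rfl
    rw [h4, ← h3, Matrix.mul_apply, Finset.mul_sum]
    refine Finset.sum_congr rfl fun t _ => ?_
    rw [Matrix.transpose_apply]
    ring
  rw [dv, Finset.sum_congr rfl fun k _ => h2 k]
  have h3 : (A.adjugate * (C * A)).trace = C.trace * A.det := by
    rw [Matrix.trace_mul_comm, Matrix.mul_assoc, Matrix.mul_adjugate, Matrix.mul_smul,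
      Matrix.mul_one, Matrix.trace_smul, smul_eq_mul, mul_comm]
  rw [Pi.smul_apply, smul_eq_mul, mn, ← hA, ← h3]
  rfl

section Eig

variable {c S S' : Matrix ι ι ℂ} {μ : ι → ℂ}

/-- The rows which are the eigenvectors for the eigenvalue. -/
lemma exists_eig (h : Jor c S S' 0 μ) (l : ℂ) {d : ℕ}
    (hd : Fintype.card {i // μ i = l} = d) : ∃ B : Matrix (Fin d) ι ℂ,
      LinearIndependent ℂ B.row ∧ B * cᵀ = (Matrix.diagonal fun _ => l) * B ∧
      ∀ z : Matrix ι ι ℂ, z * c = c * z → ∃ C : Matrix (Fin d) (Fin d) ℂ, B * zᵀ = C * B ∧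
        ∃ p : Matrix ι ι ℂ, (∀ x : Matrix ι ι ℂ, x * c = c * x → x * p = p * x) ∧
          C.trace = (p * z).trace := by
  classical
  have hSS : S * S' = 1 := mul_eq_one_comm.1 h.inv
  have hc : c * S = S * Matrix.diagonal μ := by
    have h1 := h.eq
    rw [add_zero] at h1
    rw [← h1, ← Matrix.mul_assoc, ← Matrix.mul_assoc, hSS, Matrix.one_mul]
  let e : Fin d ≃ {i // μ i = l} := (Fintype.equivFinOfCardEq hd).symm
  let B : Matrix (Fin d) ι ℂ := Matrix.of fun k i => S i (e k).1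
  -- matrices which commute
  have hcol : ∀ z : Matrix ι ι ℂ, z * c = c * z → ∀ i k, μ i ≠ μ k → (S' * z * S) i k = 0 := by
    intro z hz i k hik
    have h1 : Matrix.diagonal μ * (S' * z * S) = (S' * z * S) * Matrix.diagonal μ := by
      have h2 : Matrix.diagonal μ = S' * c * S := by
        have h1 := h.eq
        rw [add_zero] at h1
        exact h1.symm
      rw [h2]
      calc S' * c * S * (S' * z * S) = S' * c * (S * S') * z * S := by
            simp only [Matrix.mul_assoc]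
        _ = S' * (c * z) * S := by rw [hSS, Matrix.mul_one]; simp only [Matrix.mul_assoc]
        _ = S' * z * (S * S') * c * S := by
            rw [hSS, Matrix.mul_one, ← hz]; simp only [Matrix.mul_assoc]
        _ = _ := by simp only [Matrix.mul_assoc]
    have h2 := congrFun (congrFun h1 i) k
    rw [Matrix.diagonal_mul, Matrix.mul_diagonal, mul_comm, ← sub_eq_zero, ← mul_sub,
      mul_eq_zero, or_iff_left (sub_ne_zero.2 hik)] at h2
    exact h2
  have hzS : ∀ z : Matrix ι ι ℂ, z * S = S * (S' * z * S) := by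
    intro z
    rw [Matrix.mul_assoc, ← Matrix.mul_assoc, hSS, Matrix.one_mul]
  refine ⟨B, ?_, ?_, ?_⟩
  · have h1 : LinearIndependent ℂ (Sᵀ).row := by
      rw [Fintype.linearIndependent_iff]
      intro g hg k
      have h2 : S *ᵥ g = 0 := by
        funext i
        have h3 := congrFun hg i
        rw [Finset.sum_apply] at h3
        rw [Matrix.mulVec, dotProduct]
        refine Eq.trans (Finset.sum_congr rfl fun a _ => ?_) h3
        rw [Pi.smul_apply, smul_eq_mul, mul_comm]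
        rfl
      have h3 : g = S' *ᵥ (S *ᵥ g) := by rw [Matrix.mulVec_mulVec, h.inv, Matrix.one_mulVec]
      rw [h3, h2, Matrix.mulVec_zero]
      rfl
    exact h1.comp (fun k => (e k).1) (Subtype.val_injective.comp e.injective)
  · ext k i
    refine Eq.trans ?_ (Matrix.diagonal_mul (fun _ : Fin d => l) B k i).symm
    rw [Matrix.mul_apply]
    have h1 := congrFun (congrFun hc i) (e k).1
    rw [Matrix.mul_diagonal, Matrix.mul_apply, (e k).2] at h1
    change ∑ t, S t (e k).1 * c i t = l * S i (e k).1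
    rw [mul_comm l, ← h1]
    exact Finset.sum_congr rfl fun t _ => mul_comm _ _
  · intro z hz
    have hcomm : ∀ x : Matrix ι ι ℂ, x * c = c * x →
        (S' * x * S) * Matrix.diagonal (fun i => if μ i = l then (1 : ℂ) else 0) =
        Matrix.diagonal (fun i => if μ i = l then (1 : ℂ) else 0) * (S' * x * S) := by
      intro x hx
      ext i k
      rw [Matrix.mul_diagonal, Matrix.diagonal_mul]
      by_cases hik : μ i = μ k
      · rw [hik, mul_comm]
      · rw [hcol x hx i k hik, mul_zero, zero_mul]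
    refine ⟨Matrix.of fun k m => (S' * z * S) (e m).1 (e k).1, ?_,
      S * Matrix.diagonal (fun i => if μ i = l then 1 else 0) * S', fun x hx => ?_, ?_⟩
    · ext k i
      rw [Matrix.mul_apply, Matrix.mul_apply]
      have h1 := congrFun (congrFun (hzS z) i) (e k).1
      rw [Matrix.mul_apply, Matrix.mul_apply] at h1
      change ∑ t, S t (e k).1 * z i t = ∑ m, (S' * z * S) (e m).1 (e k).1 * S i (e m).1
      rw [Finset.sum_congr rfl fun t _ => mul_comm (S t (e k).1) (z i t), h1,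
        e.sum_comp fun m : {i // μ i = l} => (S' * z * S) m.1 (e k).1 * S i m.1]
      have h2 : ∀ t, ¬ μ t = l → S i t * (S' * z * S) t (e k).1 = 0 := by
        intro t ht
        rw [hcol z hz t (e k).1 (by rw [(e k).2]; exact ht), mul_zero]
      rw [← Finset.sum_filter_add_sum_filter_not Finset.univ (fun t => μ t = l),
        Finset.sum_eq_zero (s := Finset.univ.filter fun t => ¬ μ t = l)
          (fun t ht => h2 t (Finset.mem_filter.1 ht).2), add_zero,
        Finset.sum_subtype (p := fun t => μ t = l) _ (fun t => by simp)]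
      exact Finset.sum_congr rfl fun t _ => mul_comm _ _
    · have h1 := hcomm x hx
      calc x * (S * Matrix.diagonal (fun i => if μ i = l then 1 else 0) * S') =
            S * ((S' * x * S) * Matrix.diagonal (fun i => if μ i = l then (1 : ℂ) else 0)) *
              S' := by
            rw [← Matrix.mul_assoc S, ← hzS]
            simp only [Matrix.mul_assoc]
        _ = S * Matrix.diagonal (fun i => if μ i = l then (1 : ℂ) else 0) * S' * x *
              (S * S') := by rw [h1]; simp only [Matrix.mul_assoc]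
        _ = _ := by rw [hSS, Matrix.mul_one]
    · have h1 : (S * Matrix.diagonal (fun i => if μ i = l then (1 : ℂ) else 0) * S' * z).trace =
          (Matrix.diagonal (fun i => if μ i = l then (1 : ℂ) else 0) * (S' * z * S)).trace := by
        rw [Matrix.mul_assoc, Matrix.mul_assoc, Matrix.trace_mul_comm]
        simp only [Matrix.mul_assoc]
      rw [h1, Matrix.trace, Matrix.trace]
      change ∑ k, (S' * z * S) (e k).1 (e k).1 = _
      rw [e.sum_comp fun m : {i // μ i = l} => (S' * z * S) m.1 m.1]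
      have h2 : ∀ i, (Matrix.diagonal (fun i => if μ i = l then (1 : ℂ) else 0) *
          (S' * z * S)).diag i = if μ i = l then (S' * z * S) i i else 0 := by
        intro i
        rw [Matrix.diag_apply, Matrix.diagonal_mul]
        split_ifs
        · rw [one_mul]
        · rw [zero_mul]
      rw [Finset.sum_congr rfl fun i _ => h2 i, ← Finset.sum_filter,
        Finset.sum_subtype (p := fun t => μ t = l) _ (fun t => by simp)]

end Eig

variable {ℓ : ℕ} [hℓ : Fact ℓ.Prime] {Γ : Type*} [Group Γ] [TopologicalSpace Γ]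
  {P : GRep deg ℚ_[ℓ] Γ} {j : ℚ_[ℓ] →+* ℂ} {H : HData ι}
  {A : ∀ n : ℕ, Submodule ℚ ((Fin (n + 1) → ι) → ℚ)} {N : ℕ}

/-- Diagonalisation in the old coordinates. -/
lemma exists_dg {x : Matrix ι ι ℂ} (hn : Commute (nz H x)ᴴ (nz H x)) :
    ∃ S S' μ, Jor x S S' 0 μ := by
  obtain ⟨S, S', μ, h⟩ := jor_normal hn
  refine ⟨cR H.D.Mi * S, S' * cR H.D.M, μ, ?_, IsNilpotent.zero,
    by rw [Matrix.zero_mul, Matrix.mul_zero], ?_⟩
  · calc S' * cR H.D.M * (cR H.D.Mi * S) = S' * (cR H.D.M * cR H.D.Mi) * S := by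
          simp only [Matrix.mul_assoc]
      _ = 1 := by rw [M_Mi, Matrix.mul_one, h.inv]
  · rw [← h.eq, nz]
    simp only [Matrix.mul_assoc]

/-- The eigenvalues of skew matrices. -/
lemma exists_neg {c S S' : Matrix ι ι ℂ} {μ : ι → ℂ} (h : Jor c S S' 0 μ)
    (hsk : c * cQ H.Qir + cQ H.Qir * cᵀ = 0) (i₀ : ι) : ∃ i, μ i = -μ i₀ := by
  obtain ⟨K, hK⟩ : ∃ K, K = S' * cQ H.Qir * S'ᵀ := ⟨_, rfl⟩
  have hSS : S * S' = 1 := mul_eq_one_comm.1 h.inv
  have hc : S' * c = Matrix.diagonal μ * S' := by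
    have h1 := h.eq
    rw [add_zero] at h1
    rw [← h1, Matrix.mul_assoc, hSS, Matrix.mul_one]
  have hct : cᵀ * S'ᵀ = S'ᵀ * Matrix.diagonal μ := by
    rw [← Matrix.transpose_mul, hc, Matrix.transpose_mul, Matrix.diagonal_transpose]
  have h1 : Matrix.diagonal μ * K = -(K * Matrix.diagonal μ) := by
    have h2 : c * cQ H.Qir = -(cQ H.Qir * cᵀ) := by
      rw [eq_neg_iff_add_eq_zero]; exact hsk
    rw [hK]
    calc Matrix.diagonal μ * (S' * cQ H.Qir * S'ᵀ) = (Matrix.diagonal μ * S') * cQ H.Qir * S'ᵀ := by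
          simp only [Matrix.mul_assoc]
      _ = S' * (c * cQ H.Qir) * S'ᵀ := by rw [← hc]; simp only [Matrix.mul_assoc]
      _ = -(S' * cQ H.Qir * (cᵀ * S'ᵀ)) := by
          rw [h2, Matrix.mul_neg, Matrix.neg_mul]; simp only [Matrix.mul_assoc]
      _ = _ := by rw [hct]; simp only [Matrix.mul_assoc]
  have h2 : (Sᵀ * cQ H.Qr * S) * K = 1 := by
    rw [hK]
    calc Sᵀ * cQ H.Qr * S * (S' * cQ H.Qir * S'ᵀ) = Sᵀ * (cQ H.Qr * (S * S') * cQ H.Qir) * S'ᵀ := by
          simp only [Matrix.mul_assoc]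
      _ = (S' * S)ᵀ := by
          rw [hSS, Matrix.mul_one, Q_Qi, Matrix.mul_one, ← Matrix.transpose_mul]
      _ = 1 := by rw [h.inv, Matrix.transpose_one]
  by_contra hcon
  push Not at hcon
  have h3 : ∀ i, K i i₀ = 0 := by
    intro i
    have h4 := congrFun (congrFun h1 i) i₀
    rw [Matrix.diagonal_mul, Matrix.neg_apply, Matrix.mul_diagonal, eq_neg_iff_add_eq_zero,
      mul_comm (K i i₀), ← add_mul, mul_eq_zero] at h4
    refine h4.resolve_left fun h5 => hcon i ?_
    exact eq_neg_of_add_eq_zero_left h5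
  have h4 := congrFun (congrFun h2 i₀) i₀
  rw [Matrix.mul_apply, Finset.sum_eq_zero fun i _ => by rw [h3 i, mul_zero],
    Matrix.one_apply_eq] at h4
  exact zero_ne_one h4

/-- The number of the nonzero eigenvalues. -/
lemma card_nz {c S S' : Matrix ι ι ℂ} {μ : ι → ℂ} (h : Jor c S S' 0 μ)
    {V : Submodule ℚ_[ℓ] (ι → ℚ_[ℓ])} (hV : ∀ b ∈ V, c *ᵥ (fun i => j (b i)) = 0) :
    Fintype.card {i // μ i ≠ 0} ≤ finrank ℚ_[ℓ] ((ι → ℚ_[ℓ]) ⧸ V) := by
  classical
  have hSS : S * S' = 1 := mul_eq_one_comm.1 h.inv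
  have hc : S' * c = Matrix.diagonal μ * S' := by
    have h1 := h.eq
    rw [add_zero] at h1
    rw [← h1, Matrix.mul_assoc, hSS, Matrix.mul_one]
  let Z : Submodule ℂ (ι → ℂ) := LinearMap.ker c.mulVecLin
  have hZ : ∀ v, v ∈ Z ↔ c *ᵥ v = 0 := fun v => Iff.rfl
  have h1 : finrank ℚ_[ℓ] V ≤ finrank ℂ Z := finrank_le_of j fun b hb => (hZ _).2 (hV b hb)
  let f : Z →ₗ[ℂ] ({i // μ i = 0} → ℂ) :=
    { toFun := fun v i => (S' *ᵥ (v : ι → ℂ)) i.1
      map_add' := fun a b => by
        funext i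
        change (S' *ᵥ ((a : ι → ℂ) + (b : ι → ℂ))) i.1 = _
        rw [Matrix.mulVec_add]
        rfl
      map_smul' := fun r a => by
        funext i
        change (S' *ᵥ (r • (a : ι → ℂ))) i.1 = _
        rw [Matrix.mulVec_smul]
        rfl }
  have hf : Function.Injective f := by
    rw [injective_iff_map_eq_zero]
    intro v hv
    have h2 : S' *ᵥ (v : ι → ℂ) = 0 := by
      funext i
      by_cases hi : μ i = 0
      · exact congrFun hv ⟨i, hi⟩
      · have h3 : (Matrix.diagonal μ * S') *ᵥ (v : ι → ℂ) = 0 := by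
          rw [← hc, ← Matrix.mulVec_mulVec, (hZ _).1 v.2, Matrix.mulVec_zero]
        have h4 := congrFun h3 i
        rw [← Matrix.mulVec_mulVec, Matrix.mulVec_diagonal, Pi.zero_apply, mul_eq_zero] at h4
        exact h4.resolve_left hi
    have h3 : (v : ι → ℂ) = S *ᵥ (S' *ᵥ (v : ι → ℂ)) := by
      rw [Matrix.mulVec_mulVec, hSS, Matrix.one_mulVec]
    rw [h2, Matrix.mulVec_zero] at h3
    exact Subtype.ext h3
  have h2 := LinearMap.finrank_le_finrank_of_injective hf
  rw [Module.finrank_fintype_fun_eq_card] at h2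
  have h3 := Submodule.finrank_quotient_add_finrank V
  rw [Module.finrank_fintype_fun_eq_card] at h3
  have h4 := Fintype.card_subtype_compl fun i => μ i = 0
  have h5 := Fintype.card_subtype_le fun i => μ i = 0
  have h6 : Fintype.card {i // μ i ≠ 0} = Fintype.card {i // ¬ μ i = 0} := rfl
  omega

/-- Squares of arrays. -/
lemma sq_zero {κ : Type} [Fintype κ] [DecidableEq κ] {c : Matrix ι ι ℂ} {a : (κ → ι) → ℂ} {l : ℂ}
    (h1 : dv c a = l • a) (ha : a ≠ 0) (h2 : dv c (tens a a) = 0) : l = 0 := by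
  obtain ⟨w, hw⟩ := Function.ne_iff.1 ha
  have h3 := congrFun h2 (Sum.elim w w)
  rw [dv_tens, Pi.add_apply, tens_elim, tens_elim, h1, Pi.smul_apply, smul_eq_mul,
    Pi.zero_apply] at h3
  have h4 : 2 * l * (a w * a w) = 0 := by rw [← h3]; ring
  rw [Pi.zero_apply] at hw
  rw [mul_eq_zero, or_iff_left (mul_ne_zero hw hw), mul_eq_zero, or_iff_right two_ne_zero] at h4
  exact h4

/-- If the rows span a subspace stable under `2 ^ deg`, then the minors are homogeneous. -/
lemma mn_hom {d : ℕ} {B : Matrix (Fin d) ι ℂ} {C : Matrix (Fin d) (Fin d) ℂ}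
    (h : B * (Matrix.diagonal fun i => (2 : ℂ) ^ deg i)ᵀ = C * B) :
    ∃ e, ∀ w, mn B w ≠ 0 → ∑ i, deg (w i) = e := by
  have h1 : kp (Fin d) (Matrix.diagonal fun i => (2 : ℂ) ^ deg i) *ᵥ mn B = C.det • mn B := by
    rw [kp_mn, h, mn_mul]
  have h2 : ∀ w, mn B w ≠ 0 → (2 : ℂ) ^ (∑ i, deg (w i)) = C.det := by
    intro w hw
    have h3 := congrFun h1 w
    rw [RQ.kp_diag, Pi.smul_apply, smul_eq_mul, Finset.prod_pow_eq_pow_sum] at h3
    exact mul_right_cancel₀ hw h3
  by_cases h3 : ∃ w, mn B w ≠ 0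
  · obtain ⟨w0, hw0⟩ := h3
    refine ⟨∑ i, deg (w0 i), fun w hw => ?_⟩
    have h4 := (h2 w hw).trans (h2 w0 hw0).symm
    have h5 : (2 : ℕ) ^ (∑ i, deg (w i)) = 2 ^ (∑ i, deg (w0 i)) := by exact_mod_cast h4
    exact Nat.pow_right_injective le_rfl h5
  · push Not at h3
    exact ⟨0, fun w hw => absurd (h3 w) hw⟩

namespace Crd2

variable [IsTopologicalGroup Γ] [CompactSpace Γ] (D : Crd2 deg j P H A N)
include D

/-- The elements of the Lie algebra of the family commute with the commutant. -/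
lemma cen_E {c : Matrix ι ι ℂ} (hcA : c ∈ LA A) {x : Matrix ι ι ℂ}
    (hx : ∀ z ∈ LT (TT j P), x * z = z * x) : x * c = c * x :=
  D.dat0.AC_comm (D.dat0.orth_AC fun z hz => hx z (by rwa [LT_TI] at hz)) hcA

/-- If the centre is zero, then the elements of the Lie algebra of the family which commute with the
Lie algebra of the Tate arrays are zero. -/
theorem cen_zero (hcen : ∀ y ∈ LT (TT j P), (∀ z ∈ LT (TT j P), y * z = z * y) → y = 0)
    {V : Submodule ℚ_[ℓ] (ι → ℚ_[ℓ])}
    (hV : ∀ b ∈ V, (fun w : Fin (0 + 1) → ι => j (b (w 0))) ∈ TT j P 0)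
    (htN : finrank ℚ_[ℓ] ((ι → ℚ_[ℓ]) ⧸ V) ≤ N) {c : Matrix ι ι ℂ} (hcA : c ∈ LA A)
    (hcT : ∀ z ∈ LT (TT j P), c * z = z * c) (hn : Commute (nz H c)ᴴ (nz H c)) : c = 0 := by
  classical
  obtain ⟨w₀, DD⟩ := D.dat0.exists_dat
  obtain ⟨S, S', μ, h⟩ := exists_dg hn
  have hSS : S * S' = 1 := mul_eq_one_comm.1 h.inv
  -- the Tate classes are killed
  have hV0 : ∀ b ∈ V, c *ᵥ (fun i => j (b i)) = 0 := by
    intro b hb
    have h1 := kill_AC hcA (D.small 0 (by have := D.hN; omega) _ (hV b hb))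
    funext i
    have h4 := congrFun h1 fun _ => i
    rw [dv_eq, TS.dv_one] at h4
    exact h4
  have hcard := card_nz h hV0
  by_contra hc0
  -- an eigenvalue
  obtain ⟨i₀, hi₀⟩ : ∃ i, μ i ≠ 0 := by
    by_contra hcon
    push Not at hcon
    apply hc0
    have h1 := h.eq
    have h2 : Matrix.diagonal μ = (0 : Matrix ι ι ℂ) := by
      rw [show μ = fun _ => 0 from funext hcon, Matrix.diagonal_zero]
    rw [add_zero, h2] at h1
    calc c = (S * S') * c * (S * S') := by rw [hSS, Matrix.one_mul, Matrix.mul_one]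
      _ = S * (S' * c * S) * S' := by simp only [Matrix.mul_assoc]
      _ = 0 := by rw [h1, Matrix.mul_zero, Matrix.zero_mul]
  obtain ⟨i₁, hi₁⟩ := exists_neg h (LA_skew D.hinv hcA) i₀
  obtain ⟨l, hl0, ⟨i, hi⟩, hl⟩ : ∃ l : ℂ, l ≠ 0 ∧ (∃ i, μ i = l) ∧
      Fintype.card {i // μ i = l} ≤ Fintype.card {i // μ i = -l} := by
    rcases le_total (Fintype.card {i // μ i = μ i₀}) (Fintype.card {i // μ i = -μ i₀}) with h1 | h1
    · exact ⟨μ i₀, hi₀, ⟨i₀, rfl⟩, h1⟩
    · exact ⟨-μ i₀, neg_ne_zero.2 hi₀, ⟨i₁, hi₁⟩, by rw [neg_neg]; exact h1⟩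
  obtain ⟨d, hd⟩ : ∃ d, Fintype.card {i // μ i = l} = d := ⟨_, rfl⟩
  have hd0 : 0 < d := by
    rw [← hd]
    exact Fintype.card_pos_iff.2 ⟨⟨i, hi⟩⟩
  have h2d : 2 * d ≤ N := by
    have h1 : Fintype.card {i // μ i = l} + Fintype.card {i // μ i = -l} ≤
        Fintype.card {i // μ i ≠ 0} := by
      rw [Fintype.card_subtype, Fintype.card_subtype, Fintype.card_subtype,
        ← Finset.card_union_of_disjoint]
      · refine Finset.card_le_card fun a ha => ?_
        rw [Finset.mem_union, Finset.mem_filter, Finset.mem_filter] at ha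
        rw [Finset.mem_filter]
        refine ⟨Finset.mem_univ _, ?_⟩
        rcases ha with ⟨-, h1⟩ | ⟨-, h1⟩
        · rw [h1]; exact hl0
        · rw [h1]; exact neg_ne_zero.2 hl0
      · rw [Finset.disjoint_left]
        intro a ha hb
        rw [Finset.mem_filter] at ha hb
        apply hl0
        have h3 := ha.2.symm.trans hb.2
        exact self_eq_neg.1 h3
    omega
  obtain ⟨n, rfl⟩ : ∃ n, d = n + 1 := ⟨d - 1, by omega⟩
  obtain ⟨B, hB, hBc, hBz⟩ := exists_eig h l hd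
  -- the minors
  have hm : mn B ∈ TI j P n := by
    rw [mem_TI]
    intro z hz
    obtain ⟨C, hC, p, hp, htr⟩ := hBz z (hcT z hz).symm
    have h1 : C.trace = 0 := by
      rw [htr]
      refine DD.tr_comm (by rw [LT_TI]; exact hcen) (fun z hz => ?_) (by rw [LT_TI]; exact hz)
      rw [LT_TI] at hz
      exact hp z (hcT z hz).symm
    rw [dv_mn hC, h1, zero_smul]
  obtain ⟨e, he⟩ : ∃ e, ∀ w, mn B w ≠ 0 → ∑ i, deg (w i) = e := by
    have h1 : (Matrix.diagonal fun i => (2 : ℂ) ^ deg i) * c =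
        c * Matrix.diagonal fun i => (2 : ℂ) ^ deg i := by
      refine D.cen_E hcA fun z hz => ?_
      have h2 := D.LT_E (diag_E (P := P) fun n => (2 : ℚ_[ℓ]) ^ n) hz
      have h3 : (Matrix.diagonal fun i => (2 : ℚ_[ℓ]) ^ deg i).map j =
          Matrix.diagonal fun i => (2 : ℂ) ^ deg i := by
        ext a b
        rw [Matrix.map_apply, Matrix.diagonal_apply, Matrix.diagonal_apply]
        split_ifs
        · rw [map_pow, map_ofNat]
        · exact map_zero j
      rw [h3] at h2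
      exact h2.symm
    obtain ⟨C, hC, -⟩ := hBz _ h1
    exact mn_hom hC
  obtain ⟨w, hw⟩ := exists_mn hB
  have h1 := TI_hom D.cts (p := e) (TI_tens hm hm) fun w hw => by
    rw [tens_supp he he w hw]
    ring
  have h2 := kill_AC hcA (D.small _ (by omega) _ h1)
  rw [dk_rei, dv_eq] at h2
  have h3 : dv c (tens (mn B) (mn B)) = 0 := by
    have h4 := congrArg (rei (ce n n).symm) h2
    rw [rei_rei, Equiv.self_trans_symm, rei_refl] at h4
    rw [h4]
    rfl
  have h4 := sq_zero (dv_mn hBc) (fun h5 => hw (congrFun h5 w)) h3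
  rw [Matrix.trace_diagonal, Finset.sum_const, Finset.card_univ, Fintype.card_fin,
    nsmul_eq_mul, mul_eq_zero, or_iff_left hl0, Nat.cast_eq_zero] at h4
  omega

/-- If the centre is zero, then the Lie algebras coincide. -/
theorem LA_le_tr (hcen : ∀ y ∈ LT (TT j P), (∀ z ∈ LT (TT j P), y * z = z * y) → y = 0)
    {V : Submodule ℚ_[ℓ] (ι → ℚ_[ℓ])}
    (hV : ∀ b ∈ V, (fun w : Fin (0 + 1) → ι => j (b (w 0))) ∈ TT j P 0)
    (htN : finrank ℚ_[ℓ] ((ι → ℚ_[ℓ]) ⧸ V) ≤ N) {x : Matrix ι ι ℂ} (hx : x ∈ LA A) :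
    x ∈ LT (TT j P) := by
  have D0 := D.dat0
  obtain ⟨y', hy', hort⟩ := exists_dec (H := H) (LT (TI j P)) x
  obtain ⟨c, hcdef⟩ : ∃ c, c = x - y' := ⟨_, rfl⟩
  rw [← hcdef] at hort
  have hcA : c ∈ LA A := by
    rw [hcdef]
    exact Submodule.sub_mem _ hx (D0.sub hy')
  have hcT : ∀ z ∈ LT (TI j P), c * z = z * c := fun z hz => D0.orth_comm hcA hort hz
  have hcen' : ∀ z ∈ LA A, c * z = z * c := fun z hz => D0.AC_comm (D0.orth_AC hcT) hz
  have h1 : c = 0 := by
    refine D.cen_zero hcen hV htN hcA (fun z hz => hcT z (by rw [LT_TI]; exact hz)) ?_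
    have h2 : nz H (adj H c) = (nz H c)ᴴ := (nz_adj D.hinv hcA).symm
    change (nz H c)ᴴ * nz H c = nz H c * (nz H c)ᴴ
    rw [← h2, ← nz_mul, ← nz_mul, hcen' _ (adj_LA D.fam hcA)]
  rw [hcdef, sub_eq_zero] at h1
  rw [h1, ← LT_TI]
  exact hy'

/-- Then all invariants are combinations of Tate arrays. -/
theorem TI_le_TT_of (hLA : ∀ x ∈ LA A, x ∈ LT (TT j P)) {n : ℕ} {c : (Fin (n + 1) → ι) → ℂ}
    (hc : c ∈ TI j P n) : c ∈ TT j P n := by
  obtain ⟨Δ, hQ⟩ := D.form
  refine TI_even D.cts D.hd hQ hc fun d hd => ?_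
  have hcd := TI_hpart D.hd hQ hc d
  have h1 := fix_l (H := H) (hcd _ (hLA _ (Ng_LA D.fam))) (t := -1)
    (neg_ne_zero.2 one_ne_zero)
  rw [D.par, kp_par (d := d) _ _ (fun w hw => hpart_supp w hw),
    (Nat.not_even_iff_odd.1 hd).neg_one_pow, neg_smul, one_smul] at h1
  exact self_eq_neg.1 h1.symm

/-- **Semisimple Lie algebras.** -/
theorem all_tr3 (hcen : ∀ y ∈ LT (TT j P), (∀ z ∈ LT (TT j P), y * z = z * y) → y = 0)
    {V : Submodule ℚ_[ℓ] (ι → ℚ_[ℓ])}
    (hV : ∀ b ∈ V, (fun w : Fin (0 + 1) → ι => j (b (w 0))) ∈ TT j P 0)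
    (ht : finrank ℚ_[ℓ] ((ι → ℚ_[ℓ]) ⧸ V) ≤ N)
    (htN : finrank ℚ_[ℓ] ((ι → ℚ_[ℓ]) ⧸ V) ^ 2 / 4 ≤ N) (n : ℕ) :
    ∀ c ∈ TT j P n, c ∈ AC A (Fin (n + 1)) := by
  obtain ⟨w, DD⟩ := D.dat0.exists_dat
  intro c hc
  refine DD.all (N := N) (fun n hn c hc => D.small n hn c
      (D.TI_le_TT_of (fun x hx => D.LA_le_tr hcen hV ht hx) hc))
    (fun g hfix => RP.fix_tr (fun σ y hy => ?_) D.hN htN
      (card_le' DD fun b hb => TT_le_TI 0 (hV b hb)) hfix) n c (TT_le_TI n hc)
  obtain ⟨h1, -⟩ := DD.isC_iff.1 hy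
  rw [DD.Ng_eq]
  exact DD.tr_comm (by rw [LT_TI]; exact hcen) h1 σ.2.1

end Crd2

end Pool.Agent.L0h10.RU
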