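import Pool.Agent.L0h10.RU.Line2
import Pool.Agent.L0h10.RT.Cas

/-!
# Equivariant projectors to stable subspaces
-/

set_option linter.unusedSectionVars false

namespace Pool.Agent.L0h10.RU

open Matrix Module
open Pool.Agent.N996.BP Pool.Agent.N996.FP
open Pool.Agent.L0h10.TS (ar2 ar2_inj ar2_surj dk_ar2 kp_ar2 dk_rei dk_empty dk_mulVec_apply GRep
  desc_sol dv dv_eq dv_map)
open Pool.Agent.L0h10.RQ

variable {ι : Type} [Fintype ι] [DecidableEq ι] {deg : ι → ℕ} {L : Type} [Field L] [CharZero L]
  {j : L →+* ℂ} {Γ : Type*} [Group Γ] [TopologicalSpace Γ] {P : GRep deg L Γ}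
  {H : HData ι} {A : ∀ n : ℕ, Submodule ℚ ((Fin (n + 1) → ι) → ℚ)} {N : ℕ}

/-- A retraction of the coefficients. -/
lemma exists_retr (j : L →+* ℂ) : ∃ r : ℂ →+ L, r 1 = 1 ∧ ∀ (a : L) (z : ℂ), r (j a * z) =
    a * r z := by
  let _ : Algebra L ℂ := j.toAlgebra
  obtain ⟨f, hf⟩ := (Algebra.linearMap L ℂ).exists_leftInverse_of_injective
    (LinearMap.ker_eq_bot.2 j.injective)
  refine ⟨f.toAddMonoidHom, ?_, fun a z => ?_⟩
  · have h1 := LinearMap.congr_fun hf 1
    rw [LinearMap.comp_apply, Algebra.linearMap_apply, map_one] at h1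
    exact h1
  · exact f.map_smul a z

/-- Subspaces stable under one operator are graded. -/
lemma stab_deg {U : Submodule L (ι → L)}
    (hδ : ∀ u ∈ U, Matrix.diagonal (fun i => (2 : L) ^ deg i) *ᵥ u ∈ U) (f : ℕ → L) :
    ∀ u ∈ U, Matrix.diagonal (fun i => f (deg i)) *ᵥ u ∈ U := by
  classical
  intro u hu
  have key : ∀ p : Polynomial L,
      Matrix.diagonal (fun i => p.eval ((2 : L) ^ deg i)) *ᵥ u ∈ U := by
    intro p
    induction p using Polynomial.induction_on' with
    | add p q hp hq =>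
      have h1 : Matrix.diagonal (fun i => (p + q).eval ((2 : L) ^ deg i)) =
          Matrix.diagonal (fun i => p.eval ((2 : L) ^ deg i)) +
          Matrix.diagonal (fun i => q.eval ((2 : L) ^ deg i)) := by
        rw [Matrix.diagonal_add]
        congr 1
        funext i
        exact Polynomial.eval_add
      rw [h1, Matrix.add_mulVec]
      exact Submodule.add_mem _ hp hq
    | monomial n a =>
      have h1 : ∀ n : ℕ, Matrix.diagonal (fun i => ((2 : L) ^ deg i) ^ n) *ᵥ u ∈ U := by
        intro n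
        induction n with
        | zero =>
          simp only [pow_zero, Matrix.diagonal_one, Matrix.one_mulVec]
          exact hu
        | succ n ih =>
          have h2 : Matrix.diagonal (fun i => ((2 : L) ^ deg i) ^ (n + 1)) =
              Matrix.diagonal (fun i => (2 : L) ^ deg i) *
                Matrix.diagonal (fun i => ((2 : L) ^ deg i) ^ n) := by
            rw [Matrix.diagonal_mul_diagonal]
            congr 1
            funext i
            rw [pow_succ, mul_comm]
          rw [h2, ← Matrix.mulVec_mulVec]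
          exact hδ _ ih
      have h2 : Matrix.diagonal (fun i => (Polynomial.monomial n a).eval ((2 : L) ^ deg i)) =
          a • Matrix.diagonal (fun i => ((2 : L) ^ deg i) ^ n) := by
        rw [← Matrix.diagonal_smul]
        congr 1
        funext i
        rw [Polynomial.eval_monomial, Pi.smul_apply, smul_eq_mul]
      rw [h2, Matrix.smul_mulVec]
      exact Submodule.smul_mem _ _ (h1 n)
  -- interpolation
  obtain ⟨s, hs⟩ : ∃ s : Finset ℕ, s = Finset.univ.image deg := ⟨_, rfl⟩
  have hinj : Set.InjOn (fun d : ℕ => (2 : L) ^ d) s := by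
    intro a _ b _ hab
    have h1 : (2 : L) ^ a = 2 ^ b := hab
    have h2 : (2 : ℕ) ^ a = 2 ^ b := by exact_mod_cast h1
    exact Nat.pow_right_injective le_rfl h2
  have h1 := key (Lagrange.interpolate s (fun d : ℕ => (2 : L) ^ d) f)
  have h2 : (fun i => (Lagrange.interpolate s (fun d : ℕ => (2 : L) ^ d) f).eval
      ((2 : L) ^ deg i)) = fun i => f (deg i) := by
    funext i
    exact Lagrange.eval_interpolate_at_node f hinj
      (by rw [hs]; exact Finset.mem_image_of_mem _ (Finset.mem_univ i))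
  rwa [h2] at h1

/-- **Descent of projectors.** -/
theorem pr_desc {Δ : OpenSubgroup Γ} (hQ : InvQ j P H Δ) {U : Submodule L (ι → L)}
    (hδ : ∀ u ∈ U, Matrix.diagonal (fun i => (2 : L) ^ deg i) *ᵥ u ∈ U) {q : Matrix ι ι ℂ}
    (hq0 : ∀ v, q *ᵥ v ∈ Submodule.span ℂ {x | ∃ v ∈ U, x = fun i => j (v i)})
    (hq1 : ∀ v ∈ Submodule.span ℂ {x | ∃ v ∈ U, x = fun i => j (v i)}, q *ᵥ v = v)
    (hqTT : ar2 (q * cQ H.Qir) ∈ TT j P 1) :
    ∃ p : Matrix ι ι L, (∀ v, p *ᵥ v ∈ U) ∧ (∀ v ∈ U, p *ᵥ v = v) ∧
      (∀ i k, deg i ≠ deg k → p i k = 0) ∧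
      ∃ Δ : OpenSubgroup Γ, ∀ g ∈ Δ, p * P.R g = P.R g * p := by
  classical
  -- it commutes with an open subgroup up to the twist
  obtain ⟨Δ', hΔ'⟩ := TT_fix hqTT
  have hR : ∀ g ∈ Δ ⊓ Δ', ∃ s : ℂ, s ≠ 0 ∧ Rs j P s g * q = q * Rs j P s g := by
    intro g hg
    obtain ⟨hg1, hg2⟩ := OpenSubgroup.mem_inf.1 hg
    obtain ⟨s, hs⟩ := exists_sq (j (P.χ g))
    have hs0 : s ≠ 0 := by
      rintro rfl
      apply chi_ne (P := P) g
      have h1 : j (P.χ g) = 0 := by rw [← hs]; ring
      exact (map_eq_zero j).1 h1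
    have h3 := hΔ' g hg2 s hs
    rw [kp_ar2] at h3
    have h4 : Rs j P s g * (q * cQ H.Qir) * (Rs j P s g)ᵀ = q * cQ H.Qir := ar2_inj h3
    have h5 := Rs_Qi hQ hg1 hs
    have h6 := Ri_Rs hQ hg1 hs
    rw [Ri] at h6
    obtain ⟨R, hRR⟩ : ∃ R, R = Rs j P s g := ⟨_, rfl⟩
    rw [← hRR] at h4 h5 h6
    refine ⟨s, hs0, ?_⟩
    rw [← hRR]
    calc R * q = R * q * (cQ H.Qir * Rᵀ * cQ H.Qr * R) := by rw [h6, Matrix.mul_one]
      _ = (R * (q * cQ H.Qir) * Rᵀ) * cQ H.Qr * R := by simp only [Matrix.mul_assoc]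
      _ = q * (R * cQ H.Qir * Rᵀ) * cQ H.Qr * R := by rw [h4, h5]
      _ = q * R * (cQ H.Qir * Rᵀ * cQ H.Qr * R) := by simp only [Matrix.mul_assoc]
      _ = q * R := by rw [h6, Matrix.mul_one]
  obtain ⟨r, hr1, hr⟩ := exists_retr j
  -- the values on real vectors
  have hrj : ∀ a : L, r (j a) = a := fun a => by
    have h1 := hr a 1
    rwa [mul_one, hr1, mul_one] at h1
  let q' : Matrix ι ι L := Matrix.of fun i k => r (q i k)
  have hq'v : ∀ (v : ι → L) (i : ι), (q' *ᵥ v) i = r ((q *ᵥ fun k => j (v k)) i) := by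
    intro v i
    rw [Matrix.mulVec, Matrix.mulVec, dotProduct, dotProduct, map_sum]
    refine Finset.sum_congr rfl fun k _ => ?_
    rw [mul_comm (q i k), hr, mul_comm]
    rfl
  have hq'1 : ∀ v ∈ U, q' *ᵥ v = v := by
    intro v hv
    funext i
    rw [hq'v, hq1 _ (Submodule.subset_span ⟨v, hv, rfl⟩), hrj]
  have hq'0 : ∀ v, q' *ᵥ v ∈ U := by
    intro v
    by_contra hv
    obtain ⟨f, hf, hf0⟩ := Submodule.exists_dual_map_eq_bot_of_notMem hv inferInstance
    have hf1 : ∀ b ∈ U, f b = 0 := by
      intro b hb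
      have h1 := Submodule.mem_map_of_mem (f := f) hb
      rw [hf0, Submodule.mem_bot] at h1
      exact h1
    have hfs : ∀ x : ι → L, f x = ∑ i, f (Pi.single i 1) * x i := by
      intro x
      conv_lhs => rw [← Finset.univ_sum_single x, map_sum]
      refine Finset.sum_congr rfl fun i _ => ?_
      have h1 : (Pi.single i (x i) : ι → L) = x i • Pi.single i 1 := by
        rw [← Pi.single_smul, smul_eq_mul, mul_one]
      rw [h1, map_smul, smul_eq_mul, mul_comm]
    apply hf
    have h1 : ∀ w ∈ Submodule.span ℂ {x | ∃ v ∈ U, x = fun i => j (v i)},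
        ∑ i, j (f (Pi.single i 1)) * w i = 0 := by
      intro w hw
      induction hw using Submodule.span_induction with
      | mem w hw =>
        obtain ⟨b, hb, rfl⟩ := hw
        have h2 := congrArg j (hf1 b hb)
        rw [hfs, map_sum, map_zero] at h2
        rw [← h2]
        exact Finset.sum_congr rfl fun i _ => (map_mul j _ _).symm
      | zero => exact Finset.sum_eq_zero fun i _ => mul_zero _
      | add a b _ _ ha hb =>
        simp only [Pi.add_apply, mul_add, Finset.sum_add_distrib]
        rw [ha, hb, add_zero]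
      | smul c a _ ha =>
        simp only [Pi.smul_apply, smul_eq_mul]
        rw [Finset.sum_congr rfl fun i _ => mul_left_comm _ c _, ← Finset.mul_sum, ha, mul_zero]
    have h2 := congrArg r (h1 _ (hq0 fun k => j (v k)))
    rw [map_sum, map_zero] at h2
    rw [hfs, ← h2]
    refine Finset.sum_congr rfl fun i _ => ?_
    rw [hr, hq'v]
  -- the degree preserving part
  let E : ℕ → Matrix ι ι L := fun d => Matrix.diagonal fun i => if deg i = d then 1 else 0
  have hE : ∀ d, ∀ u ∈ U, E d *ᵥ u ∈ U := fun d =>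
    stab_deg hδ fun n => if n = d then 1 else 0
  obtain ⟨s, hs⟩ : ∃ s : Finset ℕ, s = Finset.univ.image deg := ⟨_, rfl⟩
  have hmem : ∀ i, deg i ∈ s := fun i => by
    rw [hs]; exact Finset.mem_image_of_mem _ (Finset.mem_univ i)
  let p : Matrix ι ι L := ∑ d ∈ s, E d * q' * E d
  have hp : ∀ i k, p i k = if deg i = deg k then q' i k else 0 := by
    intro i k
    change (∑ d ∈ s, E d * q' * E d) i k = _
    rw [Matrix.sum_apply, Finset.sum_eq_single (deg i)]
    · rw [Matrix.mul_diagonal, Matrix.diagonal_mul, if_pos rfl, one_mul]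
      by_cases h : deg i = deg k
      · rw [if_pos h, if_pos h.symm, mul_one]
      · rw [if_neg h, if_neg (Ne.symm h), mul_zero]
    · intro d _ hd
      rw [Matrix.mul_diagonal, Matrix.diagonal_mul, if_neg (Ne.symm hd), zero_mul, zero_mul]
    · intro h; exact absurd (hmem i) h
  have hsumE : ∀ v : ι → L, ∑ d ∈ s, E d *ᵥ v = v := by
    intro v
    funext i
    rw [Finset.sum_apply, Finset.sum_eq_single (deg i)]
    · rw [Matrix.mulVec_diagonal, if_pos rfl, one_mul]
    · intro d _ hd
      rw [Matrix.mulVec_diagonal, if_neg (Ne.symm hd), zero_mul]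
    · intro h; exact absurd (hmem i) h
  refine ⟨p, fun v => ?_, fun v hv => ?_, fun i k hik => by rw [hp, if_neg hik],
    Δ ⊓ Δ', fun g hg => ?_⟩
  · change (∑ d ∈ s, E d * q' * E d) *ᵥ v ∈ U
    rw [Matrix.sum_mulVec]
    refine Submodule.sum_mem _ fun d _ => ?_
    rw [← Matrix.mulVec_mulVec, ← Matrix.mulVec_mulVec]
    exact hE d _ (hq'0 _)
  · change (∑ d ∈ s, E d * q' * E d) *ᵥ v = v
    rw [Matrix.sum_mulVec]
    conv_rhs => rw [← hsumE v]
    refine Finset.sum_congr rfl fun d _ => ?_
    rw [← Matrix.mulVec_mulVec, ← Matrix.mulVec_mulVec, hq'1 _ (hE d v hv), Matrix.mulVec_mulVec]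
    congr 1
    change (Matrix.diagonal _) * (Matrix.diagonal _) = Matrix.diagonal _
    rw [Matrix.diagonal_mul_diagonal]
    congr 1
    funext i
    split_ifs <;> simp
  · obtain ⟨z, hz0, hz⟩ := hR g hg
    -- the commutation in equal degrees
    have h1 : ∀ i k, deg i = deg k →
        (q * (P.R g).map j) i k = ((P.R g).map j * q) i k := by
      intro i k hik
      have h2 := congrFun (congrFun hz i) k
      rw [Rs, Matrix.mul_assoc, Matrix.diagonal_mul] at h2
      have h3 : (q * (Matrix.diagonal (fun i => z ^ deg i) * (P.R g).map j)) i k =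
          z ^ deg k * (q * (P.R g).map j) i k := by
        rw [Matrix.mul_apply, Matrix.mul_apply, Finset.mul_sum]
        refine Finset.sum_congr rfl fun t _ => ?_
        rw [Matrix.diagonal_mul]
        by_cases h : deg t = deg k
        · rw [h]; ring
        · rw [Matrix.map_apply, P.deg' g t k h, map_zero, mul_zero, mul_zero, mul_zero]
      rw [h3, hik] at h2
      exact (mul_left_cancel₀ (pow_ne_zero _ hz0) h2).symm
    ext i k
    by_cases hik : deg i = deg k
    · have h2 := congrArg r (h1 i k hik)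
      rw [Matrix.mul_apply, Matrix.mul_apply, map_sum, map_sum] at h2
      rw [Matrix.mul_apply, Matrix.mul_apply]
      refine Eq.trans (Finset.sum_congr rfl fun t _ => ?_) (h2.trans
        (Finset.sum_congr rfl fun t _ => ?_))
      · rw [hp]
        by_cases h : deg i = deg t
        · rw [if_pos h, Matrix.map_apply, mul_comm (q i t), hr, mul_comm]
          rfl
        · rw [Matrix.map_apply, P.deg' g t k (fun h3 => h (hik.trans h3.symm)), map_zero,
            mul_zero, mul_zero, map_zero]
      · rw [hp]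
        by_cases h : deg t = deg k
        · rw [if_pos h, Matrix.map_apply, hr]
          rfl
        · rw [Matrix.map_apply, P.deg' g i t (fun h3 => h (h3.symm.trans hik)), map_zero,
            zero_mul, zero_mul, map_zero]
    · rw [Matrix.mul_apply, Matrix.mul_apply, Finset.sum_eq_zero, Finset.sum_eq_zero]
      · intro t _
        rw [hp]
        by_cases h : deg t = deg k
        · rw [P.deg' g i t (fun h3 => hik (h3.trans h)), zero_mul]
        · rw [if_neg h, mul_zero]
      · intro t _
        rw [hp]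
        by_cases h : deg i = deg t
        · rw [P.deg' g t k (fun h3 => hik (h.trans h3)), mul_zero]
        · rw [if_neg h, zero_mul]

end Pool.Agent.L0h10.RU
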